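import Pool.Agent.ZL.Stmt

set_option autoImplicit false

/-!
# ZL: the algorithms

Vertices are natural numbers `< n`, edges are pairs of vertices.
-/

namespace Pool.Agent.ZL

/-- entry of the adjacency matrix -/
def ent (x : List (List Bool)) (u v : ℕ) : Bool := (x.getD u []).getD v false

/-- all pairs `(u, v)`, `u < v < n` -/
def prs (n : ℕ) : List (ℕ × ℕ) :=
  (List.range n).flatMap fun v => ((List.range n).filter fun u => decide (u < v)).map fun u => (u, v)

/-- the edges of the graph with the adjacency matrix `x` -/
def edg (x : List (List Bool)) : List (ℕ × ℕ) := (prs x.length).filter fun e => ent x e.1 e.2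

/-- Horner step modulo `n` -/
def hst (n a : ℕ) (b : Bool) : ℕ := if n = 0 then 0 else (2 * a + b.toNat) % n

/-- the random vertex given by the bits `l` -/
def vx (n : ℕ) (l : List Bool) : ℕ := l.foldl (hst n) 0

/-- the random pair given by a block of `3 n` bits -/
def rp (n : ℕ) (l : List Bool) : ℕ × ℕ := (vx n ((l.drop n).take n), vx n ((l.drop (2 * n)).take n))

/-- every edge uses one block of `3 n` bits; it is resampled if the first `j` bits are `true` -/
def nz (n j : ℕ) : List (ℕ × ℕ) → List Bool → List (ℕ × ℕ)
  | [], _ => []
  | e :: E, l => (if (l.take j).all (fun b => b) then rp n l else e) :: nz n j E (l.drop (3 * n))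

/-- `k` random pairs -/
def ex (n : ℕ) : ℕ → List Bool → List (ℕ × ℕ)
  | 0, _ => []
  | k + 1, l => rp n l :: ex n k (l.drop (3 * n))

/-- `e` and `f` have the same ends -/
def same (e f : ℕ × ℕ) : Bool := (e.1 == f.1 && e.2 == f.2) || (e.1 == f.2 && e.2 == f.1)

/-- no loops and no parallel edges -/
def smp : List (ℕ × ℕ) → Bool
  | [] => true
  | e :: Y => (!(e.1 == e.2) && !(Y.any fun f => same e f)) && smp Y

/-- adjacency matrix of the graph with the edges `Y` -/
def mat (n : ℕ) (Y : List (ℕ × ℕ)) : List (List Bool) :=
  (List.range n).map fun u => (List.range n).map fun v => Y.any fun e => same (u, v) e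

/-- the vertices of `I` without a smaller neighbour in `I` -/
def keep (x : List (List Bool)) (I : List Bool) : List Bool :=
  (List.range x.length).map fun v =>
    I.getD v false && !((List.range x.length).any fun u => (decide (u < v) && I.getD u false) && ent x u v)

/-- number of elements -/
def cnt (I : List Bool) : ℕ := (I.filter fun b => b).length

/-- the largest set in the list -/
def best (L : List (List Bool)) : List Bool := L.foldl (fun b c => if cnt b < cnt c then c else b) []

/-- all prefixes -/
def pres (Z : List (ℕ × ℕ)) : List (List (ℕ × ℕ)) :=
  (Z.foldl (fun s z => (s.1 ++ [z], (s.1 ++ [z]) :: s.2)) (([], [[]]) : List (ℕ × ℕ) × List (List (ℕ × ℕ)))).2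

/-- the number of bits `true` at the beginning of `l` -/
def lead (l : List Bool) : List Bool := l.takeWhile fun b => b

/-- the noise exponent read from the random bits -/
def jOf (n : ℕ) (l : List Bool) : ℕ := (lead (l.take n)).length

/-- the advice string read from the random bits -/
def wOf (n : ℕ) (l : List Bool) : List Bool :=
  (l.drop (2 * n)).take (lead ((l.drop n).take n)).length

/-- one trial: the graph is resampled, every number of edges is added, the algorithm `A` is called
and its output is made stable -/
def trial (A : AAlg) (x : List (List Bool)) (l : List Bool) : List (List Bool) :=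
  (pres (ex x.length (x.length * x.length)
    ((l.drop (3 * x.length)).drop (3 * x.length * (edg x).length)))).map fun P =>
    if smp (nz x.length (jOf x.length l) (edg x) (l.drop (3 * x.length)) ++ P) then
      keep x (A ((mat x.length (nz x.length (jOf x.length l) (edg x) (l.drop (3 * x.length)) ++ P),
        wOf x.length l), (l.drop (3 * x.length)).drop (3 * x.length * (x.length * x.length))))
    else []

/-- number of random bits of a trial -/
def len (q : Polynomial ℕ) (n : ℕ) : ℕ := 3 * n + (3 * n * (n * n) + q.eval n)

/-- `T` trials, `L` bits for each of them -/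
def runs (A : AAlg) (x : List (List Bool)) (L : ℕ) : ℕ → List Bool → List (List Bool)
  | 0, _ => []
  | T + 1, l => trial A x (l.take L) ++ runs A x L T (l.drop L)

/-- `n ^ D` trials -/
def amp (A : AAlg) (q : Polynomial ℕ) (D : ℕ) : Alg := fun p =>
  best (runs A p.1 (len q p.1.length) (p.1.length ^ D) p.2)

/-- the number of random bits of `amp A q D` -/
noncomputable def ampq (q : Polynomial ℕ) (D : ℕ) : Polynomial ℕ :=
  Polynomial.X ^ D * (3 * Polynomial.X + (3 * Polynomial.X * (Polynomial.X * Polynomial.X) + q))

/-- greedy algorithm: list of the chosen vertices -/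
def grl (x : List (List Bool)) : List ℕ :=
  (List.range x.length).foldl (fun S v => if S.any (fun u => ent x u v) then S else v :: S) []

/-- greedy algorithm -/
def grd (x : List (List Bool)) : List Bool :=
  (List.range x.length).map fun v => (grl x).any fun u => u == v

/-- the amplified algorithm together with the greedy algorithm -/
def both (A : AAlg) (q : Polynomial ℕ) (D : ℕ) : Alg := fun p =>
  best [amp A q D p, grd p.1]

end Pool.Agent.ZL
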