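import Pool.Agent.ZL.SqA

set_option autoImplicit false

/-!
# ZL-Inv: the probability `prob X` depends only on the graph of `X` (permutation of coordinates)
-/

namespace Pool.Agent.ZL

open Finset

private theorem sm_iff {n m : ℕ} (y : Fin m → Pr n) :
    Sm y ↔ (∀ i, ¬ (sy y i).IsDiag) ∧ Function.Injective (sy y) := by
  unfold Sm
  refine and_congr_left fun _ => forall_congr' fun i => ?_
  unfold sy
  rw [Sym2.mk_isDiag_iff]

private theorem exists_perm {n m : ℕ} {X X' : Fin m → Pr n} (h : Sm X) (h' : Sm X')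
    (hg : gr X = gr X') : ∃ σ : Fin m → Fin m, Function.Injective σ ∧ ∀ i, sy X (σ i) = sy X' i := by
  have h1 : ∀ i, ∃ k, sy X k = sy X' i := by
    intro i
    have h2 : sy X' i ∈ Set.range (sy X) := by
      rw [← gr_edge h, hg, gr_edge h']
      exact ⟨i, rfl⟩
    exact h2
  choose σ hσ using h1
  refine ⟨σ, fun i k hik => h'.2 ?_, hσ⟩
  rw [← hσ, ← hσ, hik]

private theorem exists_ext {m m' : ℕ} (hm : m ≤ m') {σ : Fin m → Fin m}
    (hσ : Function.Injective σ) :
    ∃ e : Fin m' ≃ Fin m', (∀ i : Fin m', ¬ (i : ℕ) < m → e i = i) ∧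
      (∀ (i : Fin m') (hi : (i : ℕ) < m), e i = Fin.castLE hm (σ ⟨i, hi⟩)) ∧
      (∀ i : Fin m', (e i : ℕ) < m ↔ (i : ℕ) < m) := by
  obtain ⟨f, hf⟩ : ∃ f : Fin m' → Fin m', f = fun i : Fin m' =>
    if hi : (i : ℕ) < m then Fin.castLE hm (σ ⟨i, hi⟩) else i := ⟨_, rfl⟩
  have hf1 : ∀ (i : Fin m') (hi : (i : ℕ) < m), f i = Fin.castLE hm (σ ⟨i, hi⟩) := by
    intro i hi
    rw [hf]
    exact dif_pos hi
  have hf2 : ∀ i : Fin m', ¬ (i : ℕ) < m → f i = i := by
    intro i hi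
    rw [hf]
    exact dif_neg hi
  have hf3 : ∀ i : Fin m', (f i : ℕ) < m ↔ (i : ℕ) < m := by
    intro i
    by_cases hi : (i : ℕ) < m
    · rw [hf1 i hi]
      exact ⟨fun _ => hi, fun _ => (σ ⟨i, hi⟩).2⟩
    · rw [hf2 i hi]
  have hinj : Function.Injective f := by
    intro i k hik
    by_cases hi : (i : ℕ) < m
    · have hk : (k : ℕ) < m := by
        rw [← hf3, ← hik, hf3]
        exact hi
      rw [hf1 i hi, hf1 k hk] at hik
      have h1 := hσ (Fin.castLE_injective hm hik)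
      apply Fin.ext
      exact congrArg (fun x : Fin m => (x : ℕ)) h1
    · have hk : ¬ (k : ℕ) < m := by
        rw [← hf3, ← hik, hf3]
        exact hi
      rw [hf2 i hi, hf2 k hk] at hik
      exact hik
  exact ⟨Equiv.ofBijective f (Finite.injective_iff_bijective.1 hinj), hf2, hf1, hf3⟩

private theorem sy_yy {n m m' j : ℕ} (hm : m ≤ m') (X X' : Fin m → Pr n) {σ : Fin m → Fin m}
    (hσ : ∀ i, sy X (σ i) = sy X' i) (e : Fin m' ≃ Fin m')
    (he2 : ∀ i : Fin m', ¬ (i : ℕ) < m → e i = i)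
    (he1 : ∀ (i : Fin m') (hi : (i : ℕ) < m), e i = Fin.castLE hm (σ ⟨i, hi⟩))
    (ω : Fin m' → Bg j (Pr n)) (i : Fin m') : sy (yy X' (ω ∘ e)) i = sy (yy X ω) (e i) := by
  by_cases hi : (i : ℕ) < m
  · have hei : ((e i : Fin m') : ℕ) < m := by
      rw [he1 i hi]
      exact (σ ⟨i, hi⟩).2
    by_cases hh : hit (ω (e i)) = true
    · have h1 : yy X' (ω ∘ e) i = (ω (e i)).2 := by
        unfold yy
        rw [dif_pos hi]
        exact if_pos hh
      have h2 : yy X ω (e i) = (ω (e i)).2 := by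
        unfold yy
        rw [dif_pos hei]
        exact if_pos hh
      unfold sy
      rw [h1, h2]
    · have h1 : yy X' (ω ∘ e) i = X' ⟨i, hi⟩ := by
        unfold yy
        rw [dif_pos hi]
        exact if_neg hh
      have h2 : yy X ω (e i) = X ⟨e i, hei⟩ := by
        unfold yy
        rw [dif_pos hei]
        exact if_neg hh
      have h3 : (⟨e i, hei⟩ : Fin m) = σ ⟨i, hi⟩ := by
        apply Fin.ext
        show ((e i : Fin m') : ℕ) = _
        rw [he1 i hi]
        rfl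
      have h4 := hσ ⟨i, hi⟩
      rw [← h3] at h4
      unfold sy at h4 ⊢
      rw [h1, h2]
      exact h4.symm
  · have hei : ¬ ((e i : Fin m') : ℕ) < m := by
      rw [he2 i hi]
      exact hi
    have h1 : yy X' (ω ∘ e) i = (ω (e i)).2 := by
      unfold yy
      rw [dif_neg hi]
      rfl
    have h2 : yy X ω (e i) = (ω (e i)).2 := by
      unfold yy
      rw [dif_neg hei]
    unfold sy
    rw [h1, h2]

open Classical in
theorem inv {n m m' j : ℕ} {P : Type} [Fintype P] (hm : m ≤ m') (X X' : Fin m → Pr n)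
    (h : Sm X) (h' : Sm X') (hg : gr X = gr X') (Suc : SimpleGraph (Fin n) → P → Prop) (b : ℝ) :
    cn (j := j) m' X Suc b = cn (j := j) m' X' Suc b := by
  obtain ⟨σ, hσi, hσ⟩ := exists_perm h h' hg
  obtain ⟨e, he2, he1, he3⟩ := exists_ext hm hσi
  unfold cn
  refine Finset.card_equiv (Equiv.prodCongr (Equiv.arrowCongr e.symm (Equiv.refl _)) (Equiv.refl P)) ?_
  rintro ⟨ω, q⟩
  have hω : (Equiv.prodCongr (Equiv.arrowCongr e.symm (Equiv.refl (Bg j (Pr n)))) (Equiv.refl P)) (ω, q) =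
      (ω ∘ e, q) := rfl
  rw [hω, Finset.mem_filter, Finset.mem_filter]
  have hsy : sy (yy X' (ω ∘ e)) = sy (yy X ω) ∘ e := by
    funext i
    exact sy_yy hm X X' hσ e he2 he1 ω i
  have h1 : Sm (yy X' (ω ∘ e)) ↔ Sm (yy X ω) := by
    rw [sm_iff, sm_iff, hsy, Equiv.injective_comp]
    refine and_congr_left fun _ => ?_
    constructor
    · intro h2 i
      have h3 := h2 (e.symm i)
      rw [Function.comp_apply, Equiv.apply_symm_apply] at h3
      exact h3
    · intro h2 i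
      exact h2 (e i)
  have h2 : gr (yy X' (ω ∘ e)) = gr (yy X ω) := by
    unfold gr
    rw [hsy, e.surjective.range_comp]
  have h3 : RR (n := n) (j := j) m (ω ∘ e) = RR m ω := by
    unfold RR
    refine Finset.card_equiv e ?_
    intro i
    rw [Finset.mem_filter, Finset.mem_filter, he3]
    exact ⟨fun hh => ⟨mem_univ _, hh.2⟩, fun hh => ⟨mem_univ _, hh.2⟩⟩
  show _ ↔ (ω ∘ e, q) ∈ univ ∧ (Sm (yy X' (ω ∘ e)) ∧ Suc (gr (yy X' (ω ∘ e))) q ∧
    (RR m (ω ∘ e) : ℝ) ≤ b)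
  rw [h1, h2, h3]
  exact ⟨fun hh => ⟨mem_univ _, hh.2⟩, fun hh => ⟨mem_univ _, hh.2⟩⟩

end Pool.Agent.ZL
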