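import Pool.Agent.ZL.SqD

set_option autoImplicit false

/-!
# ZL-Swp: new coordinates instead of resampled dummy coordinates
-/

namespace Pool.Agent.ZL

open Finset

/-- restriction to the first `m` coordinates -/
def rs {n m m' : ℕ} (hm : m ≤ m') (x : Fin m' → Pr n) : Fin m → Pr n := fun i => x (Fin.castLE hm i)

/-- exchange the coordinates `x i` and `(ω i).2` for `i ≥ m` which are not hits -/
private def sg {n m' j : ℕ} (m : ℕ) (p : (Fin m' → Pr n) × (Fin m' → Bg j (Pr n))) :
    (Fin m' → Pr n) × (Fin m' → Bg j (Pr n)) :=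
  (fun i => if (i : ℕ) < m ∨ hit (p.2 i) = true then p.1 i else (p.2 i).2,
    fun i => if (i : ℕ) < m ∨ hit (p.2 i) = true then p.2 i else ((p.2 i).1, p.1 i))

private theorem sg_hit {n m' j : ℕ} (m : ℕ) (p : (Fin m' → Pr n) × (Fin m' → Bg j (Pr n))) (i : Fin m') :
    hit ((sg m p).2 i) = hit (p.2 i) := by
  by_cases h : (i : ℕ) < m ∨ hit (p.2 i) = true
  · simp only [sg, if_pos h]
  · simp only [sg, if_neg h]
    rfl

private theorem sg_sg {n m' j : ℕ} (m : ℕ) (p : (Fin m' → Pr n) × (Fin m' → Bg j (Pr n))) :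
    sg m (sg m p) = p := by
  refine Prod.ext (funext fun i => ?_) (funext fun i => ?_)
  · change (if (i : ℕ) < m ∨ hit ((sg m p).2 i) = true then (sg m p).1 i else ((sg m p).2 i).2) = p.1 i
    rw [sg_hit]
    by_cases h : (i : ℕ) < m ∨ hit (p.2 i) = true
    · rw [if_pos h]
      simp only [sg, if_pos h]
    · rw [if_neg h]
      simp only [sg, if_neg h]
  · change (if (i : ℕ) < m ∨ hit ((sg m p).2 i) = true then (sg m p).2 i else
      (((sg m p).2 i).1, (sg m p).1 i)) = p.2 i
    rw [sg_hit]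
    by_cases h : (i : ℕ) < m ∨ hit (p.2 i) = true
    · rw [if_pos h]
      simp only [sg, if_pos h]
    · rw [if_neg h]
      simp only [sg, if_neg h]

private theorem sg_rs {n m m' j : ℕ} (hm : m ≤ m') (p : (Fin m' → Pr n) × (Fin m' → Bg j (Pr n))) :
    rs hm (sg m p).1 = rs hm p.1 := by
  funext i
  have h : ((Fin.castLE hm i : Fin m') : ℕ) < m := i.2
  simp only [rs, sg, if_pos (Or.inl h : ((Fin.castLE hm i : Fin m') : ℕ) < m ∨ hit (p.2 (Fin.castLE hm i)) = true)]

private theorem sg_nzf {n m m' j : ℕ} (hm : m ≤ m') (p : (Fin m' → Pr n) × (Fin m' → Bg j (Pr n))) :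
    nzf (sg m p).1 (sg m p).2 = yy (rs hm p.1) p.2 := by
  funext i
  change (if hit ((sg m p).2 i) then ((sg m p).2 i).2 else (sg m p).1 i) =
    (if h : (i : ℕ) < m then (if hit (p.2 i) then (p.2 i).2 else rs hm p.1 ⟨i, h⟩) else (p.2 i).2)
  rw [sg_hit]
  by_cases h : (i : ℕ) < m
  · rw [dif_pos h]
    have h' : (i : ℕ) < m ∨ hit (p.2 i) = true := Or.inl h
    simp only [sg, if_pos h']
    rfl
  · rw [dif_neg h]
    by_cases h2 : hit (p.2 i) = true
    · have h' : (i : ℕ) < m ∨ hit (p.2 i) = true := Or.inr h2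
      rw [if_pos h2]
      simp only [sg, if_pos h']
    · have h' : ¬ ((i : ℕ) < m ∨ hit (p.2 i) = true) := by
        rintro (h3 | h3)
        · exact h h3
        · exact h2 h3
      rw [if_neg h2]
      simp only [sg, if_neg h']

open Classical in
theorem swp {n m m' j : ℕ} (hm : m ≤ m') (B : Finset (Fin m → Pr n)) (Φ : (Fin m' → Pr n) → Prop) :
    ((univ : Finset ((Fin m' → Pr n) × (Fin m' → Bg j (Pr n)))).filter fun p =>
      rs hm p.1 ∈ B ∧ Φ (nzf p.1 p.2)).card =
    ((univ : Finset ((Fin m' → Pr n) × (Fin m' → Bg j (Pr n)))).filter fun p =>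
      rs hm p.1 ∈ B ∧ Φ (yy (rs hm p.1) p.2)).card := by
  refine Finset.card_bij' (fun p _ => sg m p) (fun p _ => sg m p) ?_ ?_ (fun p _ => sg_sg m p)
    (fun p _ => sg_sg m p)
  · intro p hp
    rw [mem_filter] at hp ⊢
    refine ⟨mem_univ _, ?_, ?_⟩
    · rw [sg_rs]
      exact hp.2.1
    · rw [← sg_nzf, sg_sg]
      exact hp.2.2
  · intro p hp
    rw [mem_filter] at hp ⊢
    refine ⟨mem_univ _, ?_, ?_⟩
    · rw [sg_rs]
      exact hp.2.1
    · rw [sg_nzf]
      exact hp.2.2

open Classical in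
/-- the number of extensions: `(n^2)^(m'-m)`, in the form without subtraction -/
theorem rs_card {n m m' : ℕ} (hm : m ≤ m') (B : Finset (Fin m → Pr n)) :
    ((univ : Finset (Fin m' → Pr n)).filter fun x => rs hm x ∈ B).card * n ^ (2 * m) =
      B.card * n ^ (2 * m') := by
  obtain ⟨k, rfl⟩ := Nat.exists_eq_add_of_le hm
  have h1 : ((univ : Finset (Fin (m + k) → Pr n)).filter fun x => rs hm x ∈ B).card =
      (B ×ˢ (univ : Finset (Fin k → Pr n))).card := by
    symm
    refine Finset.card_bij (fun q _ => Fin.append q.1 q.2) ?_ ?_ ?_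
    · intro q hq
      rw [mem_product] at hq
      rw [mem_filter]
      refine ⟨mem_univ _, ?_⟩
      have h2 : rs hm (Fin.append q.1 q.2) = q.1 := by
        funext i
        exact Fin.append_left q.1 q.2 i
      rw [h2]
      exact hq.1
    · intro q _ q' _ h
      refine Prod.ext (funext fun i => ?_) (funext fun i => ?_)
      · have h3 := congrFun h (Fin.castAdd k i)
        simpa only [Fin.append_left] using h3
      · have h3 := congrFun h (Fin.natAdd m i)
        simpa only [Fin.append_right] using h3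
    · intro x hx
      rw [mem_filter] at hx
      refine ⟨(fun i => x (Fin.castAdd k i), fun i => x (Fin.natAdd m i)), ?_, ?_⟩
      · rw [mem_product]
        exact ⟨hx.2, mem_univ _⟩
      · funext i
        refine Fin.addCases (fun i => ?_) (fun i => ?_) i
        · simp only [Fin.append_left]
        · simp only [Fin.append_right]
  rw [h1, card_product, card_univ, Fintype.card_fun, Fintype.card_prod, Fintype.card_fin, Fintype.card_fin]
  ring

open Classical in
theorem rs_sum {n m m' j : ℕ} (hm : m ≤ m') (B : Finset (Fin m → Pr n))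
    (Ψ : (Fin m → Pr n) → (Fin m' → Bg j (Pr n)) → Prop) :
    ((univ : Finset ((Fin m' → Pr n) × (Fin m' → Bg j (Pr n)))).filter fun p =>
      rs hm p.1 ∈ B ∧ Ψ (rs hm p.1) p.2).card * n ^ (2 * m) =
    (∑ X ∈ B, ((univ : Finset (Fin m' → Bg j (Pr n))).filter fun ω => Ψ X ω).card) * n ^ (2 * m') := by
  have h1 : ((univ : Finset ((Fin m' → Pr n) × (Fin m' → Bg j (Pr n)))).filter fun p =>
      rs hm p.1 ∈ B ∧ Ψ (rs hm p.1) p.2).card =
      ∑ X ∈ B, ((univ : Finset (Fin m' → Pr n)).filter fun x => rs hm x ∈ ({X} : Finset (Fin m → Pr n))).card *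
        ((univ : Finset (Fin m' → Bg j (Pr n))).filter fun ω => Ψ X ω).card := by
    rw [Finset.card_eq_sum_card_fiberwise (f := fun p => rs hm p.1) (t := B)]
    · refine sum_congr rfl fun X hX => ?_
      rw [← card_product]
      congr 1
      ext p
      simp only [mem_filter, mem_univ, true_and, mem_product, mem_singleton]
      constructor
      · rintro ⟨⟨-, h2⟩, h3⟩
        subst h3
        exact ⟨rfl, h2⟩
      · rintro ⟨h2, h3⟩
        subst h2
        exact ⟨⟨hX, h3⟩, rfl⟩
    · intro p hp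
      rw [mem_coe, mem_filter] at hp
      exact hp.2.1
  rw [h1, sum_mul, sum_mul]
  refine sum_congr rfl fun X _ => ?_
  have h2 := rs_card hm ({X} : Finset (Fin m → Pr n))
  rw [card_singleton, one_mul] at h2
  rw [mul_right_comm, h2, mul_comm]

end Pool.Agent.ZL
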