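import Pool.Agent.ZL.SqD

set_option autoImplicit false

/-!
# ZL-Tail: few coordinates are resampled

PLAN.  `∑_ω 2 ^ (RR m ω) = ∏_i ∑_{block} (if i < m and hit then 2 else 1)` (`Finset.prod_univ_sum`, `Fintype.piFinset_univ`;
`2 ^ RR = ∏ i, if i < m ∧ hit (ω i) then 2 else 1`).  A block has `2^j n^2` values, `n^2` of them are hits (only `c = fun _ => true`), so
the factor is `(2^j + 1) n^2` for `i < m` and `2^j n^2` for `i ≥ m`; the total is `(2^j n^2)^m' (1 + 2^(-j))^(min m m')
≤ (2^j n^2)^m' exp(m / 2^j) ≤ (2^j n^2)^m' exp(b/2)`.  Markov: the number of `ω` with `RR > b` is at most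
`(2^j n^2)^m' exp(b/2) 2^(-b)` (`2 ^ RR ≥ 2 ^ b`, real exponent; `b ≥ 0`), `2^(-b) = exp(-b log 2)`, `log 2 - 1/2 ≥ 1/6`
(`Real.log_two_gt_d9`).
-/

namespace Pool.Agent.ZL

open Finset

open Classical in
private noncomputable def gg (n m j i : ℕ) (w : Bg j (Pr n)) : ℝ :=
  if i < m ∧ hit w = true then 2 else 1

open Classical in
private theorem pow_RR {n m m' j : ℕ} (ω : Fin m' → Bg j (Pr n)) :
    (2 : ℝ) ^ (RR m ω) = ∏ i : Fin m', gg n m j i (ω i) := by
  unfold RR gg
  rw [← Finset.prod_const, Finset.prod_filter]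

private theorem hits_card {n j : ℕ} :
    (((univ : Finset (Bg j (Pr n))).filter fun w => hit w = true).card : ℝ) = (n : ℝ) ^ 2 := by
  have h : ((univ : Finset (Bg j (Pr n))).filter fun w => hit w = true) =
      ({fun _ => true} : Finset (Fin j → Bool)) ×ˢ (univ : Finset (Pr n)) := by
    ext ⟨c, e⟩
    simp only [Finset.mem_filter, Finset.mem_univ, true_and, Finset.mem_product,
      Finset.mem_singleton, and_true, hit, decide_eq_true_eq]
    exact ⟨fun h => funext h, fun h i => by rw [h]⟩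
  rw [h, Finset.card_product, Finset.card_singleton, Finset.card_univ]
  simp [sq]

private theorem gg_sum (n m j i : ℕ) :
    ∑ w : Bg j (Pr n), gg n m j i w ≤
      2 ^ j * (n : ℝ) ^ 2 * Real.exp (if i < m then 1 / 2 ^ j else 0) := by
  classical
  have hcard : ((univ : Finset (Bg j (Pr n))).card : ℝ) = 2 ^ j * (n : ℝ) ^ 2 := by
    rw [Finset.card_univ]
    simp [sq]
  by_cases hi : i < m
  · have h1 : ∑ w : Bg j (Pr n), gg n m j i w =
        ∑ w : Bg j (Pr n), ((1 : ℝ) + if hit w = true then 1 else 0) := by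
      refine Finset.sum_congr rfl fun w _ => ?_
      unfold gg
      by_cases hw : hit w = true
      · rw [if_pos ⟨hi, hw⟩, if_pos hw]
        norm_num
      · rw [if_neg (fun h => hw h.2), if_neg hw]
        norm_num
    rw [h1, Finset.sum_add_distrib, ← Finset.sum_filter, Finset.sum_const, Finset.sum_const,
      nsmul_eq_mul, nsmul_eq_mul, mul_one, mul_one, hits_card, hcard, if_pos hi]
    have h2 := Real.add_one_le_exp ((1 : ℝ) / 2 ^ j)
    have h3 : (0 : ℝ) < 2 ^ j := by positivity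
    have h4 : 2 ^ j * (n : ℝ) ^ 2 + (n : ℝ) ^ 2 = 2 ^ j * (n : ℝ) ^ 2 * (1 / 2 ^ j + 1) := by
      field_simp
      ring
    rw [h4]
    exact mul_le_mul_of_nonneg_left h2 (by positivity)
  · have h1 : ∑ w : Bg j (Pr n), gg n m j i w = ∑ _w : Bg j (Pr n), (1 : ℝ) := by
      refine Finset.sum_congr rfl fun w _ => ?_
      unfold gg
      rw [if_neg (fun h => hi h.1)]
    rw [h1, Finset.sum_const, nsmul_eq_mul, mul_one, hcard, if_neg hi, Real.exp_zero, mul_one]

private theorem total {n m m' j : ℕ} (b : ℝ) (hb : (m : ℝ) / 2 ^ j ≤ b / 2) :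
    ∑ ω : Fin m' → Bg j (Pr n), (2 : ℝ) ^ (RR m ω) ≤ (2 ^ j * (n : ℝ) ^ 2) ^ m' * Real.exp (b / 2) := by
  classical
  have h1 : ∑ ω : Fin m' → Bg j (Pr n), (2 : ℝ) ^ (RR m ω) =
      ∏ i : Fin m', ∑ w : Bg j (Pr n), gg n m j i w := by
    rw [Finset.prod_univ_sum, Fintype.piFinset_univ]
    exact Finset.sum_congr rfl fun ω _ => pow_RR ω
  have h0 : ∀ i : ℕ, 0 ≤ ∑ w : Bg j (Pr n), gg n m j i w := by
    intro i
    refine Finset.sum_nonneg fun w _ => ?_
    unfold gg
    split_ifs
    · norm_num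
    · norm_num
  have h2 : ∏ i : Fin m', ∑ w : Bg j (Pr n), gg n m j i w ≤
      ∏ i : Fin m', (2 ^ j * (n : ℝ) ^ 2 * Real.exp (if (i : ℕ) < m then 1 / 2 ^ j else 0)) :=
    Finset.prod_le_prod (fun i _ => h0 i) (fun i _ => gg_sum n m j i)
  rw [Finset.prod_mul_distrib, Finset.prod_const, Finset.card_univ, Fintype.card_fin,
    ← Real.exp_sum] at h2
  have h3 : ∑ i : Fin m', (if (i : ℕ) < m then (1 : ℝ) / 2 ^ j else 0) ≤ (m : ℝ) / 2 ^ j := by
    rw [← Finset.sum_filter, Finset.sum_const, nsmul_eq_mul]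
    have h4 : ((univ : Finset (Fin m')).filter fun i : Fin m' => (i : ℕ) < m).card ≤ m := by
      calc ((univ : Finset (Fin m')).filter fun i : Fin m' => (i : ℕ) < m).card
          = (((univ : Finset (Fin m')).filter fun i : Fin m' => (i : ℕ) < m).image (fun i : Fin m' => (i : ℕ))).card :=
            (Finset.card_image_of_injective _ Fin.val_injective).symm
        _ ≤ (Finset.range m).card := by
            apply Finset.card_le_card
            intro x hx
            obtain ⟨i, hi, rfl⟩ := Finset.mem_image.1 hx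
            exact Finset.mem_range.2 (Finset.mem_filter.1 hi).2
        _ = m := Finset.card_range m
    have h5 : (((univ : Finset (Fin m')).filter fun i : Fin m' => (i : ℕ) < m).card : ℝ) ≤ (m : ℝ) := by
      exact_mod_cast h4
    rw [mul_one_div]
    exact div_le_div_of_nonneg_right h5 (by positivity)
  rw [h1]
  refine h2.trans ?_
  apply mul_le_mul_of_nonneg_left _ (by positivity)
  exact Real.exp_le_exp.2 (h3.trans hb)

open Classical in
theorem tail {n m m' j : ℕ} (b : ℝ) (hb : (m : ℝ) / 2 ^ j ≤ b / 2) :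
    (((univ : Finset (Fin m' → Bg j (Pr n))).filter fun ω => b < RR m ω).card : ℝ) ≤
      Real.exp (-b / 6) * (2 ^ j * (n : ℝ) ^ 2) ^ m' := by
  have hb0 : 0 ≤ b := by
    have : (0 : ℝ) ≤ (m : ℝ) / 2 ^ j := by positivity
    linarith
  set S := (univ : Finset (Fin m' → Bg j (Pr n))).filter fun ω => b < RR m ω with hS
  have h1 : (S.card : ℝ) * Real.exp (b * Real.log 2) ≤ ∑ ω : Fin m' → Bg j (Pr n), (2 : ℝ) ^ (RR m ω) := by
    rw [← nsmul_eq_mul, ← Finset.sum_const]
    calc ∑ _ω ∈ S, Real.exp (b * Real.log 2) ≤ ∑ ω ∈ S, (2 : ℝ) ^ (RR m ω) := by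
          refine Finset.sum_le_sum fun ω hω => ?_
          have h2 : b < (RR m ω : ℝ) := (Finset.mem_filter.1 hω).2
          have h3 : (2 : ℝ) ^ (RR m ω) = Real.exp ((RR m ω : ℝ) * Real.log 2) := by
            rw [mul_comm, Real.exp_mul, Real.exp_log (by norm_num), Real.rpow_natCast]
          rw [h3]
          apply Real.exp_le_exp.2
          exact mul_le_mul_of_nonneg_right h2.le (Real.log_nonneg (by norm_num))
      _ ≤ ∑ ω : Fin m' → Bg j (Pr n), (2 : ℝ) ^ (RR m ω) :=
          Finset.sum_le_sum_of_subset_of_nonneg (Finset.subset_univ _) (fun _ _ _ => by positivity)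
  have h2 := h1.trans (total (n := n) (m' := m') b hb)
  have h3 : Real.exp (b / 2) ≤ Real.exp (-b / 6) * Real.exp (b * Real.log 2) := by
    rw [← Real.exp_add]
    apply Real.exp_le_exp.2
    have := Real.log_two_gt_d9
    nlinarith
  have h4 : (S.card : ℝ) * Real.exp (b * Real.log 2) ≤
      (Real.exp (-b / 6) * (2 ^ j * (n : ℝ) ^ 2) ^ m') * Real.exp (b * Real.log 2) := by
    refine h2.trans ?_
    calc (2 ^ j * (n : ℝ) ^ 2) ^ m' * Real.exp (b / 2) ≤
        (2 ^ j * (n : ℝ) ^ 2) ^ m' * (Real.exp (-b / 6) * Real.exp (b * Real.log 2)) :=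
          mul_le_mul_of_nonneg_left h3 (by positivity)
      _ = _ := by ring
  exact le_of_mul_le_mul_right h4 (Real.exp_pos _)

end Pool.Agent.ZL
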