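import Pool.Agent.ZL.Two

set_option autoImplicit false

/-!
# ZL-TwoS: the two-set inequality

The two-function inequality for indicator functions.
-/

namespace Pool.Agent.ZL

open Finset

open Classical in
theorem two_sets {Ω : Type*} [Fintype Ω] [Nonempty Ω] (j k m : ℕ) (hk : 2 * 4 ^ j ≤ k + 2)
    (A B : Finset (Fin m → Ω)) (a b : ℝ) (ha0 : 0 ≤ a) (hb0 : 0 ≤ b)
    (ha : a * (Fintype.card Ω : ℝ) ^ m ≤ A.card) (hb : b * (Fintype.card Ω : ℝ) ^ m ≤ B.card) :
    a ^ (k + 2) * b ^ (k + 2) * ((Fintype.card Ω : ℝ) ^ m * (2 ^ j * (Fintype.card Ω : ℝ)) ^ m) ≤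
      ((univ : Finset ((Fin m → Ω) × (Fin m → Bg j Ω))).filter fun p =>
        p.1 ∈ A ∧ nzf p.1 p.2 ∈ B).card := by
  have hN : (0 : ℝ) < Fintype.card Ω := by exact_mod_cast Fintype.card_pos
  have hNm : (0 : ℝ) < (Fintype.card Ω : ℝ) ^ m := pow_pos hN m
  have hcard : ∀ S : Finset (Fin m → Ω), mv (fun x => if x ∈ S then (1 : ℝ) else 0) =
      S.card / (Fintype.card Ω : ℝ) ^ m := by
    intro S
    unfold mv
    rw [Fintype.card_fun, Fintype.card_fin, Finset.sum_boole, Finset.filter_mem_eq_inter,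
      Finset.univ_inter]
    push_cast
    rfl
  have h := two j k m hk (fun x => if x ∈ A then (1 : ℝ) else 0)
    (fun x => if x ∈ B then (1 : ℝ) else 0)
    (fun x => by split_ifs <;> norm_num) (fun x => by split_ifs <;> norm_num)
  rw [hcard A, hcard B] at h
  have hA : a ≤ A.card / (Fintype.card Ω : ℝ) ^ m := by rwa [le_div_iff₀ hNm]
  have hB : b ≤ B.card / (Fintype.card Ω : ℝ) ^ m := by rwa [le_div_iff₀ hNm]
  have h1 : a ^ (k + 2) * b ^ (k + 2) ≤ (A.card / (Fintype.card Ω : ℝ) ^ m) ^ (k + 2) *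
      (B.card / (Fintype.card Ω : ℝ) ^ m) ^ (k + 2) :=
    mul_le_mul (pow_le_pow_left₀ ha0 hA _) (pow_le_pow_left₀ hb0 hB _) (pow_nonneg hb0 _)
      (pow_nonneg (ha0.trans hA) _)
  have h2 : mv (fun p : (Fin m → Ω) × (Fin m → Bg j Ω) =>
      (fun x => if x ∈ A then (1 : ℝ) else 0) p.1 ^ (k + 2) *
        (fun x => if x ∈ B then (1 : ℝ) else 0) (nzf p.1 p.2) ^ (k + 2)) =
      (((univ : Finset ((Fin m → Ω) × (Fin m → Bg j Ω))).filter fun p =>
        p.1 ∈ A ∧ nzf p.1 p.2 ∈ B).card : ℝ) /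
        ((Fintype.card Ω : ℝ) ^ m * (2 ^ j * (Fintype.card Ω : ℝ)) ^ m) := by
    unfold mv
    have e1 : ∀ p : (Fin m → Ω) × (Fin m → Bg j Ω),
        (if p.1 ∈ A then (1 : ℝ) else 0) ^ (k + 2) *
          (if nzf p.1 p.2 ∈ B then (1 : ℝ) else 0) ^ (k + 2) =
        if (p.1 ∈ A ∧ nzf p.1 p.2 ∈ B) then (1 : ℝ) else 0 := by
      intro p
      by_cases h1 : p.1 ∈ A
      · by_cases h2 : nzf p.1 p.2 ∈ B
        · simp [h1, h2]
        · simp [h2]
      · simp [h1]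
    have e2 : (Fintype.card ((Fin m → Ω) × (Fin m → Bg j Ω)) : ℝ) =
        (Fintype.card Ω : ℝ) ^ m * (2 ^ j * (Fintype.card Ω : ℝ)) ^ m := by
      have e3 : Fintype.card (Bg j Ω) = 2 ^ j * Fintype.card Ω := by
        unfold Bg
        rw [Fintype.card_prod, Fintype.card_fun, Fintype.card_bool, Fintype.card_fin]
      rw [Fintype.card_prod, Fintype.card_fun, Fintype.card_fun, Fintype.card_fin, e3]
      push_cast
      rfl
    rw [e2]
    congr 1
    rw [← Finset.sum_boole]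
    exact Finset.sum_congr rfl fun p _ => e1 p
  rw [h2] at h
  have hpos : (0 : ℝ) < (Fintype.card Ω : ℝ) ^ m * (2 ^ j * (Fintype.card Ω : ℝ)) ^ m := by
    positivity
  have h3 := h1.trans h
  rwa [le_div_iff₀ hpos] at h3

end Pool.Agent.ZL
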