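import Pool.Agent.ZL.MstA
import Pool.Agent.ZL.Swp
import Pool.Agent.ZL.Tail
import Pool.Agent.ZL.TwoS
import Pool.Agent.ZL.Inv

set_option autoImplicit false

/-!
# ZL-Mst: the master inequality

`two_sets` for the good sequences, `swp`, `rs_sum`, `tail`; `bad`: `mst` for the set of the bad graphs and `inv`.
-/

namespace Pool.Agent.ZL

open Finset

open Classical in
/-- number of elements with the property `R` -/
private noncomputable def nc {α : Type*} [Fintype α] (R : α → Prop) : ℕ :=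
  ((univ : Finset α).filter R).card

private theorem nc_eq {α : Type*} [Fintype α] (R : α → Prop) [h : DecidablePred R] :
    ((univ : Finset α).filter R).card = nc R := by
  have e : h = fun a => Classical.propDecidable (R a) := Subsingleton.elim _ _
  subst e
  rfl

private theorem nc_mono {α : Type*} [Fintype α] {R R' : α → Prop} (h : ∀ x, R x → R' x) :
    nc R ≤ nc R' := by
  classical
  rw [← nc_eq R, ← nc_eq R']
  refine Finset.card_le_card fun x hx => ?_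
  rw [Finset.mem_filter] at hx ⊢
  exact ⟨hx.1, h x hx.2⟩

private theorem nc_sum {α : Type*} [Fintype α] (R : α → Prop) [DecidablePred R] :
    (nc R : ℝ) = ∑ x, if R x then 1 else 0 := by
  rw [← nc_eq R, Finset.natCast_card_filter]

private theorem ms_dc {α β : Type*} [Fintype α] [Fintype β] (R : α → β → Prop) (Q : α → Prop) (c : ℝ)
    (h : ∀ q, Q q → c ≤ nc fun ρ => R q ρ) :
    (nc Q : ℝ) * c ≤ ∑ ρ, (nc fun q => R q ρ : ℝ) := by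
  classical
  have h1 : ∑ ρ, (nc fun q => R q ρ : ℝ) = ∑ q, (nc fun ρ => R q ρ : ℝ) := by
    rw [Finset.sum_congr rfl fun ρ _ => nc_sum fun q => R q ρ,
      Finset.sum_congr rfl fun q _ => nc_sum fun ρ => R q ρ, Finset.sum_comm]
  rw [h1, ← nc_eq Q]
  have h2 : (((univ : Finset α).filter Q).card : ℝ) * c ≤
      ∑ q ∈ (univ : Finset α).filter Q, (nc fun ρ => R q ρ : ℝ) := by
    have h3 := Finset.card_nsmul_le_sum ((univ : Finset α).filter Q)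
      (fun q => (nc fun ρ => R q ρ : ℝ)) c (fun q hq => h q (Finset.mem_filter.1 hq).2)
    rw [nsmul_eq_mul] at h3
    exact h3
  exact h2.trans (Finset.sum_le_sum_of_subset_of_nonneg (Finset.subset_univ _)
    fun q _ _ => Nat.cast_nonneg _)

private theorem ms_prod {α β : Type*} [Fintype α] [Fintype β] (R : α → β → Prop) :
    (nc fun q : α × β => R q.1 q.2 : ℝ) = ∑ ρ, (nc fun q => R q ρ : ℝ) := by
  classical
  rw [nc_sum, Fintype.sum_prod_type_right]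
  exact Finset.sum_congr rfl fun ρ _ => by rw [nc_sum]

private theorem nc_or {α : Type*} [Fintype α] {R R1 R2 : α → Prop} (h : ∀ x, R x → R1 x ∨ R2 x) :
    nc R ≤ nc R1 + nc R2 := by
  classical
  rw [← nc_eq R, ← nc_eq R1, ← nc_eq R2]
  refine (Finset.card_le_card fun x hx => ?_).trans (Finset.card_union_le _ _)
  rw [Finset.mem_filter] at hx
  rw [Finset.mem_union, Finset.mem_filter, Finset.mem_filter]
  rcases h x hx.2 with h1 | h1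
  · exact Or.inl ⟨hx.1, h1⟩
  · exact Or.inr ⟨hx.1, h1⟩

private theorem tail' {n m m' j : ℕ} (b : ℝ) (hb : (m : ℝ) / 2 ^ j ≤ b / 2) :
    (nc fun ω : Fin m' → Bg j (Pr n) => b < RR m ω : ℝ) ≤
      Real.exp (-b / 6) * (2 ^ j * (n : ℝ) ^ 2) ^ m' := by
  have h := tail (n := n) (m := m) (m' := m') (j := j) b hb
  rwa [nc_eq] at h

private theorem cn_eq {n m j : ℕ} (m' : ℕ) {P : Type} [Fintype P] (X : Fin m → Pr n)
    (Suc : SimpleGraph (Fin n) → P → Prop) (b : ℝ) : cn (j := j) m' X Suc b =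
      nc fun p : (Fin m' → Bg j (Pr n)) × P =>
        Sm (yy X p.1) ∧ Suc (gr (yy X p.1)) p.2 ∧ (RR m p.1 : ℝ) ≤ b := by
  unfold cn
  rw [nc_eq]

/-- the tail for one sequence -/
private theorem ms_tail {n m m' j : ℕ} {P : Type} [Fintype P] (X : Fin m → Pr n)
    (Suc : SimpleGraph (Fin n) → P → Prop) (b : ℝ) (hb : (m : ℝ) / 2 ^ j ≤ b / 2) :
    ∑ ρ : P, (nc fun ω : Fin m' → Bg j (Pr n) => Sm (yy X ω) ∧ Suc (gr (yy X ω)) ρ : ℝ) ≤
      (cn (j := j) m' X Suc b : ℝ) +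
        Fintype.card P * (Real.exp (-b / 6) * (2 ^ j * (n : ℝ) ^ 2) ^ m') := by
  have h1 : (cn (j := j) m' X Suc b : ℝ) = ∑ ρ : P,
      (nc fun ω : Fin m' → Bg j (Pr n) =>
        Sm (yy X ω) ∧ Suc (gr (yy X ω)) ρ ∧ (RR m ω : ℝ) ≤ b : ℝ) := by
    rw [cn_eq]
    exact ms_prod (fun (ω : Fin m' → Bg j (Pr n)) (ρ : P) =>
      Sm (yy X ω) ∧ Suc (gr (yy X ω)) ρ ∧ (RR m ω : ℝ) ≤ b)
  have h2 : ∀ ρ : P, (nc fun ω : Fin m' → Bg j (Pr n) => Sm (yy X ω) ∧ Suc (gr (yy X ω)) ρ : ℝ) ≤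
      (nc fun ω : Fin m' → Bg j (Pr n) =>
        Sm (yy X ω) ∧ Suc (gr (yy X ω)) ρ ∧ (RR m ω : ℝ) ≤ b : ℝ) +
        Real.exp (-b / 6) * (2 ^ j * (n : ℝ) ^ 2) ^ m' := by
    intro ρ
    have h4 : (nc fun ω : Fin m' → Bg j (Pr n) => Sm (yy X ω) ∧ Suc (gr (yy X ω)) ρ) ≤
        (nc fun ω : Fin m' → Bg j (Pr n) =>
          Sm (yy X ω) ∧ Suc (gr (yy X ω)) ρ ∧ (RR m ω : ℝ) ≤ b) +
        (nc fun ω : Fin m' → Bg j (Pr n) => b < (RR m ω : ℝ)) := by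
      refine nc_or fun ω hω => ?_
      rcases le_or_gt (RR m ω : ℝ) b with h4 | h4
      · exact Or.inl ⟨hω.1, hω.2, h4⟩
      · exact Or.inr h4
    have h5 : (nc fun ω : Fin m' → Bg j (Pr n) => Sm (yy X ω) ∧ Suc (gr (yy X ω)) ρ : ℝ) ≤
        (nc fun ω : Fin m' → Bg j (Pr n) =>
          Sm (yy X ω) ∧ Suc (gr (yy X ω)) ρ ∧ (RR m ω : ℝ) ≤ b : ℝ) +
        (nc fun ω : Fin m' → Bg j (Pr n) => b < (RR m ω : ℝ) : ℝ) := by
      exact_mod_cast h4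
    have h6 := tail' (n := n) (m := m) (m' := m') (j := j) b hb
    linarith
  refine (Finset.sum_le_sum fun ρ _ => h2 ρ).trans ?_
  rw [Finset.sum_add_distrib, ← h1, Finset.sum_const, Finset.card_univ, nsmul_eq_mul]

private theorem swp' {n m m' j : ℕ} (hm : m ≤ m') (B : Finset (Fin m → Pr n))
    (Φ : (Fin m' → Pr n) → Prop) :
    (nc fun p : (Fin m' → Pr n) × (Fin m' → Bg j (Pr n)) => rs hm p.1 ∈ B ∧ Φ (nzf p.1 p.2)) =
      nc fun p : (Fin m' → Pr n) × (Fin m' → Bg j (Pr n)) =>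
        rs hm p.1 ∈ B ∧ Φ (yy (rs hm p.1) p.2) := by
  have h := swp (j := j) hm B Φ
  rwa [nc_eq, nc_eq] at h

private theorem rs_sum' {n m m' j : ℕ} (hm : m ≤ m') (B : Finset (Fin m → Pr n))
    (Ψ : (Fin m → Pr n) → (Fin m' → Bg j (Pr n)) → Prop) :
    (nc fun p : (Fin m' → Pr n) × (Fin m' → Bg j (Pr n)) => rs hm p.1 ∈ B ∧ Ψ (rs hm p.1) p.2) *
      n ^ (2 * m) = (∑ X ∈ B, nc fun ω => Ψ X ω) * n ^ (2 * m') := by
  have h := rs_sum (j := j) hm B Ψ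
  rw [nc_eq] at h
  rw [h]
  refine congrArg (fun t => t * n ^ (2 * m')) (Finset.sum_congr rfl fun X _ => ?_)
  rw [nc_eq]

private theorem rs_both {n m m' j : ℕ} (hm : m ≤ m') (B : Finset (Fin m → Pr n))
    (Φ : (Fin m' → Pr n) → Prop) :
    (nc fun p : (Fin m' → Pr n) × (Fin m' → Bg j (Pr n)) =>
      rs hm p.1 ∈ B ∧ Φ (nzf p.1 p.2) : ℝ) * (n : ℝ) ^ (2 * m) =
      (∑ X ∈ B, (nc fun ω : Fin m' → Bg j (Pr n) => Φ (yy X ω) : ℝ)) * (n : ℝ) ^ (2 * m') := by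
  rw [swp']
  have h := rs_sum' (j := j) hm B (fun X ω => Φ (yy X ω))
  exact_mod_cast h

private theorem two' {n : ℕ} [Nonempty (Pr n)] (j k m : ℕ) (hk : 2 * 4 ^ j ≤ k + 2)
    (A B : Finset (Fin m → Pr n)) (a b : ℝ) (ha0 : 0 ≤ a) (hb0 : 0 ≤ b)
    (ha : a * (n : ℝ) ^ (2 * m) ≤ A.card) (hb : b * (n : ℝ) ^ (2 * m) ≤ B.card) :
    a ^ (k + 2) * b ^ (k + 2) * ((n : ℝ) ^ (2 * m) * (2 ^ j * (n : ℝ) ^ 2) ^ m) ≤
      (nc fun p : (Fin m → Pr n) × (Fin m → Bg j (Pr n)) => p.1 ∈ A ∧ nzf p.1 p.2 ∈ B : ℝ) := by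
  have hN : (Fintype.card (Pr n) : ℝ) = (n : ℝ) ^ 2 := by
    rw [Fintype.card_prod, Fintype.card_fin]
    push_cast
    ring
  have h := two_sets (Ω := Pr n) j k m hk A B a b ha0 hb0 (by rwa [hN, ← pow_mul])
    (by rwa [hN, ← pow_mul])
  rwa [hN, ← pow_mul, nc_eq] at h

open Classical in
theorem mst {n m m' j k : ℕ} {P : Type} [Fintype P] [Nonempty P] (hn : 0 < n) (hm : m ≤ m')
    (hk : 2 * 4 ^ j ≤ k + 2) (Suc : SimpleGraph (Fin n) → P → Prop) (b κ p τ : ℝ)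
    (hb : (m : ℝ) / 2 ^ j ≤ b / 2) (hκ : 0 ≤ κ)
    (h1 : κ * (n : ℝ) ^ (2 * m) ≤ ((univ : Finset (Fin m → Pr n)).filter Sm).card)
    (h2 : κ * (n : ℝ) ^ (2 * m') ≤ ((univ : Finset (Fin m' → Pr n)).filter Sm).card)
    (hp : 0 ≤ p) (hps : p * ((Gr n m').card * Fintype.card P) ≤
      ∑ H ∈ Gr n m', (((univ : Finset P).filter fun ρ => Suc H ρ).card : ℝ))
    (hτ : 0 ≤ τ) (𝓑 : Finset (SimpleGraph (Fin n))) (h𝓑 : 𝓑 ⊆ Gr n m) (hne : 𝓑.Nonempty)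
    (h : τ * (Gr n m).card ≤ 𝓑.card) :
    ∃ X : Fin m → Pr n, Sm X ∧ gr X ∈ 𝓑 ∧
      p / 2 * (τ * κ) ^ (k + 2) * (κ * (p / 2)) ^ (k + 2) - Real.exp (-b / 6) ≤
        prob j m' X Suc b := by
  have hne' : Nonempty (Pr n) := ⟨(⟨0, hn⟩, ⟨0, hn⟩)⟩
  by_contra hcon
  push Not at hcon
  have hn0 : (0 : ℝ) < n := by exact_mod_cast hn
  have hc0 : (0 : ℝ) < Fintype.card P := by exact_mod_cast Fintype.card_pos
  obtain ⟨Bx, hBx⟩ : ∃ Bx : Finset (Fin m → Pr n),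
      Bx = univ.filter fun x => Sm x ∧ gr x ∈ 𝓑 := ⟨_, rfl⟩
  obtain ⟨Y, hY⟩ : ∃ Y : Finset (Fin m' → Pr n), Y = univ.filter fun y =>
    Sm y ∧ p / 2 * Fintype.card P ≤ ((univ : Finset P).filter fun ρ => Suc (gr y) ρ).card :=
      ⟨_, rfl⟩
  obtain ⟨B', hB'⟩ : ∃ B' : Finset (Fin m' → Pr n), B' = univ.filter fun x => rs hm x ∈ Bx :=
    ⟨_, rfl⟩
  have gx := good_x κ τ hτ h1 𝓑 h𝓑 h
  have gy := good_y Suc κ p hp h2 hps
  rw [← hBx] at gx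
  rw [← hY] at gy
  have hrs := rs_card hm Bx
  rw [← hB'] at hrs
  have hrs' : (B'.card : ℝ) * (n : ℝ) ^ (2 * m) = Bx.card * (n : ℝ) ^ (2 * m') := by
    exact_mod_cast hrs
  have hnm : (0 : ℝ) < (n : ℝ) ^ (2 * m) := by positivity
  have hnm' : (0 : ℝ) < (n : ℝ) ^ (2 * m') := by positivity
  have gB' : τ * κ * (n : ℝ) ^ (2 * m') ≤ B'.card := by
    refine le_of_mul_le_mul_right ?_ hnm
    rw [hrs']
    have h3 := mul_le_mul_of_nonneg_right gx hnm'.le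
    linarith
  have ha0 : 0 ≤ τ * κ := mul_nonneg hτ hκ
  have hb0 : 0 ≤ κ * (p / 2) := mul_nonneg hκ (by linarith)
  have htwo := two' j k m' hk B' Y (τ * κ) (κ * (p / 2)) ha0 hb0 gB' gy
  obtain ⟨D, hD⟩ : ∃ D : ℝ, D = (2 ^ j * (n : ℝ) ^ 2) ^ m' := ⟨_, rfl⟩
  have hD0 : 0 < D := by
    rw [hD]
    positivity
  obtain ⟨v, hv⟩ : ∃ v : ℝ, v = (τ * κ) ^ (k + 2) * (κ * (p / 2)) ^ (k + 2) := ⟨_, rfl⟩
  have hv0 : 0 ≤ v := by
    rw [hv]
    positivity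
  rw [← hD, ← hv] at htwo
  obtain ⟨S, hS⟩ : ∃ S : ℝ, S = ∑ X ∈ Bx, ∑ ρ : P,
    (nc fun ω : Fin m' → Bg j (Pr n) => Sm (yy X ω) ∧ Suc (gr (yy X ω)) ρ : ℝ) := ⟨_, rfl⟩
  have hρ : ∀ ρ : P, (nc fun q : (Fin m' → Pr n) × (Fin m' → Bg j (Pr n)) =>
      rs hm q.1 ∈ Bx ∧ (Sm (nzf q.1 q.2) ∧ Suc (gr (nzf q.1 q.2)) ρ) : ℝ) *
        (n : ℝ) ^ (2 * m) =
      (∑ X ∈ Bx, (nc fun ω : Fin m' → Bg j (Pr n) =>
        Sm (yy X ω) ∧ Suc (gr (yy X ω)) ρ : ℝ)) * (n : ℝ) ^ (2 * m') := fun ρ =>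
    rs_both hm Bx (fun y => Sm y ∧ Suc (gr y) ρ)
  have hdc := ms_dc (fun (q : (Fin m' → Pr n) × (Fin m' → Bg j (Pr n))) (ρ : P) =>
    rs hm q.1 ∈ Bx ∧ (Sm (nzf q.1 q.2) ∧ Suc (gr (nzf q.1 q.2)) ρ))
    (fun q => q.1 ∈ B' ∧ nzf q.1 q.2 ∈ Y) (p / 2 * Fintype.card P) (by
      intro q hq
      rw [hB', hY, Finset.mem_filter, Finset.mem_filter] at hq
      obtain ⟨⟨-, hq1⟩, -, hq2, hq3⟩ := hq
      refine hq3.trans ?_
      rw [nc_eq]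
      exact_mod_cast nc_mono (R := fun ρ => Suc (gr (nzf q.1 q.2)) ρ)
        (R' := fun ρ => rs hm q.1 ∈ Bx ∧ (Sm (nzf q.1 q.2) ∧ Suc (gr (nzf q.1 q.2)) ρ))
        fun ρ hρ' => ⟨hq1, hq2, hρ'⟩)
  obtain ⟨T, hT⟩ : ∃ T : ℝ, T = (nc fun p : (Fin m' → Pr n) × (Fin m' → Bg j (Pr n)) =>
    p.1 ∈ B' ∧ nzf p.1 p.2 ∈ Y : ℝ) := ⟨_, rfl⟩
  obtain ⟨W, hW⟩ : ∃ W : ℝ, W = ∑ ρ : P,
    (nc fun q : (Fin m' → Pr n) × (Fin m' → Bg j (Pr n)) =>
      rs hm q.1 ∈ Bx ∧ (Sm (nzf q.1 q.2) ∧ Suc (gr (nzf q.1 q.2)) ρ) : ℝ) := ⟨_, rfl⟩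
  rw [← hT] at htwo
  have hdc' : T * (p / 2 * Fintype.card P) ≤ W := by
    rw [hT, hW]
    exact hdc
  have hS1 : W * (n : ℝ) ^ (2 * m) = S * (n : ℝ) ^ (2 * m') := by
    rw [hW, hS, Finset.sum_mul, Finset.sum_congr rfl fun ρ _ => hρ ρ, ← Finset.sum_mul,
      Finset.sum_comm]
  have hlow : v * D * (p / 2 * Fintype.card P) * (n : ℝ) ^ (2 * m) ≤ S := by
    refine le_of_mul_le_mul_right ?_ hnm'
    rw [← hS1]
    have h5 := mul_le_mul_of_nonneg_right htwo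
      (mul_nonneg (by linarith : 0 ≤ p / 2) hc0.le)
    have h6 := mul_le_mul_of_nonneg_right (h5.trans hdc') hnm.le
    refine le_trans (le_of_eq ?_) h6
    ring
  have hBx0 : 0 < Bx.card := by
    rw [hBx, fam 𝓑 h𝓑]
    have := hne.card_pos
    positivity
  have hBxn : (Bx.card : ℝ) ≤ (n : ℝ) ^ (2 * m) := by
    have h5 := Finset.card_le_univ Bx
    rw [Fintype.card_fun, Fintype.card_fin, Fintype.card_prod, Fintype.card_fin] at h5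
    have h6 : (Bx.card : ℝ) ≤ ((n : ℝ) * n) ^ m := by exact_mod_cast h5
    rwa [← sq, ← pow_mul] at h6
  have hup : S < Bx.card * (p / 2 * v * (D * Fintype.card P)) := by
    have h5 : ∀ X ∈ Bx, ∑ ρ : P, (nc fun ω : Fin m' → Bg j (Pr n) =>
        Sm (yy X ω) ∧ Suc (gr (yy X ω)) ρ : ℝ) < p / 2 * v * (D * Fintype.card P) := by
      intro X hX
      rw [hBx, Finset.mem_filter] at hX
      have h6 := hcon X hX.2.1 hX.2.2
      unfold prob at h6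
      rw [← hD, mul_assoc (p / 2), ← hv, div_lt_iff₀ (by positivity)] at h6
      have h7 := ms_tail (m' := m') (j := j) X Suc b hb
      rw [← hD] at h7
      refine lt_of_le_of_lt h7 ?_
      have e1 : (p / 2 * v - Real.exp (-b / 6)) * (D * Fintype.card P) +
          Fintype.card P * (Real.exp (-b / 6) * D) = p / 2 * v * (D * Fintype.card P) := by ring
      linarith
    rw [hS]
    have h6 := Finset.sum_lt_sum_of_nonempty (Finset.card_pos.1 hBx0) h5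
    rw [Finset.sum_const, nsmul_eq_mul] at h6
    exact h6
  have hfin : (Bx.card : ℝ) * (p / 2 * v * (D * Fintype.card P)) ≤
      (n : ℝ) ^ (2 * m) * (p / 2 * v * (D * Fintype.card P)) :=
    mul_le_mul_of_nonneg_right hBxn (by positivity)
  have e1 : (n : ℝ) ^ (2 * m) * (p / 2 * v * (D * Fintype.card P)) =
      v * D * (p / 2 * Fintype.card P) * (n : ℝ) ^ (2 * m) := by ring
  linarith

open Classical in
theorem bad {n m m' j k : ℕ} {P : Type} [Fintype P] [Nonempty P] (hn : 0 < n) (hm : m ≤ m')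
    (hk : 2 * 4 ^ j ≤ k + 2) (Suc : SimpleGraph (Fin n) → P → Prop) (b κ p τ : ℝ)
    (hb : (m : ℝ) / 2 ^ j ≤ b / 2) (hκ : 0 ≤ κ)
    (h1 : κ * (n : ℝ) ^ (2 * m) ≤ ((univ : Finset (Fin m → Pr n)).filter Sm).card)
    (h2 : κ * (n : ℝ) ^ (2 * m') ≤ ((univ : Finset (Fin m' → Pr n)).filter Sm).card)
    (hp : 0 ≤ p) (hps : p * ((Gr n m').card * Fintype.card P) ≤
      ∑ H ∈ Gr n m', (((univ : Finset P).filter fun ρ => Suc H ρ).card : ℝ))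
    (hτ : 0 < τ) (X : SimpleGraph (Fin n) → (Fin m → Pr n))
    (hX : ∀ G ∈ Gr n m, Sm (X G) ∧ gr (X G) = G) :
    (((Gr n m).filter fun G => prob j m' (X G) Suc b <
      p / 2 * (τ * κ) ^ (k + 2) * (κ * (p / 2)) ^ (k + 2) - Real.exp (-b / 6)).card : ℝ) ≤
        τ * (Gr n m).card := by
  by_contra hcon
  push Not at hcon
  obtain ⟨𝓑, h𝓑⟩ : ∃ 𝓑 : Finset (SimpleGraph (Fin n)), 𝓑 = (Gr n m).filter fun G =>
    prob j m' (X G) Suc b <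
      p / 2 * (τ * κ) ^ (k + 2) * (κ * (p / 2)) ^ (k + 2) - Real.exp (-b / 6) := ⟨_, rfl⟩
  rw [← h𝓑] at hcon
  have h3 : 𝓑 ⊆ Gr n m := by
    rw [h𝓑]
    exact Finset.filter_subset _ _
  have h4 : 𝓑.Nonempty := by
    rw [← Finset.card_pos]
    have h5 : (0 : ℝ) ≤ τ * (Gr n m).card := by positivity
    have h6 : (0 : ℝ) < 𝓑.card := lt_of_le_of_lt h5 hcon
    exact_mod_cast h6
  obtain ⟨X0, hX0, hX1, hX2⟩ := mst (j := j) hn hm hk Suc b κ p τ hb hκ h1 h2 hp hps hτ.le 𝓑 h3 h4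
    hcon.le
  have h5 : prob j m' (X (gr X0)) Suc b <
      p / 2 * (τ * κ) ^ (k + 2) * (κ * (p / 2)) ^ (k + 2) - Real.exp (-b / 6) := by
    rw [h𝓑, Finset.mem_filter] at hX1
    exact hX1.2
  obtain ⟨h6, h7⟩ := hX (gr X0) (h3 hX1)
  have h8 := inv (j := j) hm (X (gr X0)) X0 h6 hX0 h7 Suc b
  unfold prob at h5 hX2
  rw [h8] at h5
  linarith

end Pool.Agent.ZL
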