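import Pool.Agent.ZL.Av
import Pool.Agent.ZL.Alg

set_option autoImplicit false

/-!
# ZL-Vx: the random vertex is nearly uniform
-/

namespace Pool.Agent.ZL

private theorem vx_hst {n : ℕ} (hn : 0 < n) (a : ℕ) (b : Bool) :
    hst n a b = (2 * a + b.toNat) % n := by
  unfold hst
  rw [if_neg (by omega)]

private theorem vx_foldl_lt {n : ℕ} (hn : 0 < n) (l : List Bool) :
    ∀ a, a < n → l.foldl (hst n) a < n := by
  induction l with
  | nil =>
    intro a ha
    exact ha
  | cons b l ih =>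
    intro a _
    rw [List.foldl_cons]
    refine ih _ ?_
    rw [vx_hst hn]
    exact Nat.mod_lt _ hn

/-- number of the `x < M` with `(c + x) % n = u` -/
private def vxc (n u c M : ℕ) : ℕ := ((Finset.range M).filter fun x => (c + x) % n = u).card

private theorem vxc_add (n u c M K : ℕ) : vxc n u c (M + K) = vxc n u c M + vxc n u (c + M) K := by
  unfold vxc
  rw [Finset.card_filter, Finset.card_filter, Finset.card_filter, Finset.sum_range_add]
  congr 1
  refine Finset.sum_congr rfl fun x _ => ?_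
  rw [add_assoc]

private theorem vxc_mod (n u c M : ℕ) {a : ℕ} (h : a % n = c % n) : vxc n u a M = vxc n u c M := by
  unfold vxc
  congr 1
  refine Finset.filter_congr fun x _ => ?_
  rw [Nat.add_mod, h, ← Nat.add_mod]

open Classical in
private theorem vx_av {n : ℕ} (hn : 0 < n) {u : ℕ} (L : ℕ) : ∀ a, a < n →
    av L (fun l => if l.foldl (hst n) a = u then 1 else 0) =
      (vxc n u (a * 2 ^ L) (2 ^ L) : ℝ) / 2 ^ L := by
  induction L with
  | zero =>
    intro a ha
    show (if a = u then (1 : ℝ) else 0) = _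
    unfold vxc
    rw [pow_zero, pow_zero, div_one, mul_one, Finset.range_one, Finset.filter_singleton]
    rw [add_zero, Nat.mod_eq_of_lt ha]
    split_ifs <;> simp
  | succ L ih =>
    intro a _
    have h0 := ih (hst n a false) (by rw [vx_hst hn]; exact Nat.mod_lt _ hn)
    have h1 := ih (hst n a true) (by rw [vx_hst hn]; exact Nat.mod_lt _ hn)
    have e0 : vxc n u (hst n a false * 2 ^ L) (2 ^ L) = vxc n u (a * 2 ^ (L + 1)) (2 ^ L) := by
      refine vxc_mod _ _ _ _ ?_
      rw [vx_hst hn, Nat.mod_mul_mod]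
      congr 1
      simp only [Bool.toNat_false]
      ring
    have e1 : vxc n u (hst n a true * 2 ^ L) (2 ^ L) =
        vxc n u (a * 2 ^ (L + 1) + 2 ^ L) (2 ^ L) := by
      refine vxc_mod _ _ _ _ ?_
      rw [vx_hst hn, Nat.mod_mul_mod]
      congr 1
      simp only [Bool.toNat_true]
      ring
    rw [e0] at h0
    rw [e1] at h1
    show (av L (fun l => if l.foldl (hst n) (hst n a false) = u then 1 else 0) +
      av L (fun l => if l.foldl (hst n) (hst n a true) = u then 1 else 0)) / 2 = _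
    rw [h0, h1]
    have e2 : vxc n u (a * 2 ^ (L + 1)) (2 ^ (L + 1)) = vxc n u (a * 2 ^ (L + 1)) (2 ^ L) +
        vxc n u (a * 2 ^ (L + 1) + 2 ^ L) (2 ^ L) := by
      have e3 : 2 ^ (L + 1) = 2 ^ L + 2 ^ L := by ring
      conv_lhs => rw [show vxc n u (a * 2 ^ (L + 1)) (2 ^ (L + 1)) =
        vxc n u (a * 2 ^ (L + 1)) (2 ^ L + 2 ^ L) by rw [← e3]]
      rw [vxc_add]
    rw [e2, ← add_div, div_div, ← pow_succ, Nat.cast_add]

private theorem vxc_ge {n u : ℕ} (hn : 0 < n) (hu : u < n) (M : ℕ) : M / n ≤ vxc n u 0 M := by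
  have h1 : Nat.count (· ≡ u [MOD n]) M = vxc n u 0 M := by
    unfold vxc
    rw [Nat.count_eq_card_filter_range]
    congr 1
    refine Finset.filter_congr fun x _ => ?_
    rw [zero_add]
    unfold Nat.ModEq
    rw [Nat.mod_eq_of_lt hu]
  rw [← h1, Nat.count_modEq_card M hn u]
  omega

theorem vx_lt {n : ℕ} (hn : 0 < n) (l : List Bool) : vx n l < n := by
  exact vx_foldl_lt hn l 0 hn

open Classical in
theorem vx_prob {n : ℕ} (hn : 0 < n) (L : ℕ) {u : ℕ} (hu : u < n) :
    (1 - n / 2 ^ L) / n ≤ av L (fun l => if vx n l = u then 1 else 0) := by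
  have h1 := vx_av hn (u := u) L 0 hn
  rw [zero_mul] at h1
  have h2 : av L (fun l => if vx n l = u then (1 : ℝ) else 0) =
      (vxc n u 0 (2 ^ L) : ℝ) / 2 ^ L := h1
  rw [h2]
  have h3 := vxc_ge hn hu (2 ^ L)
  have hnr : (0 : ℝ) < n := by exact_mod_cast hn
  have h4 : (2 : ℝ) ^ L / n - 1 ≤ vxc n u 0 (2 ^ L) := by
    have h5 : (2 : ℝ) ^ L / n < (2 ^ L / n : ℕ) + 1 := by
      rw [div_lt_iff₀ hnr]
      have h6 : 2 ^ L < (2 ^ L / n + 1) * n := by
        rw [mul_comm]
        exact Nat.lt_mul_div_succ _ hn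
      exact_mod_cast h6
    have h8 : ((2 ^ L / n : ℕ) : ℝ) ≤ vxc n u 0 (2 ^ L) := by exact_mod_cast h3
    linarith
  have hp : (0 : ℝ) < 2 ^ L := by positivity
  rw [le_div_iff₀ hp]
  refine le_trans (le_of_eq ?_) h4
  field_simp

end Pool.Agent.ZL
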