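import Pool.Agent.ZL.BkD
import Pool.Agent.ZL.Vx

set_option autoImplicit false

/-!
# ZL-Blk: the blocks are nearly uniform
-/

namespace Pool.Agent.ZL

private theorem cube_le {n : ℕ} (hn : 14 ≤ n) : 4 * n ^ 3 ≤ 2 ^ n := by
  induction n, hn using Nat.le_induction with
  | base => norm_num
  | succ n hn ih =>
    obtain ⟨k, rfl⟩ := Nat.exists_eq_add_of_le hn
    have h1 : 4 * (14 + k + 1) ^ 3 ≤ 2 * (4 * (14 + k) ^ 3) := by
      nlinarith [Nat.zero_le k, Nat.zero_le (k ^ 2), Nat.zero_le (k ^ 3)]
    calc 4 * (14 + k + 1) ^ 3 ≤ 2 * (4 * (14 + k) ^ 3) := h1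
      _ ≤ 2 * 2 ^ (14 + k) := Nat.mul_le_mul_left 2 ih
      _ = 2 ^ (14 + k + 1) := by rw [pow_succ]; ring

/-- the loss for `m'` blocks is at most a factor `2` -/
theorem bk_loss {n m' : ℕ} (hn : 14 ≤ n) (hm : m' ≤ n ^ 2) :
    (1 / 2 : ℝ) ≤ ((1 - n / 2 ^ n : ℝ) ^ 2) ^ m' := by
  have h1 : 4 * (n : ℝ) ^ 3 ≤ 2 ^ n := by exact_mod_cast cube_le hn
  have h2 : (0 : ℝ) < 2 ^ n := by positivity
  have hn0 : (1 : ℝ) ≤ n := by exact_mod_cast (by omega : 1 ≤ n)
  obtain ⟨ε, hε⟩ : ∃ ε : ℝ, ε = (n : ℝ) / 2 ^ n := ⟨_, rfl⟩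
  have hε0 : 0 ≤ ε := by rw [hε]; positivity
  have hε1 : 4 * (n : ℝ) ^ 2 * ε ≤ 1 := by
    rw [hε, ← mul_div_assoc, div_le_one h2]
    calc 4 * (n : ℝ) ^ 2 * n = 4 * (n : ℝ) ^ 3 := by ring
      _ ≤ _ := h1
  have hε2 : ε ≤ 1 := by nlinarith
  rw [← hε, ← pow_mul]
  have h3 := one_add_mul_le_pow (a := -ε) (by linarith) (2 * m')
  have h4 : (m' : ℝ) ≤ (n : ℝ) ^ 2 := by exact_mod_cast hm
  have h5 : (m' : ℝ) * ε ≤ (n : ℝ) ^ 2 * ε := mul_le_mul_of_nonneg_right h4 hε0
  have h6 : (1 : ℝ) + -ε = 1 - ε := by ring
  rw [h6] at h3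
  refine le_trans ?_ h3
  push_cast
  linarith

private theorem av_bits {j n : ℕ} (hj : j ≤ n) (c : Fin j → Bool) :
    av n (fun l => if ∀ i : Fin j, l.getD i false = c i then 1 else 0) = 1 / 2 ^ j := by
  obtain ⟨k, rfl⟩ := Nat.exists_eq_add_of_le hj
  rw [av_append]
  have h1 : ∀ l : List Bool, l.length = j →
      av k (fun l' => if ∀ i : Fin j, (l ++ l').getD i false = c i then (1 : ℝ) else 0) =
        if l = List.ofFn c then 1 else 0 := by
    intro l hl
    have h2 : ∀ l' : List Bool, (∀ i : Fin j, (l ++ l').getD i false = c i) ↔ l = List.ofFn c := by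
      intro l'
      constructor
      · intro h3
        apply List.ext_getElem (by rw [hl, List.length_ofFn])
        intro i hi hi'
        have h4 := h3 ⟨i, by omega⟩
        rw [List.getElem_ofFn]
        rw [← h4]
        show l[i] = (l ++ l').getD i false
        rw [List.getD_eq_getElem (l ++ l') false (by rw [List.length_append]; omega),
          List.getElem_append_left hi]
      · intro h3 i
        have hi : (i : ℕ) < l.length := by rw [hl]; exact i.2
        rw [List.getD_eq_getElem (l ++ l') false (by rw [List.length_append]; omega),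
          List.getElem_append_left hi]
        subst h3
        rw [List.getElem_ofFn]
    simp only [h2]
    exact av_const _ _
  rw [av_congr h1, av_eq]
  have h5 : ∀ r : Fin j → Bool, (if List.ofFn r = List.ofFn c then (1 : ℝ) else 0) =
      if r = c then 1 else 0 := by
    intro r
    simp only [List.ofFn_inj]
  rw [Finset.sum_congr rfl fun r _ => h5 r, Finset.sum_ite_eq', if_pos (Finset.mem_univ _)]

open Classical in
theorem bk_prob {n j : ℕ} (hn : 0 < n) (hj : j ≤ n) (t : Bg j (Pr n)) :
    (1 - n / 2 ^ n : ℝ) ^ 2 ≤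
      Fintype.card (Bg j (Pr n)) * av (3 * n) (fun l => if bk hn j l = t then 1 else 0) := by
  obtain ⟨c, x, y⟩ := t
  have h3 : 3 * n = n + (n + n) := by ring
  rw [h3, av_append]
  have h4 : ∀ a : List Bool, a.length = n →
      av (n + n) (fun l' => if bk hn j (a ++ l') = (c, x, y) then (1 : ℝ) else 0) =
      (if ∀ i : Fin j, a.getD i false = c i then 1 else 0) *
        (av n (fun l => if vx n l = x then 1 else 0) * av n (fun l => if vx n l = y then 1 else 0)) := by
    intro a ha
    rw [av_append]
    have h5 : ∀ b : List Bool, b.length = n →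
        av n (fun l' => if bk hn j (a ++ (b ++ l')) = (c, x, y) then (1 : ℝ) else 0) =
        (if ∀ i : Fin j, a.getD i false = c i then 1 else 0) *
          av n (fun l => if vx n l = y then 1 else 0) * (if vx n b = x then 1 else 0) := by
      intro b hb
      have h6 : ∀ d : List Bool, d.length = n →
          (if bk hn j (a ++ (b ++ d)) = (c, x, y) then (1 : ℝ) else 0) =
          ((if ∀ i : Fin j, a.getD i false = c i then 1 else 0) * (if vx n b = x then 1 else 0)) *
            (if vx n d = y then 1 else 0) := by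
        intro d hd
        have e1 : ((a ++ (b ++ d)).drop n).take n = b := by
          rw [← ha, List.drop_left, ha, ← hb, List.take_left]
        have e2 : ((a ++ (b ++ d)).drop (2 * n)).take n = d := by
          have e3 : a ++ (b ++ d) = (a ++ b) ++ d := (List.append_assoc _ _ _).symm
          have e4 : (a ++ b).length = 2 * n := by rw [List.length_append]; omega
          rw [e3, ← e4, List.drop_left, ← hd, List.take_length]
        have e5 : bk hn j (a ++ (b ++ d)) = (c, x, y) ↔
            (∀ i : Fin j, a.getD i false = c i) ∧ vx n b = x ∧ vx n d = y := by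
          unfold bk rp
          rw [Prod.mk.injEq, Prod.mk.injEq, funext_iff]
          refine and_congr (forall_congr' fun i => ?_) (and_congr ?_ ?_)
          · have hi : (i : ℕ) < a.length := by rw [ha]; exact i.2.trans_le hj
            rw [List.getD_eq_getElem (a ++ (b ++ d)) false (by rw [List.length_append]; omega),
              List.getElem_append_left hi, List.getD_eq_getElem a false hi]
          · show toF hn (vx n (((a ++ (b ++ d)).drop n).take n)) = x ↔ _
            rw [e1]
            constructor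
            · intro h7
              rw [← h7]
              exact (Nat.mod_eq_of_lt (vx_lt hn b)).symm
            · intro h7
              apply Fin.ext
              show vx n b % n = x
              rw [Nat.mod_eq_of_lt (vx_lt hn b), h7]
          · show toF hn (vx n (((a ++ (b ++ d)).drop (2 * n)).take n)) = y ↔ _
            rw [e2]
            constructor
            · intro h7
              rw [← h7]
              exact (Nat.mod_eq_of_lt (vx_lt hn d)).symm
            · intro h7
              apply Fin.ext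
              show vx n d % n = y
              rw [Nat.mod_eq_of_lt (vx_lt hn d), h7]
        by_cases q1 : ∀ i : Fin j, a.getD i false = c i
        · by_cases q2 : vx n b = x
          · by_cases q3 : vx n d = y
            · rw [if_pos (e5.2 ⟨q1, q2, q3⟩), if_pos q1, if_pos q2, if_pos q3]; norm_num
            · rw [if_neg (fun h => q3 (e5.1 h).2.2), if_neg q3, mul_zero]
          · rw [if_neg (fun h => q2 (e5.1 h).2.1), if_neg q2, mul_zero, zero_mul]
        · rw [if_neg (fun h => q1 (e5.1 h).1), if_neg q1, zero_mul, zero_mul]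
      rw [av_congr h6, av_mul]
      ring
    rw [av_congr h5, av_mul]
    ring
  rw [av_congr h4]
  have h8 : ∀ l : List Bool, (if ∀ i : Fin j, l.getD i false = c i then (1 : ℝ) else 0) *
        (av n (fun l => if vx n l = x then 1 else 0) * av n (fun l => if vx n l = y then 1 else 0)) =
      (av n (fun l => if vx n l = x then 1 else 0) * av n (fun l => if vx n l = y then 1 else 0)) *
        (if ∀ i : Fin j, l.getD i false = c i then (1 : ℝ) else 0) := fun l => mul_comm _ _
  rw [av_congr (fun l _ => h8 l), av_mul]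
  have h9 : av n (fun l => if ∀ i : Fin j, l.getD i false = c i then (1 : ℝ) else 0) = 1 / 2 ^ j := by
    rw [← av_bits hj c]
  rw [h9]
  obtain ⟨X, hX⟩ : ∃ X : ℝ, X = av n (fun l => if vx n l = x then 1 else 0) := ⟨_, rfl⟩
  obtain ⟨Y, hY⟩ : ∃ Y : ℝ, Y = av n (fun l => if vx n l = y then 1 else 0) := ⟨_, rfl⟩
  have hX1 := vx_prob hn n x.2
  have hY1 := vx_prob hn n y.2
  rw [← hX] at hX1
  rw [← hY] at hY1
  rw [← hX, ← hY]
  have hcard : (Fintype.card (Bg j (Pr n)) : ℝ) = 2 ^ j * ((n : ℝ) * n) := by
    have : Fintype.card (Bg j (Pr n)) = 2 ^ j * (n * n) := by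
      simp [Fintype.card_prod]
    rw [this]
    push_cast
    ring
  have hn0 : (0 : ℝ) < n := by exact_mod_cast hn
  have he : (0 : ℝ) ≤ 1 - n / 2 ^ n := by
    rw [sub_nonneg, div_le_one (by positivity)]
    exact_mod_cast (Nat.lt_two_pow_self (n := n)).le
  rw [div_le_iff₀ hn0] at hX1 hY1
  rw [hcard]
  have h10 : 2 ^ j * ((n : ℝ) * n) * (X * Y * (1 / 2 ^ j)) = (X * n) * (Y * n) := by
    field_simp
  rw [h10, sq]
  exact mul_le_mul hX1 hY1 he (he.trans hX1)

end Pool.Agent.ZL
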