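import Pool.Agent.ZL.Av

set_option autoImplicit false

/-!
# ZL-Lift: from blocks of bits to blocks with values in a finite set. Induction on the number of blocks.
-/

namespace Pool.Agent.ZL

open Finset

private theorem lf_block {T : Type} {a L : ℕ} (β : List Bool → T) {l l' : List Bool} (hl : l.length = a) :
    (fun i : Fin (L + 1) => β (((l ++ l').drop (i * a)).take a)) =
      Fin.cons (β l) (fun i : Fin L => β ((l'.drop (i * a)).take a)) := by
  funext i
  refine Fin.cases ?_ (fun j => ?_) i
  · rw [Fin.cons_zero, Fin.val_zero, Nat.zero_mul, List.drop_zero, ← hl, List.take_left]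
  · rw [Fin.cons_succ, Fin.val_succ]
    have h1 : (l ++ l').drop (((j : ℕ) + 1) * a) = l'.drop ((j : ℕ) * a) := by
      rw [List.drop_append, hl]
      have h2 : l.drop (((j : ℕ) + 1) * a) = [] := by
        apply List.drop_eq_nil_of_le
        rw [hl]
        nlinarith
      have h3 : ((j : ℕ) + 1) * a - a = (j : ℕ) * a := by
        rw [Nat.add_mul, Nat.one_mul, Nat.add_sub_cancel]
      rw [h2, h3, List.nil_append]
    rw [h1]

open Classical in
theorem lift {T : Type} [Fintype T] [Nonempty T] (a : ℕ) (β : List Bool → T) (lam : ℝ)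
    (h0 : 0 ≤ lam)
    (h : ∀ t, lam ≤ Fintype.card T * av a (fun l => if β l = t then 1 else 0)) (L : ℕ)
    (F : (Fin L → T) → ℝ) (hF : ∀ t, 0 ≤ F t) :
    lam ^ L * ((∑ t, F t) / (Fintype.card T : ℝ) ^ L) ≤
      av (L * a) (fun l => F (fun i => β ((l.drop (i * a)).take a))) := by
  have hc : (0 : ℝ) < Fintype.card T := by exact_mod_cast Fintype.card_pos
  induction L with
  | zero =>
    rw [pow_zero, pow_zero, one_mul, div_one, Nat.zero_mul, Fintype.sum_unique]
    show _ ≤ F _
    exact le_of_eq (congrArg F (Subsingleton.elim _ _))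
  | succ L ih =>
    set H : T → ℝ := fun s => lam ^ L * ((∑ t : Fin L → T, F (Fin.cons s t)) / (Fintype.card T : ℝ) ^ L)
      with hH
    have hH0 : ∀ s, 0 ≤ H s := by
      intro s
      have h1 : 0 ≤ ∑ t : Fin L → T, F (Fin.cons s t) := sum_nonneg fun t _ => hF _
      exact mul_nonneg (pow_nonneg h0 L) (div_nonneg h1 (pow_nonneg hc.le L))
    have e1 : (L + 1) * a = a + L * a := by ring
    have e2 : ∀ l : List Bool, l.length = a →
        H (β l) ≤ av (L * a) (fun l' => F (fun i : Fin (L + 1) => β (((l ++ l').drop (i * a)).take a))) := by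
      intro l hl
      have h1 := ih (fun t => F (Fin.cons (β l) t)) (fun t => hF _)
      refine h1.trans (le_of_eq ?_)
      congr 1
      funext l'
      rw [lf_block β hl]
    have e3 : av a (fun l => H (β l)) = ∑ s : T, H s * av a (fun l => if β l = s then 1 else 0) := by
      have h1 : ∀ l : List Bool, l.length = a → H (β l) = ∑ s : T, H s * (if β l = s then 1 else 0) := by
        intro l _
        rw [sum_eq_single (β l)]
        · rw [if_pos rfl, mul_one]
        · intro s _ hs
          rw [if_neg (fun h2 => hs h2.symm), mul_zero]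
        · intro h2
          exact absurd (mem_univ _) h2
      rw [av_congr h1, av_sum]
      refine sum_congr rfl fun s _ => ?_
      rw [av_mul]
    have e4 : ∀ s : T, lam / Fintype.card T ≤ av a (fun l => if β l = s then 1 else 0) := by
      intro s
      rw [div_le_iff₀' hc]
      exact h s
    have e5 : ∑ t : Fin (L + 1) → T, F t = ∑ s : T, ∑ t : Fin L → T, F (Fin.cons s t) := by
      rw [← Fintype.sum_prod_type']
      exact (Equiv.sum_comp (Fin.consEquiv (fun _ : Fin (L + 1) => T)) F).symm
    have e6 : lam ^ (L + 1) * ((∑ t : Fin (L + 1) → T, F t) / (Fintype.card T : ℝ) ^ (L + 1)) =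
        ∑ s : T, H s * (lam / Fintype.card T) := by
      rw [e5, ← sum_mul, hH, ← mul_sum, ← sum_div, pow_succ, pow_succ]
      field_simp
    rw [e6, e1, av_append]
    calc ∑ s : T, H s * (lam / Fintype.card T)
        ≤ ∑ s : T, H s * av a (fun l => if β l = s then 1 else 0) :=
          sum_le_sum fun s _ => mul_le_mul_of_nonneg_left (e4 s) (hH0 s)
      _ = av a (fun l => H (β l)) := e3.symm
      _ ≤ _ := av_mono e2

end Pool.Agent.ZL
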