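import Pool.Agent.ZL.Av
import Pool.Agent.ZL.Alg

set_option autoImplicit false

/-!
# ZL-Par: probability of the right noise exponent and of the right advice string

`lead_prob`, `eq_prob`: inductions; `par_prob`: three independent parts of length `n`.
-/

namespace Pool.Agent.ZL

private theorem par_lead_false (l : List Bool) : lead (false :: l) = [] := by
  simp [lead]

private theorem par_lead_true (l : List Bool) : lead (true :: l) = true :: lead l := by
  simp [lead]

private theorem par_lead_le (l : List Bool) : (lead l).length ≤ l.length :=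
  (List.takeWhile_prefix _).length_le

open Classical in
theorem lead_prob {n t : ℕ} (ht : t < n) :
    av n (fun l => if (lead l).length = t then 1 else 0) = 1 / 2 ^ (t + 1) := by
  induction n generalizing t with
  | zero => omega
  | succ m ih =>
    change (av m (fun l => if (lead (false :: l)).length = t then 1 else 0) +
      av m (fun l => if (lead (true :: l)).length = t then 1 else 0)) / 2 = _
    simp only [par_lead_false, par_lead_true, List.length_nil, List.length_cons]
    cases t with
    | zero =>
      have h1 : av m (fun _ => if (0 : ℕ) = 0 then (1 : ℝ) else 0) = 1 := by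
        simp only [if_true]
        exact av_const m 1
      have h2 : av m (fun l => if (lead l).length + 1 = 0 then (1 : ℝ) else 0) = 0 := by
        have h3 : ∀ l : List Bool, ¬ ((lead l).length + 1 = 0) := fun l => by omega
        simp only [h3, if_false]
        exact av_const m 0
      rw [h1, h2]
      norm_num
    | succ s =>
      have h1 : av m (fun _ => if (0 : ℕ) = s + 1 then (1 : ℝ) else 0) = 0 := by
        have h3 : ¬ (0 = s + 1) := by omega
        simp only [h3, if_false]
        exact av_const m 0
      have h2 : av m (fun l => if (lead l).length + 1 = s + 1 then (1 : ℝ) else 0) =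
          1 / 2 ^ (s + 1) := by
        rw [← ih (show s < m by omega)]
        apply av_congr
        intro l _
        simp only [add_left_inj]
      rw [h1, h2, zero_add, pow_succ (2 : ℝ) (s + 1)]
      field_simp

open Classical in
theorem eq_prob {n : ℕ} {w : List Bool} (hw : w.length ≤ n) :
    av n (fun l => if l.take w.length = w then 1 else 0) = 1 / 2 ^ w.length := by
  induction w generalizing n with
  | nil =>
    simp only [List.length_nil, List.take_zero, if_true, pow_zero, div_one]
    exact av_const n 1
  | cons b w ih =>
    obtain ⟨m, rfl⟩ : ∃ m, n = m + 1 := ⟨n - 1, by simp only [List.length_cons] at hw; omega⟩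
    have hw' : w.length ≤ m := by simp only [List.length_cons] at hw; omega
    have h0 := ih hw'
    change (av m (fun l => if (false :: l).take (w.length + 1) = b :: w then 1 else 0) +
      av m (fun l => if (true :: l).take (w.length + 1) = b :: w then 1 else 0)) / 2 =
        1 / 2 ^ (w.length + 1)
    simp only [List.take_succ_cons, List.cons.injEq]
    have h2 : av m (fun _ => (0 : ℝ)) = 0 := av_const m 0
    cases b with
    | false =>
      simp only [true_and, Bool.true_eq_false, false_and, if_false]
      rw [h0, h2, add_zero, pow_succ]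
      field_simp
    | true =>
      simp only [true_and, Bool.false_eq_true, false_and, if_false]
      rw [h0, h2, zero_add, pow_succ]
      field_simp

theorem jOf_append {n : ℕ} {l l' : List Bool} (h : l.length = 3 * n) : jOf n (l ++ l') = jOf n l := by
  unfold jOf
  rw [List.take_append_of_le_length (by omega)]

theorem wOf_append {n : ℕ} {l l' : List Bool} (h : l.length = 3 * n) : wOf n (l ++ l') = wOf n l := by
  unfold wOf
  have e1 : (l ++ l').drop n = l.drop n ++ l' := List.drop_append_of_le_length (by omega)
  have e2 : (l ++ l').drop (2 * n) = l.drop (2 * n) ++ l' :=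
    List.drop_append_of_le_length (by omega)
  have e3 : (l.drop n ++ l').take n = (l.drop n).take n :=
    List.take_append_of_le_length (by rw [List.length_drop]; omega)
  rw [e1, e2, e3]
  apply List.take_append_of_le_length
  have h1 := par_lead_le ((l.drop n).take n)
  rw [List.length_take] at h1
  rw [List.length_drop]
  omega

private theorem par_jOf {n : ℕ} {l₁ l₂ : List Bool} (h₁ : l₁.length = n) :
    jOf n (l₁ ++ l₂) = (lead l₁).length := by
  unfold jOf
  rw [List.take_append_of_le_length (by omega), List.take_of_length_le (by omega)]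

private theorem par_wOf {n : ℕ} {l₁ l₂ l₃ : List Bool} (h₁ : l₁.length = n) (h₂ : l₂.length = n) :
    wOf n (l₁ ++ (l₂ ++ l₃)) = l₃.take (lead l₂).length := by
  unfold wOf
  have h3 : (l₁ ++ (l₂ ++ l₃)).drop n = l₂ ++ l₃ := List.drop_left' h₁
  have h4 : (l₁ ++ (l₂ ++ l₃)).drop (2 * n) = l₃ := by
    rw [← List.append_assoc]
    exact List.drop_left' (by rw [List.length_append]; omega)
  have h5 : (l₂ ++ l₃).take n = l₂ := List.take_left' h₂
  rw [h3, h4, h5]

open Classical in
private theorem par_ind {n j : ℕ} {w l₁ l₂ l₃ : List Bool} (h₁ : l₁.length = n)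
    (h₂ : l₂.length = n) (h₃ : l₃.length = n) :
    (if jOf n (l₁ ++ (l₂ ++ l₃)) = j ∧ wOf n (l₁ ++ (l₂ ++ l₃)) = w then (1 : ℝ) else 0) =
      (if (lead l₁).length = j then 1 else 0) * ((if (lead l₂).length = w.length then 1 else 0) *
        (if l₃.take w.length = w then 1 else 0)) := by
  rw [par_jOf h₁, par_wOf h₁ h₂]
  have hle : (lead l₂).length ≤ n := h₂ ▸ par_lead_le l₂
  have key : l₃.take (lead l₂).length = w ↔ (lead l₂).length = w.length ∧
      l₃.take w.length = w := by
    constructor
    · intro h
      have h4 : (lead l₂).length = w.length := by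
        rw [← h, List.length_take]
        omega
      exact ⟨h4, by rw [← h4]; exact h⟩
    · rintro ⟨h4, h5⟩
      rw [h4]
      exact h5
  by_cases c1 : (lead l₁).length = j
  · by_cases c2 : (lead l₂).length = w.length
    · by_cases c3 : l₃.take w.length = w
      · rw [if_pos ⟨c1, key.2 ⟨c2, c3⟩⟩, if_pos c1, if_pos c2, if_pos c3]
        norm_num
      · rw [if_neg (fun h => c3 (key.1 h.2).2), if_neg c3]
        norm_num
    · rw [if_neg (fun h => c2 (key.1 h.2).1), if_neg c2]
      norm_num
  · rw [if_neg (fun h => c1 h.1), if_neg c1]
    norm_num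

private theorem par_mul_right (n : ℕ) (c : ℝ) (F : List Bool → ℝ) :
    av n (fun l => F l * c) = av n F * c := by
  rw [mul_comm, ← av_mul]
  apply av_congr
  intro l _
  ring

open Classical in
theorem par_prob {n j : ℕ} {w : List Bool} (hj : j < n) (hw : w.length < n) :
    av (3 * n) (fun l => if jOf n l = j ∧ wOf n l = w then 1 else 0) =
      1 / 2 ^ (j + 1) * (1 / 2 ^ (2 * w.length + 1)) := by
  rw [show 3 * n = n + (n + n) by ring, av_append]
  have h1 : ∀ l₁ : List Bool, l₁.length = n →
      av (n + n) (fun l' => if jOf n (l₁ ++ l') = j ∧ wOf n (l₁ ++ l') = w then (1 : ℝ) else 0) =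
        (if (lead l₁).length = j then 1 else 0) * (1 / 2 ^ (w.length + 1) * (1 / 2 ^ w.length)) := by
    intro l₁ h₁
    rw [av_append]
    have h2 : ∀ l₂ : List Bool, l₂.length = n →
        av n (fun l₃ => if jOf n (l₁ ++ (l₂ ++ l₃)) = j ∧ wOf n (l₁ ++ (l₂ ++ l₃)) = w
          then (1 : ℝ) else 0) = (if (lead l₁).length = j then 1 else 0) *
            ((if (lead l₂).length = w.length then 1 else 0) * (1 / 2 ^ w.length)) := by
      intro l₂ h₂
      rw [← eq_prob hw.le, ← av_mul, ← av_mul]
      exact av_congr fun l₃ h₃ => par_ind h₁ h₂ h₃
    rw [av_congr h2, av_mul, par_mul_right, lead_prob hw]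
  rw [av_congr h1, par_mul_right, lead_prob hj]
  congr 1
  rw [div_mul_div_comm, one_mul, ← pow_add]
  congr 2
  ring

end Pool.Agent.ZL
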