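import Pool.Agent.ZL.Tri
import Pool.Agent.ZL.Par
import Pool.Agent.ZL.Lift
import Pool.Agent.ZL.Blk

set_option autoImplicit false

/-!
# ZL-TriP: the success probability of a trial
-/

namespace Pool.Agent.ZL

open Finset

open Classical in
/-- the indicator of the good event, depending on the blocks and on the seed -/
private noncomputable def ind {n m m' j : ℕ} (A : AAlg) (w : List Bool) (X : Fin m → Pr n) (a a' : ℝ)
    (ω : Fin m' → Bg j (Pr n)) (r : List Bool) : ℝ :=
  if Sm (yy X ω) ∧ Found (gr (yy X ω)) (A ((code (gr (yy X ω)), w), r)) a ∧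
    (RR m ω : ℝ) ≤ a - a' then 1 else 0

private lemma ind_nonneg {n m m' j : ℕ} (A : AAlg) (w : List Bool) (X : Fin m → Pr n) (a a' : ℝ)
    (ω : Fin m' → Bg j (Pr n)) (r : List Bool) : 0 ≤ ind A w X a a' ω r := by
  unfold ind
  split_ifs
  · exact zero_le_one
  · exact le_rfl

private lemma av_nonneg {n : ℕ} {F : List Bool → ℝ} (h : ∀ l, 0 ≤ F l) : 0 ≤ av n F := by
  have h1 := av_mono (n := n) (F := fun _ => 0) (H := F) (fun l _ => h l)
  rwa [av_const] at h1

/-- the sum of the indicator over the blocks and the seeds -/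
private lemma sum_ind {n m m' j Q : ℕ} (A : AAlg) (w : List Bool) (X : Fin m → Pr n) (a a' : ℝ) :
    ∑ ω : Fin m' → Bg j (Pr n), ∑ r : Fin Q → Bool, ind A w X a a' ω (List.ofFn r) =
      (cn (j := j) m' X (fun (H : SimpleGraph (Fin n)) (ρ : Fin Q → Bool) =>
        Found H (A ((code H, w), List.ofFn ρ)) a) (a - a') : ℝ) := by
  classical
  unfold cn
  rw [card_filter, ← Fintype.sum_prod_type' (f := fun (ω : Fin m' → Bg j (Pr n)) (r : Fin Q → Bool) =>
    ind A w X a a' ω (List.ofFn r))]
  rw [Nat.cast_sum]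
  refine sum_congr rfl fun p _ => ?_
  unfold ind
  by_cases h : Sm (yy X p.1) ∧ Found (gr (yy X p.1)) (A ((code (gr (yy X p.1)), w), List.ofFn p.2)) a ∧
    (RR m p.1 : ℝ) ≤ a - a'
  · rw [if_pos h, if_pos h, Nat.cast_one]
  · rw [if_neg h, if_neg h, Nat.cast_zero]

private lemma card_Bg (n j : ℕ) : (Fintype.card (Bg j (Pr n)) : ℝ) = 2 ^ j * (n : ℝ) ^ 2 := by
  rw [Fintype.card_prod, Fintype.card_prod, Fintype.card_fun, Fintype.card_fin, Fintype.card_fin,
    Fintype.card_bool]
  push_cast
  ring

private lemma bks_append {n : ℕ} (hn : 0 < n) (j m' : ℕ) (l l' : List Bool)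
    (h : l.length = m' * (3 * n)) : bks hn j m' (l ++ l') = bks hn j m' l := by
  funext i
  unfold bks
  have h1 : (i : ℕ) * (3 * n) + 3 * n ≤ m' * (3 * n) := by
    have h2 : ((i : ℕ) + 1) * (3 * n) ≤ m' * (3 * n) := Nat.mul_le_mul_right _ i.2
    rwa [add_mul, one_mul] at h2
  rw [List.drop_append_of_le_length (by omega), List.take_append_of_le_length (by
    rw [List.length_drop]
    omega)]

/-- the average over the blocks, the unused bits and the seed -/
private lemma av_ind {n m m' j Q : ℕ} (hn : 14 ≤ n) (hn0 : 0 < n) (hj : j < n) (hm' : m' ≤ n * n)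
    (A : AAlg) (w : List Bool) (X : Fin m → Pr n) (a a' : ℝ) :
    1 / 2 * prob j m' X (fun (H : SimpleGraph (Fin n)) (ρ : Fin Q → Bool) =>
        Found H (A ((code H, w), List.ofFn ρ)) a) (a - a') ≤
      av (3 * n * (n * n) + Q) (fun l => ind A w X a a' (bks hn0 j m' l)
        (l.drop (3 * n * (n * n)))) := by
  classical
  have e1 : 3 * n * (n * n) + Q = m' * (3 * n) + ((n * n - m') * (3 * n) + Q) := by
    have h1 : m' * (3 * n) + (n * n - m') * (3 * n) = 3 * n * (n * n) := by
      rw [← add_mul, Nat.add_sub_cancel' hm', mul_comm]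
    omega
  have e2 : 3 * n * (n * n) = m' * (3 * n) + (n * n - m') * (3 * n) := by omega
  have h2 : av (3 * n * (n * n) + Q) (fun l => ind A w X a a' (bks hn0 j m' l)
        (l.drop (3 * n * (n * n)))) =
      av (m' * (3 * n)) (fun l => av Q (fun r => ind A w X a a' (bks hn0 j m' l) r)) := by
    rw [e1, av_append]
    refine av_congr fun l hl => ?_
    rw [av_append]
    have h3 : av ((n * n - m') * (3 * n)) (fun l₃ => av Q fun l₄ =>
        ind A w X a a' (bks hn0 j m' (l ++ (l₃ ++ l₄))) ((l ++ (l₃ ++ l₄)).drop (3 * n * (n * n)))) =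
        av ((n * n - m') * (3 * n)) (fun _ => av Q fun r => ind A w X a a' (bks hn0 j m' l) r) := by
      refine av_congr fun l₃ hl₃ => av_congr fun l₄ _ => ?_
      rw [bks_append hn0 j m' l _ hl]
      have h4 : (l ++ (l₃ ++ l₄)).drop (3 * n * (n * n)) = l₄ := by
        rw [← List.append_assoc]
        exact List.drop_left' (by rw [List.length_append, hl, hl₃, e2])
      rw [h4]
    rw [h3, av_const]
  rw [h2]
  haveI : Nonempty (Fin n) := ⟨⟨0, hn0⟩⟩
  have h3 := lift (T := Bg j (Pr n)) (3 * n) (bk hn0 j) ((1 - n / 2 ^ n : ℝ) ^ 2) (by positivity)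
    (fun t => by
      refine (bk_prob hn0 hj.le t).trans_eq ?_
      have h4 : av (3 * n) (fun l => if bk hn0 j l = t then (1 : ℝ) else 0) =
          av (3 * n) (fun l => @ite ℝ (bk hn0 j l = t) (Classical.propDecidable _) 1 0) := by
        refine av_congr fun l _ => ?_
        by_cases h : bk hn0 j l = t
        · rw [if_pos h, if_pos h]
        · rw [if_neg h, if_neg h]
      exact congrArg _ h4) m'
    (fun ω => av Q (fun r => ind A w X a a' ω r)) (fun ω => av_nonneg fun r => ind_nonneg _ _ _ _ _ _ _)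
  refine le_trans ?_ h3
  have h4 : ∑ ω : Fin m' → Bg j (Pr n), av Q (fun r => ind A w X a a' ω r) =
      (cn (j := j) m' X (fun (H : SimpleGraph (Fin n)) (ρ : Fin Q → Bool) =>
        Found H (A ((code H, w), List.ofFn ρ)) a) (a - a') : ℝ) / 2 ^ Q := by
    rw [← sum_ind, Finset.sum_div]
    refine sum_congr rfl fun ω _ => ?_
    rw [av_eq]
  rw [h4, card_Bg]
  have h5 : prob j m' X (fun (H : SimpleGraph (Fin n)) (ρ : Fin Q → Bool) =>
        Found H (A ((code H, w), List.ofFn ρ)) a) (a - a') =
      (cn (j := j) m' X (fun (H : SimpleGraph (Fin n)) (ρ : Fin Q → Bool) =>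
        Found H (A ((code H, w), List.ofFn ρ)) a) (a - a') : ℝ) / 2 ^ Q /
        (2 ^ j * (n : ℝ) ^ 2) ^ m' := by
    unfold prob
    rw [Fintype.card_fun, Fintype.card_bool, Fintype.card_fin]
    push_cast
    rw [div_div, mul_comm]
  rw [h5]
  exact mul_le_mul_of_nonneg_right (bk_loss hn (by rw [pow_two]; exact hm')) (by positivity)

open Classical in
theorem tri_prob {n m m' j : ℕ} (hn : 14 ≤ n) (hj : j < n) (hm : m ≤ m') (hm' : m' ≤ n * n) (A : AAlg)
    (q : Polynomial ℕ) (w : List Bool) (hw : w.length < n) (X : Fin m → Pr n) (hX : Sm X)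
    (hE : edg (code (gr X)) = List.ofFn fun i => p2 (X i)) (a a' : ℝ) :
    1 / 2 ^ (j + 2 * w.length + 3) *
      prob j m' X (fun (H : SimpleGraph (Fin n)) (ρ : Fin (q.eval n) → Bool) =>
        Found H (A ((code H, w), List.ofFn ρ)) a) (a - a') ≤
      av (len q n) (fun l => if ∃ c ∈ trial A (code (gr X)) l, Found (gr X) c a' then 1 else 0) := by
  have hn0 : 0 < n := by omega
  have h1 := av_ind (Q := q.eval n) hn hn0 hj hm' A w X a a'
  obtain ⟨I, hI⟩ : ∃ I : ℝ, I = av (3 * n * (n * n) + q.eval n) (fun l => ind A w X a a'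
    (bks hn0 j m' l) (l.drop (3 * n * (n * n)))) := ⟨_, rfl⟩
  rw [← hI] at h1
  unfold len
  rw [av_append]
  have h2 : av (3 * n) (fun l => I * (if jOf n l = j ∧ wOf n l = w then 1 else 0)) ≤
      av (3 * n) (fun l => av (3 * n * (n * n) + q.eval n) (fun l' =>
        if ∃ c ∈ trial A (code (gr X)) (l ++ l'), Found (gr X) c a' then 1 else 0)) := by
    refine av_mono fun l hl => ?_
    by_cases hc : jOf n l = j ∧ wOf n l = w
    · rw [if_pos hc, mul_one, hI]
      refine av_mono fun l' hl' => ?_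
      unfold ind
      split_ifs with h3 h4 h4
      · exact le_rfl
      · exfalso
        apply h4
        have h5 : (l ++ l').drop (3 * n) = l' := List.drop_left' hl
        refine trial_ok hn0 hj.le hm hm' A w X hX hE (l ++ l') ?_ ?_ ?_ a a' ?_ ?_ ?_
        · rw [List.length_append, hl, hl']
          omega
        · rw [jOf_append hl]
          exact hc.1
        · rw [wOf_append hl]
          exact hc.2
        · rw [h5]
          exact h3.1
        · rw [h5]
          exact h3.2.1
        · rw [h5]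
          exact h3.2.2
      · exact zero_le_one
      · exact le_rfl
    · rw [if_neg hc, mul_zero]
      refine av_nonneg fun l' => ?_
      split_ifs
      · exact zero_le_one
      · exact le_rfl
  refine le_trans ?_ h2
  rw [av_mul, par_prob hj hw]
  have h3 : (1 : ℝ) / 2 ^ (j + 2 * w.length + 3) = 1 / 2 * (1 / 2 ^ (j + 1) * (1 / 2 ^ (2 * w.length + 1))) := by
    rw [div_mul_div_comm, div_mul_div_comm, ← pow_add, ← pow_succ']
    norm_num
    ring_nf
  rw [h3, mul_right_comm]
  exact mul_le_mul_of_nonneg_right h1 (by positivity)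

end Pool.Agent.ZL
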