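import Pool.Agent.ZL.Run
import Pool.Agent.ZL.TriP
import Pool.Agent.ZL.Mst

set_option autoImplicit false

/-!
# ZL-AmpC: the success probability of the amplified algorithm
-/

namespace Pool.Agent.ZL

open Finset

open Classical in
private lemma count_eq (n m q : ℕ) (a : ℝ) (A : List (List Bool) → List Bool → List Bool) :
    (((Gr n m) ×ˢ (univ : Finset (Fin q → Bool))).filter fun p =>
      Found p.1 (A (code p.1) (List.ofFn p.2)) a).card =
    ∑ H ∈ Gr n m, ((univ : Finset (Fin q → Bool)).filter fun ρ =>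
      Found H (A (code H) (List.ofFn ρ)) a).card := by
  rw [card_filter, sum_product]
  refine sum_congr rfl fun G _ => ?_
  rw [card_filter]

open Classical in
theorem succ_av (n m q : ℕ) (a : ℝ) (A : List (List Bool) → List Bool → List Bool) :
    succ n m q a A = (∑ G ∈ Gr n m, av q (fun l => if Found G (A (code G) l) a then 1 else 0)) /
      (Gr n m).card := by
  unfold succ
  rw [count_eq, mul_comm, ← div_div]
  congr 1
  rw [Nat.cast_sum, Finset.sum_div]
  refine sum_congr rfl fun G _ => ?_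
  rw [av_eq, card_filter, Nat.cast_sum]
  congr 1
  refine sum_congr rfl fun r _ => ?_
  by_cases h : Found G (A (code G) (List.ofFn r)) a
  · rw [if_pos h, if_pos h, Nat.cast_one]
  · rw [if_neg h, if_neg h, Nat.cast_zero]

theorem succ_nonneg (n m q : ℕ) (a : ℝ) (A : List (List Bool) → List Bool → List Bool) :
    0 ≤ succ n m q a A := by
  unfold succ
  positivity

theorem succ_le_one (n m q : ℕ) (a : ℝ) (A : List (List Bool) → List Bool → List Bool) :
    succ n m q a A ≤ 1 := by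
  classical
  unfold succ
  refine div_le_one_of_le₀ ?_ (by positivity)
  have h1 : ((Gr n m) ×ˢ (univ : Finset (Fin q → Bool))).card = (Gr n m).card * 2 ^ q := by
    rw [card_product, card_univ, Fintype.card_fun, Fintype.card_bool, Fintype.card_fin]
  have h2 := card_filter_le ((Gr n m) ×ˢ (univ : Finset (Fin q → Bool)))
    (fun p => Found p.1 (A (code p.1) (List.ofFn p.2)) a)
  rw [h1] at h2
  exact_mod_cast h2

private lemma av_nonneg' {n : ℕ} {F : List Bool → ℝ} (h : ∀ l, 0 ≤ F l) : 0 ≤ av n F := by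
  have h1 := av_mono (n := n) (F := fun _ => 0) (H := F) (fun l _ => h l)
  rwa [av_const] at h1

/-- the elementary inequality at the end -/
private lemma fin_ineq {ι : Type*} (S B : Finset ι) (hB : B ⊆ S) (f : ι → ℝ) (τ E : ℝ)
    (hτ : 0 < τ) (hE : 0 ≤ E) (hE1 : E ≤ 1) (hf : ∀ i ∈ S, 0 ≤ f i)
    (hg : ∀ i ∈ S, i ∉ B → 1 - E ≤ f i) (hc : (B.card : ℝ) ≤ τ * S.card) (hS : 0 < S.card) :
    1 - τ - E ≤ (∑ i ∈ S, f i) / S.card := by
  classical
  have hSr : (0 : ℝ) < S.card := by exact_mod_cast hS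
  rw [le_div_iff₀ hSr]
  have h1 : ∑ i ∈ S \ B, f i ≤ ∑ i ∈ S, f i :=
    sum_le_sum_of_subset_of_nonneg sdiff_subset fun i hi _ => hf i hi
  have h2 : ((S \ B).card : ℝ) * (1 - E) ≤ ∑ i ∈ S \ B, f i := by
    rw [← nsmul_eq_mul]
    refine card_nsmul_le_sum _ _ _ fun i hi => ?_
    rw [mem_sdiff] at hi
    exact hg i hi.1 hi.2
  have h3 : ((S \ B).card : ℝ) = S.card - B.card := by
    rw [card_sdiff_of_subset hB, Nat.cast_sub (card_le_card hB)]
  rw [h3] at h2
  have h4 : (1 - τ) * S.card * (1 - E) ≤ (S.card - B.card : ℝ) * (1 - E) :=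
    mul_le_mul_of_nonneg_right (by linarith) (by linarith)
  have h5 : 0 ≤ τ * E * S.card := by positivity
  nlinarith

open Classical in
theorem amp_core {n m m' j k : ℕ} (hn : 14 ≤ n) (hj : j < n) (hm : m ≤ m') (hm' : m' ≤ n * n)
    (hk : 2 * 4 ^ j ≤ k + 2) (A : AAlg) (q : Polynomial ℕ) (D : ℕ) (w : List Bool)
    (hw : w.length < n) (a a' κ p τ : ℝ) (hb : (m : ℝ) / 2 ^ j ≤ (a - a') / 2) (hκ : 0 < κ)
    (h1 : κ * (n : ℝ) ^ (2 * m) ≤ ((univ : Finset (Fin m → Pr n)).filter Sm).card)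
    (h2 : κ * (n : ℝ) ^ (2 * m') ≤ ((univ : Finset (Fin m' → Pr n)).filter Sm).card)
    (hp : 0 ≤ p) (hps : p ≤ succ n m' (q.eval n) a fun x r => A ((x, w), r)) (hτ : 0 < τ) :
    1 - τ - Real.exp (-((n : ℝ) ^ D * (1 / 2 ^ (j + 2 * w.length + 3) *
      (p / 2 * (τ * κ) ^ (k + 2) * (κ * (p / 2)) ^ (k + 2) - Real.exp (-(a - a') / 6))))) ≤
      succ n m ((ampq q D).eval n) a' fun x r => amp A q D (x, r) := by
  have hn0 : 0 < n := by omega
  have hnr : (0 : ℝ) < n := by exact_mod_cast hn0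
  have hpos : ∀ M : ℕ, κ * (n : ℝ) ^ (2 * M) ≤ ((univ : Finset (Fin M → Pr n)).filter Sm).card →
      0 < (Gr n M).card := by
    intro M hM
    rw [all_Sm] at hM
    have h3 : 0 < κ * (n : ℝ) ^ (2 * M) := by positivity
    have h4 : (0 : ℝ) < (((Gr n M).card * (M.factorial * 2 ^ M) : ℕ) : ℝ) := h3.trans_le hM
    have h5 : 0 < (Gr n M).card * (M.factorial * 2 ^ M) := by exact_mod_cast h4
    exact Nat.pos_of_mul_pos_right h5
  have hG := hpos m h1
  have hG' := hpos m' h2
  have hGr' : (0 : ℝ) < (Gr n m').card := by exact_mod_cast hG'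
  -- the sequences of the graphs
  have hX0 : ∀ G : SimpleGraph (Fin n), ∃ X : Fin m → Pr n, G ∈ Gr n m →
      Sm X ∧ gr X = G ∧ edg (code G) = List.ofFn fun i => p2 (X i) := by
    intro G
    by_cases hmem : G ∈ Gr n m
    · obtain ⟨X, hX⟩ := edg_code hmem
      exact ⟨X, fun _ => hX⟩
    · exact ⟨fun _ => (⟨0, hn0⟩, ⟨0, hn0⟩), fun h => absurd h hmem⟩
  choose X hX using hX0
  obtain ⟨L, hL⟩ : ∃ L : ℝ, L = p / 2 * (τ * κ) ^ (k + 2) * (κ * (p / 2)) ^ (k + 2) -
    Real.exp (-(a - a') / 6) := ⟨_, rfl⟩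
  have hps2 : p * ((Gr n m').card * Fintype.card (Fin (q.eval n) → Bool)) ≤
      ∑ H ∈ Gr n m', (((univ : Finset (Fin (q.eval n) → Bool)).filter fun ρ =>
        Found H (A ((code H, w), List.ofFn ρ)) a).card : ℝ) := by
    have h3 := hps
    unfold succ at h3
    rw [count_eq n m' (q.eval n) a (fun x r => A ((x, w), r)), le_div_iff₀ (by positivity),
      Nat.cast_sum] at h3
    rw [Fintype.card_fun, Fintype.card_bool, Fintype.card_fin]
    push_cast
    exact h3
  have hbad := bad (P := Fin (q.eval n) → Bool) hn0 hm hk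
    (fun H ρ => Found H (A ((code H, w), List.ofFn ρ)) a) (a - a') κ p τ hb hκ.le h1 h2 hp hps2 hτ X
    (fun G hG => ⟨(hX G hG).1, (hX G hG).2.1⟩)
  rw [← hL] at hbad ⊢
  obtain ⟨h, hh⟩ : ∃ h : ℝ, h = 1 / 2 ^ (j + 2 * w.length + 3) * L := ⟨_, rfl⟩
  rw [← hh]
  rcases le_or_gt (Real.exp (-((n : ℝ) ^ D * h))) 1 with hE | hE
  · rw [succ_av]
    refine fin_ineq (Gr n m) _ (filter_subset _ _) _ τ _ hτ (Real.exp_pos _).le hE ?_ ?_ hbad hG
    · intro G _
      refine av_nonneg' fun l => ?_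
      split_ifs
      · exact zero_le_one
      · exact le_rfl
    · intro G hGm hGb
      have h3 : L ≤ prob j m' (X G) (fun (H : SimpleGraph (Fin n)) (ρ : Fin (q.eval n) → Bool) =>
        Found H (A ((code H, w), List.ofFn ρ)) a) (a - a') := by
        by_contra hcon
        exact hGb (mem_filter.2 ⟨hGm, not_le.1 hcon⟩)
      obtain ⟨x1, x2, x3⟩ := hX G hGm
      have h4 := tri_prob hn hj hm hm' A q w hw (X G) x1 (by rw [x2]; exact x3) a a'
      rw [x2] at h4
      have h5 : h ≤ av (len q n) (fun l =>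
          if ∃ c ∈ trial A (code G) l, Found G c a' then 1 else 0) := by
        rw [hh]
        exact (mul_le_mul_of_nonneg_left h3 (by positivity)).trans h4
      exact amp_prob G A q D a' h h5
  · have h3 := succ_nonneg n m ((ampq q D).eval n) a' fun x r => amp A q D (x, r)
    linarith

end Pool.Agent.ZL
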