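import Mathlib

set_option autoImplicit false

/-!
# ZL-Asy: asymptotics (Mathlib only)
-/

namespace Pool.Agent.ZL

open Filter

private lemma exp_small (b c s : ℝ) (hb : 0 < b) (hc : 0 < c) :
    ∀ᶠ n : ℕ in atTop, Real.exp (-b * n) ≤ c * (n : ℝ) ^ (-s) := by
  have h := (tendsto_rpow_mul_exp_neg_mul_atTop_nhds_zero s b hb).comp tendsto_natCast_atTop_atTop
  filter_upwards [h.eventually_lt_const hc, eventually_ge_atTop 1] with n h1 h2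
  have hn : (0 : ℝ) < n := by exact_mod_cast h2
  simp only [Function.comp] at h1
  have h3 : 0 < (n : ℝ) ^ s := Real.rpow_pos_of_pos hn s
  rw [Real.rpow_neg hn.le, ← div_eq_mul_inv, le_div_iff₀ h3]
  linarith [mul_comm ((n : ℝ) ^ s) (Real.exp (-b * n))]

theorem asyA (κ κ₁ β : ℝ) (hκ : 0 < κ) (hκ₁ : 0 < κ₁) (hβ : 0 < β) (k C K : ℕ) :
    ∃ D : ℕ, ∀ᶠ n : ℕ in atTop, ∀ p : ℝ, 1 / (n : ℝ) ^ C ≤ p →
      Real.exp (-((n : ℝ) ^ D * (κ₁ * (p / 2 * (1 / (2 * (n : ℝ) ^ K) * κ) ^ (k + 2) *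
        (κ * (p / 2)) ^ (k + 2) - Real.exp (-(β * n) / 6))))) ≤ 1 / (2 * (n : ℝ) ^ K) := by
  generalize k + 2 = r
  obtain ⟨c0, hc0⟩ : ∃ c0 : ℝ, c0 = 1 / 2 * (κ / 2) ^ r * (κ / 2) ^ r := ⟨_, rfl⟩
  have hc0pos : 0 < c0 := by
    rw [hc0]
    positivity
  refine ⟨C + K * r + C * r + 2, ?_⟩
  have e1 := exp_small (β / 6) (c0 / 2) ((C + K * r + C * r : ℕ) : ℝ) (by positivity)
    (by positivity)
  have e2 := exp_small 1 (1 / 2) (K : ℝ) one_pos (by norm_num)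
  filter_upwards [e1, e2, eventually_ge_atTop 1,
    eventually_ge_atTop ⌈2 / (κ₁ * c0)⌉₊] with n h1 h2 h3 h4 p hp
  have hn : (0 : ℝ) < n := by exact_mod_cast h3
  have h4' : 2 / (κ₁ * c0) ≤ n := (Nat.le_ceil _).trans (by exact_mod_cast h4)
  rw [Real.rpow_neg hn.le, Real.rpow_natCast] at h1 h2
  have hp0 : 0 < p := lt_of_lt_of_le (by positivity) hp
  have hE : 0 < (n : ℝ) ^ (C + K * r + C * r) := by positivity
  have hP : c0 / (n : ℝ) ^ (C + K * r + C * r) ≤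
      p / 2 * (1 / (2 * (n : ℝ) ^ K) * κ) ^ r * (κ * (p / 2)) ^ r := by
    have h5 : c0 / (n : ℝ) ^ (C + K * r + C * r) =
        (1 / (n : ℝ) ^ C) / 2 * (1 / (2 * (n : ℝ) ^ K) * κ) ^ r *
          (κ * ((1 / (n : ℝ) ^ C) / 2)) ^ r := by
      have h6 : (1 / (2 * (n : ℝ) ^ K) * κ) = (κ / 2) * (1 / (n : ℝ) ^ K) := by
        field_simp
      have h7 : κ * ((1 / (n : ℝ) ^ C) / 2) = (κ / 2) * (1 / (n : ℝ) ^ C) := by
        field_simp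
      rw [h6, h7, mul_pow, mul_pow, hc0, one_div_pow, one_div_pow, ← pow_mul, ← pow_mul, pow_add,
        pow_add]
      field_simp
    rw [h5]
    gcongr
  have hx : -(β * (n : ℝ)) / 6 = -(β / 6) * n := by ring
  rw [hx]
  have h8 : c0 / 2 / (n : ℝ) ^ (C + K * r + C * r) ≤
      p / 2 * (1 / (2 * (n : ℝ) ^ K) * κ) ^ r * (κ * (p / 2)) ^ r -
        Real.exp (-(β / 6) * n) := by
    rw [← div_eq_mul_inv] at h1
    have h9 : c0 / (n : ℝ) ^ (C + K * r + C * r) =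
      c0 / 2 / (n : ℝ) ^ (C + K * r + C * r) + c0 / 2 / (n : ℝ) ^ (C + K * r + C * r) := by ring
    linarith
  have h10 : (n : ℝ) ≤ (n : ℝ) ^ (C + K * r + C * r + 2) *
      (κ₁ * (p / 2 * (1 / (2 * (n : ℝ) ^ K) * κ) ^ r * (κ * (p / 2)) ^ r -
        Real.exp (-(β / 6) * n))) := by
    have h11 := mul_le_mul_of_nonneg_left (mul_le_mul_of_nonneg_left h8 hκ₁.le)
      (show 0 ≤ (n : ℝ) ^ (C + K * r + C * r + 2) by positivity)
    refine le_trans ?_ h11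
    have h12 : (n : ℝ) ^ (C + K * r + C * r + 2) *
        (κ₁ * (c0 / 2 / (n : ℝ) ^ (C + K * r + C * r))) = n * (n * (κ₁ * c0) / 2) := by
      rw [pow_add _ (C + K * r + C * r) 2]
      field_simp
    rw [h12]
    have h13 : 1 ≤ n * (κ₁ * c0) / 2 := by
      rw [div_le_iff₀ (by positivity)] at h4'
      linarith
    nlinarith
  refine (Real.exp_le_exp.2 (neg_le_neg h10)).trans ?_
  rw [neg_one_mul] at h2
  refine h2.trans (le_of_eq ?_)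
  field_simp

theorem asyB (κ κ₁ β τ : ℝ) (hκ : 0 < κ) (hκ₁ : 0 < κ₁) (hβ : 0 < β) (hτ : 0 < τ) (k : ℕ) :
    ∃ δ : ℝ, 0 < δ ∧ ∀ᶠ n : ℕ in atTop, ∀ p : ℝ, (n : ℝ) ^ (-δ) ≤ p →
      Real.exp (-((n : ℝ) ^ 1 * (κ₁ * (p / 2 * (τ * κ) ^ (k + 2) *
        (κ * (p / 2)) ^ (k + 2) - Real.exp (-(β * n) / 6))))) ≤ τ := by
  obtain ⟨c1, hc1⟩ : ∃ c1 : ℝ, c1 = 1 / 2 * (τ * κ) ^ (k + 2) * (κ / 2) ^ (k + 2) := ⟨_, rfl⟩
  have hc1pos : 0 < c1 := by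
    rw [hc1]
    positivity
  have hk3 : (0 : ℝ) < 4 * ((k : ℝ) + 3) := by positivity
  refine ⟨1 / (4 * (k + 3)), by positivity, ?_⟩
  have e1 := exp_small (β / 6) (c1 / 2) (1 / 4) (by positivity) (by positivity)
  have e2 : ∀ᶠ n : ℕ in atTop, -Real.log τ ≤ κ₁ * (c1 / 2) * (n : ℝ) ^ (3 / 4 : ℝ) := by
    have h := ((tendsto_rpow_atTop (show (0 : ℝ) < 3 / 4 by norm_num)).const_mul_atTop
      (show 0 < κ₁ * (c1 / 2) by positivity)).comp tendsto_natCast_atTop_atTop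
    exact h.eventually_ge_atTop (-Real.log τ)
  filter_upwards [e1, e2, eventually_ge_atTop 1] with n h1 h2 h3 p hp
  have hn : (0 : ℝ) < n := by exact_mod_cast h3
  have hq0 : 0 < (n : ℝ) ^ (-(1 / (4 * ((k : ℝ) + 3)))) := Real.rpow_pos_of_pos hn _
  have hp0 : 0 < p := lt_of_lt_of_le hq0 hp
  have hP : c1 * (n : ℝ) ^ (-(1 / 4 : ℝ)) ≤
      p / 2 * (τ * κ) ^ (k + 2) * (κ * (p / 2)) ^ (k + 2) := by
    have h5 : c1 * (n : ℝ) ^ (-(1 / 4 : ℝ)) =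
        (n : ℝ) ^ (-(1 / (4 * ((k : ℝ) + 3)))) / 2 * (τ * κ) ^ (k + 2) *
          (κ * ((n : ℝ) ^ (-(1 / (4 * ((k : ℝ) + 3)))) / 2)) ^ (k + 2) := by
      have h6 : (n : ℝ) ^ (-(1 / 4 : ℝ)) = ((n : ℝ) ^ (-(1 / (4 * ((k : ℝ) + 3))))) ^ (k + 3) := by
        rw [← Real.rpow_natCast ((n : ℝ) ^ (-(1 / (4 * ((k : ℝ) + 3))))) (k + 3), ← Real.rpow_mul hn.le]
        congr 1
        push_cast
        field_simp
      rw [h6, hc1]
      generalize (n : ℝ) ^ (-(1 / (4 * ((k : ℝ) + 3)))) = q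
      have h7 : κ * (q / 2) = (κ / 2) * q := by ring
      rw [h7, mul_pow (κ / 2) q, pow_succ q (k + 2)]
      ring
    rw [h5]
    gcongr
  have hx : -(β * (n : ℝ)) / 6 = -(β / 6) * n := by ring
  rw [hx]
  have h8 : c1 / 2 * (n : ℝ) ^ (-(1 / 4 : ℝ)) ≤
      p / 2 * (τ * κ) ^ (k + 2) * (κ * (p / 2)) ^ (k + 2) - Real.exp (-(β / 6) * n) := by
    linarith
  have h9 : -Real.log τ ≤ (n : ℝ) ^ 1 * (κ₁ * (p / 2 * (τ * κ) ^ (k + 2) *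
      (κ * (p / 2)) ^ (k + 2) - Real.exp (-(β / 6) * n))) := by
    have h11 := mul_le_mul_of_nonneg_left (mul_le_mul_of_nonneg_left h8 hκ₁.le)
      (show 0 ≤ (n : ℝ) ^ 1 by positivity)
    refine le_trans (h2.trans (le_of_eq ?_)) h11
    have h12 : (n : ℝ) ^ (3 / 4 : ℝ) = n * (n : ℝ) ^ (-(1 / 4 : ℝ)) := by
      rw [← Real.rpow_one_add' hn.le (by norm_num)]
      norm_num
    rw [h12]
    ring
  refine (Real.exp_le_exp.2 (neg_le_neg h9)).trans (le_of_eq ?_)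
  rw [neg_neg, Real.exp_log hτ]

/-- the noise exponent -/
theorem exists_j (c β : ℝ) (hc : 0 < c) (hβ : 0 < β) : ∃ j : ℕ, c / 2 ^ j ≤ β / 2 := by
  obtain ⟨j, hj⟩ := pow_unbounded_of_one_lt (2 * c / β) one_lt_two
  refine ⟨j, ?_⟩
  rw [div_lt_iff₀ hβ] at hj
  rw [div_le_iff₀ (by positivity)]
  linarith

end Pool.Agent.ZL
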