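import Pool.Agent.ZL.Asy

set_option autoImplicit false

/-!
# ZL-AsyX: explicit exponents
-/

namespace Pool.Agent.ZL

open Filter

private lemma exp_small' (b c s : ℝ) (hb : 0 < b) (hc : 0 < c) :
    ∀ᶠ n : ℕ in atTop, Real.exp (-b * n) ≤ c * (n : ℝ) ^ (-s) := by
  have h := (tendsto_rpow_mul_exp_neg_mul_atTop_nhds_zero s b hb).comp tendsto_natCast_atTop_atTop
  filter_upwards [h.eventually_lt_const hc, eventually_ge_atTop 1] with n h1 h2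
  have hn : (0 : ℝ) < n := by exact_mod_cast h2
  simp only [Function.comp] at h1
  have h3 : 0 < (n : ℝ) ^ s := Real.rpow_pos_of_pos hn s
  rw [Real.rpow_neg hn.le, ← div_eq_mul_inv, le_div_iff₀ h3]
  linarith [mul_comm ((n : ℝ) ^ s) (Real.exp (-b * n))]

theorem asyX (κ κ₁ β τ : ℝ) (hκ : 0 < κ) (hκ₁ : 0 < κ₁) (hβ : 0 < β) (hτ : 0 < τ) (k : ℕ) :
    ∀ᶠ n : ℕ in atTop, ∀ p : ℝ, (n : ℝ) ^ (-(1 / (4 * ((k : ℝ) + 3)))) ≤ p →
      Real.exp (-((n : ℝ) ^ 1 * (κ₁ * (p / 2 * (τ * κ) ^ (k + 2) *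
        (κ * (p / 2)) ^ (k + 2) - Real.exp (-(β * n) / 6))))) ≤ τ := by
  obtain ⟨c1, hc1⟩ : ∃ c1 : ℝ, c1 = 1 / 2 * (τ * κ) ^ (k + 2) * (κ / 2) ^ (k + 2) := ⟨_, rfl⟩
  have hc1pos : 0 < c1 := by
    rw [hc1]
    positivity
  have hk3 : (0 : ℝ) < 4 * ((k : ℝ) + 3) := by positivity
  have e1 := exp_small' (β / 6) (c1 / 2) (1 / 4) (by positivity) (by positivity)
  have e2 : ∀ᶠ n : ℕ in atTop, -Real.log τ ≤ κ₁ * (c1 / 2) * (n : ℝ) ^ (3 / 4 : ℝ) := by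
    have h := ((tendsto_rpow_atTop (show (0 : ℝ) < 3 / 4 by norm_num)).const_mul_atTop
      (show 0 < κ₁ * (c1 / 2) by positivity)).comp tendsto_natCast_atTop_atTop
    exact h.eventually_ge_atTop (-Real.log τ)
  filter_upwards [e1, e2, eventually_ge_atTop 1] with n h1 h2 h3 p hp
  have hn : (0 : ℝ) < n := by exact_mod_cast h3
  have hq0 : 0 < (n : ℝ) ^ (-(1 / (4 * ((k : ℝ) + 3)))) := Real.rpow_pos_of_pos hn _
  have hp0 : 0 < p := lt_of_lt_of_le hq0 hp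
  have hP : c1 * (n : ℝ) ^ (-(1 / 4 : ℝ)) ≤
      p / 2 * (τ * κ) ^ (k + 2) * (κ * (p / 2)) ^ (k + 2) := by
    have h5 : c1 * (n : ℝ) ^ (-(1 / 4 : ℝ)) =
        (n : ℝ) ^ (-(1 / (4 * ((k : ℝ) + 3)))) / 2 * (τ * κ) ^ (k + 2) *
          (κ * ((n : ℝ) ^ (-(1 / (4 * ((k : ℝ) + 3)))) / 2)) ^ (k + 2) := by
      have h6 : (n : ℝ) ^ (-(1 / 4 : ℝ)) = ((n : ℝ) ^ (-(1 / (4 * ((k : ℝ) + 3))))) ^ (k + 3) := by
        rw [← Real.rpow_natCast ((n : ℝ) ^ (-(1 / (4 * ((k : ℝ) + 3))))) (k + 3), ← Real.rpow_mul hn.le]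
        refine congrArg (fun t => (n : ℝ) ^ t) ?_
        push_cast
        field_simp
      rw [h6, hc1]
      generalize (n : ℝ) ^ (-(1 / (4 * ((k : ℝ) + 3)))) = q
      have h7 : κ * (q / 2) = (κ / 2) * q := by ring
      rw [h7, mul_pow (κ / 2) q, pow_succ q (k + 2)]
      ring
    rw [h5]
    gcongr
  have hx : -(β * (n : ℝ)) / 6 = -(β / 6) * n := by ring
  rw [hx]
  have h8 : c1 / 2 * (n : ℝ) ^ (-(1 / 4 : ℝ)) ≤
      p / 2 * (τ * κ) ^ (k + 2) * (κ * (p / 2)) ^ (k + 2) - Real.exp (-(β / 6) * n) := by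
    linarith
  have h9 : -Real.log τ ≤ (n : ℝ) ^ 1 * (κ₁ * (p / 2 * (τ * κ) ^ (k + 2) *
      (κ * (p / 2)) ^ (k + 2) - Real.exp (-(β / 6) * n))) := by
    have h11 := mul_le_mul_of_nonneg_left (mul_le_mul_of_nonneg_left h8 hκ₁.le)
      (show 0 ≤ (n : ℝ) ^ 1 by positivity)
    refine le_trans (h2.trans (le_of_eq ?_)) h11
    have h12 : (n : ℝ) ^ (3 / 4 : ℝ) = n * (n : ℝ) ^ (-(1 / 4 : ℝ)) := by
      rw [← Real.rpow_one_add' hn.le (by norm_num)]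
      norm_num
    rw [h12]
    ring
  refine (Real.exp_le_exp.2 (neg_le_neg h9)).trans (le_of_eq ?_)
  rw [neg_neg, Real.exp_log hτ]

/-- the noise exponent, with an upper bound -/
theorem exists_jX (c β : ℝ) (hc : 0 < c) (hβ : 0 < β) : ∃ j : ℕ, c / 2 ^ j ≤ β / 2 ∧
    4 * (((2 * 4 ^ j : ℕ) : ℝ) + 3) ≤ 140 * (c / β) ^ 2 + 20 := by
  rcases le_or_gt (2 * c / β) 1 with h | h
  · refine ⟨0, ?_, ?_⟩
    · rw [div_le_iff₀ hβ] at h
      simp only [pow_zero, div_one]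
      linarith
    · have : 0 ≤ (c / β) ^ 2 := sq_nonneg _
      norm_num
      linarith
  · obtain ⟨j, hj1, hj2⟩ := exists_nat_pow_near h.le (one_lt_two : (1 : ℝ) < 2)
    refine ⟨j + 1, ?_, ?_⟩
    · rw [div_lt_iff₀ hβ] at hj2
      rw [div_le_iff₀ (by positivity)]
      linarith
    · have h1 : ((4 : ℝ) ^ j) ≤ (2 * c / β) ^ 2 := by
        have h2 : (4 : ℝ) ^ j = (2 ^ j) ^ 2 := by
          rw [← pow_mul, mul_comm j 2, pow_mul]
          norm_num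
        rw [h2]
        exact pow_le_pow_left₀ (by positivity) hj1 2
      have h3 : (2 * c / β) ^ 2 = 4 * (c / β) ^ 2 := by ring
      rw [h3] at h1
      have h4 := sq_nonneg (c / β)
      push_cast
      rw [pow_succ]
      linarith

end Pool.Agent.ZL
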