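import Mathlib

set_option autoImplicit false

/-!
# ZL-Av: averages over bit strings (Mathlib only)

Inductions on `n`.
-/

namespace Pool.Agent.ZL

/-- average of `F` over the bit strings of length `n` -/
noncomputable def av : ℕ → (List Bool → ℝ) → ℝ
  | 0, F => F []
  | n + 1, F => (av n (fun l => F (false :: l)) + av n (fun l => F (true :: l))) / 2

theorem av_congr {n : ℕ} {F H : List Bool → ℝ} (h : ∀ l, l.length = n → F l = H l) :
    av n F = av n H := by
  induction n generalizing F H with
  | zero => exact h [] rfl
  | succ n ih =>
    show (av n (fun l => F (false :: l)) + av n (fun l => F (true :: l))) / 2 =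
      (av n (fun l => H (false :: l)) + av n (fun l => H (true :: l))) / 2
    rw [ih (F := fun l => F (false :: l)) (H := fun l => H (false :: l))
        (fun l hl => h _ (by rw [List.length_cons, hl])),
      ih (F := fun l => F (true :: l)) (H := fun l => H (true :: l))
        (fun l hl => h _ (by rw [List.length_cons, hl]))]

theorem av_mono {n : ℕ} {F H : List Bool → ℝ} (h : ∀ l, l.length = n → F l ≤ H l) :
    av n F ≤ av n H := by
  induction n generalizing F H with
  | zero => exact h [] rfl
  | succ n ih =>
    show (av n (fun l => F (false :: l)) + av n (fun l => F (true :: l))) / 2 ≤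
      (av n (fun l => H (false :: l)) + av n (fun l => H (true :: l))) / 2
    have h1 := ih (F := fun l => F (false :: l)) (H := fun l => H (false :: l))
        (fun l hl => h _ (by rw [List.length_cons, hl]))
    have h2 := ih (F := fun l => F (true :: l)) (H := fun l => H (true :: l))
        (fun l hl => h _ (by rw [List.length_cons, hl]))
    linarith

theorem av_const (n : ℕ) (c : ℝ) : av n (fun _ => c) = c := by
  induction n with
  | zero => rfl
  | succ n ih =>
    show (av n (fun _ => c) + av n (fun _ => c)) / 2 = c
    rw [ih]
    ring

theorem av_mul (n : ℕ) (c : ℝ) (F : List Bool → ℝ) : av n (fun l => c * F l) = c * av n F := by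
  induction n generalizing F with
  | zero => rfl
  | succ n ih =>
    show (av n (fun l => c * F (false :: l)) + av n (fun l => c * F (true :: l))) / 2 =
      c * ((av n (fun l => F (false :: l)) + av n (fun l => F (true :: l))) / 2)
    rw [ih (fun l => F (false :: l)), ih (fun l => F (true :: l))]
    ring

theorem av_sub (n : ℕ) (F H : List Bool → ℝ) : av n (fun l => F l - H l) = av n F - av n H := by
  induction n generalizing F H with
  | zero => rfl
  | succ n ih =>
    show (av n (fun l => F (false :: l) - H (false :: l)) +
      av n (fun l => F (true :: l) - H (true :: l))) / 2 =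
      (av n (fun l => F (false :: l)) + av n (fun l => F (true :: l))) / 2 -
      (av n (fun l => H (false :: l)) + av n (fun l => H (true :: l))) / 2
    rw [ih (fun l => F (false :: l)) (fun l => H (false :: l)),
      ih (fun l => F (true :: l)) (fun l => H (true :: l))]
    ring

theorem av_sum {ι : Type*} (s : Finset ι) (n : ℕ) (F : ι → List Bool → ℝ) :
    av n (fun l => ∑ i ∈ s, F i l) = ∑ i ∈ s, av n (F i) := by
  induction n generalizing F with
  | zero => rfl
  | succ n ih =>
    show (av n (fun l => ∑ i ∈ s, F i (false :: l)) + av n (fun l => ∑ i ∈ s, F i (true :: l))) / 2 =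
      ∑ i ∈ s, (av n (fun l => F i (false :: l)) + av n (fun l => F i (true :: l))) / 2
    rw [ih (fun i l => F i (false :: l)), ih (fun i l => F i (true :: l)),
      ← Finset.sum_add_distrib, Finset.sum_div]

/-- a bit string of length `m + n` is the concatenation of two independent ones -/
theorem av_append (m n : ℕ) (F : List Bool → ℝ) :
    av (m + n) F = av m (fun l => av n (fun l' => F (l ++ l'))) := by
  induction m generalizing F with
  | zero =>
    rw [zero_add]
    rfl
  | succ m ih =>
    have e : m + 1 + n = (m + n) + 1 := by omega
    rw [e]
    show (av (m + n) (fun l => F (false :: l)) + av (m + n) (fun l => F (true :: l))) / 2 =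
      (av m (fun l => av n (fun l' => F ((false :: l) ++ l'))) +
        av m (fun l => av n (fun l' => F ((true :: l) ++ l')))) / 2
    rw [ih (fun l => F (false :: l)), ih (fun l => F (true :: l))]
    rfl

theorem av_eq (n : ℕ) (F : List Bool → ℝ) :
    av n F = (∑ r : Fin n → Bool, F (List.ofFn r)) / 2 ^ n := by
  induction n generalizing F with
  | zero =>
    rw [Fintype.sum_unique, List.ofFn_zero, pow_zero, div_one]
    rfl
  | succ n ih =>
    have h1 := Fintype.sum_equiv (Fin.consEquiv (fun _ : Fin (n + 1) => Bool))
      (fun q : Bool × (Fin n → Bool) => F (q.1 :: List.ofFn q.2)) (fun r => F (List.ofFn r))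
      (fun q => by
        have e : List.ofFn ((Fin.consEquiv (fun _ : Fin (n + 1) => Bool)) q) = q.1 :: List.ofFn q.2 := by
          rw [List.ofFn_succ]
          rfl
        rw [e])
    have h2 : av (n + 1) F = (av n (fun l => F (false :: l)) + av n (fun l => F (true :: l))) / 2 := rfl
    rw [h2, ← h1, Fintype.sum_prod_type, Fintype.sum_bool, ih (fun l => F (false :: l)),
      ih (fun l => F (true :: l)), pow_succ]
    field_simp
    ring

end Pool.Agent.ZL
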