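import Pool.Agent.ZL.Pow

set_option autoImplicit false

/-!
# ZL-Bas: the two-function inequality on one coordinate

`Ω` is a finite nonempty set with the uniform probability.
-/

namespace Pool.Agent.ZL

open Finset

/-- mean value over a finite set -/
noncomputable def mv {Ω : Type*} [Fintype Ω] (f : Ω → ℝ) : ℝ := (∑ x, f x) / Fintype.card Ω

private theorem mv_mono' {Ω : Type*} [Fintype Ω] {f g : Ω → ℝ} (h : ∀ x, f x ≤ g x) : mv f ≤ mv g :=
  div_le_div_of_nonneg_right (sum_le_sum fun x _ => h x) (Nat.cast_nonneg _)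

private theorem mv_nonneg' {Ω : Type*} [Fintype Ω] {f : Ω → ℝ} (h : ∀ x, 0 ≤ f x) : 0 ≤ mv f :=
  div_nonneg (sum_nonneg fun x _ => h x) (Nat.cast_nonneg _)

private theorem mv_add' {Ω : Type*} [Fintype Ω] (f g : Ω → ℝ) :
    mv (fun x => f x + g x) = mv f + mv g := by
  unfold mv
  rw [sum_add_distrib, add_div]

private theorem mv_smul' {Ω : Type*} [Fintype Ω] (c : ℝ) (f : Ω → ℝ) :
    mv (fun x => c * f x) = c * mv f := by
  unfold mv
  rw [← mul_sum, mul_div_assoc]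

private theorem mv_const' {Ω : Type*} [Fintype Ω] [Nonempty Ω] (c : ℝ) :
    mv (fun _ : Ω => c) = c := by
  have : (Fintype.card Ω : ℝ) ≠ 0 := Nat.cast_ne_zero.2 Fintype.card_ne_zero
  unfold mv
  rw [sum_const, card_univ, nsmul_eq_mul]
  field_simp

/-- the lower bound of the power function at `1` -/
private theorem pw_pt (k : ℕ) (u : ℝ) (hu : 0 ≤ u) :
    1 + ((k : ℝ) + 2) * (u - 1) + (((k : ℝ) + 2) * ((k : ℝ) + 1) / 2 * (max (u - 1) 0) ^ 2 +
      ((k : ℝ) + 1) * (max (1 - u) 0) ^ 2) ≤ u ^ (k + 2) := by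
  rcases le_total 1 u with h | h
  · rw [max_eq_left (by linarith), max_eq_right (by linarith)]
    have := pw2 k u h
    linarith
  · rw [max_eq_right (by linarith), max_eq_left (by linarith)]
    have := pw1 k u hu
    have e : (1 - u) ^ 2 = (u - 1) ^ 2 := by ring
    rw [e]
    linarith

private theorem prod_ge (u v : ℝ) :
    -(max (u - 1) 0 * max (1 - v) 0 + max (v - 1) 0 * max (1 - u) 0) ≤ (u - 1) * (v - 1) := by
  have e1 : u - 1 = max (u - 1) 0 - max (1 - u) 0 := by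
    rcases le_total 1 u with h | h
    · rw [max_eq_left (by linarith), max_eq_right (by linarith)]; ring
    · rw [max_eq_right (by linarith), max_eq_left (by linarith)]; ring
  have e2 : v - 1 = max (v - 1) 0 - max (1 - v) 0 := by
    rcases le_total 1 v with h | h
    · rw [max_eq_left (by linarith), max_eq_right (by linarith)]; ring
    · rw [max_eq_right (by linarith), max_eq_left (by linarith)]; ring
  have a1 : 0 ≤ max (u - 1) 0 := le_max_right _ _
  have a2 : 0 ≤ max (1 - u) 0 := le_max_right _ _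
  have a3 : 0 ≤ max (v - 1) 0 := le_max_right _ _
  have a4 : 0 ≤ max (1 - v) 0 := le_max_right _ _
  have h : (u - 1) * (v - 1) = (max (u - 1) 0 - max (1 - u) 0) * (max (v - 1) 0 - max (1 - v) 0) := by
    rw [← e1, ← e2]
  rw [h]
  nlinarith [mul_nonneg a1 a3, mul_nonneg a2 a4]

private theorem pt (k : ℕ) (s : ℝ) (hs : 0 < s) (hs1 : s ≤ 1) (hk : 2 ≤ ((k : ℝ) + 2) * s ^ 2)
    (u v : ℝ) (hu : 0 ≤ u) (hv : 0 ≤ v) :
    1 + (((k : ℝ) + 2) * (u - 1) + ((k : ℝ) + 2) * (v - 1)) ≤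
      (1 - s) * (u ^ (k + 2) * v ^ (k + 2)) + s * (u ^ (k + 2) + v ^ (k + 2) - 1) := by
  have h1 := pw_pt k u hu
  have h2 := pw_pt k v hv
  have h3 : 1 + ((k : ℝ) + 2) * (u * v - 1) ≤ u ^ (k + 2) * v ^ (k + 2) := by
    have := one_add_mul_le_pow (a := u * v - 1) (by nlinarith [mul_nonneg hu hv]) (k + 2)
    rw [← mul_pow]
    push_cast at this
    have e : 1 + (u * v - 1) = u * v := by ring
    rwa [e] at this
  have h4 := prod_ge u v
  have w1 := wag k s hs hs1 hk (max (u - 1) 0) (max (1 - v) 0)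
  have w2 := wag k s hs hs1 hk (max (v - 1) 0) (max (1 - u) 0)
  have hk0 : (0 : ℝ) ≤ (k : ℝ) + 2 := by positivity
  have h5 : (1 - s) * (1 + ((k : ℝ) + 2) * (u * v - 1)) ≤ (1 - s) * (u ^ (k + 2) * v ^ (k + 2)) :=
    mul_le_mul_of_nonneg_left h3 (by linarith)
  have h6 := mul_le_mul_of_nonneg_left h1 hs.le
  have h7 := mul_le_mul_of_nonneg_left h2 hs.le
  have h8 : (1 - s) * ((k : ℝ) + 2) *
      (-(max (u - 1) 0 * max (1 - v) 0 + max (v - 1) 0 * max (1 - u) 0)) ≤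
      (1 - s) * ((k : ℝ) + 2) * ((u - 1) * (v - 1)) :=
    mul_le_mul_of_nonneg_left h4 (mul_nonneg (by linarith) hk0)
  have e1 : u * v - 1 = (u - 1) + (v - 1) + (u - 1) * (v - 1) := by ring
  rw [e1] at h5
  nlinarith

theorem base1 {Ω : Type*} [Fintype Ω] [Nonempty Ω] (k : ℕ) (s : ℝ) (hs : 0 < s) (hs1 : s ≤ 1)
    (hk : 2 ≤ ((k : ℝ) + 2) * s ^ 2) (F G : Ω → ℝ) (hF : ∀ x, 0 ≤ F x) (hG : ∀ x, 0 ≤ G x)
    (h1 : mv F = 1) (h2 : mv G = 1) :
    1 ≤ (1 - s) * mv (fun x => F x ^ (k + 2) * G x ^ (k + 2)) +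
      s * (mv (fun x => F x ^ (k + 2)) * mv (fun x => G x ^ (k + 2))) := by
  -- the means of the powers are at least `1`
  have ge1 : ∀ H : Ω → ℝ, (∀ x, 0 ≤ H x) → mv H = 1 → 1 ≤ mv (fun x => H x ^ (k + 2)) := by
    intro H hH hm
    have h3 : mv (fun x => (-((k : ℝ) + 1)) + ((k : ℝ) + 2) * H x) ≤ mv (fun x => H x ^ (k + 2)) := by
      refine mv_mono' fun x => ?_
      have := one_add_mul_le_pow (a := H x - 1) (by linarith [hH x]) (k + 2)
      have e : 1 + (H x - 1) = H x := by ring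
      rw [e] at this
      push_cast at this
      linarith
    rw [mv_add', mv_const', mv_smul', hm] at h3
    linarith
  have hF1 := ge1 F hF h1
  have hG1 := ge1 G hG h2
  have hm : mv (fun x => (1 - 2 * ((k : ℝ) + 2)) + (((k : ℝ) + 2) * F x + ((k : ℝ) + 2) * G x)) ≤
      mv (fun x => (1 - s) * (F x ^ (k + 2) * G x ^ (k + 2)) +
        (s * F x ^ (k + 2) + (s * G x ^ (k + 2) + -s))) := by
    refine mv_mono' fun x => ?_
    have := pt k s hs hs1 hk (F x) (G x) (hF x) (hG x)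
    linarith
  rw [mv_add', mv_const', mv_add', mv_smul', mv_smul', h1, h2, mv_add', mv_smul', mv_add', mv_smul',
    mv_add', mv_smul', mv_const'] at hm
  have hprod : mv (fun x => F x ^ (k + 2)) + mv (fun x => G x ^ (k + 2)) - 1 ≤
      mv (fun x => F x ^ (k + 2)) * mv (fun x => G x ^ (k + 2)) := by
    nlinarith [mul_nonneg (sub_nonneg.2 hF1) (sub_nonneg.2 hG1)]
  have := mul_le_mul_of_nonneg_left hprod hs.le
  linarith

theorem base {Ω : Type*} [Fintype Ω] [Nonempty Ω] (k : ℕ) (s : ℝ) (hs : 0 < s) (hs1 : s ≤ 1)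
    (hk : 2 ≤ ((k : ℝ) + 2) * s ^ 2) (F G : Ω → ℝ) (hF : ∀ x, 0 ≤ F x) (hG : ∀ x, 0 ≤ G x) :
    mv F ^ (k + 2) * mv G ^ (k + 2) ≤ (1 - s) * mv (fun x => F x ^ (k + 2) * G x ^ (k + 2)) +
      s * (mv (fun x => F x ^ (k + 2)) * mv (fun x => G x ^ (k + 2))) := by
  have a1 : 0 ≤ mv (fun x => F x ^ (k + 2)) := mv_nonneg' fun x => pow_nonneg (hF x) _
  have a2 : 0 ≤ mv (fun x => G x ^ (k + 2)) := mv_nonneg' fun x => pow_nonneg (hG x) _
  have a3 : 0 ≤ mv (fun x => F x ^ (k + 2) * G x ^ (k + 2)) :=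
    mv_nonneg' fun x => mul_nonneg (pow_nonneg (hF x) _) (pow_nonneg (hG x) _)
  have a4 : 0 ≤ (1 - s) * mv (fun x => F x ^ (k + 2) * G x ^ (k + 2)) +
      s * (mv (fun x => F x ^ (k + 2)) * mv (fun x => G x ^ (k + 2))) :=
    add_nonneg (mul_nonneg (by linarith) a3) (mul_nonneg hs.le (mul_nonneg a1 a2))
  rcases (mv_nonneg' hF).eq_or_lt with hF0 | hF0
  · rw [← hF0, zero_pow (by omega), zero_mul]
    exact a4
  rcases (mv_nonneg' hG).eq_or_lt with hG0 | hG0
  · rw [← hG0, zero_pow (by omega), mul_zero]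
    exact a4
  have key := base1 k s hs hs1 hk (fun x => (mv F)⁻¹ * F x) (fun x => (mv G)⁻¹ * G x)
    (fun x => mul_nonneg (by positivity) (hF x)) (fun x => mul_nonneg (by positivity) (hG x))
    (by rw [mv_smul', inv_mul_cancel₀ hF0.ne']) (by rw [mv_smul', inv_mul_cancel₀ hG0.ne'])
  have e1 : mv (fun x => ((mv F)⁻¹ * F x) ^ (k + 2)) = ((mv F)⁻¹) ^ (k + 2) * mv (fun x => F x ^ (k + 2)) := by
    rw [← mv_smul']
    exact congrArg mv (funext fun x => mul_pow _ _ _)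
  have e2 : mv (fun x => ((mv G)⁻¹ * G x) ^ (k + 2)) = ((mv G)⁻¹) ^ (k + 2) * mv (fun x => G x ^ (k + 2)) := by
    rw [← mv_smul']
    exact congrArg mv (funext fun x => mul_pow _ _ _)
  have e3 : mv (fun x => ((mv F)⁻¹ * F x) ^ (k + 2) * ((mv G)⁻¹ * G x) ^ (k + 2)) =
      ((mv F)⁻¹) ^ (k + 2) * ((mv G)⁻¹) ^ (k + 2) * mv (fun x => F x ^ (k + 2) * G x ^ (k + 2)) := by
    rw [← mv_smul']
    exact congrArg mv (funext fun x => by ring)
  rw [e1, e2, e3] at key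
  have hFp : 0 < mv F ^ (k + 2) := pow_pos hF0 _
  have hGp : 0 < mv G ^ (k + 2) := pow_pos hG0 _
  have h := mul_le_mul_of_nonneg_left key (mul_pos hFp hGp).le
  rw [mul_one] at h
  refine h.trans (le_of_eq ?_)
  rw [inv_pow, inv_pow]
  field_simp

end Pool.Agent.ZL
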