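import Pool.Agent.ZL.KeepS

set_option autoImplicit false

/-!
# ZL-Best: the function `best`

`Cand G c`: `c` is a candidate: empty or of length `n`, and it describes a stable set.
-/

namespace Pool.Agent.ZL

open Finset

/-- candidates -/
def Cand {n : ℕ} (G : SimpleGraph (Fin n)) (c : List Bool) : Prop :=
  (c = [] ∨ c.length = n) ∧ ∀ u ∈ vs n c, ∀ v ∈ vs n c, ¬ G.Adj u v

private theorem vs_nil (n : ℕ) : vs n [] = ∅ := by
  unfold vs
  rw [Finset.filter_eq_empty_iff]
  intro v _
  simp

private theorem cand_cnt {n : ℕ} {G : SimpleGraph (Fin n)} {c : List Bool} (h : Cand G c) :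
    cnt c = (vs n c).card := by
  rcases h.1 with h1 | h1
  · subst h1
    rw [vs_nil]
    rfl
  · exact cnt_eq c h1

private theorem foldl_best (L : List (List Bool)) : ∀ b : List Bool,
    (L.foldl (fun b c => if cnt b < cnt c then c else b) b = b ∨
      L.foldl (fun b c => if cnt b < cnt c then c else b) b ∈ L) ∧
    cnt b ≤ cnt (L.foldl (fun b c => if cnt b < cnt c then c else b) b) ∧
    ∀ c ∈ L, cnt c ≤ cnt (L.foldl (fun b c => if cnt b < cnt c then c else b) b) := by
  induction L with
  | nil =>
    intro b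
    exact ⟨Or.inl rfl, le_rfl, fun c hc => absurd hc (List.not_mem_nil)⟩
  | cons d L ih =>
    intro b
    rw [List.foldl_cons]
    by_cases hd : cnt b < cnt d
    · rw [if_pos hd]
      obtain ⟨h1, h2, h3⟩ := ih d
      refine ⟨Or.inr ?_, hd.le.trans h2, fun c hc => ?_⟩
      · rcases h1 with h1 | h1
        · rw [h1]
          exact List.mem_cons_self
        · exact List.mem_cons_of_mem _ h1
      · rcases List.mem_cons.1 hc with rfl | hc
        · exact h2
        · exact h3 c hc
    · rw [if_neg hd]
      obtain ⟨h1, h2, h3⟩ := ih b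
      refine ⟨?_, h2, fun c hc => ?_⟩
      · rcases h1 with h1 | h1
        · exact Or.inl h1
        · exact Or.inr (List.mem_cons_of_mem _ h1)
      · rcases List.mem_cons.1 hc with rfl | hc
        · exact (not_lt.1 hd).trans h2
        · exact h3 c hc

theorem cand_nil {n : ℕ} (G : SimpleGraph (Fin n)) : Cand G [] := by
  refine ⟨Or.inl rfl, fun u hu => ?_⟩
  rw [vs_nil] at hu
  exact absurd hu (Finset.notMem_empty u)

theorem cand_keep {n : ℕ} (G : SimpleGraph (Fin n)) (I : List Bool) : Cand G (keep (code G) I) :=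
  ⟨Or.inr (keep_length G I), keep_stable G I⟩

theorem cand_best {n : ℕ} (G : SimpleGraph (Fin n)) (L : List (List Bool)) (h : ∀ c ∈ L, Cand G c) :
    Cand G (best L) := by
  rcases (foldl_best L []).1 with h1 | h1
  · have h2 : best L = [] := h1
    rw [h2]
    exact cand_nil G
  · exact h _ h1

theorem best_found {n : ℕ} (G : SimpleGraph (Fin n)) (L : List (List Bool)) (h : ∀ c ∈ L, Cand G c)
    (a : ℝ) (hc : ∃ c ∈ L, Found G c a) : Found G (best L) a := by
  obtain ⟨c, hcL, hcF⟩ := hc
  have h1 := cand_best G L h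
  refine ⟨h1.2, hcF.2.trans ?_⟩
  have h2 : cnt c ≤ cnt (best L) := (foldl_best L []).2.2 c hcL
  rw [cand_cnt (h c hcL), cand_cnt h1] at h2
  exact_mod_cast h2

end Pool.Agent.ZL
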