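import Pool.Agent.ZL.SqD
import Pool.Agent.ZL.Alg

set_option autoImplicit false

/-!
# ZL-BkD: from a block of bits to a block (definitions)
-/

namespace Pool.Agent.ZL

/-- a number as a vertex -/
def toF {n : ℕ} (hn : 0 < n) (v : ℕ) : Fin n := ⟨v % n, Nat.mod_lt v hn⟩

/-- an element of `Pr n` as a pair of numbers -/
def p2 {n : ℕ} (e : Pr n) : ℕ × ℕ := (e.1, e.2)

/-- the block given by `3 n` bits -/
def bk {n : ℕ} (hn : 0 < n) (j : ℕ) (l : List Bool) : Bg j (Pr n) :=
  (fun i => l.getD i false, (toF hn (rp n l).1, toF hn (rp n l).2))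

/-- the sequence of the blocks given by a list of bits -/
def bks {n : ℕ} (hn : 0 < n) (j m' : ℕ) (l : List Bool) (i : Fin m') : Bg j (Pr n) :=
  bk hn j ((l.drop (i * (3 * n))).take (3 * n))

end Pool.Agent.ZL
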