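import Pool.Agent.ZL.GrD
import Pool.Agent.ZL.Best

set_option autoImplicit false

/-!
# ZL-GrL: the greedy algorithm as a function on lists
-/

namespace Pool.Agent.ZL

open Finset

theorem gs_lt {ξ : ℕ → ℕ → Bool} {t v : ℕ} (h : v ∈ gs ξ t) : v < t := by
  induction t with
  | zero => simp [gs] at h
  | succ t ih =>
    rw [gs] at h
    split_ifs at h with hc
    · exact lt_trans (ih h) (Nat.lt_succ_self t)
    · rcases Finset.mem_insert.1 h with rfl | h
      · exact Nat.lt_succ_self _
      · exact lt_trans (ih h) (Nat.lt_succ_self t)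

theorem gs_stable {ξ : ℕ → ℕ → Bool} {t u v : ℕ} (hu : u ∈ gs ξ t) (hv : v ∈ gs ξ t) (h : u < v) :
    ξ u v = false := by
  induction t with
  | zero => simp [gs] at hu
  | succ t ih =>
    rw [gs] at hu hv
    split_ifs at hu hv with hc
    · exact ih hu hv
    · rcases Finset.mem_insert.1 hu with rfl | hu
      · rcases Finset.mem_insert.1 hv with rfl | hv
        · exact absurd h (lt_irrefl _)
        · exact absurd h (not_lt.2 (gs_lt hv).le)
      · rcases Finset.mem_insert.1 hv with rfl | hv
        · by_contra hne
          exact hc ⟨u, hu, by simpa using hne⟩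
        · exact ih hu hv

private theorem fold_gs (x : List (List Bool)) (t : ℕ) :
    ((List.range t).foldl (fun S v => if S.any (fun u => ent x u v) then S else v :: S) []).toFinset =
      gs (ent x) t := by
  induction t with
  | zero => simp [gs]
  | succ t ih =>
    rw [List.range_succ, List.foldl_append, List.foldl_cons, List.foldl_nil, gs, ← ih]
    generalize (List.range t).foldl (fun S v => if S.any (fun u => ent x u v) then S else v :: S) [] = S
    have hiff : (S.any (fun u => ent x u t) = true) ↔ ∃ u ∈ S.toFinset, ent x u t = true := by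
      rw [List.any_eq_true]
      constructor
      · rintro ⟨u, hu, h⟩
        exact ⟨u, List.mem_toFinset.2 hu, h⟩
      · rintro ⟨u, hu, h⟩
        exact ⟨u, List.mem_toFinset.1 hu, h⟩
    by_cases hc : S.any (fun u => ent x u t) = true
    · rw [if_pos hc, if_pos (hiff.1 hc)]
    · rw [if_neg hc, if_neg (fun h => hc (hiff.2 h)), List.toFinset_cons]

theorem grl_eq (x : List (List Bool)) : (grl x).toFinset = gs (ent x) x.length :=
  fold_gs x x.length

theorem mem_grd {n : ℕ} (G : SimpleGraph (Fin n)) (v : Fin n) :
    v ∈ vs n (grd (code G)) ↔ (v : ℕ) ∈ gs (ent (code G)) n := by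
  have hl := code_length G
  have h1 := grl_eq (code G)
  rw [hl] at h1
  rw [← h1, List.mem_toFinset]
  unfold vs
  rw [Finset.mem_filter]
  have e : (grd (code G)).getD v false = (grl (code G)).any (fun u => u == (v : ℕ)) := by
    unfold grd
    have hv : (v : ℕ) < ((List.range (code G).length).map
        fun v => (grl (code G)).any fun u => u == v).length := by
      rw [List.length_map, List.length_range, hl]
      exact v.2
    rw [List.getD_eq_getElem _ _ hv, List.getElem_map, List.getElem_range]
  rw [e, List.any_eq_true]
  constructor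
  · rintro ⟨-, u, hu, h⟩
    have : u = (v : ℕ) := by simpa using h
    rwa [← this]
  · intro h
    exact ⟨Finset.mem_univ _, v, h, by simp⟩

theorem grd_card {n : ℕ} (G : SimpleGraph (Fin n)) :
    (vs n (grd (code G))).card = (gs (ent (code G)) n).card := by
  refine Finset.card_bij (fun v _ => (v : ℕ)) (fun v hv => (mem_grd G v).1 hv)
    (fun a _ b _ h => Fin.ext h) (fun b hb => ?_)
  exact ⟨⟨b, gs_lt hb⟩, (mem_grd G ⟨b, gs_lt hb⟩).2 hb, rfl⟩

theorem grd_cand {n : ℕ} (G : SimpleGraph (Fin n)) : Cand G (grd (code G)) := by
  refine ⟨Or.inr ?_, ?_⟩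
  · unfold grd
    rw [List.length_map, List.length_range, code_length]
  · have key : ∀ u v : Fin n, u ∈ vs n (grd (code G)) → v ∈ vs n (grd (code G)) → u < v → ¬ G.Adj u v := by
      intro u v hu hv huv hadj
      have h1 := gs_stable ((mem_grd G u).1 hu) ((mem_grd G v).1 hv) huv
      have h2 := (ent_code G u v).2 hadj
      rw [h1] at h2
      exact Bool.noConfusion h2
    intro u hu v hv hadj
    rcases lt_trichotomy u v with h | h | h
    · exact key u v hu hv h hadj
    · subst h
      exact G.loopless.irrefl _ hadj
    · exact key v u hv hu h hadj.symm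

end Pool.Agent.ZL
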