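import Pool.Agent.ZL.AmpC
import Pool.Agent.ZL.GrL

set_option autoImplicit false

/-!
# ZL-Both: the better of two outputs

Inclusion of the events, and `best_found` for a list with two candidates.
-/

namespace Pool.Agent.ZL

open Finset

theorem succ_le_succ (n m q : ℕ) (a : ℝ) (A B : List (List Bool) → List Bool → List Bool)
    (h : ∀ (G : SimpleGraph (Fin n)) (l : List Bool), Found G (A (code G) l) a →
      Found G (B (code G) l) a) : succ n m q a A ≤ succ n m q a B := by
  classical
  unfold succ
  refine div_le_div_of_nonneg_right ?_ (by positivity)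
  have h1 : ((Gr n m) ×ˢ (univ : Finset (Fin q → Bool))).filter (fun p =>
      Found p.1 (A (code p.1) (List.ofFn p.2)) a) ⊆
      ((Gr n m) ×ˢ (univ : Finset (Fin q → Bool))).filter (fun p =>
        Found p.1 (B (code p.1) (List.ofFn p.2)) a) := by
    intro p hp
    rw [mem_filter] at hp ⊢
    exact ⟨hp.1, h p.1 _ hp.2⟩
  exact_mod_cast card_le_card h1

private theorem both_cands {n : ℕ} (G : SimpleGraph (Fin n)) (A : AAlg) (q : Polynomial ℕ) (D : ℕ)
    (l : List Bool) : ∀ c ∈ [amp A q D (code G, l), grd (code G, l).1], Cand G c := by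
  intro c hc
  rcases List.mem_cons.1 hc with h | h
  · rw [h]
    exact amp_cand G A q D l
  · rw [List.mem_singleton] at h
    rw [h]
    exact grd_cand G

theorem both_amp (A : AAlg) (q : Polynomial ℕ) (D n m Q : ℕ) (a : ℝ) :
    succ n m Q a (fun x r => amp A q D (x, r)) ≤ succ n m Q a (fun x r => both A q D (x, r)) := by
  refine succ_le_succ n m Q a _ _ fun G l hG => ?_
  refine best_found G _ (both_cands G A q D l) a ⟨amp A q D (code G, l), ?_, hG⟩
  exact List.mem_cons_self

theorem both_grd (A : AAlg) (q : Polynomial ℕ) (D n m Q : ℕ) (a : ℝ) :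
    succ n m Q a (fun x _ => grd x) ≤ succ n m Q a (fun x r => both A q D (x, r)) := by
  refine succ_le_succ n m Q a _ _ fun G l hG => ?_
  refine best_found G _ (both_cands G A q D l) a ⟨grd (code G), ?_, hG⟩
  exact List.mem_cons_of_mem _ List.mem_cons_self

end Pool.Agent.ZL
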