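import Pool.Agent.ZL.BkD

set_option autoImplicit false

/-!
# ZL-Edg: the list of the edges of a graph
-/

namespace Pool.Agent.ZL

theorem code_length {n : ℕ} (G : SimpleGraph (Fin n)) : (code G).length = n := by
  unfold code
  rw [List.length_ofFn]

theorem ent_code {n : ℕ} (G : SimpleGraph (Fin n)) (u v : Fin n) : ent (code G) u v = true ↔ G.Adj u v := by
  classical
  have h1 : (code G).getD (u : ℕ) [] = List.ofFn fun v : Fin n => decide (G.Adj u v) := by
    unfold code
    rw [List.getD_eq_getElem _ _ (lt_of_lt_of_eq u.2 List.length_ofFn.symm), List.getElem_ofFn]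
  have hv : (v : ℕ) < (List.ofFn fun v : Fin n => decide (G.Adj u v)).length := by
    rw [List.length_ofFn]
    exact v.2
  unfold ent
  rw [h1, List.getD_eq_getElem _ _ hv, List.getElem_ofFn]
  simp only [Fin.eta, decide_eq_true_eq]

theorem mem_prs {n : ℕ} {e : ℕ × ℕ} : e ∈ prs n ↔ e.1 < e.2 ∧ e.2 < n := by
  unfold prs
  simp only [List.mem_flatMap, List.mem_range, List.mem_map, List.mem_filter, decide_eq_true_eq]
  constructor
  · rintro ⟨v, hv, u, ⟨_, hu⟩, rfl⟩
    exact ⟨hu, hv⟩
  · rintro ⟨h1, h2⟩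
    exact ⟨e.2, h2, e.1, ⟨h1.trans h2, h1⟩, rfl⟩

theorem prs_nodup (n : ℕ) : (prs n).Nodup := by
  unfold prs
  rw [List.nodup_flatMap]
  constructor
  · intro v _
    refine List.Nodup.map ?_ ((List.nodup_range).filter _)
    intro a b hab
    exact (Prod.mk.inj hab).1
  · refine List.Pairwise.imp ?_ (List.nodup_range (n := n))
    intro a b hab
    rw [Function.onFun, List.disjoint_left]
    intro e h1 h2
    rw [List.mem_map] at h1 h2
    obtain ⟨u, _, rfl⟩ := h1
    obtain ⟨u', _, h3⟩ := h2
    exact hab (Prod.mk.inj h3).2.symm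

private theorem mem_edg {n : ℕ} {G : SimpleGraph (Fin n)} {e : ℕ × ℕ} :
    e ∈ edg (code G) ↔ (e.1 < e.2 ∧ e.2 < n) ∧ ent (code G) e.1 e.2 = true := by
  unfold edg
  rw [List.mem_filter, code_length, mem_prs]

theorem edg_code {n m : ℕ} {G : SimpleGraph (Fin n)} (hG : G ∈ Gr n m) :
    ∃ X : Fin m → Pr n, Sm X ∧ gr X = G ∧ edg (code G) = List.ofFn fun i => p2 (X i) := by
  classical
  have hG' : G.edgeSet.ncard = m := by
    unfold Gr at hG
    exact (Finset.mem_filter.1 hG).2
  have hnd : (edg (code G)).Nodup := by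
    unfold edg
    exact (prs_nodup _).filter _
  have hmem : ∀ i : Fin (edg (code G)).length, (((edg (code G)).get i).1 < ((edg (code G)).get i).2 ∧
      ((edg (code G)).get i).2 < n) ∧
      ent (code G) ((edg (code G)).get i).1 ((edg (code G)).get i).2 = true :=
    fun i => mem_edg.1 (List.get_mem _ i)
  obtain ⟨X, hX⟩ : ∃ X : Fin (edg (code G)).length → Pr n, ∀ i, p2 (X i) = (edg (code G)).get i :=
    ⟨fun i => (⟨((edg (code G)).get i).1, (hmem i).1.1.trans (hmem i).1.2⟩,
      ⟨((edg (code G)).get i).2, (hmem i).1.2⟩), fun i => rfl⟩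
  have hlt : ∀ i, (X i).1 < (X i).2 := by
    intro i
    have h1 := (hmem i).1.1
    rw [← hX i] at h1
    exact h1
  have hadj : ∀ i, G.Adj (X i).1 (X i).2 := by
    intro i
    have h1 := (hmem i).2
    rw [← hX i] at h1
    exact (ent_code G _ _).1 h1
  have hinj : Function.Injective (sy X) := by
    intro i j hij
    unfold sy at hij
    rw [Sym2.eq_iff] at hij
    rcases hij with ⟨h1, h2⟩ | ⟨h1, h2⟩
    · have h3 : (edg (code G)).get i = (edg (code G)).get j := by
        rw [← hX i, ← hX j, Prod.ext h1 h2]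
      exact (List.nodup_iff_injective_get.1 hnd) h3
    · have h3 := hlt i
      have h4 := hlt j
      rw [h1, h2] at h3
      exact absurd h3 (lt_asymm h4)
  have hex : ∀ u v : Fin n, u < v → G.Adj u v → s(u, v) ∈ Set.range (sy X) := by
    intro u v huv h
    have h1 : ((u : ℕ), (v : ℕ)) ∈ edg (code G) :=
      mem_edg.2 ⟨⟨huv, v.2⟩, (ent_code G u v).2 h⟩
    obtain ⟨i, hi⟩ := List.get_of_mem h1
    refine ⟨i, ?_⟩
    rw [← hX i] at hi
    have h2 := Prod.mk.inj hi
    unfold sy
    rw [Fin.ext h2.1, Fin.ext h2.2]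
  have hgr : gr X = G := by
    ext u v
    unfold gr
    rw [SimpleGraph.fromEdgeSet_adj]
    constructor
    · rintro ⟨⟨i, hi⟩, _⟩
      unfold sy at hi
      rw [Sym2.eq_iff] at hi
      rcases hi with ⟨h1, h2⟩ | ⟨h1, h2⟩
      · rw [← h1, ← h2]
        exact hadj i
      · rw [← h1, ← h2]
        exact (hadj i).symm
    · intro h
      refine ⟨?_, h.ne⟩
      rcases lt_or_gt_of_ne h.ne with h1 | h1
      · exact hex u v h1 h
      · rw [Sym2.eq_swap]
        exact hex v u h1 h.symm
  have hes : G.edgeSet = Set.range (sy X) := by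
    ext e
    induction e using Sym2.ind with
    | _ u v =>
      rw [SimpleGraph.mem_edgeSet]
      constructor
      · intro h
        rw [← hgr] at h
        unfold gr at h
        exact (SimpleGraph.fromEdgeSet_adj _ |>.1 h).1
      · rintro ⟨i, hi⟩
        unfold sy at hi
        rw [Sym2.eq_iff] at hi
        rcases hi with ⟨h1, h2⟩ | ⟨h1, h2⟩
        · rw [← h1, ← h2]
          exact hadj i
        · rw [← h1, ← h2]
          exact (hadj i).symm
  have hlen : (edg (code G)).length = m := by
    rw [← hG', hes, ← Set.image_univ, Set.ncard_image_of_injective _ hinj, Set.ncard_univ,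
      Nat.card_eq_fintype_card, Fintype.card_fin]
  have hof : edg (code G) = List.ofFn fun i => p2 (X i) := by
    simp only [hX]
    exact (List.ofFn_get _).symm
  have hfin : ∃ X : Fin (edg (code G)).length → Pr n, Sm X ∧ gr X = G ∧
      edg (code G) = List.ofFn fun i => p2 (X i) := ⟨X, ⟨fun i => (hlt i).ne, hinj⟩, hgr, hof⟩
  rw [hlen] at hfin
  exact hfin

end Pool.Agent.ZL
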