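import Pool.Agent.ZL.FpA

set_option autoImplicit false

/-!
# ZL-FpH: `best`, `pres` are polynomial time computable
-/

namespace Pool.Agent.ZL

open Turing Function N487b59b3 N68a2faeb Pool.Agent.Helper22 Pool.Agent.Helper6.WB Computability
  Pool.Agent.Helper47.TR Pool.Agent.TFP

section

variable {α β γ : Type} [N487b59b3 α] [N487b59b3 β] [N487b59b3 γ]

theorem FP.cntLt {b c : α → List Bool} (hb : FP b) (hc : FP c) :
    FP fun a => decide (ZL.cnt (b a) < ZL.cnt (c a)) := by
  have h1 : FP fun a => ZL.cnt (b a) := FP.length (FP.filter (c := fun x : Bool => x) FP.id hb)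
  have h2 : FP fun a => ZL.cnt (c a) := FP.length (FP.filter (c := fun x : Bool => x) FP.id hc)
  have h3 := FP.not (FP.natLe h2 h1)
  refine (congrArg FP (funext fun a => ?_)).mp h3
  by_cases h : ZL.cnt (b a) < ZL.cnt (c a)
  · have h' : ¬ ZL.cnt (c a) ≤ ZL.cnt (b a) := by omega
    simp [h, h']
  · have h' : ZL.cnt (c a) ≤ ZL.cnt (b a) := by omega
    simp [h, h']

private theorem best_sz (l : List (List Bool)) (a : List Bool) :
    sz (l.foldl (fun b c => if ZL.cnt b < ZL.cnt c then c else b) a) ≤ sz l + sz a := by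
  induction l generalizing a with
  | nil => simp
  | cons b l ih =>
    rw [List.foldl_cons]
    refine (ih _).trans ?_
    rw [sz_cons]
    split_ifs <;> omega

theorem FP.best {L : α → List (List Bool)} (hL : FP L) : FP fun a => ZL.best (L a) := by
  have h0 : FP fun p : List Bool × List Bool => if ZL.cnt p.1 < ZL.cnt p.2 then p.2 else p.1 := by
    have h := FP.ite (FP.cntLt FP.fst FP.snd) (f := fun p : List Bool × List Bool => p.2)
      (g := fun p : List Bool × List Bool => p.1) FP.snd FP.fst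
    refine (congrArg FP (funext fun a => ?_)).mp h
    simp only [decide_eq_true_eq]
  have h1 : FP fun p : List (List Bool) × List Bool =>
      p.1.foldl (fun b c => if ZL.cnt b < ZL.cnt c then c else b) p.2 :=
    FP.foldl (g := fun b c => if ZL.cnt b < ZL.cnt c then c else b) h0 (B := fun n => n)
      (by fun_prop) best_sz
  exact h1.comp (FP.pair hL (FP.const []))

private theorem pres_sz (l p : List (ℕ × ℕ)) (L : List (List (ℕ × ℕ))) :
    ∃ L' : List (List (ℕ × ℕ)),
      l.foldl (fun (s : List (ℕ × ℕ) × List (List (ℕ × ℕ))) z =>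
        (s.1 ++ [z], (s.1 ++ [z]) :: s.2)) (p, L) = (p ++ l, L') ∧
      sz L' ≤ sz L + l.length * (2 * (sz p + sz l) + 1) := by
  induction l generalizing p L with
  | nil => exact ⟨L, by simp, by simp⟩
  | cons z l ih =>
    obtain ⟨L', h1, h2⟩ := ih (p ++ [z]) ((p ++ [z]) :: L)
    refine ⟨L', ?_, ?_⟩
    · rw [List.foldl_cons]
      simp only
      rw [h1]
      simp
    · refine h2.trans ?_
      have e1 : sz (p ++ [z]) + sz l = sz p + sz (z :: l) := by
        rw [sz_append, sz_cons, sz_cons, sz_nil]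
        omega
      rw [e1, sz_cons (p ++ [z]), List.length_cons, Nat.add_mul, one_mul]
      have e2 : sz (p ++ [z]) ≤ sz p + sz (z :: l) := by omega
      omega

theorem FP.pres {Z : α → List (ℕ × ℕ)} (hZ : FP Z) : FP fun a => ZL.pres (Z a) := by
  have h0 : FP fun q : (List (ℕ × ℕ) × List (List (ℕ × ℕ))) × (ℕ × ℕ) =>
      (q.1.1 ++ [q.2], (q.1.1 ++ [q.2]) :: q.1.2) := by
    have h1 : FP fun q : (List (ℕ × ℕ) × List (List (ℕ × ℕ))) × (ℕ × ℕ) => q.1.1 ++ [q.2] :=
      FP.append FP.fst.fst' (FP.cons FP.snd (FP.const []))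
    exact FP.pair h1 (FP.cons h1 FP.fst.snd')
  have h1 := FP.foldl (g := fun (s : List (ℕ × ℕ) × List (List (ℕ × ℕ))) (z : ℕ × ℕ) =>
    (s.1 ++ [z], (s.1 ++ [z]) :: s.2)) h0 (B := fun n => 2 * n + 1 + (n + n * (2 * n + 1)))
    (by fun_prop) (by
      rintro l ⟨p, L⟩
      obtain ⟨L', e1, e2⟩ := pres_sz l p L
      rw [e1, sz_pair, sz_pair, sz_append]
      have h3 : l.length ≤ sz l := length_le_sz l
      have h4 : l.length * (2 * (sz p + sz l) + 1) ≤
          (sz l + (2 * sz p + 1 + sz L)) * (2 * (sz l + (2 * sz p + 1 + sz L)) + 1) :=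
        Nat.mul_le_mul (by omega) (by omega)
      generalize (sz l + (2 * sz p + 1 + sz L)) * (2 * (sz l + (2 * sz p + 1 + sz L)) + 1) = N at *
      omega)
  exact FP.snd.comp (h1.comp (FP.pair hZ (FP.const ([], [[]]))))

end

end Pool.Agent.ZL
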