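import Pool.Agent.ZL.FpB
import Pool.Agent.ZL.FpH

set_option autoImplicit false

/-!
# ZL-FpK: the greedy algorithm is polynomial time computable
-/

namespace Pool.Agent.ZL

open Turing Function N487b59b3 N68a2faeb Pool.Agent.Helper22 Pool.Agent.Helper6.WB Computability
  Pool.Agent.Helper47.TR Pool.Agent.TFP

private def gstep (s : List (List Bool) × List ℕ) (v : ℕ) : List (List Bool) × List ℕ :=
  (s.1, if s.2.any (fun u => ZL.ent s.1 u v) then s.2 else v :: s.2)

private theorem gstep_foldl (x : List (List Bool)) (l : List ℕ) (S : List ℕ) :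
    l.foldl gstep (x, S) =
      (x, l.foldl (fun S v => if S.any (fun u => ZL.ent x u v) then S else v :: S) S) := by
  induction l generalizing S with
  | nil => rfl
  | cons v l ih =>
    rw [List.foldl_cons, List.foldl_cons]
    exact ih _

private theorem gfold_sz (x : List (List Bool)) (l : List ℕ) (S : List ℕ) :
    sz (l.foldl (fun S v => if S.any (fun u => ZL.ent x u v) then S else v :: S) S) ≤
      sz S + sz l := by
  induction l generalizing S with
  | nil => simp
  | cons v l ih =>
    rw [List.foldl_cons, sz_cons]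
    refine (ih _).trans ?_
    split
    · omega
    · rw [sz_cons]; omega

section

variable {α β γ : Type} [N487b59b3 α] [N487b59b3 β] [N487b59b3 γ]

theorem FP.grl {x : α → List (List Bool)} (hx : FP x) : FP fun a => ZL.grl (x a) := by
  have h1 : FP fun q : (List (List Bool) × ℕ) × ℕ => ZL.ent q.1.1 q.2 q.1.2 :=
    FP.ent (by fun_prop) (by fun_prop) (by fun_prop)
  have h2 : FP fun p : (List (List Bool) × List ℕ) × ℕ =>
      p.1.2.any fun u => ZL.ent p.1.1 u p.2 :=
    (FP.any_ctx h1).comp (f := fun p : (List (List Bool) × List ℕ) × ℕ => ((p.1.1, p.2), p.1.2))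
      (by fun_prop)
  have h3 : FP fun p : (List (List Bool) × List ℕ) × ℕ => p.2 :: p.1.2 :=
    FP.cons (by fun_prop) (by fun_prop)
  have h4 : FP fun p : (List (List Bool) × List ℕ) × ℕ => gstep p.1 p.2 :=
    FP.pair (f := fun p : (List (List Bool) × List ℕ) × ℕ => p.1.1) (by fun_prop)
      (FP.ite h2 (f := fun p : (List (List Bool) × List ℕ) × ℕ => p.1.2) (by fun_prop) h3)
  have h5 : FP fun p : List ℕ × (List (List Bool) × List ℕ) => p.1.foldl gstep p.2 := by
    refine FP.foldl (g := gstep) h4 (B := fun n => n) (by fun_prop) ?_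
    rintro l ⟨y, S⟩
    rw [gstep_foldl, sz_pair, sz_pair]
    have := gfold_sz y l S
    omega
  have h6 := h5.comp (FP.pair (FP.range hx) (FP.pair hx (FP.const [])))
  simp only [gstep_foldl] at h6
  exact h6.snd'

theorem FP.grd {x : α → List (List Bool)} (hx : FP x) : FP fun a => ZL.grd (x a) := by
  have h1 : FP fun r : ℕ × ℕ => (r.2 == r.1) := FP.natBeq (by fun_prop) (by fun_prop)
  have h2 : FP fun q : List ℕ × ℕ => q.1.any fun u => u == q.2 :=
    (FP.any_ctx h1).comp (f := fun q : List ℕ × ℕ => (q.2, q.1)) (by fun_prop)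
  exact (FP.map_ctx h2).comp (FP.pair (FP.grl hx) (FP.range hx))

end

end Pool.Agent.ZL
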