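import Pool.Agent.ZL.FpJ
import Pool.Agent.ZL.FpK

set_option autoImplicit false

/-!
# ZL-FpM: the final algorithm is polynomial time computable
-/

namespace Pool.Agent.ZL

open Turing Function N487b59b3 N68a2faeb Pool.Agent.Helper22 Pool.Agent.Helper6.WB Computability
  Pool.Agent.Helper47.TR Pool.Agent.TFP

theorem both_poly {A : AAlg} (hA : N68a2faeb.IsPolyTime A) (q : Polynomial ℕ) (D : ℕ) :
    N68a2faeb.IsPolyTime (both A q D) := by
  rw [isPolyTime_iff] at hA ⊢
  have h1 : FP fun p : List (List Bool) × List Bool => ZL.grd p.1 := FP.grd (by fun_prop)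
  exact FP.best (FP.cons (FP.amp hA q D) (FP.cons h1 (FP.const [])))

/-- an algorithm without advice as an algorithm with advice -/
theorem noadv_poly {A : Alg} (hA : N68a2faeb.IsPolyTime A) :
    N68a2faeb.IsPolyTime (fun p : (List (List Bool) × List Bool) × List Bool => A (p.1.1, p.2)) := by
  rw [isPolyTime_iff] at hA ⊢
  exact FP.comp hA (by fun_prop)

end Pool.Agent.ZL
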