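import Mathlib

set_option autoImplicit false

/-!
# ZL-GrE: asymptotics of the greedy process (Mathlib only)
-/

namespace Pool.Agent.ZL

open Filter

private theorem geo_bd {q y : ℝ} (hq : 1 ≤ q) (hqy : q ≤ Real.exp y) (hy : 0 < y) (x : ℕ) {T : ℝ}
    (hT : (x : ℝ) ≤ T) : ∑ i ∈ Finset.range x, q ^ i ≤ (Real.exp (T * y) - 1) / y := by
  have h1 : ∑ i ∈ Finset.range x, q ^ i ≤ ∑ i ∈ Finset.range x, Real.exp y ^ i :=
    Finset.sum_le_sum fun i _ => pow_le_pow_left₀ (by linarith) hqy i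
  have h2 : y ≤ Real.exp y - 1 := by linarith [Real.add_one_le_exp y]
  have h3 : Real.exp y ≠ 1 := by linarith
  rw [geom_sum_eq h3] at h1
  refine h1.trans ?_
  have h4 : Real.exp y ^ x ≤ Real.exp (T * y) := by
    rw [← Real.exp_nat_mul]
    exact Real.exp_le_exp.2 (mul_le_mul_of_nonneg_right hT hy.le)
  have h5 : 1 ≤ Real.exp y ^ x := one_le_pow₀ (Real.one_le_exp hy.le)
  calc (Real.exp y ^ x - 1) / (Real.exp y - 1) ≤ (Real.exp y ^ x - 1) / y :=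
        div_le_div_of_nonneg_left (by linarith) hy h2
    _ ≤ _ := div_le_div_of_nonneg_right (by linarith) hy.le

theorem gr_lim (c α : ℝ) (hc : 0 < c) (hα : 0 < α) (h : (Real.exp (2 * c * α) - 1) / (2 * c) < 1) :
    ∃ γ C : ℝ, 0 < γ ∧ 0 < C ∧ ∀ᶠ n : ℕ in atTop, ∀ m : ℕ, (m : ℝ) ≤ c * n →
      (m : ℝ) / (n.choose 2 : ℕ) < 1 ∧ (1 / (1 - (m : ℝ) / (n.choose 2 : ℕ))) ^ n ≤ C ∧
      ∀ x : ℕ, (x : ℝ) ≤ α * n + 1 →
        ∑ i ∈ Finset.range x, (1 / (1 - (m : ℝ) / (n.choose 2 : ℕ))) ^ i ≤ (1 - γ) * n := by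
  obtain ⟨θ, hθ⟩ : ∃ θ : ℝ, θ = (Real.exp (2 * c * α) - 1) / (2 * c) := ⟨_, rfl⟩
  rw [← hθ] at h
  obtain ⟨a, ha⟩ : ∃ a : ℝ, a = -(1 + 2 * c) := ⟨_, rfl⟩
  have hny : Tendsto (fun n : ℕ => (n : ℝ) * (2 * c / (n + a))) atTop (nhds (2 * c)) := by
    have h1 := (tendsto_natCast_div_add_atTop (𝕜 := ℝ) a).const_mul (2 * c)
    rw [mul_one] at h1
    refine h1.congr fun n => ?_
    ring
  have hy0 : Tendsto (fun n : ℕ => 2 * c / ((n : ℝ) + a)) atTop (nhds 0) := by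
    refine Tendsto.div_atTop tendsto_const_nhds ?_
    exact tendsto_atTop_add_const_right _ a tendsto_natCast_atTop_atTop
  have hay : Tendsto (fun n : ℕ => (α * n + 1) * (2 * c / ((n : ℝ) + a))) atTop
      (nhds (2 * c * α)) := by
    have h1 := (hny.const_mul α).add hy0
    have h2 : α * (2 * c) + 0 = 2 * c * α := by ring
    rw [h2] at h1
    refine h1.congr fun n => ?_
    ring
  have hquo : Tendsto (fun n : ℕ => (Real.exp ((α * n + 1) * (2 * c / ((n : ℝ) + a))) - 1) /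
      ((n : ℝ) * (2 * c / (n + a)))) atTop (nhds θ) := by
    rw [hθ]
    refine Tendsto.div ?_ hny (by positivity)
    exact ((Real.continuous_exp.tendsto _).comp hay).sub_const 1
  have hexp : Tendsto (fun n : ℕ => Real.exp ((n : ℝ) * (2 * c / (n + a)))) atTop
      (nhds (Real.exp (2 * c))) := (Real.continuous_exp.tendsto _).comp hny
  refine ⟨(1 - θ) / 2, Real.exp (2 * c) + 1, by linarith, by positivity, ?_⟩
  filter_upwards [hquo.eventually_lt_const (by linarith : θ < (1 + θ) / 2),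
    hexp.eventually_lt_const (by linarith : Real.exp (2 * c) < Real.exp (2 * c) + 1),
    eventually_ge_atTop (⌈4 * c + 4⌉₊)] with n hn1 hn2 hn3
  have hn4 : 4 * c + 4 ≤ (n : ℝ) := (Nat.le_ceil _).trans (by exact_mod_cast hn3)
  intro m hm
  have hn0 : (0 : ℝ) < n := by linarith
  have hch : ((n.choose 2 : ℕ) : ℝ) = (n : ℝ) * (n - 1) / 2 := Nat.cast_choose_two ℝ n
  obtain ⟨p, hp⟩ : ∃ p : ℝ, p = (m : ℝ) / (n.choose 2 : ℕ) := ⟨_, rfl⟩
  rw [← hp]
  have hp0 : 0 ≤ p := by rw [hp]; positivity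
  have hp1 : p ≤ 2 * c / (n - 1) := by
    rw [hp, hch, div_le_div_iff₀ (by nlinarith) (by linarith)]
    have h1 : (m : ℝ) * (n - 1) ≤ c * n * (n - 1) :=
      mul_le_mul_of_nonneg_right hm (by linarith)
    calc (m : ℝ) * (n - 1) ≤ c * n * (n - 1) := h1
      _ = _ := by ring
  have hp2 : 2 * c / (n - 1) ≤ 1 / 2 := by
    rw [div_le_iff₀ (by linarith)]
    linarith
  have hp3 : p < 1 := by linarith
  obtain ⟨y, hy⟩ : ∃ y : ℝ, y = 2 * c / (n + a) := ⟨_, rfl⟩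
  have hna : 0 < (n : ℝ) + a := by rw [ha]; linarith
  have hypos : 0 < y := by rw [hy]; positivity
  rw [← hy] at hn1 hn2
  have hq1 : 1 ≤ 1 / (1 - p) := by
    rw [le_div_iff₀ (by linarith)]
    linarith
  have hqy : 1 / (1 - p) ≤ Real.exp y := by
    have h1 : 1 / (1 - p) ≤ 1 + y := by
      rw [div_le_iff₀ (by linarith)]
      have h2 : (1 + y) * (1 - 2 * c / (n - 1)) = 1 := by
        rw [hy]
        have h3 : (n : ℝ) - 1 ≠ 0 := by linarith
        have h4 : (n : ℝ) + a ≠ 0 := hna.ne'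
        field_simp
        rw [ha]
        ring
      calc (1 : ℝ) = (1 + y) * (1 - 2 * c / (n - 1)) := h2.symm
        _ ≤ (1 + y) * (1 - p) := mul_le_mul_of_nonneg_left (by linarith) (by linarith)
    exact h1.trans (by linarith [Real.add_one_le_exp y])
  refine ⟨hp3, ?_, ?_⟩
  · calc (1 / (1 - p)) ^ n ≤ Real.exp y ^ n := pow_le_pow_left₀ (by linarith) hqy n
      _ = Real.exp (n * y) := by rw [← Real.exp_nat_mul]
      _ ≤ _ := hn2.le
  · intro x hx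
    refine (geo_bd hq1 hqy hypos x hx).trans ?_
    rw [div_lt_iff₀ (by positivity)] at hn1
    rw [div_le_iff₀ hypos]
    have h5 : (1 + θ) / 2 * (n * y) = (1 - (1 - θ) / 2) * n * y := by ring
    linarith

/-- the error bound -/
theorem gr_err (γ C τ : ℝ) (hγ : 0 < γ) (hC : 0 < C) (hτ : 0 < τ) : ∀ᶠ n : ℕ in atTop,
    (((n.choose 2 : ℕ) : ℝ) + 1) * Real.exp (-(γ ^ 2 / (2 * C) * n)) ≤ τ := by
  obtain ⟨δ, hd⟩ : ∃ δ : ℝ, δ = γ ^ 2 / (2 * C) := ⟨_, rfl⟩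
  have hδ : 0 < δ := by rw [hd]; positivity
  rw [← hd]
  have h1 : Tendsto (fun n : ℕ => δ * (n : ℝ)) atTop atTop :=
    tendsto_natCast_atTop_atTop.const_mul_atTop hδ
  have h2 := (Real.tendsto_pow_mul_exp_neg_atTop_nhds_zero 2).comp h1
  have h3 := (Real.tendsto_pow_mul_exp_neg_atTop_nhds_zero 0).comp h1
  have h4 := (h2.const_mul (1 / δ ^ 2)).add h3
  rw [mul_zero, add_zero] at h4
  filter_upwards [h4.eventually_lt_const hτ] with n hn
  refine le_trans ?_ hn.le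
  show _ ≤ 1 / δ ^ 2 * ((δ * n) ^ 2 * Real.exp (-(δ * n))) + (δ * n) ^ 0 * Real.exp (-(δ * n))
  have h5 : ((n.choose 2 : ℕ) : ℝ) ≤ (n : ℝ) ^ 2 := by
    rw [Nat.cast_choose_two]
    have : (0 : ℝ) ≤ n := Nat.cast_nonneg n
    nlinarith
  have h6 : 1 / δ ^ 2 * ((δ * n) ^ 2 * Real.exp (-(δ * n))) + (δ * n) ^ 0 * Real.exp (-(δ * n)) =
      ((n : ℝ) ^ 2 + 1) * Real.exp (-(δ * n)) := by
    field_simp
  rw [h6]
  exact mul_le_mul_of_nonneg_right (by linarith) (Real.exp_pos _).le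

end Pool.Agent.ZL
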