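import Mathlib

set_option autoImplicit false

/-!
# ZL-GrB: the mode of the binomial distribution (Mathlib only)
-/

namespace Pool.Agent.ZL

theorem bin_mode (N m : ℕ) (hm : m ≤ N) (hN : 0 < N) (p : ℝ) (hp : p = m / N) :
    1 / ((N : ℝ) + 1) ≤ (N.choose m) * p ^ m * (1 - p) ^ (N - m) := by
  have hN' : (0 : ℝ) < N := Nat.cast_pos.2 hN
  have hm' : (m : ℝ) ≤ N := Nat.cast_le.2 hm
  obtain ⟨q, hq⟩ : ∃ q : ℝ, q = 1 - p := ⟨_, rfl⟩
  have hpN : p * N = m := by rw [hp, div_mul_cancel₀ _ hN'.ne']
  have hqN : q * N = N - m := by rw [hq, sub_mul, one_mul, hpN]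
  have hp0 : 0 ≤ p := by rw [hp]; positivity
  have hq0 : 0 ≤ q := by
    by_contra h
    push Not at h
    have := mul_neg_of_neg_of_pos h hN'
    linarith
  obtain ⟨b, hb⟩ : ∃ b : ℕ → ℝ, ∀ i, b i = (N.choose i) * p ^ i * q ^ (N - i) := ⟨_, fun _ => rfl⟩
  have hb0 : ∀ i, 0 ≤ b i := fun i => by rw [hb]; positivity
  have hrec : ∀ i, i < N → b (i + 1) * ((i + 1) * q) = b i * ((N - i) * p) := fun i hi => by
    rw [hb, hb]
    have h1 : ((N.choose (i + 1) : ℕ) : ℝ) * (i + 1) = N.choose i * (N - i) := by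
      have h2 := Nat.choose_succ_right_eq N i
      have h3 : ((N.choose (i + 1) * (i + 1) : ℕ) : ℝ) = ((N.choose i * (N - i) : ℕ) : ℝ) := by
        rw [h2]
      rw [Nat.cast_mul, Nat.cast_mul, Nat.cast_sub hi.le] at h3
      push_cast at h3
      exact h3
    have h4 : q ^ (N - i) = q ^ (N - (i + 1)) * q := by
      rw [← pow_succ, show N - (i + 1) + 1 = N - i from by omega]
    rw [h4, pow_succ]
    linear_combination p ^ i * p * q ^ (N - (i + 1)) * q * h1
  have hup : ∀ i, i < m → b i ≤ b (i + 1) := fun i hi => by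
    have hiN : i < N := lt_of_lt_of_le hi hm
    have hi1 : (i : ℝ) + 1 ≤ m := by exact_mod_cast hi
    have hiN' : (0 : ℝ) < N - i := by
      have : (i : ℝ) < N := Nat.cast_lt.2 hiN
      linarith
    have hpp : 0 < p := by
      have : (0 : ℝ) < m := by
        have : (0 : ℝ) ≤ i := Nat.cast_nonneg i
        linarith
      rw [hp]
      positivity
    have h1 : ((i : ℝ) + 1) * q ≤ (N - i) * p := by
      have h2 : (((i : ℝ) + 1) * q) * N ≤ ((N - i) * p) * N := by
        have h3 : (((i : ℝ) + 1) * q) * N = (i + 1) * (N - m) := by rw [mul_assoc, hqN]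
        have h4 : (((N : ℝ) - i) * p) * N = (N - i) * m := by rw [mul_assoc, hpN]
        rw [h3, h4]
        nlinarith
      exact le_of_mul_le_mul_right h2 hN'
    have h2 := hrec i hiN
    have h3 : b i * ((N - i) * p) ≤ b (i + 1) * ((N - i) * p) := by
      rw [← h2]
      exact mul_le_mul_of_nonneg_left h1 (hb0 _)
    exact le_of_mul_le_mul_right h3 (mul_pos hiN' hpp)
  have hdn : ∀ i, m ≤ i → i < N → b (i + 1) ≤ b i := fun i hi hiN => by
    have hi1 : (m : ℝ) ≤ i := Nat.cast_le.2 hi
    have hiN' : (i : ℝ) < N := Nat.cast_lt.2 hiN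
    have hqq : 0 < q := by
      by_contra h
      push Not at h
      have : q = 0 := le_antisymm h hq0
      rw [this, zero_mul] at hqN
      linarith
    have hi0 : (0 : ℝ) ≤ i := Nat.cast_nonneg i
    have h1 : ((N : ℝ) - i) * p ≤ (i + 1) * q := by
      have h2 : (((N : ℝ) - i) * p) * N ≤ (((i : ℝ) + 1) * q) * N := by
        have h3 : (((i : ℝ) + 1) * q) * N = (i + 1) * (N - m) := by rw [mul_assoc, hqN]
        have h4 : (((N : ℝ) - i) * p) * N = (N - i) * m := by rw [mul_assoc, hpN]
        rw [h3, h4]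
        nlinarith
      exact le_of_mul_le_mul_right h2 hN'
    have h2 := hrec i hiN
    have h3 : b (i + 1) * ((i + 1) * q) ≤ b i * ((i + 1) * q) := by
      rw [h2]
      exact mul_le_mul_of_nonneg_left h1 (hb0 _)
    exact le_of_mul_le_mul_right h3 (mul_pos (by linarith) hqq)
  have hlow : ∀ i j, i ≤ j → j ≤ m → b i ≤ b j := fun i j hij => by
    induction j, hij using Nat.le_induction with
    | base => exact fun _ => le_rfl
    | succ j _ ih => exact fun hj => (ih (by omega)).trans (hup j (by omega))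
  have hhigh : ∀ j, m ≤ j → j ≤ N → b j ≤ b m := fun j hj => by
    induction j, hj using Nat.le_induction with
    | base => exact fun _ => le_rfl
    | succ j hj' ih => exact fun hj => (hdn j hj' (by omega)).trans (ih (by omega))
  have hall : ∀ i ∈ Finset.range (N + 1), b i ≤ b m := fun i hi => by
    have hiN : i ≤ N := Nat.lt_succ_iff.1 (Finset.mem_range.1 hi)
    rcases le_total i m with h | h
    · exact hlow i m h le_rfl
    · exact hhigh i h hiN
  have hsum : ∑ i ∈ Finset.range (N + 1), b i = 1 := by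
    have h1 := add_pow p q N
    have h2 : p + q = 1 := by rw [hq]; ring
    rw [h2, one_pow] at h1
    rw [h1]
    exact Finset.sum_congr rfl fun i _ => by rw [hb]; ring
  have hle : 1 ≤ ((N : ℝ) + 1) * b m := by
    calc (1 : ℝ) = ∑ i ∈ Finset.range (N + 1), b i := hsum.symm
      _ ≤ ∑ _i ∈ Finset.range (N + 1), b m := Finset.sum_le_sum hall
      _ = _ := by rw [Finset.sum_const, Finset.card_range, nsmul_eq_mul]; push_cast; ring
  have h1 := hb m
  rw [← hq, ← h1, div_le_iff₀ (by positivity)]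
  linarith

end Pool.Agent.ZL
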