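import Pool.Agent.ZL.SqD

set_option autoImplicit false

/-!
# ZL-SqB: the number of simple sequences
-/

namespace Pool.Agent.ZL

open Finset

private theorem sym_eq_iff {n : ℕ} (e e' : Pr n) :
    s(e.1, e.2) = s(e'.1, e'.2) ↔ e = e' ∨ e = e'.swap := by
  rw [Sym2.eq_iff]
  constructor
  · rintro (⟨h1, h2⟩ | ⟨h1, h2⟩)
    · exact Or.inl (Prod.ext h1 h2)
    · exact Or.inr (Prod.ext h1 h2)
  · rintro (h | h)
    · exact Or.inl ⟨congrArg Prod.fst h, congrArg Prod.snd h⟩
    · exact Or.inr ⟨congrArg Prod.fst h, congrArg Prod.snd h⟩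

private theorem sm_cons {n m : ℕ} (e : Pr n) (y : Fin m → Pr n) :
    Sm (Fin.cons e y : Fin (m + 1) → Pr n) ↔
      Sm y ∧ e.1 ≠ e.2 ∧ ∀ i, s(e.1, e.2) ≠ sy y i := by
  have h0 : sy (Fin.cons e y : Fin (m + 1) → Pr n) 0 = s(e.1, e.2) := rfl
  have h1 : ∀ i : Fin m, sy (Fin.cons e y : Fin (m + 1) → Pr n) i.succ = sy y i := fun i => rfl
  constructor
  · rintro ⟨ha, hb⟩
    refine ⟨⟨fun i => ha i.succ, ?_⟩, ha 0, ?_⟩
    · intro i j hij
      have := hb ((h1 i).trans (hij.trans (h1 j).symm))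
      exact Fin.succ_injective _ this
    · intro i hi
      have := hb (h0.trans (hi.trans (h1 i).symm))
      exact absurd this.symm (Fin.succ_ne_zero i)
  · rintro ⟨⟨ha, hb⟩, hc, hd⟩
    refine ⟨fun i => ?_, fun i j hij => ?_⟩
    · refine Fin.cases ?_ (fun i => ?_) i
      · exact hc
      · exact ha i
    · revert hij
      refine Fin.cases ?_ (fun i => ?_) i <;> refine Fin.cases ?_ (fun j => ?_) j
      · intro _; rfl
      · intro hij
        rw [h0, h1] at hij
        exact absurd hij (hd j)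
      · intro hij
        rw [h0, h1] at hij
        exact absurd hij.symm (hd i)
      · intro hij
        rw [h1, h1] at hij
        rw [hb hij]

open Classical in
private theorem card_new {n m : ℕ} (y : Fin m → Pr n) (hy : Sm y) :
    ((univ : Finset (Pr n)).filter (fun e => e.1 ≠ e.2 ∧ ∀ i, s(e.1, e.2) ≠ sy y i)).card =
      n ^ 2 - n - 2 * m := by
  obtain ⟨ha, hb⟩ := hy
  let g : Fin m × Bool → Pr n := fun p => if p.2 then y p.1 else (y p.1).swap
  have hg1 : ∀ p, s((g p).1, (g p).2) = sy y p.1 := by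
    rintro ⟨i, b⟩
    cases b
    · exact Sym2.eq_swap
    · rfl
  have hginj : Function.Injective g := by
    rintro ⟨i, b⟩ ⟨j, b'⟩ h
    have h1 : i = j := hb (by rw [← hg1 (i, b), ← hg1 (j, b'), h])
    subst h1
    have h2 : y i ≠ (y i).swap := fun h => ha i (congrArg Prod.fst h)
    cases b <;> cases b'
    · rfl
    · exact absurd (show (y i).swap = y i from h).symm h2
    · exact absurd (show y i = (y i).swap from h) h2
    · rfl
  have hB : ((univ : Finset (Fin m × Bool)).image g).card = 2 * m := by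
    rw [card_image_of_injective _ hginj, card_univ, Fintype.card_prod, Fintype.card_fin, Fintype.card_bool,
      mul_comm]
  have hA : (univ : Finset (Fin n)).offDiag.card = n ^ 2 - n := by
    rw [offDiag_card, card_univ, Fintype.card_fin, sq]
  have hsub : (univ : Finset (Fin m × Bool)).image g ⊆ (univ : Finset (Fin n)).offDiag := by
    intro e he
    obtain ⟨⟨i, b⟩, -, rfl⟩ := mem_image.1 he
    rw [mem_offDiag]
    refine ⟨mem_univ _, mem_univ _, ?_⟩
    cases b
    · exact fun h => ha i h.symm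
    · exact ha i
  have hset : (univ : Finset (Pr n)).filter (fun e => e.1 ≠ e.2 ∧ ∀ i, s(e.1, e.2) ≠ sy y i) =
      (univ : Finset (Fin n)).offDiag \ (univ : Finset (Fin m × Bool)).image g := by
    ext e
    rw [mem_filter, mem_sdiff, mem_offDiag]
    constructor
    · rintro ⟨-, h1, h2⟩
      refine ⟨⟨mem_univ _, mem_univ _, h1⟩, fun he => ?_⟩
      obtain ⟨p, -, rfl⟩ := mem_image.1 he
      exact h2 _ (hg1 p)
    · rintro ⟨⟨-, -, h1⟩, h2⟩
      refine ⟨mem_univ _, h1, fun i hi => h2 ?_⟩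
      rcases (sym_eq_iff e (y i)).1 hi with h | h
      · exact mem_image.2 ⟨(i, true), mem_univ _, h.symm⟩
      · exact mem_image.2 ⟨(i, false), mem_univ _, h.symm⟩
  rw [hset, card_sdiff_of_subset hsub, hA, hB]

open Classical in
theorem cnt_succ (n m : ℕ) :
    ((univ : Finset (Fin (m + 1) → Pr n)).filter Sm).card =
      ((univ : Finset (Fin m → Pr n)).filter Sm).card * (n ^ 2 - n - 2 * m) := by
  rw [card_eq_sum_card_fiberwise (f := fun z : Fin (m + 1) → Pr n => (Fin.tail z : Fin m → Pr n))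
    (t := (univ : Finset (Fin m → Pr n)).filter Sm)]
  · rw [sum_congr rfl (g := fun _ => n ^ 2 - n - 2 * m), sum_const, smul_eq_mul]
    intro y hy
    rw [mem_filter] at hy
    rw [← card_new y hy.2]
    refine card_bij' (fun z _ => z 0) (fun e _ => (Fin.cons e y : Fin (m + 1) → Pr n)) ?_ ?_ ?_ ?_
    · intro z hz
      rw [mem_filter, mem_filter] at hz
      obtain ⟨⟨-, h1⟩, h2⟩ := hz
      have h3 : z = (Fin.cons (z 0) y : Fin (m + 1) → Pr n) := by
        rw [← h2]
        exact (Fin.cons_self_tail z).symm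
      rw [h3, sm_cons] at h1
      exact mem_filter.2 ⟨mem_univ _, h1.2⟩
    · intro e he
      rw [mem_filter] at he
      rw [mem_filter, mem_filter]
      exact ⟨⟨mem_univ _, (sm_cons e y).2 ⟨hy.2, he.2⟩⟩, rfl⟩
    · intro z hz
      rw [mem_filter] at hz
      show (Fin.cons (z 0) y : Fin (m + 1) → Pr n) = z
      rw [← hz.2]
      exact Fin.cons_self_tail z
    · intro e _
      rfl
  · intro z hz
    rw [mem_coe, mem_filter] at hz
    rw [mem_coe, mem_filter]
    have h3 : z = (Fin.cons (z 0) (Fin.tail z) : Fin (m + 1) → Pr n) := (Fin.cons_self_tail z).symm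
    have h1 := hz.2
    rw [h3, sm_cons] at h1
    exact ⟨mem_univ _, h1.1⟩

open Classical in
private theorem cnt_zero (n : ℕ) : ((univ : Finset (Fin 0 → Pr n)).filter Sm).card = 1 := by
  rw [filter_true_of_mem, card_univ, Fintype.card_unique]
  intro y _
  exact ⟨fun i => i.elim0, fun i => i.elim0⟩

open Classical in
theorem cnt_choose (n m : ℕ) :
    ((univ : Finset (Fin m → Pr n)).filter Sm).card = 2 ^ m * (n.choose 2).descFactorial m := by
  induction m with
  | zero => rw [cnt_zero, pow_zero, Nat.descFactorial_zero, mul_one]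
  | succ m ih =>
    have h2 : 2 * n.choose 2 = n ^ 2 - n := by
      rw [Nat.choose_two_right, Nat.mul_div_cancel' (Nat.even_mul_pred_self n).two_dvd, sq, Nat.mul_sub_one]
    rw [cnt_succ, ih, Nat.descFactorial_succ, ← h2, ← Nat.mul_sub]
    ring

open Classical in
theorem dens (c : ℝ) (hc : 0 < c) (n m : ℕ) (hn : 2 * (1 + 2 * c) ≤ n) (hm : (m : ℝ) ≤ c * n) :
    Real.exp (-(2 * c * (1 + 2 * c))) * (n : ℝ) ^ (2 * m) ≤
      ((univ : Finset (Fin m → Pr n)).filter Sm).card := by
  have hn0 : (0 : ℝ) < n := by linarith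
  obtain ⟨τ, hτ⟩ : ∃ τ : ℝ, τ = (1 + 2 * c) / n := ⟨_, rfl⟩
  have hτ0 : 0 ≤ τ := by rw [hτ]; positivity
  have hτ1 : τ ≤ 1 / 2 := by
    rw [hτ, div_le_div_iff₀ hn0 (by norm_num)]
    linarith
  have hτn : τ * n = 1 + 2 * c := by rw [hτ]; field_simp
  have hexp : Real.exp (-(2 * τ)) ≤ 1 - τ := by
    have h1 : 2 * τ + 1 ≤ Real.exp (2 * τ) := Real.add_one_le_exp _
    rw [Real.exp_neg]
    rw [inv_le_comm₀ (Real.exp_pos _) (by linarith)]
    refine le_trans ?_ h1
    rw [inv_le_iff_one_le_mul₀ (by linarith)]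
    nlinarith
  have key : ∀ i : ℕ, i ≤ m → ((n : ℝ) ^ 2 * Real.exp (-(2 * τ))) ^ i ≤
      ((univ : Finset (Fin i → Pr n)).filter Sm).card := by
    intro i
    induction i with
    | zero => intro _; rw [cnt_zero]; simp
    | succ i ih =>
      intro hi
      have h1 := ih (by omega)
      rw [cnt_succ, pow_succ, Nat.cast_mul]
      refine mul_le_mul h1 ?_ (by positivity) (by positivity)
      have h2 : ((n : ℝ) ^ 2 - n) - 2 * i ≤ ((n ^ 2 - n - 2 * i : ℕ) : ℝ) := by
        have e1 : n ^ 2 ≤ (n ^ 2 - n - 2 * i) + (n + 2 * i) := by omega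
        have e2 : ((n ^ 2 : ℕ) : ℝ) ≤ (((n ^ 2 - n - 2 * i) + (n + 2 * i) : ℕ) : ℝ) := by exact_mod_cast e1
        rw [Nat.cast_add] at e2
        push_cast at e2 ⊢
        linarith
      refine le_trans ?_ h2
      have h3 : (i : ℝ) ≤ c * n := le_trans (by exact_mod_cast (by omega : i ≤ m)) hm
      have h4 : (n : ℝ) ^ 2 * Real.exp (-(2 * τ)) ≤ (n : ℝ) ^ 2 * (1 - τ) :=
        mul_le_mul_of_nonneg_left hexp (by positivity)
      have h5 : (n : ℝ) ^ 2 * (1 - τ) = (n : ℝ) ^ 2 - n * (τ * n) := by ring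
      rw [h5, hτn] at h4
      nlinarith
  refine le_trans ?_ (key m le_rfl)
  rw [mul_pow, ← pow_mul, ← Real.exp_nat_mul, mul_comm]
  refine mul_le_mul_of_nonneg_left (Real.exp_le_exp.2 ?_) (by positivity)
  have h1 : (m : ℝ) * τ ≤ c * (1 + 2 * c) := by
    calc (m : ℝ) * τ ≤ (c * n) * τ := mul_le_mul_of_nonneg_right hm hτ0
      _ = c * (τ * n) := by ring
      _ = c * (1 + 2 * c) := by rw [hτn]
  linarith

end Pool.Agent.ZL
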