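import Pool.Agent.ZL.SqA
import Pool.Agent.ZL.SqB

set_option autoImplicit false

/-!
# ZL-SqC: families of graphs and of sequences
-/

namespace Pool.Agent.ZL

open Finset

open Classical in
theorem fam {n m : ℕ} (𝒜 : Finset (SimpleGraph (Fin n))) (h : 𝒜 ⊆ Gr n m) :
    ((univ : Finset (Fin m → Pr n)).filter fun y => Sm y ∧ gr y ∈ 𝒜).card =
      𝒜.card * (m.factorial * 2 ^ m) := by
  rw [card_eq_sum_card_fiberwise (f := fun y : Fin m → Pr n => gr y) (t := 𝒜)]
  · rw [sum_congr rfl (g := fun _ => m.factorial * 2 ^ m), sum_const, smul_eq_mul]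
    intro G hG
    rw [← fib (h hG), filter_filter]
    congr 1
    apply filter_congr
    intro y _
    constructor
    · rintro ⟨h1, h2⟩
      exact ⟨h1.1, h2⟩
    · rintro ⟨h1, h2⟩
      exact ⟨⟨h1, by rw [h2]; exact hG⟩, h2⟩
  · intro y hy
    rw [mem_coe, mem_filter] at hy
    exact hy.2.2

open Classical in
theorem all_Sm (n m : ℕ) : ((univ : Finset (Fin m → Pr n)).filter Sm).card =
    (Gr n m).card * (m.factorial * 2 ^ m) := by
  rw [← fam (Gr n m) subset_rfl]
  congr 1
  apply filter_congr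
  intro y _
  exact ⟨fun h => ⟨h, gr_mem h⟩, fun h => h.1⟩

theorem card_Gr (n m : ℕ) : (Gr n m).card = (n.choose 2).choose m := by
  have h1 := all_Sm n m
  rw [cnt_choose, Nat.descFactorial_eq_factorial_mul_choose] at h1
  have h2 : 0 < m.factorial * 2 ^ m := by positivity
  apply Nat.eq_of_mul_eq_mul_right h2
  rw [← h1]
  ring

end Pool.Agent.ZL
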