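import Pool.Agent.ZL.GrG
import Pool.Agent.ZL.GrB
import Pool.Agent.ZL.SqC

set_option autoImplicit false

/-!
# ZL-GrT: from independent bits to a fixed number of edges
-/

namespace Pool.Agent.ZL

open Finset

open Classical in
theorem gr_trans {n m : ℕ} (hm : m ≤ n.choose 2) (hN : 0 < n.choose 2) (p : ℝ)
    (hp : p = m / (n.choose 2 : ℕ)) (Bad : SimpleGraph (Fin n) → Prop) :
    (((Gr n m).filter fun G => Bad G).card : ℝ) ≤ ((n.choose 2 : ℕ) + 1) *
      (∑ ζ : Fin n → Fin n → Bool, Wt p ζ * (if Bad (Gz ζ) then 1 else 0)) * (Gr n m).card := by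
  have hNr : (0 : ℝ) < (n.choose 2 : ℕ) := by exact_mod_cast hN
  have hmr : (m : ℝ) ≤ (n.choose 2 : ℕ) := by exact_mod_cast hm
  have hp0 : 0 ≤ p := by
    rw [hp]
    positivity
  have hp1 : p ≤ 1 := by
    rw [hp, div_le_one hNr]
    exact hmr
  have hc0 : 0 ≤ p ^ m * (1 - p) ^ (n.choose 2 - m) :=
    mul_nonneg (pow_nonneg hp0 _) (pow_nonneg (by linarith) _)
  have h1 : (((Gr n m).filter fun G => Bad G).card : ℝ) * (p ^ m * (1 - p) ^ (n.choose 2 - m)) ≤
      ∑ ζ : Fin n → Fin n → Bool, Wt p ζ * (if Bad (Gz ζ) then 1 else 0) := by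
    have h2 : ∑ ζ : Fin n → Fin n → Bool, Wt p ζ * (if Bad (Gz ζ) then (1 : ℝ) else 0) =
        ∑ G : SimpleGraph (Fin n), ∑ ζ ∈ (univ : Finset (Fin n → Fin n → Bool)).filter
          (fun ζ => Gz ζ = G), Wt p ζ * (if Bad (Gz ζ) then (1 : ℝ) else 0) :=
      (Finset.sum_fiberwise _ _ _).symm
    have h3 : ∑ G ∈ (Gr n m).filter (fun G => Bad G), p ^ m * (1 - p) ^ (n.choose 2 - m) ≤
        ∑ G ∈ (Gr n m).filter (fun G => Bad G), ∑ ζ ∈ (univ : Finset (Fin n → Fin n → Bool)).filter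
          (fun ζ => Gz ζ = G), Wt p ζ * (if Bad (Gz ζ) then (1 : ℝ) else 0) := by
      refine Finset.sum_le_sum fun G hG => ?_
      rw [Finset.mem_filter] at hG
      obtain ⟨hG1, hG2⟩ := hG
      have hG3 : G.edgeSet.ncard = m := by
        unfold Gr at hG1
        rw [Finset.mem_filter] at hG1
        exact hG1.2
      have h4 := Gz_sum p G
      rw [hG3] at h4
      rw [← h4]
      refine Finset.sum_le_sum fun ζ hζ => ?_
      rw [Finset.mem_filter] at hζ
      rw [hζ.2, if_pos hG2, mul_one]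
    rw [Finset.sum_const, nsmul_eq_mul] at h3
    refine h3.trans ?_
    rw [h2]
    refine Finset.sum_le_sum_of_subset_of_nonneg (Finset.subset_univ _) fun G _ _ => ?_
    refine Finset.sum_nonneg fun ζ _ => mul_nonneg (Wt_nonneg hp0 hp1 ζ) ?_
    split <;> norm_num
  have h5 := bin_mode (n.choose 2) m hm hN p hp
  rw [← card_Gr, div_le_iff₀ (by linarith)] at h5
  have hB : (0 : ℝ) ≤ (((Gr n m).filter fun G => Bad G).card : ℝ) := Nat.cast_nonneg _
  calc (((Gr n m).filter fun G => Bad G).card : ℝ)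
      = (((Gr n m).filter fun G => Bad G).card : ℝ) * 1 := (mul_one _).symm
    _ ≤ (((Gr n m).filter fun G => Bad G).card : ℝ) *
        (((Gr n m).card : ℝ) * p ^ m * (1 - p) ^ (n.choose 2 - m) * ((n.choose 2 : ℕ) + 1)) :=
          mul_le_mul_of_nonneg_left h5 hB
    _ = ((n.choose 2 : ℕ) + 1) * ((((Gr n m).filter fun G => Bad G).card : ℝ) *
        (p ^ m * (1 - p) ^ (n.choose 2 - m))) * (Gr n m).card := by ring
    _ ≤ _ := mul_le_mul_of_nonneg_right (mul_le_mul_of_nonneg_left h1 (by positivity))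
        (Nat.cast_nonneg _)

end Pool.Agent.ZL
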