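import Pool.Agent.ZL.GrP
import Pool.Agent.ZL.GrT
import Pool.Agent.ZL.GrE
import Pool.Agent.ZL.AmpC

set_option autoImplicit false

/-!
# ZL-GrF: the greedy algorithm succeeds on sparse random graphs

Potential of the greedy process, transfer to a fixed number of edges, asymptotics.
-/

namespace Pool.Agent.ZL

open Filter

private theorem bad_wt {n : ℕ} (p α γ C : ℝ) (hp0 : 0 ≤ p) (hp1 : p < 1) (hγ : 0 < γ) (hC : 0 < C)
    (hpC : (1 / (1 - p)) ^ n ≤ C)
    (hx : ∀ x : ℕ, (x : ℝ) ≤ α * n + 1 → ∑ i ∈ Finset.range x, (1 / (1 - p)) ^ i ≤ (1 - γ) * n)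
    (B : (Fin n → Fin n → Bool) → ℝ) (hB1 : ∀ ζ, B ζ ≤ 1)
    (hB0 : ∀ ζ, α * n ≤ ((gs (xi ζ) n).card : ℝ) → B ζ = 0) :
    ∑ ζ : Fin n → Fin n → Bool, Wt p ζ * B ζ ≤ Real.exp (-(γ ^ 2 / (2 * C) * n)) := by
  have hl : 0 ≤ γ / C := (div_pos hγ hC).le
  have h1 := gr_pot p (γ / C) C hp0 hp1 hl n n le_rfl hpC
  have h2 : ∀ ζ : Fin n → Fin n → Bool, Wt p ζ * B ζ ≤ Real.exp (γ / C * ((1 - γ) * n)) *
      (Wt p ζ * Real.exp (-(γ / C * ph p (gs (xi ζ) n).card))) := by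
    intro ζ
    have hW : 0 ≤ Wt p ζ := Wt_nonneg hp0 hp1.le ζ
    have h3 : B ζ ≤ Real.exp (γ / C * ((1 - γ) * n)) *
        Real.exp (-(γ / C * ph p (gs (xi ζ) n).card)) := by
      by_cases hc : α * n ≤ ((gs (xi ζ) n).card : ℝ)
      · rw [hB0 ζ hc]
        positivity
      · have h4 : ph p (gs (xi ζ) n).card ≤ (1 - γ) * n := hx _ (by linarith)
        have h5 := mul_le_mul_of_nonneg_left h4 hl
        rw [← Real.exp_add]
        refine (hB1 ζ).trans (Real.one_le_exp ?_)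
        linarith
    calc Wt p ζ * B ζ ≤ Wt p ζ * (Real.exp (γ / C * ((1 - γ) * n)) *
          Real.exp (-(γ / C * ph p (gs (xi ζ) n).card))) := mul_le_mul_of_nonneg_left h3 hW
      _ = _ := by ring
  refine (Finset.sum_le_sum fun ζ _ => h2 ζ).trans ?_
  rw [← Finset.mul_sum]
  refine (mul_le_mul_of_nonneg_left h1 (Real.exp_pos _).le).trans (le_of_eq ?_)
  rw [← Real.exp_nat_mul, ← Real.exp_add]
  congr 1
  field_simp
  ring

theorem grd_succ (c α τ : ℝ) (hc : 0 < c) (hα : 0 < α) (hτ : 0 < τ)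
    (h : (Real.exp (2 * c * α) - 1) / (2 * c) < 1) : ∀ᶠ n : ℕ in atTop, ∀ m q : ℕ, (m : ℝ) ≤ c * n →
      1 - τ ≤ succ n m q (α * n) (fun x _ => grd x) := by
  classical
  obtain ⟨γ, C, hγ, hC, hlim⟩ := gr_lim c α hc hα h
  filter_upwards [hlim, gr_err γ C τ hγ hC hτ, eventually_ge_atTop 2] with n h1 h2 hn m q hm
  obtain ⟨hp1, hpC, hx⟩ := h1 m hm
  have hN : 0 < n.choose 2 := Nat.choose_pos hn
  have hNr : (0 : ℝ) < (n.choose 2 : ℕ) := by exact_mod_cast hN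
  have hmN : m ≤ n.choose 2 := by
    rw [div_lt_one hNr] at hp1
    have : (m : ℝ) ≤ (n.choose 2 : ℕ) := hp1.le
    exact_mod_cast this
  obtain ⟨p, hp⟩ : ∃ p : ℝ, p = (m : ℝ) / (n.choose 2 : ℕ) := ⟨_, rfl⟩
  rw [← hp] at hp1 hpC hx
  have hp0 : 0 ≤ p := by
    rw [hp]
    positivity
  obtain ⟨Bad, hBad⟩ : ∃ Bad : SimpleGraph (Fin n) → Prop,
      ∀ G, Bad G ↔ ¬ α * n ≤ ((gs (ent (code G)) n).card : ℝ) := ⟨_, fun _ => Iff.rfl⟩
  have h3 := bad_wt p α γ C hp0 hp1 hγ hC hpC hx (fun ζ => if Bad (Gz ζ) then 1 else 0)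
    (fun ζ => by
      split_ifs <;> norm_num)
    (fun ζ hζ => by
      rw [if_neg]
      rw [hBad, gs_Gz, not_not]
      exact hζ)
  have h4 := gr_trans hmN hN p hp Bad
  have hG : 0 < (Gr n m).card := by
    rw [card_Gr]
    exact Nat.choose_pos hmN
  have hGr : (0 : ℝ) < (Gr n m).card := by exact_mod_cast hG
  have h5 : (((Gr n m).filter fun G => Bad G).card : ℝ) ≤ τ * (Gr n m).card := by
    refine h4.trans (mul_le_mul_of_nonneg_right ?_ hGr.le)
    exact (mul_le_mul_of_nonneg_left h3 (by positivity)).trans h2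
  rw [succ_av, le_div_iff₀ hGr]
  have h6 : ∀ G ∈ Gr n m, 1 - (if Bad G then (1 : ℝ) else 0) ≤
      av q (fun _ => if Found G (grd (code G)) (α * n) then 1 else 0) := by
    intro G _
    rw [av_const]
    by_cases hb : Bad G
    · rw [if_pos hb]
      split_ifs <;> norm_num
    · have hf : Found G (grd (code G)) (α * n) := by
        refine ⟨(grd_cand G).2, ?_⟩
        rw [grd_card]
        rw [hBad, not_not] at hb
        exact hb
      rw [if_neg hb, if_pos hf, sub_zero]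
  have h7 := Finset.sum_le_sum h6
  rw [Finset.sum_sub_distrib, Finset.sum_const, nsmul_eq_mul, mul_one, Finset.sum_boole] at h7
  linarith

end Pool.Agent.ZL
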