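import Mathlib

set_option autoImplicit false

/-!
# ZL-NumB: the greedy threshold (Mathlib only)
-/

namespace Pool.Agent.ZL

theorem gr_thr (k : ℕ) (hk : 3 ≤ k) : ∃ e : ℝ, 0 < e ∧ ∀ ε : ℝ, 0 < ε → ε ≤ e →
    (Real.exp (2 * ((1 / 2 + ε) * k * Real.log k) * (1 / k)) - 1) /
      (2 * ((1 / 2 + ε) * k * Real.log k)) < 1 := by
  have hk3 : (3 : ℝ) ≤ k := by exact_mod_cast hk
  have hk0 : (0 : ℝ) < k := by linarith
  have hlog : 1 < Real.log k := by
    rw [Real.lt_log_iff_exp_lt hk0]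
    have := Real.exp_one_lt_d9
    linarith
  have h1k : (0 : ℝ) < 1 / k := by positivity
  have hl : 0 < Real.log (1 + 1 / (k : ℝ)) := Real.log_pos (by linarith)
  refine ⟨Real.log (1 + 1 / (k : ℝ)) / (2 * Real.log k), by positivity, fun ε h0 h1 => ?_⟩
  have h2 : 2 * ε * Real.log k ≤ Real.log (1 + 1 / (k : ℝ)) := by
    rw [le_div_iff₀ (by positivity)] at h1
    linarith
  have h3 : Real.exp (2 * ε * Real.log k) ≤ 1 + 1 / (k : ℝ) := by
    rw [← Real.exp_log (show (0 : ℝ) < 1 + 1 / (k : ℝ) by positivity)]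
    exact Real.exp_le_exp.2 h2
  have h4 : 2 * ((1 / 2 + ε) * k * Real.log k) * (1 / k) = Real.log k + 2 * ε * Real.log k := by
    field_simp
  have h5 : Real.exp (2 * ((1 / 2 + ε) * k * Real.log k) * (1 / k)) ≤ k + 1 := by
    rw [h4, Real.exp_add, Real.exp_log hk0]
    calc (k : ℝ) * Real.exp (2 * ε * Real.log k) ≤ k * (1 + 1 / (k : ℝ)) :=
          mul_le_mul_of_nonneg_left h3 hk0.le
      _ = k + 1 := by field_simp
  rw [div_lt_one (by positivity)]
  have h6 : (k : ℝ) < k * Real.log k := by nlinarith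
  have h7 : 0 < ε * k * Real.log k := by positivity
  nlinarith

end Pool.Agent.ZL
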