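import Pool.Agent.ZL.Stmt

set_option autoImplicit false

/-!
# ZL-NumC: the choice of a smaller k
-/

namespace Pool.Agent.ZL

open Filter

theorem numC (ε : ℝ) (hε : 0 < ε) : ∃ K : ℕ, 4 ≤ K ∧ ∀ k : ℕ, K ≤ k → ∃ k₁ : ℕ, 3 ≤ k₁ ∧ k₁ < k ∧
    k ≤ 2 * k₁ ∧ (∀ ε' : ℝ, ε' ≤ ε / 2 → ∀ n : ℕ, Mk ε' k n ≤ Mk ε k₁ n) ∧
    140 * ((1 / 2 + ε) * k₁ * Real.log k₁ / (1 / k₁ - 1 / k)) ^ 2 + 20 ≤ (k₁ : ℝ) ^ 5 := by
  obtain ⟨e, he⟩ : ∃ e : ℝ, e = min ε 1 / 8 := ⟨_, rfl⟩
  have hm0 : 0 < min ε 1 := lt_min hε one_pos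
  have he0 : 0 < e := by rw [he]; positivity
  have he1 : e ≤ 1 / 8 := by
    rw [he]
    have := min_le_right ε 1
    linarith
  have heε : e * (1 + ε) ≤ ε / 4 := by
    rw [he]
    rcases le_total ε 1 with h | h
    · rw [min_eq_left h]
      nlinarith
    · rw [min_eq_right h]
      nlinarith
  have heε' : e ≤ ε / 4 := by
    have h1 : e * 1 ≤ e * (1 + ε) := mul_le_mul_of_nonneg_left (by linarith) he0.le
    linarith
  set C : ℝ := (2 + 4 * ε) / e with hC
  have hC0 : 0 < C := by positivity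
  have hlog : ∀ᶠ k : ℕ in atTop, Real.log k ^ 2 ≤ 1 / (64 * 140 * C ^ 2) * k := by
    have h := (Real.isLittleO_pow_log_id_atTop (n := 2)).comp_tendsto tendsto_natCast_atTop_atTop
    have h1 := h.def (c := 1 / (64 * 140 * C ^ 2)) (by positivity)
    filter_upwards [h1] with k h2
    simp only [Function.comp, id, Real.norm_eq_abs] at h2
    have h3 : (0 : ℝ) ≤ k := Nat.cast_nonneg k
    rw [abs_of_nonneg (sq_nonneg _), abs_of_nonneg h3] at h2
    exact h2
  obtain ⟨K, hK⟩ := eventually_atTop.1 (hlog.and ((eventually_ge_atTop 6).and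
    ((eventually_ge_atTop ⌈4 / e⌉₊).and (eventually_ge_atTop ⌈Real.exp (1 + ε)⌉₊))))
  refine ⟨max K 4, le_max_right _ _, fun k hk => ?_⟩
  obtain ⟨h1, h2, h3, h4⟩ := hK k ((le_max_left _ _).trans hk)
  have hk6 : (6 : ℝ) ≤ k := by exact_mod_cast h2
  have hk0 : (0 : ℝ) < k := by linarith
  have h3' : 4 / e ≤ k := (Nat.le_ceil _).trans (by exact_mod_cast h3)
  have hek : 4 ≤ e * k := by
    rw [div_le_iff₀ he0] at h3'
    linarith
  have h4' : Real.exp (1 + ε) ≤ k := (Nat.le_ceil _).trans (by exact_mod_cast h4)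
  have hlk : 1 + ε ≤ Real.log k := by
    rw [Real.le_log_iff_exp_le hk0]
    exact h4'
  have hlk0 : 0 < Real.log k := by linarith
  have h1e : 0 < 1 + e := by linarith
  refine ⟨⌈(k : ℝ) / (1 + e)⌉₊, ?_⟩
  set k₁ : ℕ := ⌈(k : ℝ) / (1 + e)⌉₊ with hk₁
  have g1 : (k : ℝ) / (1 + e) ≤ k₁ := Nat.le_ceil _
  have g2 : (k₁ : ℝ) < (k : ℝ) / (1 + e) + 1 := Nat.ceil_lt_add_one (by positivity)
  have g1' : (k : ℝ) ≤ k₁ * (1 + e) := by rwa [div_le_iff₀ h1e] at g1
  have g2' : (k₁ : ℝ) * (1 + e) < k + (1 + e) := by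
    have := mul_lt_mul_of_pos_right g2 h1e
    have e1 : ((k : ℝ) / (1 + e) + 1) * (1 + e) = k + (1 + e) := by
      field_simp
    linarith
  have hk₁0 : (0 : ℝ) < k₁ := by
    have : 0 < (k : ℝ) / (1 + e) := by positivity
    linarith
  have hk2 : (k : ℝ) ≤ 2 * k₁ := by nlinarith
  have hk₁k : (k₁ : ℝ) < k := by nlinarith
  have hk₁3 : (3 : ℝ) ≤ k₁ := by linarith
  have hk₁k' : k₁ < k := by exact_mod_cast hk₁k
  have hlk1 : Real.log k - e ≤ Real.log k₁ := by
    have e1 := Real.log_le_log hk0 g1'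
    rw [Real.log_mul hk₁0.ne' h1e.ne'] at e1
    have e2 := Real.log_le_sub_one_of_pos h1e
    linarith
  have hlk1' : Real.log k₁ ≤ Real.log k := Real.log_le_log hk₁0 hk₁k.le
  have hlk10 : 0 ≤ Real.log k₁ := Real.log_nonneg (by linarith)
  refine ⟨by exact_mod_cast hk₁3, hk₁k', by exact_mod_cast hk2, fun ε' hε' n => ?_, ?_⟩
  · unfold Mk
    apply Nat.floor_mono
    apply mul_le_mul_of_nonneg_right _ (Nat.cast_nonneg n)
    have e1 : (1 / 2 + ε') * k * Real.log k ≤ (1 / 2 + ε / 2) * k * Real.log k := by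
      apply mul_le_mul_of_nonneg_right _ hlk0.le
      apply mul_le_mul_of_nonneg_right _ hk0.le
      linarith
    have e2 : (1 / 2 + ε / 2) * (1 + e) * Real.log k ≤ (1 / 2 + ε) * (Real.log k - e) := by
      have f1 : (1 / 2 + ε) - (1 / 2 + ε / 2) * (1 + e) ≥ 3 * ε / 8 := by nlinarith
      have f2 : (3 * ε / 8) * Real.log k ≤
          ((1 / 2 + ε) - (1 / 2 + ε / 2) * (1 + e)) * Real.log k :=
        mul_le_mul_of_nonneg_right f1 hlk0.le
      have f3 : (1 / 2 + ε) * e ≤ (1 / 2 + ε) * (ε / 4) :=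
        mul_le_mul_of_nonneg_left heε' (by linarith)
      have f4 : (3 * ε / 8) * (1 + ε) ≤ (3 * ε / 8) * Real.log k :=
        mul_le_mul_of_nonneg_left hlk (by linarith)
      nlinarith
    have e3 : (1 / 2 + ε / 2) * k * Real.log k ≤ (1 / 2 + ε) * k₁ * Real.log k₁ := by
      have f1 : (1 / 2 + ε / 2) * k * Real.log k ≤
          (1 / 2 + ε / 2) * (k₁ * (1 + e)) * Real.log k := by
        apply mul_le_mul_of_nonneg_right _ hlk0.le
        exact mul_le_mul_of_nonneg_left g1' (by linarith)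
      have f2 : (1 / 2 + ε / 2) * (k₁ * (1 + e)) * Real.log k =
          k₁ * ((1 / 2 + ε / 2) * (1 + e) * Real.log k) := by ring
      have f3 := mul_le_mul_of_nonneg_left e2 hk₁0.le
      have f4 : (k₁ : ℝ) * ((1 / 2 + ε) * (Real.log k - e)) ≤ (1 / 2 + ε) * k₁ * Real.log k₁ := by
        have f5 : (k₁ : ℝ) * ((1 / 2 + ε) * (Real.log k - e)) =
            (1 / 2 + ε) * k₁ * (Real.log k - e) := by ring
        rw [f5]
        exact mul_le_mul_of_nonneg_left hlk1 (by positivity)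
      linarith
    linarith
  · have hβ : e / (4 * k) ≤ 1 / k₁ - 1 / (k : ℝ) := by
      have f1 : (1 : ℝ) / k₁ - 1 / k = (k - k₁) / (k₁ * k) := by
        field_simp
      rw [f1, div_le_div_iff₀ (by positivity) (by positivity)]
      have f2 : e * k - 2 ≤ (k - k₁) * (1 + e) := by nlinarith
      have f3 : e * k ≤ 4 * (k - k₁) := by nlinarith
      have f4 : e * (k₁ * k) ≤ e * k * k := by
        have : e * (k₁ * k) = e * k * k₁ := by ring
        rw [this]
        exact mul_le_mul_of_nonneg_left hk₁k.le (by positivity)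
      have f5 : e * k * k ≤ 4 * (k - k₁) * k := mul_le_mul_of_nonneg_right f3 hk0.le
      linarith
    have hβ0 : 0 < 1 / k₁ - 1 / (k : ℝ) := lt_of_lt_of_le (by positivity) hβ
    have hq : (1 / 2 + ε) * k₁ * Real.log k₁ / (1 / k₁ - 1 / k) ≤ C * (k ^ 2 * Real.log k) := by
      rw [div_le_iff₀ hβ0]
      have f1 : C * (k ^ 2 * Real.log k) * (e / (4 * k)) = (1 / 2 + ε) * k * Real.log k := by
        rw [hC]
        field_simp
        ring
      have f2 : C * (k ^ 2 * Real.log k) * (e / (4 * k)) ≤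
          C * (k ^ 2 * Real.log k) * (1 / k₁ - 1 / k) :=
        mul_le_mul_of_nonneg_left hβ (by positivity)
      have f3 : (1 / 2 + ε) * k₁ * Real.log k₁ ≤ (1 / 2 + ε) * k * Real.log k := by
        apply mul_le_mul _ hlk1' hlk10 (by positivity)
        exact mul_le_mul_of_nonneg_left hk₁k.le (by linarith)
      linarith
    have hq0 : 0 ≤ (1 / 2 + ε) * k₁ * Real.log k₁ / (1 / k₁ - 1 / k) := by positivity
    have hq2 := pow_le_pow_left₀ hq0 hq 2
    have h5 : (k : ℝ) ^ 5 / 32 ≤ (k₁ : ℝ) ^ 5 := by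
      have f1 := pow_le_pow_left₀ hk0.le hk2 5
      rw [mul_pow] at f1
      linarith
    have h6 : 140 * (C * (k ^ 2 * Real.log k)) ^ 2 ≤ (k : ℝ) ^ 5 / 64 := by
      have f1 : 140 * (C * (k ^ 2 * Real.log k)) ^ 2 = 140 * C ^ 2 * k ^ 4 * Real.log k ^ 2 := by
        ring
      rw [f1]
      calc 140 * C ^ 2 * (k : ℝ) ^ 4 * Real.log k ^ 2 ≤
          140 * C ^ 2 * k ^ 4 * (1 / (64 * 140 * C ^ 2) * k) :=
            mul_le_mul_of_nonneg_left h1 (by positivity)
        _ = (k : ℝ) ^ 5 / 64 := by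
            field_simp
    have h7 : (20 : ℝ) ≤ (k : ℝ) ^ 5 / 64 := by
      have f1 := pow_le_pow_left₀ (by norm_num) hk6 5
      norm_num at f1
      linarith
    linarith

end Pool.Agent.ZL
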