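import Pool.Agent.ZL.ThmX
import Pool.Agent.ZL.GrF
import Pool.Agent.ZL.Both
import Pool.Agent.ZL.NumC
import Pool.Agent.ZL.NumB
import Pool.Agent.ZL.FpM

set_option autoImplicit false

/-!
# ZL-Fin: Question Q1 is equivalent to its weak form
-/

namespace Pool.Agent.ZL

open Filter

theorem tendsto_one {f : ℕ → ℝ} (h1 : ∀ n, f n ≤ 1)
    (h : ∀ τ : ℝ, 0 < τ → ∀ᶠ n : ℕ in atTop, 1 - τ ≤ f n) : Tendsto f atTop (nhds 1) := by
  rw [Metric.tendsto_nhds]
  intro e he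
  filter_upwards [h (e / 2) (by positivity)] with n hn
  rw [Real.dist_eq, abs_lt]
  have := h1 n
  constructor <;> linarith

theorem thr_all (K : ℕ) : ∃ e : ℝ, 0 < e ∧ ∀ k : ℕ, 3 ≤ k → k < K → ∀ ε : ℝ, 0 < ε → ε ≤ e →
    (Real.exp (2 * ((1 / 2 + ε) * k * Real.log k) * (1 / k)) - 1) /
      (2 * ((1 / 2 + ε) * k * Real.log k)) < 1 := by
  induction K with
  | zero => exact ⟨1, one_pos, fun k _ h => absurd h (Nat.not_lt_zero k)⟩
  | succ K ih =>
    obtain ⟨e, he, h⟩ := ih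
    rcases lt_or_ge K 3 with h3 | h3
    · exact ⟨e, he, fun k hk hk' => absurd hk (by omega)⟩
    · obtain ⟨e', he', h'⟩ := gr_thr K h3
      refine ⟨min e e', lt_min he he', fun k hk hk' ε hε hε' => ?_⟩
      rcases Nat.lt_succ_iff_lt_or_eq.1 hk' with hlt | rfl
      · exact h k hk hlt ε hε (hε'.trans (min_le_left _ _))
      · exact h' ε hε (hε'.trans (min_le_right _ _))

theorem Mk_le_mul {ε : ℝ} (hε : 0 < ε) {k : ℕ} (hk : 1 ≤ k) (n : ℕ) :
    (Mk ε k n : ℝ) ≤ (1 / 2 + ε) * k * Real.log k * n := by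
  have hk1 : (1 : ℝ) ≤ k := by exact_mod_cast hk
  have h1 : 0 ≤ Real.log k := Real.log_nonneg hk1
  exact Nat.floor_le (by positivity)

theorem weak_strong (h : WeakQ1) : Q1 := by
  obtain ⟨ε, hε, A, q, hA, L, k₀, hW⟩ := h
  obtain ⟨K, hK4, hK⟩ := numC ε hε
  obtain ⟨e, he, hthr⟩ := thr_all (max K (2 * k₀))
  refine ⟨min (ε / 2) e, lt_min (by positivity) he, both A q (1 + 2 * L), ampq q (1 + 2 * L),
    both_poly hA q (1 + 2 * L), fun k hk => ?_⟩
  have hε0 : 0 < min (ε / 2) e := lt_min (by positivity) he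
  have hk0 : (0 : ℝ) < k := by
    have : 0 < k := by omega
    exact_mod_cast this
  have hlog : 0 < Real.log k := Real.log_pos (by exact_mod_cast (by omega : 1 < k))
  refine tendsto_one (fun n => succ_le_one _ _ _ _ _) fun τ hτ => ?_
  rcases lt_or_ge k (max K (2 * k₀)) with hlt | hge
  · have h1 := grd_succ ((1 / 2 + min (ε / 2) e) * k * Real.log k) (1 / k) τ (by positivity)
      (by positivity) hτ (hthr k hk hlt _ hε0 (min_le_right _ _))
    filter_upwards [h1] with n hn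
    have h2 := hn (Mk (min (ε / 2) e) k n) ((ampq q (1 + 2 * L)).eval n) (Mk_le_mul hε0 (by omega) n)
    rw [one_div_mul_eq_div] at h2
    exact h2.trans (both_grd A q (1 + 2 * L) n _ _ _)
  · have hKk : K ≤ k := (le_max_left _ _).trans hge
    obtain ⟨k₁, hk3, hk1k, hk2, hMk, hexp⟩ := hK k hKk
    have hk₀ : k₀ ≤ k₁ := by
      have := (le_max_right K (2 * k₀)).trans hge
      omega
    have hk1 : (0 : ℝ) < k₁ := by
      have : 0 < k₁ := by omega
      exact_mod_cast this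
    have hlog1 : 0 < Real.log k₁ := Real.log_pos (by exact_mod_cast (by omega : 1 < k₁))
    have hlt : (1 : ℝ) / k < 1 / k₁ := by
      apply one_div_lt_one_div_of_lt hk1
      exact_mod_cast hk1k
    have hB := thmBX A q L ((1 / 2 + ε) * k₁ * Real.log k₁)
      (1 / k) (1 / k₁) τ (by positivity) hlt hτ
    filter_upwards [hB, hW k₁ hk₀, eventually_ge_atTop 1] with n hn hw hn1
    obtain ⟨w, hwl, hws⟩ := hw
    have hn1' : (1 : ℝ) ≤ n := by exact_mod_cast hn1
    have h2 := hn (Mk (min (ε / 2) e) k n) (Mk ε k₁ n) (hMk _ (min_le_left _ _) n)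
      (Mk_le_mul hε (by omega) n) w hwl
    rw [one_div_mul_eq_div, one_div_mul_eq_div] at h2
    have h3 : (n : ℝ) ^ (-(1 / (140 * ((1 / 2 + ε) * k₁ * Real.log k₁ / (1 / k₁ - 1 / k)) ^ 2 + 20))) ≤
        (n : ℝ) ^ (-(1 / (k₁ : ℝ) ^ 5)) := by
      apply Real.rpow_le_rpow_of_exponent_le hn1'
      apply neg_le_neg
      exact one_div_le_one_div_of_le (by positivity) hexp
    exact (h2 (h3.trans hws)).trans (both_amp A q (1 + 2 * L) n _ _ _)

theorem strong_weak (h : Q1) : WeakQ1 := by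
  obtain ⟨ε, hε, A, q, hA, hQ⟩ := h
  refine ⟨ε, hε, fun p => A (p.1.1, p.2), q, noadv_poly hA, 0, 3, fun k hk => ?_⟩
  have h1 : ∀ᶠ n : ℕ in atTop, (1 / 2 : ℝ) <
      succ n (Mk ε k n) (q.eval n) ((n : ℝ) / k) fun x r => A (x, r) :=
    (hQ k hk).eventually (lt_mem_nhds (by norm_num))
  have hk0 : (0 : ℝ) < k := by
    have : 0 < k := by omega
    exact_mod_cast this
  have hδ : (0 : ℝ) < 1 / (k : ℝ) ^ 5 := by positivity
  have h2 : ∀ᶠ n : ℕ in atTop, ((n : ℝ) ^ (-(1 / (k : ℝ) ^ 5))) < 1 / 2 :=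
    ((tendsto_rpow_neg_atTop hδ).comp tendsto_natCast_atTop_atTop).eventually
      (gt_mem_nhds (by norm_num))
  filter_upwards [h1, h2] with n h3 h4
  exact ⟨[], by simp, (h4.trans h3).le⟩

theorem q1_iff : Q1 ↔ WeakQ1 := ⟨strong_weak, weak_strong⟩

end Pool.Agent.ZL
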