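import Pool.Agent.ZL.Alg
import Pool.Agent.TFP.FpL

set_option autoImplicit false

/-!
# ZL-FpA: reading an entry of a list is polynomial time computable
-/

namespace Pool.Agent.ZL

open Turing Function N487b59b3 N68a2faeb Pool.Agent.Helper22 Pool.Agent.Helper6.WB Computability
  Pool.Agent.Helper47.TR Pool.Agent.TFP

section

variable {α β γ : Type} [N487b59b3 α] [N487b59b3 β] [N487b59b3 γ]

theorem FP.natBeq {f g : α → ℕ} (hf : FP f) (hg : FP g) : FP fun a => (f a == g a) := by
  refine (congrArg FP (funext fun a => ?_)).mp (FP.natEq hf hg)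
  exact (beq_eq_decide _ _).symm

theorem FP.natLt {f g : α → ℕ} (hf : FP f) (hg : FP g) : FP fun a => decide (f a < g a) := by
  have h1 : FP fun a => decide (f a + 1 ≤ g a) :=
    FP.natLe (FP.natAdd hf (FP.const 1)) hg
  exact h1

private def gst (s : ℕ × (ℕ × β)) (b : β) : ℕ × (ℕ × β) :=
  (s.1, (s.2.1 + 1, if decide (s.2.1 = s.1) then b else s.2.2))

omit [N487b59b3 β] in
private theorem gst_foldl (l : List β) (i c : ℕ) (r : β) :
    l.foldl gst (i, (c, r)) = (i, (c + l.length, if c ≤ i then l.getD (i - c) r else r)) := by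
  induction l generalizing c r with
  | nil => simp
  | cons b l ih =>
    rw [List.foldl_cons]
    simp only [gst]
    rw [ih]
    rcases lt_trichotomy c i with h | h | h
    · obtain ⟨k, hk⟩ : ∃ k, i - c = k + 1 := ⟨i - c - 1, by omega⟩
      have hk' : i - (c + 1) = k := by omega
      have h1 : ¬ c = i := by omega
      rw [if_pos (by omega : c + 1 ≤ i), if_pos h.le, hk, hk']
      simp [h1]
      omega
    · subst h
      simp
      omega
    · have h1 : ¬ c = i := by omega
      rw [if_neg (by omega : ¬ c + 1 ≤ i), if_neg (by omega : ¬ c ≤ i)]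
      simp [h1]
      omega

private theorem sz_getD_le (l : List β) (k : ℕ) (r : β) : sz (l.getD k r) ≤ sz l + sz r := by
  rcases lt_or_ge k l.length with h | h
  · rw [List.getD_eq_getElem _ _ h]
    have := sz_mem_le (List.getElem_mem h)
    omega
  · rw [List.getD_eq_default _ _ h]
    omega

theorem FP.getD [Inhabited β] {f : α → List β} {i : α → ℕ} {d : α → β} (hf : FP f) (hi : FP i)
    (hd : FP d) : FP fun a => (f a).getD (i a) (d a) := by
  have h0 : FP fun p : (ℕ × (ℕ × β)) × β => gst p.1 p.2 := by
    have hc : FP fun p : (ℕ × (ℕ × β)) × β => decide (p.1.2.1 = p.1.1) :=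
      FP.natEq (by fun_prop) (by fun_prop)
    exact FP.pair (by fun_prop) (FP.pair (FP.natAdd (by fun_prop) (FP.const 1))
      (FP.ite hc (by fun_prop) (by fun_prop)))
  have h1 : FP fun p : List β × (ℕ × (ℕ × β)) => p.1.foldl gst p.2 := by
    refine FP.foldl h0 (B := fun n => 3 * n) (by fun_prop) ?_
    rintro l ⟨k, c, r⟩
    rw [gst_foldl]
    have h3 := size_add_le c l.length
    have h4 := length_le_sz l
    have h5 : sz (if c ≤ k then l.getD (k - c) r else r) ≤ sz l + sz r := by
      split_ifs
      · exact sz_getD_le _ _ _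
      · omega
    simp only [sz_pair, sz_nat]
    omega
  have h2 := h1.comp (hf.pair (hi.pair (FP.pair (FP.const 0) hd)))
  have h3 := (h2.snd').snd'
  refine (congrArg FP (funext fun a => ?_)).mp h3
  simp only
  rw [gst_foldl]
  simp

theorem FP.ent {x : α → List (List Bool)} {u v : α → ℕ} (hx : FP x) (hu : FP u) (hv : FP v) :
    FP fun a => ZL.ent (x a) (u a) (v a) :=
  FP.getD (FP.getD hx hu (FP.const [])) hv (FP.const false)

end

end Pool.Agent.ZL
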