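import Pool.Agent.ZL.FpA

set_option autoImplicit false

/-!
# ZL-FpB: the list of the edges is polynomial time computable
-/

namespace Pool.Agent.ZL

open Turing Function N487b59b3 N68a2faeb Pool.Agent.Helper22 Pool.Agent.Helper6.WB Computability
  Pool.Agent.Helper47.TR Pool.Agent.TFP

section

variable {α β γ : Type} [N487b59b3 α] [N487b59b3 β] [N487b59b3 γ]

theorem FP.prs {x : α → List (List Bool)} (hx : FP x) : FP fun a => ZL.prs (x a).length := by
  have h0 : FP fun q : ℕ × ℕ => decide (q.2 < q.1) :=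
    FP.natLt (f := fun q : ℕ × ℕ => q.2) (g := fun q : ℕ × ℕ => q.1) (by fun_prop) (by fun_prop)
  have h1 : FP fun p : List ℕ × ℕ => p.1.filter fun u => decide (u < p.2) :=
    FP.filter2 (p := fun q : ℕ × ℕ => decide (q.2 < q.1)) h0 (f := fun p : List ℕ × ℕ => p.2)
      (g := fun p : List ℕ × ℕ => p.1) (by fun_prop) (by fun_prop)
  have h2 : FP fun q : ℕ × ℕ => (q.2, q.1) := FP.pair (by fun_prop) (by fun_prop)
  have h3 : FP fun p : List ℕ × ℕ => (p.1.filter fun u => decide (u < p.2)).map fun u => (u, p.2) :=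
    (FP.map_ctx (h := fun q : ℕ × ℕ => (q.2, q.1)) h2).comp
      (FP.pair (f := fun p : List ℕ × ℕ => p.2) (by fun_prop) h1)
  have h4 : FP fun p : List ℕ × List ℕ => p.2.flatMap fun v =>
      (p.1.filter fun u => decide (u < v)).map fun u => (u, v) :=
    FP.flatMap_ctx (h := fun p : List ℕ × ℕ =>
      (p.1.filter fun u => decide (u < p.2)).map fun u => (u, p.2)) h3
  exact h4.comp (FP.pair (FP.range hx) (FP.range hx))

theorem FP.edg {x : α → List (List Bool)} (hx : FP x) : FP fun a => ZL.edg (x a) := by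
  have h1 : FP fun q : List (List Bool) × (ℕ × ℕ) => ZL.ent q.1 q.2.1 q.2.2 :=
    FP.ent (x := fun q : List (List Bool) × (ℕ × ℕ) => q.1) (by fun_prop) (by fun_prop)
      (by fun_prop)
  exact FP.filter2 (p := fun q : List (List Bool) × (ℕ × ℕ) => ZL.ent q.1 q.2.1 q.2.2) h1 hx
    (FP.prs hx)

end

end Pool.Agent.ZL
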