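import Pool.Agent.ZL.FpA

set_option autoImplicit false

/-!
# ZL-FpC: the random vertex is polynomial time computable

The Horner steps modulo `n` are executed in unary.
-/

namespace Pool.Agent.ZL

open Turing Function N487b59b3 N68a2faeb Pool.Agent.Helper22 Pool.Agent.Helper6.WB Computability
  Pool.Agent.Helper47.TR Pool.Agent.TFP

section

variable {α β γ : Type} [N487b59b3 α] [N487b59b3 β] [N487b59b3 γ]

/-- the doubled number plus the bit, in unary -/
private def vt (s : List Bool) (b : Bool) : List Bool := s ++ s ++ (if b then [true] else [])

/-- one Horner step modulo the length of the first component, in unary -/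
private def vst (p : List (List Bool) × List Bool) (b : Bool) : List (List Bool) × List Bool :=
  (p.1, (if decide (p.1.length ≤ (vt p.2 b).length) then (vt p.2 b).drop p.1.length
    else vt p.2 b).take p.1.length)

private theorem vt_length (s : List Bool) (b : Bool) : (vt s b).length = 2 * s.length + b.toNat := by
  cases b
  · simp [vt]
    ring
  · simp [vt]
    ring

private theorem vst_bd (l : List Bool) (y : List (List Bool)) (s : List Bool) :
    (l.foldl vst (y, s)).1 = y ∧ (l.foldl vst (y, s)).2.length ≤ max y.length s.length := by
  induction l generalizing s with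
  | nil => exact ⟨rfl, le_max_right _ _⟩
  | cons b l ih =>
    rw [List.foldl_cons]
    obtain ⟨h1, h2⟩ := ih (vst (y, s) b).2
    have h3 : (vst (y, s) b).2.length ≤ y.length := by
      show (List.take y.length _).length ≤ y.length
      rw [List.length_take]
      exact min_le_left _ _
    refine ⟨h1, ?_⟩
    rw [max_eq_left h3] at h2
    exact h2.trans (le_max_left _ _)

private theorem vst_length (y : List (List Bool)) (s : List Bool) (b : Bool)
    (h : s.length < y.length ∨ (y.length = 0 ∧ s.length = 0)) :
    (vst (y, s) b).2.length = hst y.length s.length b := by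
  have hb : b.toNat ≤ 1 := Bool.toNat_le b
  have ht := vt_length s b
  show (List.take y.length (if decide (y.length ≤ (vt s b).length) then (vt s b).drop y.length
    else vt s b)).length = _
  unfold hst
  rw [List.length_take]
  by_cases h0 : y.length = 0
  · rw [if_pos h0, h0]
    exact Nat.zero_min _
  · rw [if_neg h0]
    have hs : s.length < y.length := by
      rcases h with h | h
      · exact h
      · exact absurd h.1 h0
    by_cases hle : y.length ≤ (vt s b).length
    · rw [if_pos (decide_eq_true hle), List.length_drop, ht, Nat.mod_eq_sub_mod (by omega),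
        Nat.mod_eq_of_lt (by omega)]
      omega
    · rw [if_neg (by simpa using hle), ht, Nat.mod_eq_of_lt (by omega)]
      omega

private theorem vst_foldl (l : List Bool) (y : List (List Bool)) (s : List Bool)
    (h : s.length < y.length ∨ (y.length = 0 ∧ s.length = 0)) :
    (l.foldl vst (y, s)).2.length = l.foldl (hst y.length) s.length := by
  induction l generalizing s with
  | nil => rfl
  | cons b l ih =>
    have h1 := vst_length y s b h
    rw [List.foldl_cons, List.foldl_cons, ← h1]
    apply ih (vst (y, s) b).2
    rw [h1]
    unfold hst
    by_cases h0 : y.length = 0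
    · exact Or.inr ⟨h0, by rw [if_pos h0]⟩
    · left
      rw [if_neg h0]
      exact Nat.mod_lt _ (Nat.pos_of_ne_zero h0)

theorem FP.vx {x : α → List (List Bool)} {l : α → List Bool} (hx : FP x) (hl : FP l) :
    FP fun a => ZL.vx (x a).length (l a) := by
  have h1 : FP fun p : (List (List Bool) × List Bool) × Bool => vst p.1 p.2 := by
    have ht : FP fun p : (List (List Bool) × List Bool) × Bool => vt p.1.2 p.2 := by
      have h2 : FP fun p : (List (List Bool) × List Bool) × Bool => if p.2 then [true] else [] :=
        FP.ite (by fun_prop) (FP.const [true]) (FP.const [])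
      exact FP.append (FP.append (by fun_prop) (by fun_prop)) h2
    have h3 : FP fun p : (List (List Bool) × List Bool) × Bool => p.1.1 := by fun_prop
    exact FP.pair h3 (FP.take (FP.ite (FP.length_le h3 ht) (FP.drop ht h3) ht) h3)
  have h2 : FP fun p : List Bool × (List (List Bool) × List Bool) => p.1.foldl vst p.2 := by
    refine FP.foldl h1 (B := fun n => 3 * n) (by fun_prop) ?_
    rintro l ⟨y, s⟩
    obtain ⟨h3, h4⟩ := vst_bd l y s
    rcases hq : l.foldl vst (y, s) with ⟨y', s'⟩
    rw [hq] at h3 h4
    simp only at h3 h4
    subst h3
    have h5 := length_le_sz y'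
    simp only [sz_pair, sz_bits]
    omega
  have h3 := h2.comp (hl.pair (hx.pair (FP.const ([] : List Bool))))
  have h4 := FP.length h3.snd'
  refine (congrArg FP (funext fun a => ?_)).mp h4
  show ((l a).foldl vst (x a, [])).2.length = (l a).foldl (hst (x a).length) 0
  rw [vst_foldl]
  · rfl
  · rcases Nat.eq_zero_or_pos (x a).length with h | h
    · exact Or.inr ⟨h, rfl⟩
    · exact Or.inl h

theorem FP.rp {x : α → List (List Bool)} {l : α → List Bool} (hx : FP x) (hl : FP l) :
    FP fun a => ZL.rp (x a).length (l a) := by
  have h1 := FP.vx hx (FP.take (FP.drop hl hx) hx)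
  have h2 := FP.vx hx (FP.take (FP.drop hl (FP.append hx hx)) hx)
  have h3 := FP.pair h1 h2
  refine (congrArg FP (funext fun a => ?_)).mp h3
  simp only [ZL.rp, List.length_append, two_mul]

end

end Pool.Agent.ZL
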