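import Pool.Agent.ZL.FpC

set_option autoImplicit false

/-!
# ZL-FpD: the resampling of the edges is polynomial time computable
-/

namespace Pool.Agent.ZL

open Turing Function N487b59b3 N68a2faeb Pool.Agent.Helper22 Pool.Agent.Helper6.WB Computability
  Pool.Agent.Helper47.TR Pool.Agent.TFP

section

variable {α β γ : Type} [N487b59b3 α] [N487b59b3 β] [N487b59b3 γ]

private theorem fpd_all {f : α → List Bool} (hf : FP f) : FP fun a => (f a).all (fun b => b) := by
  have h1 : FP fun q : Bool × Bool => !q.2 := FP.not FP.snd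
  have h2 := FP.not ((FP.any_ctx h1).comp (FP.pair (FP.const true) hf))
  refine (congrArg FP (funext fun a => ?_)).mp h2
  simp only
  induction (f a) with
  | nil => rfl
  | cons b l ih =>
    rw [List.any_cons, List.all_cons, ← ih]
    cases b <;> rfl

/-- one step of the resampling -/
private def fpdStep (s : (List (List Bool) × List Bool) × (List (ℕ × ℕ) × List Bool)) (e : ℕ × ℕ) :
    (List (List Bool) × List Bool) × (List (ℕ × ℕ) × List Bool) :=
  (s.1, (s.2.1 ++ [if (s.2.2.take s.1.2.length).all (fun b => b) then ZL.rp s.1.1.length s.2.2 else e],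
    s.2.2.drop (s.1.1 ++ (s.1.1 ++ s.1.1)).length))

private theorem fpd_foldl (E : List (ℕ × ℕ)) (x : List (List Bool)) (j : List Bool)
    (acc : List (ℕ × ℕ)) (l : List Bool) :
    ∃ k, E.foldl fpdStep ((x, j), (acc, l)) =
      ((x, j), (acc ++ ZL.nz x.length j.length E l, l.drop k)) := by
  induction E generalizing acc l with
  | nil => exact ⟨0, by simp [ZL.nz]⟩
  | cons e E ih =>
    have h3 : (x ++ (x ++ x)).length = 3 * x.length := by
      rw [List.length_append, List.length_append]; ring
    rw [List.foldl_cons, fpdStep]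
    simp only
    rw [h3]
    obtain ⟨k, hk⟩ := ih (acc ++ [if (l.take j.length).all (fun b => b) then ZL.rp x.length l else e])
      (l.drop (3 * x.length))
    refine ⟨3 * x.length + k, ?_⟩
    rw [hk, ZL.nz, List.drop_drop, List.append_assoc]
    rfl

private theorem fpd_sz (E : List (ℕ × ℕ)) (n j : ℕ) (l : List Bool) (C D : ℕ)
    (hC : ∀ k, sz (ZL.rp n (l.drop k)) ≤ C) (hD : ∀ e ∈ E, sz e ≤ D) :
    sz (ZL.nz n j E l) ≤ E.length * (2 * (C + D) + 1) := by
  induction E generalizing l with
  | nil => simp [ZL.nz]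
  | cons e E ih =>
    have h1 := ih (l.drop (3 * n)) (fun k => by rw [List.drop_drop]; exact hC _)
      (fun e he => hD e (by simp [he]))
    have h2 : sz (if (l.take j).all (fun b => b) then ZL.rp n l else e) ≤ C + D := by
      split_ifs
      · have := hC 0
        rw [List.drop_zero] at this
        omega
      · have := hD e (by simp)
        omega
    have h3 : (E.length + 1) * (2 * (C + D) + 1) = E.length * (2 * (C + D) + 1) + (2 * (C + D) + 1) := by
      ring
    rw [ZL.nz, sz_cons, List.length_cons, h3]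
    omega

theorem FP.nz {x : α → List (List Bool)} {j l : α → List Bool} {E : α → List (ℕ × ℕ)} (hx : FP x)
    (hj : FP j) (hE : FP E) (hl : FP l) :
    FP fun a => ZL.nz (x a).length (j a).length (E a) (l a) := by
  have hr : FP fun p : List (List Bool) × List Bool => ZL.rp p.1.length p.2 := FP.rp FP.fst FP.snd
  obtain ⟨B, hB, hBm, hBle⟩ := hr.bound
  have hs : FP fun p : ((List (List Bool) × List Bool) × (List (ℕ × ℕ) × List Bool)) × (ℕ × ℕ) =>
      fpdStep p.1 p.2 := by
    unfold fpdStep
    have h1 : FP fun p : ((List (List Bool) × List Bool) × (List (ℕ × ℕ) × List Bool)) × (ℕ × ℕ) =>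
        (p.1.2.2.take p.1.1.2.length).all (fun b => b) := fpd_all (by fun_prop)
    have h2 : FP fun p : ((List (List Bool) × List Bool) × (List (ℕ × ℕ) × List Bool)) × (ℕ × ℕ) =>
        ZL.rp p.1.1.1.length p.1.2.2 := FP.rp (by fun_prop) (by fun_prop)
    have h3 : FP fun p : ((List (List Bool) × List Bool) × (List (ℕ × ℕ) × List Bool)) × (ℕ × ℕ) =>
        p.1.2.2.drop (p.1.1.1 ++ (p.1.1.1 ++ p.1.1.1)).length := by fun_prop
    exact FP.pair (by fun_prop) (FP.pair (FP.append (by fun_prop)
      (FP.cons (FP.ite h1 h2 FP.snd) (FP.const []))) h3)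
  have hf : FP fun p : List (ℕ × ℕ) × ((List (List Bool) × List Bool) × (List (ℕ × ℕ) × List Bool)) =>
      p.1.foldl fpdStep p.2 := by
    refine FP.foldl (g := fpdStep) hs (B := fun n => n + 2 * (n * (2 * (B n + n) + 1))) (by fun_prop) ?_
    rintro E ⟨⟨x, j⟩, ⟨acc, l⟩⟩
    obtain ⟨k, hk⟩ := fpd_foldl E x j acc l
    rw [hk]
    have h1 := fpd_sz E x.length j.length l (B (sz E + sz ((x, j), (acc, l)))) (sz E) (fun i => by
      refine (hBle (x, l.drop i)).trans (hBm ?_)
      have := sz_drop l i
      simp only [sz_pair]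
      omega) (fun e he => sz_mem_le he)
    have h2 := length_le_sz E
    have h3 := sz_drop l k
    have h4 : E.length * (2 * (B (sz E + sz ((x, j), (acc, l))) + sz E) + 1) ≤
        (sz E + sz ((x, j), (acc, l))) *
          (2 * (B (sz E + sz ((x, j), (acc, l))) + (sz E + sz ((x, j), (acc, l)))) + 1) :=
      Nat.mul_le_mul (by omega) (by omega)
    have h5 := h1.trans h4
    have h6 : sz ((x, j), (acc ++ ZL.nz x.length j.length E l, l.drop k)) ≤
        sz ((x, j), (acc, l)) + 2 * sz (ZL.nz x.length j.length E l) := by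
      simp only [sz_pair, sz_append]
      omega
    generalize sz ((x, j), (acc, l)) = N at *
    generalize sz (ZL.nz x.length j.length E l) = M at *
    omega
  have h := ((hf.comp (hE.pair ((hx.pair hj).pair (FP.pair (FP.const []) hl)))).snd').fst'
  refine (congrArg FP (funext fun a => ?_)).mp h
  simp only
  obtain ⟨k, hk⟩ := fpd_foldl (E a) (x a) (j a) [] (l a)
  rw [hk]
  rfl

end

end Pool.Agent.ZL
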