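import Pool.Agent.ZL.FpC

set_option autoImplicit false

/-!
# ZL-FpE: the list of random pairs is polynomial time computable

A `foldl` over the clock `K` with the state `(x, (acc, l))`.
-/

namespace Pool.Agent.ZL

open Turing Function N487b59b3 N68a2faeb Pool.Agent.Helper22 Pool.Agent.Helper6.WB Computability
  Pool.Agent.Helper47.TR Pool.Agent.TFP

section

variable {α β γ : Type} [N487b59b3 α] [N487b59b3 β] [N487b59b3 γ]

private theorem size_le_self (n : ℕ) : Nat.size n ≤ n := by
  rw [Nat.size_le]
  exact Nat.lt_two_pow_self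

private theorem hst_le (n a : ℕ) (b : Bool) : ZL.hst n a b ≤ n := by
  unfold ZL.hst
  split_ifs with h
  · omega
  · exact (Nat.mod_lt _ (Nat.pos_of_ne_zero h)).le

private theorem vx_le (n : ℕ) (l : List Bool) : ZL.vx n l ≤ n := by
  unfold ZL.vx
  have h1 : ∀ (l : List Bool) (a : ℕ), a ≤ n → l.foldl (ZL.hst n) a ≤ n := by
    intro l
    induction l with
    | nil => intro a ha; exact ha
    | cons b l ih => intro a _; exact ih _ (hst_le n a b)
  exact h1 l 0 (Nat.zero_le _)

private theorem sz_rp_le (n : ℕ) (l : List Bool) : sz (ZL.rp n l) ≤ 3 * n + 1 := by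
  unfold ZL.rp
  simp only [sz_pair, sz_nat]
  have h1 := size_le_self (ZL.vx n ((l.drop n).take n))
  have h2 := size_le_self (ZL.vx n ((l.drop (2 * n)).take n))
  have h3 := vx_le n ((l.drop n).take n)
  have h4 := vx_le n ((l.drop (2 * n)).take n)
  omega

private theorem sz_ex_le (n k : ℕ) (l : List Bool) : sz (ZL.ex n k l) ≤ k * (6 * n + 3) := by
  induction k generalizing l with
  | zero => simp [ZL.ex]
  | succ k ih =>
    have h1 := ih (l.drop (3 * n))
    have h2 := sz_rp_le n l
    have h3 : (k + 1) * (6 * n + 3) = k * (6 * n + 3) + (6 * n + 3) := by ring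
    simp only [ZL.ex, sz_cons]
    omega

private def stp (s : List (List Bool) × (List (ℕ × ℕ) × List Bool)) (_ : Bool) :
    List (List Bool) × (List (ℕ × ℕ) × List Bool) :=
  (s.1, (s.2.1 ++ [ZL.rp s.1.length s.2.2], s.2.2.drop ((s.1 ++ (s.1 ++ s.1)).length)))

private theorem stp_foldl (K : List Bool) (x : List (List Bool)) (acc : List (ℕ × ℕ))
    (l : List Bool) : K.foldl stp (x, (acc, l)) =
      (x, (acc ++ ZL.ex x.length K.length l, l.drop (3 * x.length * K.length))) := by
  induction K generalizing acc l with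
  | nil => simp [ZL.ex]
  | cons b K ih =>
    have h1 : (x ++ (x ++ x)).length = 3 * x.length := by
      simp only [List.length_append]
      omega
    have h2 : 3 * x.length + 3 * x.length * K.length = 3 * x.length * (K.length + 1) := by ring
    rw [List.foldl_cons, stp, ih]
    simp only [h1, List.length_cons, ZL.ex, List.append_assoc, List.singleton_append,
      List.drop_drop, h2]

private theorem stp_FP : FP fun p : (List (List Bool) × (List (ℕ × ℕ) × List Bool)) × Bool =>
    stp p.1 p.2 := by
  unfold stp
  have h1 : FP fun p : (List (List Bool) × (List (ℕ × ℕ) × List Bool)) × Bool =>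
      ZL.rp p.1.1.length p.1.2.2 := ZL.FP.rp (by fun_prop) (by fun_prop)
  have h2 : FP fun p : (List (List Bool) × (List (ℕ × ℕ) × List Bool)) × Bool =>
      p.1.2.1 ++ [ZL.rp p.1.1.length p.1.2.2] :=
    Helper22.FP.append (by fun_prop) (Helper22.FP.cons h1 (Helper22.FP.const []))
  have h3 : FP fun p : (List (List Bool) × (List (ℕ × ℕ) × List Bool)) × Bool =>
      p.1.2.2.drop ((p.1.1 ++ (p.1.1 ++ p.1.1)).length) :=
    Helper22.FP.drop (by fun_prop) (by fun_prop)
  exact Helper22.FP.pair (by fun_prop) (Helper22.FP.pair h2 h3)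

theorem FP.ex {x : α → List (List Bool)} {K l : α → List Bool} (hx : FP x) (hK : FP K) (hl : FP l) :
    FP fun a => ZL.ex (x a).length (K a).length (l a) := by
  have h1 : FP fun p : List Bool × (List (List Bool) × (List (ℕ × ℕ) × List Bool)) =>
      p.1.foldl stp p.2 := by
    refine Helper22.FP.foldl stp_FP (B := fun N => N + 2 * (N * (6 * N + 3))) (by fun_prop) ?_
    rintro K ⟨x, acc, l⟩
    rw [stp_foldl]
    simp only [sz_pair, sz_append]
    have h3 := sz_ex_le x.length K.length l
    have h4 := length_le_sz K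
    have h5 := length_le_sz x
    have h6 := sz_drop l (3 * x.length * K.length)
    have h7 : K.length * (6 * x.length + 3) ≤
        (sz K + (2 * sz x + 1 + (2 * sz acc + 1 + sz l))) *
          (6 * (sz K + (2 * sz x + 1 + (2 * sz acc + 1 + sz l))) + 3) :=
      Nat.mul_le_mul (by omega) (by omega)
    generalize (sz K + (2 * sz x + 1 + (2 * sz acc + 1 + sz l))) *
          (6 * (sz K + (2 * sz x + 1 + (2 * sz acc + 1 + sz l))) + 3) = Z at *
    omega
  have h2 := h1.comp (hK.pair (hx.pair ((Helper22.FP.const ([] : List (ℕ × ℕ))).pair hl)))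
  simp only [stp_foldl, List.nil_append] at h2
  exact h2.snd'.fst'

end

end Pool.Agent.ZL
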