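import Pool.Agent.ZL.FpA

set_option autoImplicit false

/-!
# ZL-FpF: `same`, `smp`, `mat` are polynomial time computable
-/

namespace Pool.Agent.ZL

open Turing Function N487b59b3 N68a2faeb Pool.Agent.Helper22 Pool.Agent.Helper6.WB Computability
  Pool.Agent.Helper47.TR Pool.Agent.TFP

section

variable {α β γ : Type} [N487b59b3 α] [N487b59b3 β] [N487b59b3 γ]

theorem FP.same {e f : α → ℕ × ℕ} (he : FP e) (hf : FP f) : FP fun a => ZL.same (e a) (f a) := by
  have h1 : FP fun a => ((e a).1 == (f a).1 && (e a).2 == (f a).2) ||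
      ((e a).1 == (f a).2 && (e a).2 == (f a).1) :=
    FP.or (FP.and (FP.natBeq he.fst' hf.fst') (FP.natBeq he.snd' hf.snd'))
      (FP.and (FP.natBeq he.fst' hf.snd') (FP.natBeq he.snd' hf.fst'))
  exact h1

/-- the step of the loop for `smp` -/
private def sst (p : List (ℕ × ℕ) × Bool) : Bool :=
  p.2 && (!((p.1.headD (0, 0)).1 == (p.1.headD (0, 0)).2) &&
    !(p.1.tail.any fun f => ZL.same (p.1.headD (0, 0)) f))

private theorem same2 : FP fun q : (ℕ × ℕ) × (ℕ × ℕ) => ZL.same q.1 q.2 :=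
  FP.same FP.fst FP.snd

private theorem FP_sst : FP sst := by
  have hh : FP fun p : List (ℕ × ℕ) × Bool => p.1.headD (0, 0) := FP.headD FP.fst _
  have ht : FP fun p : List (ℕ × ℕ) × Bool => p.1.tail := FP.tail FP.fst
  have h1 : FP fun p : List (ℕ × ℕ) × Bool =>
      p.1.tail.any fun f => ZL.same (p.1.headD (0, 0)) f :=
    (FP.any_ctx same2).comp (hh.pair ht)
  exact FP.and FP.snd (FP.and (FP.not (FP.natBeq hh.fst' hh.snd')) (FP.not h1))

private theorem loop_smp (l : List (ℕ × ℕ)) (s : Bool) :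
    Helper22.loopList sst l s = (s && ZL.smp l) := by
  induction l generalizing s with
  | nil => simp [Helper22.loopList, ZL.smp]
  | cons e l ih =>
    rw [Helper22.loopList, ih]
    show ((s && (!(e.1 == e.2) && !(l.any fun f => ZL.same e f))) && ZL.smp l) = (s && ZL.smp (e :: l))
    rw [ZL.smp, Bool.and_assoc]

theorem FP.smp {Y : α → List (ℕ × ℕ)} (hY : FP Y) : FP fun a => ZL.smp (Y a) := by
  have h := FP.loopList FP_sst (B := fun _ => 1) (by fun_prop) (by
    intro l a i _
    rw [sz_bool])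
  have h2 := h.comp (hY.pair (FP.const true))
  refine (congrArg FP (funext fun a => ?_)).mp h2
  rw [loop_smp, Bool.true_and]

theorem FP.mat {x : α → List (List Bool)} {Y : α → List (ℕ × ℕ)} (hx : FP x) (hY : FP Y) :
    FP fun a => ZL.mat (x a).length (Y a) := by
  have h1 : FP fun q : (ℕ × List (ℕ × ℕ)) × ℕ => q.1.2.any fun e => ZL.same (q.1.1, q.2) e :=
    (FP.any_ctx same2).comp ((FP.fst.fst'.pair FP.snd).pair FP.fst.snd')
  have h2 : FP fun q : (List ℕ × List (ℕ × ℕ)) × ℕ =>
      q.1.1.map fun v => q.1.2.any fun e => ZL.same (q.2, v) e :=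
    (FP.map_ctx h1).comp ((FP.snd.pair FP.fst.snd').pair FP.fst.fst')
  have h3 := (FP.map_ctx h2).comp (((FP.range hx).pair hY).pair (FP.range hx))
  exact h3

end

end Pool.Agent.ZL
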