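import Pool.Agent.ZL.FpA

set_option autoImplicit false

/-!
# ZL-FpG: `keep`, `lead` are polynomial time computable
-/

namespace Pool.Agent.ZL

open Turing Function N487b59b3 N68a2faeb Pool.Agent.Helper22 Pool.Agent.Helper6.WB Computability
  Pool.Agent.Helper47.TR Pool.Agent.TFP

section

variable {α β γ : Type} [N487b59b3 α] [N487b59b3 β] [N487b59b3 γ]

theorem FP.keep {x : α → List (List Bool)} {I : α → List Bool} (hx : FP x) (hI : FP I) :
    FP fun a => ZL.keep (x a) (I a) := by
  have h1 : FP fun q : ((List (List Bool) × List Bool) × ℕ) × ℕ =>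
      (decide (q.2 < q.1.2) && q.1.1.2.getD q.2 false) && ZL.ent q.1.1.1 q.2 q.1.2 :=
    FP.and (FP.and (FP.natLt FP.snd FP.fst.snd')
      (FP.getD FP.fst.fst'.snd' FP.snd (FP.const false)))
      (FP.ent FP.fst.fst'.fst' FP.snd FP.fst.snd')
  have h2 : FP fun q : ((List (List Bool) × List Bool) × List ℕ) × ℕ =>
      q.1.1.2.getD q.2 false && !(q.1.2.any fun u =>
        (decide (u < q.2) && q.1.1.2.getD u false) && ZL.ent q.1.1.1 u q.2) := by
    refine FP.and (FP.getD FP.fst.fst'.snd' FP.snd (FP.const false)) (FP.not ?_)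
    exact (FP.any_ctx h1).comp ((FP.fst.fst'.pair FP.snd).pair FP.fst.snd')
  have h3 := (FP.map_ctx h2).comp (((hx.pair hI).pair (FP.range hx)).pair (FP.range hx))
  exact h3

/-- the step of the fold for `lead` -/
private def lst (s : Bool × List Bool) (b : Bool) : Bool × List Bool :=
  (s.1 && b, if (s.1 && b) = true then s.2 ++ [true] else s.2)

private theorem lst_fold (l : List Bool) (f : Bool) (acc : List Bool) :
    (l.foldl lst (f, acc)).2 = acc ++ (if f = true then ZL.lead l else []) := by
  induction l generalizing f acc with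
  | nil => simp [ZL.lead]
  | cons b l ih =>
    rw [List.foldl_cons]
    have h0 : lst (f, acc) b = (f && b, if (f && b) = true then acc ++ [true] else acc) := rfl
    rw [h0, ih]
    cases f <;> cases b <;> simp [ZL.lead]

private theorem lead_len (l : List Bool) : (ZL.lead l).length ≤ l.length := by
  unfold ZL.lead
  exact (List.takeWhile_sublist _).length_le

theorem FP.lead {l : α → List Bool} (hl : FP l) : FP fun a => ZL.lead (l a) := by
  have hg : FP fun p : (Bool × List Bool) × Bool => lst p.1 p.2 := by
    have h1 : FP fun p : (Bool × List Bool) × Bool => (p.1.1 && p.2) := FP.and FP.fst.fst' FP.snd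
    have h2 : FP fun p : (Bool × List Bool) × Bool => p.1.2 ++ [true] :=
      FP.append FP.fst.snd' (FP.const [true])
    exact h1.pair (FP.ite h1 h2 FP.fst.snd')
  have h := FP.foldl hg (B := fun n => n) (by fun_prop) (by
    intro l a
    obtain ⟨f, acc⟩ := a
    have h1 : sz (l.foldl lst (f, acc)) =
        2 * sz (l.foldl lst (f, acc)).1 + 1 + sz (l.foldl lst (f, acc)).2 := by
      rw [← sz_pair]
    rw [h1, lst_fold, sz_bool, sz_append, sz_bits, sz_bits, sz_bits, sz_pair, sz_bool, sz_bits]
    have h2 := lead_len l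
    cases f
    · simp
    · simp
      omega)
  have h2 := (h.comp (hl.pair (FP.const (true, ([] : List Bool))))).snd'
  refine (congrArg FP (funext fun a => ?_)).mp h2
  show ((l a).foldl lst (true, [])).2 = ZL.lead (l a)
  rw [lst_fold]
  simp

end

end Pool.Agent.ZL
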