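import Pool.Agent.ZL.FpB
import Pool.Agent.ZL.FpD
import Pool.Agent.ZL.FpE
import Pool.Agent.ZL.FpF
import Pool.Agent.ZL.FpG
import Pool.Agent.ZL.FpH

set_option autoImplicit false

/-!
# ZL-FpI: a trial is polynomial time computable
-/

namespace Pool.Agent.ZL

open Turing Function N487b59b3 N68a2faeb Pool.Agent.Helper22 Pool.Agent.Helper6.WB Computability
  Pool.Agent.Helper47.TR Pool.Agent.TFP

section

variable {α β γ : Type} [N487b59b3 α] [N487b59b3 β] [N487b59b3 γ]

/-- one call of `A`, as a function of the context and of the added pairs -/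
private def call (A : AAlg)
    (q : (List (List Bool) × (List (ℕ × ℕ) × (List Bool × List Bool))) × List (ℕ × ℕ)) :
    List Bool :=
  if ZL.smp (q.1.2.1 ++ q.2) then
    ZL.keep q.1.1 (A ((ZL.mat q.1.1.length (q.1.2.1 ++ q.2), q.1.2.2.1), q.1.2.2.2))
  else []

private theorem FP.call {A : AAlg} (hA : FP A) : FP (ZL.call A) := by
  have hx : FP fun q : (List (List Bool) × (List (ℕ × ℕ) × (List Bool × List Bool))) ×
      List (ℕ × ℕ) => q.1.1 := FP.fst.fst'
  have hY : FP fun q : (List (List Bool) × (List (ℕ × ℕ) × (List Bool × List Bool))) ×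
      List (ℕ × ℕ) => q.1.2.1 ++ q.2 := FP.append FP.fst.snd'.fst' FP.snd
  have hw : FP fun q : (List (List Bool) × (List (ℕ × ℕ) × (List Bool × List Bool))) ×
      List (ℕ × ℕ) => q.1.2.2.1 := FP.fst.snd'.snd'.fst'
  have hr : FP fun q : (List (List Bool) × (List (ℕ × ℕ) × (List Bool × List Bool))) ×
      List (ℕ × ℕ) => q.1.2.2.2 := FP.fst.snd'.snd'.snd'
  exact FP.ite (FP.smp hY) (FP.keep hx (hA.comp (FP.pair (FP.pair (FP.mat hx hY) hw) hr)))
    (FP.const [])

theorem FP.trial {A : AAlg} (hA : FP A) {x : α → List (List Bool)} {l : α → List Bool} (hx : FP x)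
    (hl : FP l) : FP fun a => ZL.trial A (x a) (l a) := by
  have hx3 : FP fun a => x a ++ (x a ++ x a) := FP.append hx (FP.append hx hx)
  have hr : FP fun a => (l a).drop (3 * (x a).length) := by
    refine (congrArg FP (funext fun a => ?_)).mp (FP.drop hl hx3)
    rw [List.length_append, List.length_append]
    congr 1
    ring
  have hj : FP fun a => ZL.lead ((l a).take (x a).length) := FP.lead (FP.take hl hx)
  have hE : FP fun a => ZL.edg (x a) := FP.edg hx
  have hn : FP fun a => ZL.nz (x a).length (ZL.jOf (x a).length (l a)) (ZL.edg (x a))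
      ((l a).drop (3 * (x a).length)) := FP.nz hx hj hE hr
  have hw : FP fun a => ZL.wOf (x a).length (l a) := by
    have h1 : FP fun a => ZL.lead (((l a).drop (x a).length).take (x a).length) :=
      FP.lead (FP.take (FP.drop hl hx) hx)
    have h2 : FP fun a => (l a).drop (2 * (x a).length) := by
      refine (congrArg FP (funext fun a => ?_)).mp (FP.drop hl (FP.append hx hx))
      rw [List.length_append]
      congr 1
      ring
    exact FP.take h2 h1
  have h3E : FP fun a => un (3 * (x a).length * (ZL.edg (x a)).length) := by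
    refine (congrArg FP (funext fun a => ?_)).mp (FP.unMul (FP.un_length hx3) (FP.un_length hE))
    rw [Pool.Agent.Helper22.un_length, Pool.Agent.Helper22.un_length, List.length_append,
      List.length_append]
    congr 1
    ring
  have hnn : FP fun a => un ((x a).length * (x a).length) := by
    refine (congrArg FP (funext fun a => ?_)).mp (FP.unMul (FP.un_length hx) (FP.un_length hx))
    rw [Pool.Agent.Helper22.un_length]
  have h3nn : FP fun a => un (3 * (x a).length * ((x a).length * (x a).length)) := by
    refine (congrArg FP (funext fun a => ?_)).mp (FP.unMul (FP.un_length hx3) hnn)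
    rw [Pool.Agent.Helper22.un_length, Pool.Agent.Helper22.un_length, List.length_append,
      List.length_append]
    congr 1
    ring
  have hr1 : FP fun a => ((l a).drop (3 * (x a).length)).drop
      (3 * (x a).length * (ZL.edg (x a)).length) := by
    refine (congrArg FP (funext fun a => ?_)).mp (FP.drop hr h3E)
    rw [Pool.Agent.Helper22.un_length]
  have hr2 : FP fun a => ((l a).drop (3 * (x a).length)).drop
      (3 * (x a).length * ((x a).length * (x a).length)) := by
    refine (congrArg FP (funext fun a => ?_)).mp (FP.drop hr h3nn)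
    rw [Pool.Agent.Helper22.un_length]
  have hex : FP fun a => ZL.ex (x a).length ((x a).length * (x a).length)
      (((l a).drop (3 * (x a).length)).drop (3 * (x a).length * (ZL.edg (x a)).length)) := by
    refine (congrArg FP (funext fun a => ?_)).mp (FP.ex hx hnn hr1)
    rw [Pool.Agent.Helper22.un_length]
  have hc := FP.pair hx (FP.pair hn (FP.pair hw hr2))
  have h := (FP.map_ctx (FP.call hA)).comp (FP.pair hc (FP.pres hex))
  exact h

end

end Pool.Agent.ZL
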