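import Pool.Agent.ZL.FpI

set_option autoImplicit false

/-!
# ZL-FpJ: the amplified algorithm is polynomial time computable
-/

namespace Pool.Agent.ZL

open Turing Function N487b59b3 N68a2faeb Pool.Agent.Helper22 Pool.Agent.Helper6.WB Computability
  Pool.Agent.Helper47.TR Pool.Agent.TFP

section

variable {α β γ : Type} [N487b59b3 α] [N487b59b3 β] [N487b59b3 γ]

/-- the state of the loop for `runs` -/
private abbrev RS : Type :=
  (List (List Bool) × List Bool) × (List (List Bool) × List Bool)

/-- the step of the loop for `runs` -/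
private def rst (A : AAlg) (s : RS) (_b : Bool) : RS :=
  (s.1, (s.2.1 ++ ZL.trial A s.1.1 (s.2.2.take s.1.2.length), s.2.2.drop s.1.2.length))

private theorem rst_fold (A : AAlg) (T : List Bool) (x : List (List Bool)) (L : List Bool)
    (acc : List (List Bool)) (l : List Bool) :
    ∃ k : ℕ, T.foldl (rst A) ((x, L), (acc, l)) =
      ((x, L), (acc ++ ZL.runs A x L.length T.length l, l.drop k)) := by
  induction T generalizing acc l with
  | nil => exact ⟨0, by simp [ZL.runs]⟩
  | cons b T ih =>
    obtain ⟨k, hk⟩ := ih (acc ++ ZL.trial A x (l.take L.length)) (l.drop L.length)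
    refine ⟨L.length + k, ?_⟩
    rw [List.foldl_cons]
    have h0 : rst A ((x, L), (acc, l)) b =
      ((x, L), (acc ++ ZL.trial A x (l.take L.length), l.drop L.length)) := rfl
    rw [h0, hk, List.length_cons, ZL.runs, List.append_assoc, List.drop_drop]

private theorem runs_sz {A : AAlg} {B : ℕ → ℕ} (hm : Monotone B)
    (hB : ∀ p : List (List Bool) × List Bool, sz (ZL.trial A p.1 p.2) ≤ B (sz p))
    (x : List (List Bool)) (L n : ℕ) (l : List Bool) :
    sz (ZL.runs A x L n l) ≤ n * B (2 * sz x + 1 + sz l) := by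
  induction n generalizing l with
  | zero => simp [ZL.runs]
  | succ n ih =>
    rw [ZL.runs, sz_append]
    have h1 := hB (x, l.take L)
    have h2 := sz_take l L
    have h3 := sz_drop l L
    have h4 := ih (l.drop L)
    rw [sz_pair] at h1
    have h5 : B (2 * sz x + 1 + sz (l.take L)) ≤ B (2 * sz x + 1 + sz l) := hm (by omega)
    have h6 : B (2 * sz x + 1 + sz (l.drop L)) ≤ B (2 * sz x + 1 + sz l) := hm (by omega)
    have h7 : n * B (2 * sz x + 1 + sz (l.drop L)) ≤ n * B (2 * sz x + 1 + sz l) :=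
      Nat.mul_le_mul_left _ h6
    rw [Nat.succ_mul]
    simp only at h1
    omega

theorem FP.runs {A : AAlg} (hA : FP A) {x : α → List (List Bool)} {L T l : α → List Bool}
    (hx : FP x) (hL : FP L) (hT : FP T) (hl : FP l) :
    FP fun a => ZL.runs A (x a) (L a).length (T a).length (l a) := by
  have htr : FP fun p : List (List Bool) × List Bool => ZL.trial A p.1 p.2 :=
    FP.trial hA FP.fst FP.snd
  obtain ⟨B, hB1, hB2, hB3⟩ := htr.bound
  have hg : FP fun p : RS × Bool => rst A p.1 p.2 := by
    have h1 : FP fun p : RS × Bool => p.1.2.2.take p.1.1.2.length :=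
      FP.take FP.fst.snd'.snd' FP.fst.fst'.snd'
    have h2 : FP fun p : RS × Bool => ZL.trial A p.1.1.1 (p.1.2.2.take p.1.1.2.length) :=
      FP.trial hA FP.fst.fst'.fst' h1
    have h3 : FP fun p : RS × Bool => p.1.2.2.drop p.1.1.2.length :=
      FP.drop FP.fst.snd'.snd' FP.fst.fst'.snd'
    exact FP.fst.fst'.pair ((FP.append FP.fst.snd'.fst' h2).pair h3)
  have h := FP.foldl hg (B := fun n => 10 * n + 10 + 2 * (n * B (2 * n + 1)))
    (PB.add (PB.add (PB.mul (PB.const 10) PB.id) (PB.const 10))
      (PB.mul (PB.const 2) (PB.mul PB.id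
        (hB1.comp (PB.add (PB.mul (PB.const 2) PB.id) (PB.const 1)))))) (by
    intro T s
    obtain ⟨⟨x, L⟩, ⟨acc, l⟩⟩ := s
    obtain ⟨k, hk⟩ := rst_fold A T x L acc l
    show sz (T.foldl (rst A) ((x, L), (acc, l))) ≤ _
    rw [hk]
    have h1 := runs_sz hB2 hB3 x L.length T.length l
    have h2 := sz_drop l k
    have h3 := length_le_sz T
    simp only [sz_pair, sz_append] at *
    generalize hN : sz T + (2 * (2 * sz x + 1 + sz L) + 1 + (2 * sz acc + 1 + sz l)) = N
    have h4 : B (2 * sz x + 1 + sz l) ≤ B (2 * N + 1) := hB2 (by omega)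
    have h5 : T.length * B (2 * sz x + 1 + sz l) ≤ N * B (2 * N + 1) :=
      Nat.mul_le_mul (by omega) h4
    omega)
  have h2 := (h.comp (hT.pair ((hx.pair hL).pair ((FP.const ([] : List (List Bool))).pair hl)))).snd'.fst'
  refine (congrArg FP (funext fun a => ?_)).mp h2
  show ((T a).foldl (rst A) ((x a, L a), ([], l a))).2.1 = _
  obtain ⟨k, hk⟩ := rst_fold A (T a) (x a) (L a) [] (l a)
  rw [hk]
  rfl

theorem FP.amp {A : AAlg} (hA : FP A) (q : Polynomial ℕ) (D : ℕ) : FP (ZL.amp A q D) := by
  have hx : FP fun p : List (List Bool) × List Bool => p.1 := FP.fst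
  have hL := FP.un_poly hx (3 * Polynomial.X + (3 * Polynomial.X * (Polynomial.X * Polynomial.X) + q))
  have hT := FP.un_poly hx ((Polynomial.X : Polynomial ℕ) ^ D)
  have h1 := FP.best (FP.runs hA hx hL hT FP.snd)
  refine (congrArg FP (funext fun p => ?_)).mp h1
  unfold ZL.amp ZL.len un
  simp only [List.length_replicate, Polynomial.eval_add, Polynomial.eval_mul, Polynomial.eval_X,
    Polynomial.eval_pow]
  congr 3
  all_goals simp

end

theorem amp_poly {A : AAlg} (hA : N68a2faeb.IsPolyTime A) (q : Polynomial ℕ) (D : ℕ) :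
    N68a2faeb.IsPolyTime (amp A q D) :=
  (isPolyTime_iff _).2 (FP.amp ((isPolyTime_iff _).1 hA) q D)

end Pool.Agent.ZL
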