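import Pool.Agent.ZL.BkD

set_option autoImplicit false

/-!
# ZL-GrD: the greedy algorithm (definitions for the analysis)
-/

namespace Pool.Agent.ZL

open Finset

/-- the greedy set after the vertices `0, …, t - 1`; `ξ u v` = adjacency of `u < v` -/
def gs (ξ : ℕ → ℕ → Bool) : ℕ → Finset ℕ
  | 0 => ∅
  | t + 1 => if ∃ u ∈ gs ξ t, ξ u t = true then gs ξ t else insert t (gs ξ t)

/-- weight of a bit -/
def wt (p : ℝ) (b : Bool) : ℝ := if b then p else 1 - p

/-- weight of a matrix of independent bits -/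
noncomputable def Wt {n : ℕ} (p : ℝ) (ζ : Fin n → Fin n → Bool) : ℝ := ∏ v, ∏ u, wt p (ζ v u)

/-- the bits `ζ v u` as a function of natural numbers -/
def xi {n : ℕ} (ζ : Fin n → Fin n → Bool) (u v : ℕ) : Bool :=
  if h : u < n ∧ v < n then ζ ⟨v, h.2⟩ ⟨u, h.1⟩ else false

/-- the graph of the bits -/
def Gz {n : ℕ} (ζ : Fin n → Fin n → Bool) : SimpleGraph (Fin n) where
  Adj u v := (u < v ∧ ζ v u = true) ∨ (v < u ∧ ζ u v = true)
  symm := ⟨fun _ _ h => h.symm⟩
  loopless := ⟨fun u h => by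
    rcases h with h | h
    · exact lt_irrefl u h.1
    · exact lt_irrefl u h.1⟩

/-- expected time until the greedy set has `x` elements -/
noncomputable def ph (p : ℝ) (x : ℕ) : ℝ := ∑ i ∈ range x, (1 / (1 - p)) ^ i

end Pool.Agent.ZL
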