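import Pool.Agent.ZL.GrU
import Pool.Agent.ZL.GrL

set_option autoImplicit false

/-!
# ZL-GrG: the graph of the independent bits

Product over the independent bits.
-/

namespace Pool.Agent.ZL

open Finset

open Classical in
private theorem gg_iff {n : ℕ} (ζ : Fin n → Fin n → Bool) (G : SimpleGraph (Fin n)) :
    Gz ζ = G ↔ ∀ v u, u < v → ζ v u = decide (G.Adj u v) := by
  constructor
  · rintro rfl v u h
    by_cases hb : ζ v u = true
    · have h1 : (Gz ζ).Adj u v := Or.inl ⟨h, hb⟩
      rw [hb]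
      exact (decide_eq_true h1).symm
    · have h1 : ¬ (Gz ζ).Adj u v := by
        rintro (h1 | h1)
        · exact hb h1.2
        · exact absurd h1.1 (not_lt.2 h.le)
      rw [decide_eq_false h1]
      exact Bool.eq_false_of_not_eq_true hb
  · intro h
    ext a b
    show ((a < b ∧ ζ b a = true) ∨ (b < a ∧ ζ a b = true)) ↔ G.Adj a b
    constructor
    · rintro (⟨h1, h2⟩ | ⟨h1, h2⟩)
      · rw [h b a h1] at h2
        exact of_decide_eq_true h2
      · rw [h a b h1] at h2
        exact (of_decide_eq_true h2).symm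
    · intro h1
      rcases lt_or_gt_of_ne h1.ne with h2 | h2
      · left
        refine ⟨h2, ?_⟩
        rw [h b a h2]
        exact decide_eq_true h1
      · right
        refine ⟨h2, ?_⟩
        rw [h a b h2]
        exact decide_eq_true h1.symm

private theorem gg_prod {n : ℕ} (f : Fin n → Fin n → Bool → ℝ) :
    ∑ ζ : Fin n → Fin n → Bool, ∏ v, ∏ u, f v u (ζ v u) =
      ∏ v, ∏ u, (f v u true + f v u false) := by
  have h1 : ∀ v, ∏ u, (f v u true + f v u false) = ∑ r : Fin n → Bool, ∏ u, f v u (r u) := by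
    intro v
    have h2 := Finset.prod_univ_sum (fun _ : Fin n => (univ : Finset Bool)) (fun u b => f v u b)
    rw [Fintype.piFinset_univ] at h2
    rw [← h2]
    refine prod_congr rfl fun u _ => ?_
    rw [Fintype.sum_bool]
  simp only [h1]
  have h3 := Finset.prod_univ_sum (fun _ : Fin n => (univ : Finset (Fin n → Bool)))
    (fun v r => ∏ u, f v u (r u))
  rw [Fintype.piFinset_univ] at h3
  exact h3.symm

private theorem gg_card (n : ℕ) :
    ((univ : Finset (Fin n × Fin n)).filter (fun q => q.1 < q.2)).card = n.choose 2 := by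
  rw [Finset.card_filter, Fintype.sum_prod_type, Finset.sum_comm]
  have h1 : ∀ v : Fin n, ∑ u : Fin n, (if u < v then 1 else 0) = (v : ℕ) := by
    intro v
    rw [← Finset.card_filter, ← Fin.card_Iio v]
    congr 1
    ext u
    simp
  rw [Finset.sum_congr rfl fun v _ => h1 v, Fin.sum_univ_eq_sum_range (fun i => i) n,
    Finset.sum_range_id, Nat.choose_two_right]

open Classical in
private theorem gg_edges {n : ℕ} (G : SimpleGraph (Fin n)) : G.edgeSet.ncard =
    ((univ : Finset (Fin n × Fin n)).filter (fun q => q.1 < q.2 ∧ G.Adj q.1 q.2)).card := by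
  have h1 : G.edgeSet = (fun q : Fin n × Fin n => s(q.1, q.2)) ''
      (((univ : Finset (Fin n × Fin n)).filter (fun q => q.1 < q.2 ∧ G.Adj q.1 q.2)
        : Finset (Fin n × Fin n)) : Set (Fin n × Fin n)) := by
    ext e
    induction e using Sym2.ind with
    | _ a b =>
      rw [SimpleGraph.mem_edgeSet, Set.mem_image]
      constructor
      · intro h
        rcases lt_or_gt_of_ne h.ne with h2 | h2
        · exact ⟨(a, b), by simp [h2, h], rfl⟩
        · exact ⟨(b, a), by simp [h2, h.symm], Sym2.eq_swap⟩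
      · rintro ⟨⟨c, d⟩, h2, h3⟩
        rw [Finset.mem_coe, Finset.mem_filter] at h2
        have h4 : s(c, d) = s(a, b) := h3
        have h5 : G.Adj c d := h2.2.2
        rw [← SimpleGraph.mem_edgeSet] at h5 ⊢
        rw [← h4]
        exact h5
  rw [h1, Set.ncard_image_of_injOn, Set.ncard_coe_finset]
  rintro ⟨a, b⟩ h2 ⟨c, d⟩ h3 h4
  rw [Finset.mem_coe, Finset.mem_filter] at h2 h3
  have h5 : s(a, b) = s(c, d) := h4
  have h6 : a < b := h2.2.1
  have h7 : c < d := h3.2.1
  rw [Sym2.eq_iff] at h5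
  rcases h5 with ⟨rfl, rfl⟩ | ⟨rfl, rfl⟩
  · rfl
  · exact absurd h6 (not_lt.2 h7.le)

open Classical in
theorem Gz_sum {n : ℕ} (p : ℝ) (G : SimpleGraph (Fin n)) :
    ∑ ζ ∈ (univ : Finset (Fin n → Fin n → Bool)).filter (fun ζ => Gz ζ = G), Wt p ζ =
      p ^ G.edgeSet.ncard * (1 - p) ^ (n.choose 2 - G.edgeSet.ncard) := by
  set f : Fin n → Fin n → Bool → ℝ := fun v u b =>
    if u < v ∧ b ≠ decide (G.Adj u v) then 0 else wt p b with hf
  have h1 : ∀ ζ : Fin n → Fin n → Bool, (if Gz ζ = G then Wt p ζ else 0) =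
      ∏ v, ∏ u, f v u (ζ v u) := by
    intro ζ
    by_cases h : Gz ζ = G
    · rw [if_pos h]
      rw [gg_iff] at h
      unfold Wt
      refine prod_congr rfl fun v _ => prod_congr rfl fun u _ => ?_
      rw [hf]
      beta_reduce
      rw [if_neg (fun h2 => h2.2 (h v u h2.1))]
    · rw [if_neg h]
      rw [gg_iff] at h
      push Not at h
      obtain ⟨v, u, h2, h3⟩ := h
      symm
      refine prod_eq_zero (mem_univ v) (prod_eq_zero (mem_univ u) ?_)
      rw [hf]
      beta_reduce
      rw [if_pos ⟨h2, h3⟩]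
  rw [Finset.sum_filter, Finset.sum_congr rfl fun ζ _ => h1 ζ, gg_prod]
  have h2 : ∀ v u : Fin n, f v u true + f v u false =
      if u < v then (if G.Adj u v then p else 1 - p) else 1 := by
    intro v u
    rw [hf]
    beta_reduce
    by_cases h3 : u < v
    · by_cases h4 : G.Adj u v
      · simp [h3, h4, wt]
      · simp [h3, h4, wt]
    · simp [h3, wt]
  simp only [h2]
  have h3 : ∏ v : Fin n, ∏ u : Fin n, (if u < v then (if G.Adj u v then p else 1 - p) else 1) =
      ∏ q ∈ (univ : Finset (Fin n × Fin n)).filter (fun q => q.1 < q.2),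
        (if G.Adj q.1 q.2 then p else 1 - p) := by
    rw [Finset.prod_filter, Fintype.prod_prod_type, Finset.prod_comm]
  rw [h3, Finset.prod_ite, Finset.prod_const, Finset.prod_const, Finset.filter_filter,
    Finset.filter_filter]
  have h4 := gg_card n
  have h5 := gg_edges G
  have h6 : (((univ : Finset (Fin n × Fin n)).filter (fun q => q.1 < q.2)).filter
      (fun q => G.Adj q.1 q.2)).card +
      (((univ : Finset (Fin n × Fin n)).filter (fun q => q.1 < q.2)).filter
      (fun q => ¬ G.Adj q.1 q.2)).card =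
      ((univ : Finset (Fin n × Fin n)).filter (fun q => q.1 < q.2)).card :=
    Finset.card_filter_add_card_filter_not _
  rw [Finset.filter_filter, Finset.filter_filter] at h6
  rw [← h5] at h6 ⊢
  congr 2
  omega

theorem gs_congr {ξ ξ' : ℕ → ℕ → Bool} {t : ℕ} (h : ∀ u v, u < v → v < t → ξ u v = ξ' u v) :
    gs ξ t = gs ξ' t := by
  induction t with
  | zero => rfl
  | succ t ih =>
    have ih' := ih (fun u v h1 h2 => h u v h1 (h2.trans (Nat.lt_succ_self t)))
    have h1 : (∃ u ∈ gs ξ t, ξ u t = true) ↔ ∃ u ∈ gs ξ' t, ξ' u t = true := by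
      rw [ih']
      constructor
      · rintro ⟨u, hu, h2⟩
        refine ⟨u, hu, ?_⟩
        rw [← h u t (gs_lt hu) (Nat.lt_succ_self t)]
        exact h2
      · rintro ⟨u, hu, h2⟩
        refine ⟨u, hu, ?_⟩
        rw [h u t (gs_lt hu) (Nat.lt_succ_self t)]
        exact h2
    simp only [gs]
    by_cases hc : ∃ u ∈ gs ξ t, ξ u t = true
    · rw [if_pos hc, if_pos (h1.1 hc), ih']
    · rw [if_neg hc, if_neg (fun hh => hc (h1.2 hh)), ih']

theorem gs_Gz {n : ℕ} (ζ : Fin n → Fin n → Bool) : gs (ent (code (Gz ζ))) n = gs (xi ζ) n := by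
  refine gs_congr fun u v h1 h2 => ?_
  have hu : u < n := h1.trans h2
  have h3 := ent_code (Gz ζ) ⟨u, hu⟩ ⟨v, h2⟩
  rw [Bool.eq_iff_iff]
  refine h3.trans ?_
  have h4 : xi ζ u v = ζ ⟨v, h2⟩ ⟨u, hu⟩ := by
    unfold xi
    rw [dif_pos ⟨hu, h2⟩]
  rw [h4]
  have h5 : (⟨u, hu⟩ : Fin n) < ⟨v, h2⟩ := h1
  constructor
  · rintro (h6 | h6)
    · exact h6.2
    · exact absurd h6.1 (not_lt.2 h5.le)
  · intro h6
    exact Or.inl ⟨h5, h6⟩

end Pool.Agent.ZL
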