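import Pool.Agent.ZL.GrD

set_option autoImplicit false

/-!
# ZL-GrO: the potential of the greedy process, one step
-/

namespace Pool.Agent.ZL

open Finset

private theorem exp_neg_le (z : ℝ) (hz : 0 ≤ z) : Real.exp (-z) ≤ 1 - z + z ^ 2 / 2 := by
  have h1 := Real.quadratic_le_exp_of_nonneg hz
  have h2 : 0 < 1 - z + z ^ 2 / 2 := by nlinarith [sq_nonneg (z - 1)]
  have h3 : 1 ≤ (1 - z + z ^ 2 / 2) * Real.exp z := by
    calc (1 : ℝ) ≤ 1 + z ^ 4 / 4 := by
          have : 0 ≤ z ^ 4 := by positivity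
          linarith
      _ = (1 - z + z ^ 2 / 2) * (1 + z + z ^ 2 / 2) := by ring
      _ ≤ _ := mul_le_mul_of_nonneg_left h1 h2.le
  have h4 : Real.exp z * Real.exp (-z) = 1 := by rw [← Real.exp_add, add_neg_cancel, Real.exp_zero]
  calc Real.exp (-z) = 1 * Real.exp (-z) := (one_mul _).symm
    _ ≤ ((1 - z + z ^ 2 / 2) * Real.exp z) * Real.exp (-z) :=
      mul_le_mul_of_nonneg_right h3 (Real.exp_pos _).le
    _ = 1 - z + z ^ 2 / 2 := by rw [mul_assoc, h4, mul_one]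

theorem gr_one (p lam C : ℝ) (hp0 : 0 ≤ p) (hp1 : p < 1) (hl : 0 ≤ lam) (n x : ℕ) (hx : x ≤ n)
    (hC : (1 / (1 - p)) ^ n ≤ C) :
    (1 - (1 - p) ^ x) * Real.exp (-(lam * ph p x)) + (1 - p) ^ x * Real.exp (-(lam * ph p (x + 1))) ≤
      Real.exp (-lam + lam ^ 2 * C / 2) * Real.exp (-(lam * ph p x)) := by
  have hq : 0 < 1 - p := by linarith
  have hQ : 1 ≤ 1 / (1 - p) := by
    rw [le_div_iff₀ hq]
    linarith
  obtain ⟨y, hy⟩ : ∃ y, y = (1 / (1 - p)) ^ x := ⟨_, rfl⟩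
  have hy0 : 0 < y := by rw [hy]; positivity
  have hyC : y ≤ C := by
    rw [hy]
    exact (pow_le_pow_right₀ hQ hx).trans hC
  have h1 : (1 - p) ^ x = 1 / y := by
    rw [hy, one_div_pow, one_div_one_div]
  have h2 : ph p (x + 1) = ph p x + y := by
    unfold ph
    rw [sum_range_succ, hy]
  have h3 : Real.exp (-(lam * ph p (x + 1))) =
      Real.exp (-(lam * y)) * Real.exp (-(lam * ph p x)) := by
    rw [h2, ← Real.exp_add]
    congr 1
    ring
  rw [h3, h1]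
  have h4 := exp_neg_le (lam * y) (mul_nonneg hl hy0.le)
  have h5 : 1 / y * Real.exp (-(lam * y)) ≤ 1 / y * (1 - lam * y + (lam * y) ^ 2 / 2) :=
    mul_le_mul_of_nonneg_left h4 (by positivity)
  have h6 : 1 / y * (1 - lam * y + (lam * y) ^ 2 / 2) = 1 / y - lam + lam ^ 2 * y / 2 := by
    field_simp
  have h7 : lam ^ 2 * y / 2 ≤ lam ^ 2 * C / 2 := by
    have := mul_le_mul_of_nonneg_left hyC (sq_nonneg lam)
    linarith
  have h8 := Real.add_one_le_exp (-lam + lam ^ 2 * C / 2)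
  have h9 : 1 - 1 / y + 1 / y * Real.exp (-(lam * y)) ≤ Real.exp (-lam + lam ^ 2 * C / 2) := by
    linarith
  calc (1 - 1 / y) * Real.exp (-(lam * ph p x)) +
        1 / y * (Real.exp (-(lam * y)) * Real.exp (-(lam * ph p x))) =
      (1 - 1 / y + 1 / y * Real.exp (-(lam * y))) * Real.exp (-(lam * ph p x)) := by ring
    _ ≤ _ := mul_le_mul_of_nonneg_right h9 (Real.exp_pos _).le

end Pool.Agent.ZL
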