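import Pool.Agent.ZL.GrD

set_option autoImplicit false

/-!
# ZL-GrU: independent rows of bits
-/

namespace Pool.Agent.ZL

open Finset

/-- weight of a row -/
noncomputable def Wr {n : ℕ} (p : ℝ) (r : Fin n → Bool) : ℝ := ∏ u, wt p (r u)

private theorem wt_nonneg {p : ℝ} (hp0 : 0 ≤ p) (hp1 : p ≤ 1) (b : Bool) : 0 ≤ wt p b := by
  unfold wt
  split_ifs
  · exact hp0
  · linarith

theorem Wr_nonneg {n : ℕ} {p : ℝ} (hp0 : 0 ≤ p) (hp1 : p ≤ 1) (r : Fin n → Bool) : 0 ≤ Wr p r :=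
  prod_nonneg fun _ _ => wt_nonneg hp0 hp1 _

private theorem Wt_eq {n : ℕ} (p : ℝ) (ζ : Fin n → Fin n → Bool) : Wt p ζ = ∏ v, Wr p (ζ v) := rfl

theorem Wt_nonneg {n : ℕ} {p : ℝ} (hp0 : 0 ≤ p) (hp1 : p ≤ 1) (ζ : Fin n → Fin n → Bool) :
    0 ≤ Wt p ζ := prod_nonneg fun _ _ => Wr_nonneg hp0 hp1 _

private theorem sum_prod {n : ℕ} {β : Type*} [Fintype β] (f : Fin n → β → ℝ) :
    ∑ r : Fin n → β, ∏ u, f u (r u) = ∏ u, ∑ b, f u b := by
  classical
  rw [Finset.prod_univ_sum, Fintype.piFinset_univ]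

theorem Wr_sum (n : ℕ) (p : ℝ) : ∑ r : Fin n → Bool, Wr p r = 1 := by
  unfold Wr
  rw [sum_prod fun _ b => wt p b]
  refine prod_eq_one fun u _ => ?_
  rw [Fintype.sum_bool]
  simp [wt]

theorem Wt_sum (n : ℕ) (p : ℝ) : ∑ ζ : Fin n → Fin n → Bool, Wt p ζ = 1 := by
  have h := sum_prod (n := n) fun _ (r : Fin n → Bool) => Wr p r
  simp only [Wt_eq]
  rw [h]
  exact prod_eq_one fun u _ => Wr_sum n p

/-- the probability that a row has no `true` in `S` -/
theorem Wr_zero {n : ℕ} (p : ℝ) (S : Finset (Fin n)) :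
    ∑ r : Fin n → Bool, Wr p r * (if ∃ u ∈ S, r u = true then 0 else 1) = (1 - p) ^ S.card := by
  classical
  have h1 : ∀ r : Fin n → Bool, Wr p r * (if ∃ u ∈ S, r u = true then 0 else 1) =
      ∏ u, (wt p (r u) * if u ∈ S ∧ r u = true then 0 else 1) := by
    intro r
    rw [prod_mul_distrib]
    congr 1
    by_cases h : ∃ u ∈ S, r u = true
    · rw [if_pos h]
      obtain ⟨u, hu, hr⟩ := h
      symm
      refine prod_eq_zero (mem_univ u) ?_
      rw [if_pos ⟨hu, hr⟩]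
    · rw [if_neg h]
      refine (prod_eq_one fun u _ => if_neg fun h2 => h ⟨u, h2.1, h2.2⟩).symm
  rw [sum_congr rfl fun r _ => h1 r,
    sum_prod fun (u : Fin n) (b : Bool) => wt p b * if u ∈ S ∧ b = true then 0 else 1]
  have h2 : ∀ u : Fin n, (∑ b : Bool, wt p b * if u ∈ S ∧ b = true then 0 else 1) =
      if u ∈ S then 1 - p else 1 := by
    intro u
    rw [Fintype.sum_bool]
    by_cases hu : u ∈ S
    · simp [wt, hu]
    · simp [wt, hu]
  rw [prod_congr rfl fun u _ => h2 u, prod_ite_mem, univ_inter, prod_const]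

private theorem Wt_update {n : ℕ} (p : ℝ) (t : Fin n) (ζ : Fin n → Fin n → Bool) (r : Fin n → Bool) :
    Wt p (Function.update ζ t r) * Wr p (ζ t) = Wt p ζ * Wr p r := by
  rw [Wt_eq, Wt_eq, ← mul_prod_erase univ (fun v => Wr p (Function.update ζ t r v)) (mem_univ t),
    ← mul_prod_erase univ (fun v => Wr p (ζ v)) (mem_univ t)]
  have h : ∏ v ∈ univ.erase t, Wr p (Function.update ζ t r v) = ∏ v ∈ univ.erase t, Wr p (ζ v) :=
    prod_congr rfl fun v hv => by rw [Function.update_of_ne (ne_of_mem_erase hv)]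
  rw [h, Function.update_self]
  ring

/-- a row may be replaced by a new independent row -/
theorem Wt_upd {n : ℕ} (p : ℝ) (t : Fin n) (F : (Fin n → Fin n → Bool) → ℝ) :
    ∑ ζ, Wt p ζ * F ζ = ∑ ζ, Wt p ζ * ∑ r : Fin n → Bool, Wr p r * F (Function.update ζ t r) := by
  classical
  let σ : (Fin n → Fin n → Bool) × (Fin n → Bool) → (Fin n → Fin n → Bool) × (Fin n → Bool) :=
    fun q => (Function.update q.1 t q.2, q.1 t)
  have hσ : Function.Involutive σ := by
    intro q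
    refine Prod.ext ?_ ?_
    · change Function.update (Function.update q.1 t q.2) t (q.1 t) = q.1
      rw [Function.update_idem, Function.update_eq_self]
    · change Function.update q.1 t q.2 t = q.2
      rw [Function.update_self]
  let g : (Fin n → Fin n → Bool) × (Fin n → Bool) → ℝ := fun q => Wt p q.1 * Wr p q.2 * F q.1
  have h1 : ∑ q, g q = ∑ ζ, Wt p ζ * F ζ := by
    rw [Fintype.sum_prod_type]
    refine sum_congr rfl fun ζ _ => ?_
    change ∑ r : Fin n → Bool, Wt p ζ * Wr p r * F ζ = _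
    have h2 : ∀ r : Fin n → Bool, Wt p ζ * Wr p r * F ζ = (Wt p ζ * F ζ) * Wr p r := fun r => by ring
    rw [sum_congr rfl fun r _ => h2 r, ← mul_sum, Wr_sum, mul_one]
  have h2 : ∑ q, g (σ q) = ∑ q, g q := Equiv.sum_comp hσ.toPerm g
  rw [← h1, ← h2, Fintype.sum_prod_type]
  refine sum_congr rfl fun ζ _ => ?_
  rw [mul_sum]
  refine sum_congr rfl fun r _ => ?_
  change Wt p (Function.update ζ t r) * Wr p (ζ t) * F (Function.update ζ t r) = _
  rw [Wt_update]
  ring

end Pool.Agent.ZL
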