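import Pool.Agent.ZL.GrL
import Pool.Agent.ZL.GrO
import Pool.Agent.ZL.GrU

set_option autoImplicit false

/-!
# ZL-GrP: the potential of the greedy process
-/

namespace Pool.Agent.ZL

open Finset

private theorem gs_upd_aux {n : ℕ} (ζ : Fin n → Fin n → Bool) (t : Fin n) (r : Fin n → Bool) (s : ℕ)
    (hs : s ≤ (t : ℕ)) : gs (xi (Function.update ζ t r)) s = gs (xi ζ) s := by
  induction s with
  | zero => rfl
  | succ s ih =>
    have h1 := ih (by omega)
    have h2 : ∀ u, xi (Function.update ζ t r) u s = xi ζ u s := by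
      intro u
      unfold xi
      by_cases h : u < n ∧ s < n
      · rw [dif_pos h, dif_pos h]
        have h3 : (⟨s, h.2⟩ : Fin n) ≠ t := by
          intro h4
          have h5 := congrArg Fin.val h4
          simp only at h5
          omega
        rw [Function.update_of_ne h3]
      · rw [dif_neg h, dif_neg h]
    simp only [gs, h1, h2]

theorem gs_upd {n : ℕ} (ζ : Fin n → Fin n → Bool) (t : Fin n) (r : Fin n → Bool) :
    gs (xi (Function.update ζ t r)) t = gs (xi ζ) t := gs_upd_aux ζ t r t le_rfl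

/-- one step with the row `t` replaced by `r` -/
private theorem gs_step {n : ℕ} (ζ : Fin n → Fin n → Bool) (t : Fin n) (r : Fin n → Bool) :
    (gs (xi (Function.update ζ t r)) ((t : ℕ) + 1)).card =
      if ∃ u ∈ (univ : Finset (Fin n)).filter (fun u : Fin n => (u : ℕ) ∈ gs (xi ζ) t), r u = true then
        (gs (xi ζ) t).card else (gs (xi ζ) t).card + 1 := by
  have h1 := gs_upd ζ t r
  have h2 : (∃ u ∈ gs (xi (Function.update ζ t r)) (t : ℕ), xi (Function.update ζ t r) u (t : ℕ) = true) ↔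
      ∃ u ∈ (univ : Finset (Fin n)).filter (fun u : Fin n => (u : ℕ) ∈ gs (xi ζ) t), r u = true := by
    rw [h1]
    constructor
    · rintro ⟨u, hu, hx⟩
      have hlt : u < (t : ℕ) := gs_lt hu
      have hun : u < n := hlt.trans t.2
      refine ⟨⟨u, hun⟩, mem_filter.2 ⟨mem_univ _, hu⟩, ?_⟩
      unfold xi at hx
      rw [dif_pos ⟨hun, t.2⟩] at hx
      simpa using hx
    · rintro ⟨u, hu, hx⟩
      refine ⟨u, (mem_filter.1 hu).2, ?_⟩
      unfold xi
      rw [dif_pos ⟨u.2, t.2⟩]
      simpa using hx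
  have h3 : gs (xi (Function.update ζ t r)) ((t : ℕ) + 1) =
      if ∃ u ∈ gs (xi (Function.update ζ t r)) (t : ℕ), xi (Function.update ζ t r) u (t : ℕ) = true then
        gs (xi (Function.update ζ t r)) (t : ℕ) else insert (t : ℕ) (gs (xi (Function.update ζ t r)) (t : ℕ)) := rfl
  rw [h3]
  by_cases h : ∃ u ∈ (univ : Finset (Fin n)).filter (fun u : Fin n => (u : ℕ) ∈ gs (xi ζ) t), r u = true
  · rw [if_pos (h2.2 h), if_pos h, h1]
  · rw [if_neg (fun h4 => h (h2.1 h4)), if_neg h, h1]
    exact card_insert_of_notMem fun h5 => lt_irrefl _ (gs_lt h5)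

private theorem card_fin {n : ℕ} (ζ : Fin n → Fin n → Bool) (t : Fin n) :
    ((univ : Finset (Fin n)).filter (fun u : Fin n => (u : ℕ) ∈ gs (xi ζ) t)).card = (gs (xi ζ) t).card := by
  refine Finset.card_bij (fun u _ => (u : ℕ)) (fun u hu => (mem_filter.1 hu).2)
    (fun u _ v _ h => Fin.ext h) fun u hu => ?_
  have hun : u < n := (gs_lt hu).trans t.2
  exact ⟨⟨u, hun⟩, mem_filter.2 ⟨mem_univ _, hu⟩, rfl⟩

theorem gr_pot (p lam C : ℝ) (hp0 : 0 ≤ p) (hp1 : p < 1) (hl : 0 ≤ lam) (n t : ℕ) (ht : t ≤ n)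
    (hC : (1 / (1 - p)) ^ n ≤ C) :
    ∑ ζ : Fin n → Fin n → Bool, Wt p ζ * Real.exp (-(lam * ph p (gs (xi ζ) t).card)) ≤
      Real.exp (-lam + lam ^ 2 * C / 2) ^ t := by
  classical
  induction t with
  | zero =>
    have h1 : ∀ ζ : Fin n → Fin n → Bool, Wt p ζ * Real.exp (-(lam * ph p (gs (xi ζ) 0).card)) = Wt p ζ := by
      intro ζ
      have h2 : (gs (xi ζ) 0).card = 0 := rfl
      rw [h2]
      simp [ph]
    rw [sum_congr rfl fun ζ _ => h1 ζ, Wt_sum, pow_zero]
  | succ t ih =>
    have htn : t < n := by omega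
    set T : Fin n := ⟨t, htn⟩ with hT
    have hTt : (T : ℕ) = t := rfl
    have h0 := ih (by omega)
    rw [Wt_upd p T fun ζ => Real.exp (-(lam * ph p (gs (xi ζ) (t + 1)).card))]
    have key : ∀ ζ : Fin n → Fin n → Bool, ∑ r : Fin n → Bool, Wr p r *
        Real.exp (-(lam * ph p (gs (xi (Function.update ζ T r)) (t + 1)).card)) ≤
        Real.exp (-lam + lam ^ 2 * C / 2) * Real.exp (-(lam * ph p (gs (xi ζ) t).card)) := by
      intro ζ
      set x := (gs (xi ζ) t).card with hx
      set S' := (univ : Finset (Fin n)).filter (fun u : Fin n => (u : ℕ) ∈ gs (xi ζ) t) with hS'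
      have hcard : S'.card = x := card_fin ζ T
      have hxn : x ≤ n := by
        rw [← hcard]
        exact (card_le_univ S').trans (by rw [Fintype.card_fin])
      have e1 : ∀ r : Fin n → Bool, Wr p r *
          Real.exp (-(lam * ph p (gs (xi (Function.update ζ T r)) (t + 1)).card)) =
          Real.exp (-(lam * ph p x)) * Wr p r + (Real.exp (-(lam * ph p (x + 1))) - Real.exp (-(lam * ph p x))) *
            (Wr p r * (if ∃ u ∈ S', r u = true then 0 else 1)) := by
        intro r
        have h3 : (gs (xi (Function.update ζ T r)) (t + 1)).card = if ∃ u ∈ S', r u = true then x else x + 1 :=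
          gs_step ζ T r
        rw [h3]
        by_cases h : ∃ u ∈ S', r u = true
        · rw [if_pos h, if_pos h]
          ring
        · rw [if_neg h, if_neg h]
          ring
      rw [sum_congr rfl fun r _ => e1 r, sum_add_distrib, ← mul_sum, ← mul_sum, Wr_sum, Wr_zero, hcard]
      have h4 := gr_one p lam C hp0 hp1 hl n x hxn hC
      nlinarith [h4]
    calc ∑ ζ, Wt p ζ * ∑ r : Fin n → Bool, Wr p r *
          Real.exp (-(lam * ph p (gs (xi (Function.update ζ T r)) (t + 1)).card))
        ≤ ∑ ζ : Fin n → Fin n → Bool, Wt p ζ *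
            (Real.exp (-lam + lam ^ 2 * C / 2) * Real.exp (-(lam * ph p (gs (xi ζ) t).card))) :=
          sum_le_sum fun ζ _ => mul_le_mul_of_nonneg_left (key ζ) (Wt_nonneg hp0 hp1.le ζ)
      _ = Real.exp (-lam + lam ^ 2 * C / 2) *
            ∑ ζ : Fin n → Fin n → Bool, Wt p ζ * Real.exp (-(lam * ph p (gs (xi ζ) t).card)) := by
          rw [mul_sum]
          exact sum_congr rfl fun ζ _ => by ring
      _ ≤ Real.exp (-lam + lam ^ 2 * C / 2) * Real.exp (-lam + lam ^ 2 * C / 2) ^ t :=
          mul_le_mul_of_nonneg_left h0 (Real.exp_pos _).le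
      _ = _ := (pow_succ' _ _).symm

end Pool.Agent.ZL
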