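import Pool.Agent.ZL.SqD

set_option autoImplicit false

/-!
# ZL-SqA: a graph with `m` edges is the graph of exactly `m! 2^m` simple sequences

The fibre is the disjoint union, over the bijections of `Fin m` with the edge set, of products of sets with two elements.
-/

namespace Pool.Agent.ZL

open Finset

theorem gr_edge {n m : ℕ} {y : Fin m → Pr n} (h : Sm y) : (gr y).edgeSet = Set.range (sy y) := by
  unfold gr
  rw [SimpleGraph.edgeSet_fromEdgeSet]
  ext e
  constructor
  · rintro ⟨h1, _⟩
    exact h1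
  · rintro ⟨i, rfl⟩
    refine ⟨⟨i, rfl⟩, ?_⟩
    intro hd
    exact h.1 i (Sym2.mk_isDiag_iff.1 hd)

theorem gr_mem {n m : ℕ} {y : Fin m → Pr n} (h : Sm y) : gr y ∈ Gr n m := by
  unfold Gr
  rw [Finset.mem_filter]
  refine ⟨Finset.mem_univ _, ?_⟩
  rw [gr_edge h, ← Set.image_univ, Set.ncard_image_of_injective _ h.2, Set.ncard_univ, Nat.card_fin]

open Classical in
/-- the pairs which define the unordered pair `e` -/
private noncomputable def Dp {n : ℕ} (e : Sym2 (Fin n)) : Finset (Pr n) := univ.filter fun p => s(p.1, p.2) = e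

private theorem mem_Dp {n : ℕ} {e : Sym2 (Fin n)} {p : Pr n} : p ∈ Dp e ↔ s(p.1, p.2) = e := by
  unfold Dp
  rw [Finset.mem_filter]
  exact ⟨fun h => h.2, fun h => ⟨Finset.mem_univ _, h⟩⟩

private theorem card_Dp {n : ℕ} {e : Sym2 (Fin n)} (h : ¬ e.IsDiag) : (Dp e).card = 2 := by
  induction e using Sym2.ind with
  | _ a b =>
    have hab : a ≠ b := fun hh => h (Sym2.mk_isDiag_iff.2 hh)
    have h1 : Dp s(a, b) = {(a, b), (b, a)} := by
      ext p
      obtain ⟨u, v⟩ := p
      rw [mem_Dp, Finset.mem_insert, Finset.mem_singleton, Sym2.eq_iff, Prod.mk.injEq, Prod.mk.injEq]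
    rw [h1]
    apply Finset.card_pair
    intro hh
    exact hab (Prod.mk.inj hh).1

open Classical in
theorem fib {n m : ℕ} {G : SimpleGraph (Fin n)} (hG : G ∈ Gr n m) :
    ((univ : Finset (Fin m → Pr n)).filter fun y => Sm y ∧ gr y = G).card = m.factorial * 2 ^ m := by
  have hm : G.edgeSet.ncard = m := (Finset.mem_filter.1 hG).2
  have e0 : Fin m ≃ G.edgeSet :=
    (Finite.equivFinOfCardEq (by rw [Nat.card_coe_set_eq]; exact hm)).symm
  have hS : ((univ : Finset (Fin m → Pr n)).filter fun y => Sm y ∧ gr y = G) =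
      (univ : Finset (Fin m ≃ G.edgeSet)).biUnion
        (fun σ => Fintype.piFinset (fun i => Dp (σ i : Sym2 (Fin n)))) := by
    ext y
    rw [Finset.mem_filter, Finset.mem_biUnion]
    constructor
    · rintro ⟨_, h1, h2⟩
      have h3 : Set.range (sy y) = G.edgeSet := by rw [← h2, gr_edge h1]
      have h4 : ∀ i, sy y i ∈ G.edgeSet := fun i => h3 ▸ Set.mem_range_self i
      have hb : Function.Bijective (fun i => (⟨sy y i, h4 i⟩ : G.edgeSet)) := by
        constructor
        · intro i j hij
          exact h1.2 (congrArg Subtype.val hij)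
        · rintro ⟨e, he⟩
          rw [← h3] at he
          obtain ⟨i, hi⟩ := he
          exact ⟨i, Subtype.ext hi⟩
      refine ⟨Equiv.ofBijective _ hb, Finset.mem_univ _, ?_⟩
      rw [Fintype.mem_piFinset]
      intro i
      rw [mem_Dp]
      rfl
    · rintro ⟨σ, _, hσ⟩
      rw [Fintype.mem_piFinset] at hσ
      have h1 : ∀ i, sy y i = (σ i : Sym2 (Fin n)) := fun i => mem_Dp.1 (hσ i)
      refine ⟨Finset.mem_univ _, ⟨?_, ?_⟩, ?_⟩
      · intro i hi
        have h2 := G.not_isDiag_of_mem_edgeSet (σ i).2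
        rw [← h1 i] at h2
        exact h2 (Sym2.mk_isDiag_iff.2 hi)
      · intro i j hij
        rw [h1, h1] at hij
        exact σ.injective (Subtype.ext hij)
      · unfold gr
        have h3 : Set.range (sy y) = G.edgeSet := by
          ext e
          constructor
          · rintro ⟨i, rfl⟩
            rw [h1]
            exact (σ i).2
          · intro he
            exact ⟨σ.symm ⟨e, he⟩, by rw [h1, σ.apply_symm_apply]⟩
        rw [h3, SimpleGraph.fromEdgeSet_edgeSet]
  rw [hS, Finset.card_biUnion]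
  · have h1 : ∀ σ ∈ (univ : Finset (Fin m ≃ G.edgeSet)),
        (Fintype.piFinset (fun i => Dp (σ i : Sym2 (Fin n)))).card = 2 ^ m := by
      intro σ _
      rw [Fintype.card_piFinset]
      have h2 : ∀ i ∈ (univ : Finset (Fin m)), (Dp (σ i : Sym2 (Fin n))).card = 2 :=
        fun i _ => card_Dp (G.not_isDiag_of_mem_edgeSet (σ i).2)
      rw [Finset.prod_congr rfl h2, Finset.prod_const, Finset.card_univ, Fintype.card_fin]
    rw [Finset.sum_congr rfl h1, Finset.sum_const, smul_eq_mul, Finset.card_univ,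
      Fintype.card_equiv e0, Fintype.card_fin]
  · intro σ _ τ _ hst
    refine Finset.disjoint_left.2 ?_
    intro y h1 h2
    apply hst
    rw [Fintype.mem_piFinset] at h1 h2
    apply Equiv.ext
    intro i
    apply Subtype.ext
    rw [← mem_Dp.1 (h1 i), ← mem_Dp.1 (h2 i)]

end Pool.Agent.ZL
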