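import Pool.Agent.ZL.KeepS
import Pool.Agent.ZL.SqA

set_option autoImplicit false

/-!
# ZL-KeepR: an edge inside a stable set of the new graph has been resampled
-/

namespace Pool.Agent.ZL

open Finset

theorem ins_le {n m m' j : ℕ} (hm : m ≤ m') (X : Fin m → Pr n) (hX : Sm X)
    (ω : Fin m' → Bg j (Pr n)) (S : Finset (Fin n))
    (hS : ∀ u ∈ S, ∀ v ∈ S, ¬ (gr (yy X ω)).Adj u v) : (ins (gr X) S).ncard ≤ RR m ω := by
  classical
  obtain ⟨T, hT⟩ : ∃ T : Finset (Fin m), ∀ i, i ∈ T ↔ hit (ω (Fin.castLE hm i)) = true :=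
    ⟨univ.filter fun i => hit (ω (Fin.castLE hm i)) = true,
      fun i => ⟨fun h => (mem_filter.1 h).2, fun h => mem_filter.2 ⟨mem_univ _, h⟩⟩⟩
  have hsub : ins (gr X) S ⊆ sy X '' (T : Set (Fin m)) := by
    intro e he
    obtain ⟨h1, h2⟩ := he
    rw [gr_edge hX] at h1
    obtain ⟨i, rfl⟩ := h1
    refine ⟨i, ?_, rfl⟩
    rw [Finset.mem_coe, hT]
    by_contra hhit
    have hyi : yy X ω (Fin.castLE hm i) = X i := by
      unfold yy
      have h3 : ((Fin.castLE hm i : Fin m') : ℕ) < m := i.2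
      rw [dif_pos h3, if_neg hhit]
      rfl
    have hu : (X i).1 ∈ S := h2 _ (Sym2.mem_mk_left _ _)
    have hv : (X i).2 ∈ S := h2 _ (Sym2.mem_mk_right _ _)
    refine hS _ hu _ hv ?_
    unfold gr
    rw [SimpleGraph.fromEdgeSet_adj]
    refine ⟨⟨Fin.castLE hm i, ?_⟩, hX.1 i⟩
    unfold sy
    rw [hyi]
  calc (ins (gr X) S).ncard ≤ (sy X '' (T : Set (Fin m))).ncard :=
        Set.ncard_le_ncard hsub (Set.toFinite _)
    _ ≤ (T : Set (Fin m)).ncard := Set.ncard_image_le (Set.toFinite _)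
    _ = T.card := Set.ncard_coe_finset T
    _ ≤ RR m ω := by
        unfold RR
        refine Finset.card_le_card_of_injOn (fun i => Fin.castLE hm i) ?_ ?_
        · intro i hi
          have hi' : i ∈ T := hi
          rw [Finset.mem_coe, mem_filter]
          exact ⟨mem_univ _, i.2, (hT i).1 hi'⟩
        · intro i _ i' _ h
          exact Fin.castLE_injective hm h

theorem found_keep {n m m' j : ℕ} (hm : m ≤ m') (X : Fin m → Pr n) (hX : Sm X)
    (ω : Fin m' → Bg j (Pr n)) (I : List Bool) (a a' : ℝ) (hI : Found (gr (yy X ω)) I a)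
    (hR : (RR m ω : ℝ) ≤ a - a') : Found (gr X) (keep (code (gr X)) I) a' := by
  refine ⟨keep_stable (gr X) I, ?_⟩
  have h1 := keep_card (gr X) I
  have h2 := ins_le hm X hX ω (vs n I) hI.1
  have h3 := hI.2
  have h4 : ((vs n I).card : ℝ) ≤ (vs n (keep (code (gr X)) I)).card + RR m ω := by
    exact_mod_cast h1.trans (Nat.add_le_add_left h2 _)
  linarith

end Pool.Agent.ZL
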