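import Pool.Agent.ZL.Edg

set_option autoImplicit false

/-!
# ZL-KeepS: the function `keep`

Membership, stability and size of the kept set.
-/

namespace Pool.Agent.ZL

open Finset

/-- the edges of `G` inside `S` -/
def ins {n : ℕ} (G : SimpleGraph (Fin n)) (S : Finset (Fin n)) : Set (Sym2 (Fin n)) :=
  {e | e ∈ G.edgeSet ∧ ∀ v ∈ e, v ∈ S}

theorem keep_length {n : ℕ} (G : SimpleGraph (Fin n)) (I : List Bool) :
    (keep (code G) I).length = n := by
  unfold keep
  rw [List.length_map, List.length_range, code_length]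

theorem mem_keep {n : ℕ} (G : SimpleGraph (Fin n)) (I : List Bool) (v : Fin n) :
    v ∈ vs n (keep (code G) I) ↔ v ∈ vs n I ∧ ∀ u ∈ vs n I, u < v → ¬ G.Adj u v := by
  have hlt : (v : ℕ) < (keep (code G) I).length := by
    rw [keep_length]
    exact v.2
  have hget : (keep (code G) I).getD (v : ℕ) false =
      (I.getD v false &&
        !((List.range n).any fun u => (decide (u < (v : ℕ)) && I.getD u false) && ent (code G) u v)) := by
    rw [List.getD_eq_getElem _ _ hlt]
    simp only [keep, List.getElem_map, List.getElem_range, code_length]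
  unfold vs
  rw [mem_filter, mem_filter, hget, Bool.and_eq_true, Bool.not_eq_true', List.any_eq_false]
  constructor
  · rintro ⟨-, h1, h2⟩
    refine ⟨⟨mem_univ _, h1⟩, fun u hu huv hadj => ?_⟩
    refine h2 (u : ℕ) (List.mem_range.2 u.2) ?_
    rw [Bool.and_eq_true, Bool.and_eq_true, decide_eq_true_eq]
    exact ⟨⟨huv, (mem_filter.1 hu).2⟩, (ent_code G u v).2 hadj⟩
  · rintro ⟨⟨-, h1⟩, h2⟩
    refine ⟨mem_univ _, h1, fun u hu h3 => ?_⟩
    rw [Bool.and_eq_true, Bool.and_eq_true, decide_eq_true_eq] at h3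
    have hun : u < n := List.mem_range.1 hu
    exact h2 ⟨u, hun⟩ (mem_filter.2 ⟨mem_univ _, h3.1.2⟩) h3.1.1 ((ent_code G ⟨u, hun⟩ v).1 h3.2)

theorem keep_stable {n : ℕ} (G : SimpleGraph (Fin n)) (I : List Bool) :
    ∀ u ∈ vs n (keep (code G) I), ∀ v ∈ vs n (keep (code G) I), ¬ G.Adj u v := by
  intro u hu v hv hadj
  have hu' := (mem_keep G I u).1 hu
  have hv' := (mem_keep G I v).1 hv
  rcases lt_trichotomy u v with h | h | h
  · exact hv'.2 u hu'.1 h hadj
  · exact hadj.ne h
  · exact hu'.2 v hv'.1 h hadj.symm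

theorem keep_card {n : ℕ} (G : SimpleGraph (Fin n)) (I : List Bool) :
    (vs n I).card ≤ (vs n (keep (code G) I)).card + (ins G (vs n I)).ncard := by
  have h1 : ∀ v ∈ vs n I \ vs n (keep (code G) I), ∃ u ∈ vs n I, u < v ∧ G.Adj u v := by
    intro v hv
    obtain ⟨hv1, hv2⟩ := mem_sdiff.1 hv
    by_contra hcon
    push Not at hcon
    exact hv2 ((mem_keep G I v).2 ⟨hv1, hcon⟩)
  choose! f hf using h1
  have h2 : (vs n I \ vs n (keep (code G) I)).card ≤ (ins G (vs n I)).ncard := by
    rw [← Set.ncard_coe_finset]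
    refine Set.ncard_le_ncard_of_injOn (fun v => s(f v, v)) ?_ ?_ (Set.toFinite _)
    · intro v hv
      obtain ⟨ha, hb, hc⟩ := hf v (mem_coe.1 hv)
      refine ⟨hc, fun w hw => ?_⟩
      rcases Sym2.mem_iff.1 hw with rfl | rfl
      · exact ha
      · exact (mem_sdiff.1 (mem_coe.1 hv)).1
    · intro v hv w hw hvw
      rcases Sym2.eq_iff.1 hvw with ⟨-, h⟩ | ⟨h, h'⟩
      · exact h
      · have ha := (hf v (mem_coe.1 hv)).2.1
        have hb := (hf w (mem_coe.1 hw)).2.1
        rw [h] at ha
        rw [← h'] at hb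
        exact absurd (ha.trans hb) (lt_irrefl _)
  have h3 : (vs n I).card ≤ (vs n I \ vs n (keep (code G) I)).card + (vs n (keep (code G) I)).card := by
    exact card_le_card_sdiff_add_card
  omega

theorem cnt_eq {n : ℕ} (b : List Bool) (h : b.length = n) : cnt b = (vs n b).card := by
  subst h
  induction b with
  | nil => rfl
  | cons a t ih =>
    unfold cnt at ih ⊢
    unfold vs at ih ⊢
    rw [show (a :: t).length = t.length + 1 from rfl]
    rw [Fin.card_filter_univ_succ]
    have h1 : (univ.filter fun x : Fin t.length => (a :: t).getD (x.succ : ℕ) false = true) =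
        univ.filter fun x : Fin t.length => t.getD (x : ℕ) false = true := by
      refine filter_congr fun x _ => ?_
      rw [Fin.val_succ, List.getD_cons_succ]
    have h2 : (a :: t).getD ((0 : Fin (t.length + 1)) : ℕ) false = a := rfl
    rw [h1, h2, ← ih]
    cases a
    · simp
    · simp

end Pool.Agent.ZL
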