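import Pool.Agent.ZL.BkD

set_option autoImplicit false

/-!
# ZL-Mat: the list functions `smp`, `mat`
-/

namespace Pool.Agent.ZL

theorem same_iff {n : ℕ} (e f : Pr n) : same (p2 e) (p2 f) = true ↔ s(e.1, e.2) = s(f.1, f.2) := by
  rw [Sym2.eq_iff, Fin.ext_iff, Fin.ext_iff, Fin.ext_iff, Fin.ext_iff]
  simp [same, p2]

private theorem smp_cons (e : ℕ × ℕ) (Y : List (ℕ × ℕ)) :
    smp (e :: Y) = true ↔ (e.1 ≠ e.2 ∧ ∀ f ∈ Y, ¬ same e f = true) ∧ smp Y = true := by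
  simp [smp]

theorem smp_iff {n m : ℕ} (y : Fin m → Pr n) : smp (List.ofFn fun i => p2 (y i)) = true ↔ Sm y := by
  induction m with
  | zero =>
    simp only [List.ofFn_zero]
    exact ⟨fun _ => ⟨fun i => i.elim0, fun i => i.elim0⟩, fun _ => rfl⟩
  | succ m ih =>
    rw [List.ofFn_succ, smp_cons, ih fun i => y i.succ]
    constructor
    · rintro ⟨⟨h1, h2⟩, h3, h4⟩
      have h2' : ∀ i : Fin m, sy y 0 ≠ sy y i.succ := fun i hi =>
        h2 (p2 (y i.succ)) ((List.mem_ofFn' _ _).2 ⟨i, rfl⟩) ((same_iff _ _).2 hi)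
      refine ⟨fun i => ?_, fun i i' hi => ?_⟩
      · refine Fin.cases ?_ (fun i => h3 i) i
        intro h
        exact h1 (congrArg Fin.val h)
      · revert hi
        refine Fin.cases ?_ (fun i => ?_) i
        · refine Fin.cases (fun _ => rfl) (fun i' hi => ?_) i'
          exact absurd hi (h2' i')
        · refine Fin.cases (fun hi => ?_) (fun i' hi => ?_) i'
          · exact absurd hi.symm (h2' i)
          · exact congrArg Fin.succ (h4 hi)
    · rintro ⟨h1, h2⟩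
      refine ⟨⟨fun h => h1 0 (Fin.ext h), ?_⟩, fun i => h1 i.succ, fun i i' hi => ?_⟩
      · intro f hf hs
        obtain ⟨i, rfl⟩ := (List.mem_ofFn' _ _).1 hf
        have := h2 ((same_iff _ _).1 hs : sy y 0 = sy y i.succ)
        exact absurd this.symm (Fin.succ_ne_zero i)
      · exact Fin.succ_injective _ (h2 (hi : sy y i.succ = sy y i'.succ))

theorem mat_eq {n m : ℕ} (y : Fin m → Pr n) (h : Sm y) :
    mat n (List.ofFn fun i => p2 (y i)) = code (gr y) := by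
  unfold mat code
  refine List.ext_getElem (by simp) fun u hu hu' => ?_
  rw [List.getElem_map, List.getElem_ofFn, List.getElem_range]
  refine List.ext_getElem (by simp) fun v hv hv' => ?_
  rw [List.getElem_map, List.getElem_ofFn, List.getElem_range]
  have hun : u < n := by simpa using hu
  have hvn : v < n := by simpa using hv
  have hadj : (gr y).Adj ⟨u, hun⟩ ⟨v, hvn⟩ ↔
      s((⟨u, hun⟩ : Fin n), (⟨v, hvn⟩ : Fin n)) ∈ Set.range (sy y) ∧ (⟨u, hun⟩ : Fin n) ≠ ⟨v, hvn⟩ :=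
    SimpleGraph.fromEdgeSet_adj _
  rw [Bool.eq_iff_iff, List.any_eq_true]
  simp only [decide_eq_true_eq]
  rw [hadj]
  constructor
  · rintro ⟨f, hf, hs⟩
    obtain ⟨i, rfl⟩ := (List.mem_ofFn' _ _).1 hf
    have e := (same_iff (⟨u, hun⟩, ⟨v, hvn⟩) (y i)).1 hs
    refine ⟨⟨i, e.symm⟩, fun huv => ?_⟩
    have huv' : (⟨u, hun⟩ : Fin n) = ⟨v, hvn⟩ := huv
    have e' : s((⟨u, hun⟩ : Fin n), (⟨v, hvn⟩ : Fin n)) = s((y i).1, (y i).2) := e
    rw [huv', Sym2.eq_iff] at e'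
    rcases e' with ⟨e1, e2⟩ | ⟨e1, e2⟩
    · exact h.1 i (e1.symm.trans e2)
    · exact h.1 i (e2.symm.trans e1)
  · rintro ⟨⟨i, e⟩, _⟩
    exact ⟨p2 (y i), (List.mem_ofFn' _ _).2 ⟨i, rfl⟩,
      (same_iff (⟨u, hun⟩, ⟨v, hvn⟩) (y i)).2 e.symm⟩

end Pool.Agent.ZL
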