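import Pool.Agent.ZL.SqC

set_option autoImplicit false

/-!
# ZL-MstA: many good sequences (double counting with `fam` and `all_Sm`)
-/

namespace Pool.Agent.ZL

open Finset

open Classical in
theorem good_x {n m : ℕ} (κ τ : ℝ) (hτ : 0 ≤ τ)
    (h1 : κ * (n : ℝ) ^ (2 * m) ≤ ((univ : Finset (Fin m → Pr n)).filter Sm).card)
    (𝓑 : Finset (SimpleGraph (Fin n))) (h𝓑 : 𝓑 ⊆ Gr n m) (h : τ * (Gr n m).card ≤ 𝓑.card) :
    τ * κ * (n : ℝ) ^ (2 * m) ≤
      ((univ : Finset (Fin m → Pr n)).filter fun x => Sm x ∧ gr x ∈ 𝓑).card := by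
  rw [fam 𝓑 h𝓑]
  rw [all_Sm] at h1
  push_cast at h1 ⊢
  have hF : (0 : ℝ) ≤ (m.factorial : ℝ) * 2 ^ m := by positivity
  calc τ * κ * (n : ℝ) ^ (2 * m) = τ * (κ * (n : ℝ) ^ (2 * m)) := by ring
    _ ≤ τ * (((Gr n m).card : ℝ) * ((m.factorial : ℝ) * 2 ^ m)) := mul_le_mul_of_nonneg_left h1 hτ
    _ = τ * ((Gr n m).card : ℝ) * ((m.factorial : ℝ) * 2 ^ m) := by ring
    _ ≤ (𝓑.card : ℝ) * ((m.factorial : ℝ) * 2 ^ m) := mul_le_mul_of_nonneg_right h hF


open Classical in
theorem good_y {n m' : ℕ} {P : Type} [Fintype P] [Nonempty P] (Suc : SimpleGraph (Fin n) → P → Prop)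
    (κ p : ℝ) (hp : 0 ≤ p)
    (h2 : κ * (n : ℝ) ^ (2 * m') ≤ ((univ : Finset (Fin m' → Pr n)).filter Sm).card)
    (hps : p * ((Gr n m').card * Fintype.card P) ≤
      ∑ H ∈ Gr n m', (((univ : Finset P).filter fun ρ => Suc H ρ).card : ℝ)) :
    κ * (p / 2) * (n : ℝ) ^ (2 * m') ≤
      ((univ : Finset (Fin m' → Pr n)).filter fun y =>
        Sm y ∧ p / 2 * Fintype.card P ≤ ((univ : Finset P).filter fun ρ => Suc (gr y) ρ).card).card := by
  obtain ⟨𝒢, h𝒢⟩ : ∃ 𝒢 : Finset (SimpleGraph (Fin n)), 𝒢 = (Gr n m').filter fun H =>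
      p / 2 * Fintype.card P ≤ ((univ : Finset P).filter fun ρ => Suc H ρ).card := ⟨_, rfl⟩
  have hsub : 𝒢 ⊆ Gr n m' := by
    rw [h𝒢]
    exact Finset.filter_subset _ _
  have hP : (0 : ℝ) < Fintype.card P := by exact_mod_cast Fintype.card_pos
  have hsum : ∑ H ∈ Gr n m', (((univ : Finset P).filter fun ρ => Suc H ρ).card : ℝ) ≤
      (𝒢.card : ℝ) * Fintype.card P + ((Gr n m').card : ℝ) * (p / 2 * Fintype.card P) := by
    calc ∑ H ∈ Gr n m', (((univ : Finset P).filter fun ρ => Suc H ρ).card : ℝ)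
        ≤ ∑ H ∈ Gr n m', ((if H ∈ 𝒢 then (Fintype.card P : ℝ) else 0) + p / 2 * Fintype.card P) := by
          refine Finset.sum_le_sum fun H hH => ?_
          by_cases hc : H ∈ 𝒢
          · rw [if_pos hc]
            have h3 : (((univ : Finset P).filter fun ρ => Suc H ρ).card : ℝ) ≤ Fintype.card P := by
              exact_mod_cast Finset.card_le_univ _
            have h4 : 0 ≤ p / 2 * (Fintype.card P : ℝ) := by positivity
            linarith
          · rw [if_neg hc, zero_add]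
            rw [h𝒢, Finset.mem_filter] at hc
            by_contra h3
            exact hc ⟨hH, (not_le.1 h3).le⟩
      _ = (𝒢.card : ℝ) * Fintype.card P + ((Gr n m').card : ℝ) * (p / 2 * Fintype.card P) := by
          rw [Finset.sum_add_distrib, Finset.sum_const, nsmul_eq_mul, ← Finset.sum_filter,
            Finset.sum_const, nsmul_eq_mul]
          congr 3
          rw [Finset.filter_mem_eq_inter, Finset.inter_eq_right.2 hsub]
  have hτ : p / 2 * ((Gr n m').card : ℝ) ≤ 𝒢.card := by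
    have h3 := hps.trans hsum
    have h4 : p / 2 * ((Gr n m').card : ℝ) * Fintype.card P ≤ (𝒢.card : ℝ) * Fintype.card P := by
      linarith
    exact le_of_mul_le_mul_right h4 hP
  have h5 := good_x κ (p / 2) (by positivity) h2 𝒢 hsub hτ
  have h6 : ((univ : Finset (Fin m' → Pr n)).filter fun x => Sm x ∧ gr x ∈ 𝒢).card ≤
      ((univ : Finset (Fin m' → Pr n)).filter fun y =>
        Sm y ∧ p / 2 * Fintype.card P ≤
          ((univ : Finset P).filter fun ρ => Suc (gr y) ρ).card).card := by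
    apply Finset.card_le_card
    intro y hy
    rw [Finset.mem_filter] at hy ⊢
    refine ⟨hy.1, hy.2.1, ?_⟩
    have h7 := hy.2.2
    rw [h𝒢, Finset.mem_filter] at h7
    exact h7.2
  have h8 : κ * (p / 2) * (n : ℝ) ^ (2 * m') = p / 2 * κ * (n : ℝ) ^ (2 * m') := by ring
  rw [h8]
  exact h5.trans (by exact_mod_cast h6)


end Pool.Agent.ZL
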