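import Pool.Agent.ZL.Stmt

set_option autoImplicit false

/-!
# ZL-NumA: comparison of the numbers of edges for `k` and `k - 1`
-/

namespace Pool.Agent.ZL

open Filter

theorem mul_log_le (ε : ℝ) (hε : 0 < ε) : ∃ K : ℕ, ∀ k : ℕ, K ≤ k →
    (1 / 2 + ε / 2) * k * Real.log k ≤ (1 / 2 + ε) * ((k - 1 : ℕ) : ℝ) * Real.log ((k - 1 : ℕ) : ℝ) := by
  obtain ⟨K, hK⟩ := exists_nat_ge (3 / ε + 3)
  refine ⟨K + 4, fun k hk => ?_⟩
  obtain ⟨m, rfl⟩ : ∃ m, k = m + 1 := ⟨k - 1, by omega⟩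
  have hm : K + 3 ≤ m := by omega
  rw [Nat.add_sub_cancel]
  have hm1 : (K : ℝ) + 3 ≤ m := by exact_mod_cast hm
  have hK0 : (0 : ℝ) ≤ (K : ℝ) := Nat.cast_nonneg _
  have hm3 : (3 : ℝ) ≤ m := by linarith
  have hm0 : (0 : ℝ) < m := by linarith
  have h1 : 1 ≤ Real.log m := by
    rw [Real.le_log_iff_exp_le hm0]
    have := Real.exp_one_lt_d9
    linarith
  have h2 : Real.log ((m + 1 : ℕ) : ℝ) ≤ Real.log m + 1 / m := by
    have h3 : ((m + 1 : ℕ) : ℝ) = m * (1 + 1 / m) := by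
      push_cast
      field_simp
    rw [h3, Real.log_mul hm0.ne' (by positivity)]
    have h4 := Real.log_le_sub_one_of_pos (x := 1 + 1 / (m : ℝ)) (by positivity)
    linarith
  have h3 : ((m + 1 : ℕ) : ℝ) * Real.log ((m + 1 : ℕ) : ℝ) ≤ m * Real.log m + 3 * Real.log m := by
    have h4 : ((m + 1 : ℕ) : ℝ) * Real.log ((m + 1 : ℕ) : ℝ) ≤
        ((m + 1 : ℕ) : ℝ) * (Real.log m + 1 / m) :=
      mul_le_mul_of_nonneg_left h2 (Nat.cast_nonneg _)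
    have h5 : ((m + 1 : ℕ) : ℝ) * (Real.log m + 1 / m) =
        m * Real.log m + Real.log m + 1 + 1 / m := by
      push_cast
      field_simp
      ring
    have h6 : 1 / (m : ℝ) ≤ 1 := by
      rw [div_le_one hm0]
      linarith
    linarith
  have h4 : 3 * (1 / 2 + ε / 2) ≤ ε / 2 * m := by
    have h5 : 3 / ε + 3 ≤ m := by linarith
    have h6 : (3 / ε + 3) * ε ≤ m * ε := mul_le_mul_of_nonneg_right h5 hε.le
    have h7 : (3 / ε + 3) * ε = 3 + 3 * ε := by field_simp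
    linarith
  have h5 : (1 / 2 + ε / 2) * (((m + 1 : ℕ) : ℝ) * Real.log ((m + 1 : ℕ) : ℝ)) ≤
      (1 / 2 + ε / 2) * (m * Real.log m + 3 * Real.log m) :=
    mul_le_mul_of_nonneg_left h3 (by positivity)
  have h6 : 3 * (1 / 2 + ε / 2) * Real.log m ≤ ε / 2 * m * Real.log m :=
    mul_le_mul_of_nonneg_right h4 (by linarith)
  calc (1 / 2 + ε / 2) * ((m + 1 : ℕ) : ℝ) * Real.log ((m + 1 : ℕ) : ℝ)
      = (1 / 2 + ε / 2) * (((m + 1 : ℕ) : ℝ) * Real.log ((m + 1 : ℕ) : ℝ)) := by ring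
    _ ≤ (1 / 2 + ε / 2) * (m * Real.log m + 3 * Real.log m) := h5
    _ = (1 / 2 + ε / 2) * m * Real.log m + 3 * (1 / 2 + ε / 2) * Real.log m := by ring
    _ ≤ (1 / 2 + ε / 2) * m * Real.log m + ε / 2 * m * Real.log m := by linarith
    _ = (1 / 2 + ε) * m * Real.log m := by ring

theorem Mk_le (ε : ℝ) (hε : 0 < ε) : ∃ K : ℕ, 4 ≤ K ∧ ∀ k : ℕ, K ≤ k → ∀ ε' : ℝ, ε' ≤ ε / 2 →
    ∀ n : ℕ, Mk ε' k n ≤ Mk ε (k - 1) n := by
  obtain ⟨K, hK⟩ := mul_log_le ε hε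
  refine ⟨K + 4, by omega, fun k hk ε' hε' n => ?_⟩
  have h1 := hK k (by omega)
  unfold Mk
  apply Nat.floor_mono
  refine mul_le_mul_of_nonneg_right (le_trans ?_ h1) (Nat.cast_nonneg n)
  have h2 : (0 : ℝ) ≤ Real.log k := Real.log_natCast_nonneg k
  have h3 : (1 / 2 + ε') * k ≤ (1 / 2 + ε / 2) * k :=
    mul_le_mul_of_nonneg_right (by linarith) (Nat.cast_nonneg k)
  exact mul_le_mul_of_nonneg_right h3 h2

end Pool.Agent.ZL
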