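import Pool.Agent.ZL.Bas

set_option autoImplicit false

/-!
# ZL-NzD: the resampling operator (definitions)
-/

namespace Pool.Agent.ZL

open Finset

/-- a block: `j` coins and a new value -/
abbrev Bg (j : ℕ) (Ω : Type*) := (Fin j → Bool) × Ω

/-- all coins of the block are `true`: the coordinate is resampled (probability `2 ^ (-j)`) -/
def hit {j : ℕ} {Ω : Type*} (b : Bg j Ω) : Bool := decide (∀ i, b.1 i = true)

/-- resampling of a sequence -/
def nzf {j m : ℕ} {Ω : Type*} (x : Fin m → Ω) (ω : Fin m → Bg j Ω) : Fin m → Ω :=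
  fun i => if hit (ω i) then (ω i).2 else x i

end Pool.Agent.ZL
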