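import Pool.Agent.ZL.BkD
import Pool.Agent.ZL.Vx

set_option autoImplicit false

/-!
# ZL-Nzl: the list functions `nz`, `ex` compute the resampled sequence
-/

namespace Pool.Agent.ZL

theorem ex_take (n k K : ℕ) (h : k ≤ K) (l : List Bool) : (ex n K l).take k = ex n k l := by
  induction k generalizing K l with
  | zero => rw [List.take_zero, ex]
  | succ k ih =>
    obtain ⟨K, rfl⟩ : ∃ K', K = K' + 1 := ⟨K - 1, by omega⟩
    rw [ex, ex, List.take_succ_cons, ih K (by omega)]

theorem ex_length (n k : ℕ) (l : List Bool) : (ex n k l).length = k := by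
  induction k generalizing l with
  | zero => rw [ex, List.length_nil]
  | succ k ih => rw [ex, List.length_cons, ih]

private theorem nzl_len (n j : ℕ) (E : List (ℕ × ℕ)) (l : List Bool) :
    (nz n j E l).length = E.length := by
  induction E generalizing l with
  | nil => rw [nz]
  | cons e E ih => rw [nz, List.length_cons, List.length_cons, ih]

private theorem nzl_get (n j : ℕ) (E : List (ℕ × ℕ)) (l : List Bool) (i : ℕ)
    (h : i < (nz n j E l).length) (h' : i < E.length) :
    (nz n j E l)[i] = if ((l.drop (i * (3 * n))).take j).all (fun b => b) then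
      rp n (l.drop (i * (3 * n))) else E[i] := by
  induction E generalizing l i with
  | nil => exact absurd h' (Nat.not_lt_zero i)
  | cons e E ih =>
    simp only [nz] at h ⊢
    cases i with
    | zero =>
      rw [List.getElem_cons_zero, List.getElem_cons_zero, Nat.zero_mul, List.drop_zero]
    | succ i =>
      rw [List.getElem_cons_succ, List.getElem_cons_succ]
      rw [ih (l.drop (3 * n)) i (by simpa using h) (by simpa using h'), List.drop_drop]
      have e1 : 3 * n + i * (3 * n) = (i + 1) * (3 * n) := by ring
      rw [e1]

private theorem exl_get (n k : ℕ) (l : List Bool) (i : ℕ) (h : i < (ex n k l).length) :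
    (ex n k l)[i] = rp n (l.drop (i * (3 * n))) := by
  induction k generalizing l i with
  | zero =>
    rw [ex_length] at h
    exact absurd h (Nat.not_lt_zero i)
  | succ k ih =>
    simp only [ex] at h ⊢
    cases i with
    | zero => rw [List.getElem_cons_zero, Nat.zero_mul, List.drop_zero]
    | succ i =>
      rw [List.getElem_cons_succ]
      rw [ih (l.drop (3 * n)) i (by simpa using h), List.drop_drop]
      have e1 : 3 * n + i * (3 * n) = (i + 1) * (3 * n) := by ring
      rw [e1]

private theorem rp_take (n : ℕ) (l : List Bool) : rp n (l.take (3 * n)) = rp n l := by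
  unfold rp
  have h1 : ∀ a, a + n ≤ 3 * n → ((l.take (3 * n)).drop a).take n = (l.drop a).take n := by
    intro a ha
    rw [List.drop_take, List.take_take, Nat.min_eq_left (by omega)]
  rw [h1 n (by omega), h1 (2 * n) (by omega)]

private theorem p2_bk {n : ℕ} (hn : 0 < n) (j : ℕ) (l : List Bool) :
    p2 (bk hn j (l.take (3 * n))).2 = rp n l := by
  unfold bk p2 toF
  dsimp only
  rw [rp_take, Nat.mod_eq_of_lt, Nat.mod_eq_of_lt]
  · exact vx_lt hn _
  · exact vx_lt hn _

private theorem hit_bk {n j : ℕ} (hn : 0 < n) (hj : j ≤ n) (l : List Bool) (hl : 3 * n ≤ l.length) :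
    hit (bk hn j (l.take (3 * n))) = (l.take j).all (fun b => b) := by
  have h1 : (∀ i : Fin j, (bk hn j (l.take (3 * n))).1 i = true) ↔
      (l.take j).all (fun b => b) = true := by
    rw [List.all_eq_true]
    constructor
    · intro h b hb
      rw [List.mem_iff_getElem] at hb
      obtain ⟨i, hi, rfl⟩ := hb
      have hi' : i < j := by
        rw [List.length_take] at hi
        omega
      have h2 := h ⟨i, hi'⟩
      have h3 : (bk hn j (l.take (3 * n))).1 ⟨i, hi'⟩ = (l.take (3 * n)).getD i false := rfl
      have h4 : i < (l.take (3 * n)).length := by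
        rw [List.length_take]
        omega
      rw [h3, List.getD_eq_getElem _ _ h4, List.getElem_take] at h2
      rw [List.getElem_take]
      exact h2
    · intro h i
      have h3 : (bk hn j (l.take (3 * n))).1 i = (l.take (3 * n)).getD i false := rfl
      have h4 : (i : ℕ) < (l.take (3 * n)).length := by
        rw [List.length_take]
        have := i.2
        omega
      have h5 : (i : ℕ) < (l.take j).length := by
        rw [List.length_take]
        have := i.2
        omega
      have h6 := h _ (List.getElem_mem h5)
      rw [List.getElem_take] at h6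
      rw [h3, List.getD_eq_getElem _ _ h4, List.getElem_take]
      exact h6
  unfold hit
  by_cases h2 : (l.take j).all (fun b => b) = true
  · rw [h2, decide_eq_true_iff]
    exact h1.2 h2
  · rw [Bool.eq_false_iff.2 h2, decide_eq_false_iff_not]
    exact fun h3 => h2 (h1.1 h3)

/-- the blocks `m, …, m' - 1` give the new pairs -/
theorem yy_eq {n m m' j : ℕ} (hn : 0 < n) (hj : j ≤ n) (hm : m ≤ m') (X : Fin m → Pr n)
    (l : List Bool) (hl : m' * (3 * n) ≤ l.length) :
    nz n j (List.ofFn fun i => p2 (X i)) l ++ ex n (m' - m) (l.drop (3 * n * m)) =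
      List.ofFn fun i => p2 (yy X (bks hn j m' l) i) := by
  have hlen : (nz n j (List.ofFn fun i => p2 (X i)) l).length = m := by
    rw [nzl_len, List.length_ofFn]
  refine List.ext_getElem ?_ ?_
  · rw [List.length_append, hlen, ex_length, List.length_ofFn]
    omega
  · intro i h1 h2
    have hi : i < m' := by
      rw [List.length_ofFn] at h2
      exact h2
    rw [List.getElem_ofFn]
    have hblk : 3 * n ≤ (l.drop (i * (3 * n))).length := by
      rw [List.length_drop]
      have h3 : (i + 1) * (3 * n) ≤ m' * (3 * n) := Nat.mul_le_mul_right _ hi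
      have h4 : (i + 1) * (3 * n) = i * (3 * n) + 3 * n := by ring
      omega
    by_cases him : i < m
    · rw [List.getElem_append_left (by rw [hlen]; exact him)]
      rw [nzl_get _ _ _ _ _ _ (by rw [List.length_ofFn]; exact him), List.getElem_ofFn]
      have h3 : yy X (bks hn j m' l) ⟨i, hi⟩ = if hit (bks hn j m' l ⟨i, hi⟩) then
          (bks hn j m' l ⟨i, hi⟩).2 else X ⟨i, him⟩ := by
        unfold yy
        rw [dif_pos him]
      rw [h3]
      have h4 : bks hn j m' l ⟨i, hi⟩ = bk hn j ((l.drop (i * (3 * n))).take (3 * n)) := rfl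
      rw [h4, hit_bk hn hj _ hblk]
      by_cases h5 : ((l.drop (i * (3 * n))).take j).all (fun b => b) = true
      · rw [if_pos h5, if_pos h5, p2_bk]
      · rw [if_neg h5, if_neg h5]
    · rw [List.getElem_append_right (by rw [hlen]; omega)]
      rw [exl_get, List.drop_drop]
      have h3 : yy X (bks hn j m' l) ⟨i, hi⟩ = (bks hn j m' l ⟨i, hi⟩).2 := by
        unfold yy
        rw [dif_neg him]
      have h4 : bks hn j m' l ⟨i, hi⟩ = bk hn j ((l.drop (i * (3 * n))).take (3 * n)) := rfl
      rw [h3, h4, p2_bk]
      congr 2
      rw [hlen]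
      obtain ⟨t, rfl⟩ : ∃ t, i = m + t := ⟨i - m, by omega⟩
      rw [Nat.add_sub_cancel_left]
      ring

end Pool.Agent.ZL
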