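import Mathlib

set_option autoImplicit false

/-!
# ZL-Pow: two elementary inequalities for powers (Mathlib only)

Induction on the exponent and a quadratic form.
-/

namespace Pool.Agent.ZL

theorem pw1 (k : ℕ) (u : ℝ) (hu : 0 ≤ u) :
    1 + ((k : ℝ) + 2) * (u - 1) + ((k : ℝ) + 1) * (u - 1) ^ 2 ≤ u ^ (k + 2) := by
  induction k with
  | zero =>
    simp only [Nat.cast_zero, zero_add]
    nlinarith
  | succ k ih =>
    have h1 := mul_le_mul_of_nonneg_left ih hu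
    have h2 : u * u ^ (k + 2) = u ^ (k + 1 + 2) := by ring
    rw [h2] at h1
    have h3 : 0 ≤ ((k : ℝ) + 1) * (u - 1) ^ 2 * u := by positivity
    push_cast
    nlinarith

theorem pw2 (k : ℕ) (u : ℝ) (hu : 1 ≤ u) :
    1 + ((k : ℝ) + 2) * (u - 1) + ((k : ℝ) + 2) * ((k : ℝ) + 1) / 2 * (u - 1) ^ 2 ≤ u ^ (k + 2) := by
  have hu0 : 0 ≤ u - 1 := by linarith
  induction k with
  | zero =>
    simp only [Nat.cast_zero, zero_add]
    nlinarith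
  | succ k ih =>
    have h1 := mul_le_mul_of_nonneg_left ih (show 0 ≤ u by linarith)
    have h2 : u * u ^ (k + 2) = u ^ (k + 1 + 2) := by ring
    rw [h2] at h1
    have h3 : 0 ≤ ((k : ℝ) + 2) * ((k : ℝ) + 1) / 2 * (u - 1) ^ 3 := by positivity
    push_cast
    nlinarith

/-- weighted inequality of arithmetic and geometric means -/
theorem wag (k : ℕ) (s : ℝ) (hs : 0 < s) (hs1 : s ≤ 1) (hk : 2 ≤ ((k : ℝ) + 2) * s ^ 2) (a b : ℝ) :
    (1 - s) * ((k : ℝ) + 2) * (a * b) ≤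
      s * (((k : ℝ) + 2) * ((k : ℝ) + 1) / 2 * a ^ 2 + ((k : ℝ) + 1) * b ^ 2) := by
  have hk0 : (0 : ℝ) ≤ k := Nat.cast_nonneg k
  obtain ⟨p, hp⟩ : ∃ p : ℝ, p = s * (((k : ℝ) + 2) * ((k : ℝ) + 1) / 2) := ⟨_, rfl⟩
  obtain ⟨q, hq⟩ : ∃ q : ℝ, q = s * ((k : ℝ) + 1) := ⟨_, rfl⟩
  obtain ⟨m, hm⟩ : ∃ m : ℝ, m = (1 - s) * ((k : ℝ) + 2) := ⟨_, rfl⟩
  have hp0 : 0 < p := by
    rw [hp]
    positivity
  have h1 : m ^ 2 ≤ 4 * p * q := by
    have h2 : 4 * p * q = 2 * (((k : ℝ) + 2) * s ^ 2) * ((k : ℝ) + 1) ^ 2 := by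
      rw [hp, hq]
      ring
    have h3 : 0 ≤ m := by
      rw [hm]
      exact mul_nonneg (by linarith) (by linarith)
    have h4 : m ≤ 2 * ((k : ℝ) + 1) := by
      rw [hm]
      nlinarith
    have h5 : m ^ 2 ≤ (2 * ((k : ℝ) + 1)) ^ 2 := pow_le_pow_left₀ h3 h4 2
    have h6 : 2 * 2 * ((k : ℝ) + 1) ^ 2 ≤ 2 * (((k : ℝ) + 2) * s ^ 2) * ((k : ℝ) + 1) ^ 2 :=
      mul_le_mul_of_nonneg_right (by linarith) (sq_nonneg _)
    rw [h2]
    linarith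
  have h7 : 0 ≤ 4 * p * (p * a ^ 2 + q * b ^ 2 - m * (a * b)) := by
    have h8 : 4 * p * (p * a ^ 2 + q * b ^ 2 - m * (a * b)) =
        (2 * p * a - m * b) ^ 2 + (4 * p * q - m ^ 2) * b ^ 2 := by ring
    rw [h8]
    exact add_nonneg (sq_nonneg _) (mul_nonneg (by linarith) (sq_nonneg _))
  have h9 : 0 ≤ p * a ^ 2 + q * b ^ 2 - m * (a * b) := nonneg_of_mul_nonneg_right h7 (by linarith)
  have h10 : s * (((k : ℝ) + 2) * ((k : ℝ) + 1) / 2 * a ^ 2 + ((k : ℝ) + 1) * b ^ 2) =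
      p * a ^ 2 + q * b ^ 2 := by
    rw [hp, hq]
    ring
  rw [h10, ← hm]
  linarith

end Pool.Agent.ZL
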