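import Pool.Agent.ZL.Nzl
import Pool.Agent.ZL.Mat
import Pool.Agent.ZL.KeepR
import Pool.Agent.ZL.Best

set_option autoImplicit false

/-!
# ZL-Tri: a trial succeeds if the noise is good (deterministic part)

The prefixes are produced by `pres`; the lists `nz`, `ex`, `mat` compute the resampled graph.
-/

namespace Pool.Agent.ZL

private theorem pres_mono (Z : List (ℕ × ℕ)) : ∀ (p : List (ℕ × ℕ)) (L : List (List (ℕ × ℕ))),
    ∀ q ∈ L, q ∈ (Z.foldl (fun s z => (s.1 ++ [z], (s.1 ++ [z]) :: s.2)) (p, L)).2 := by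
  induction Z with
  | nil => intro p L q hq; exact hq
  | cons z Z ih =>
    intro p L q hq
    rw [List.foldl_cons]
    exact ih _ _ q (List.mem_cons_of_mem _ hq)

private theorem pres_gen (Z : List (ℕ × ℕ)) : ∀ (k : ℕ) (p : List (ℕ × ℕ))
    (L : List (List (ℕ × ℕ))), p ∈ L →
    p ++ Z.take k ∈ (Z.foldl (fun s z => (s.1 ++ [z], (s.1 ++ [z]) :: s.2)) (p, L)).2 := by
  induction Z with
  | nil => intro k p L hp; simpa using hp
  | cons z Z ih =>
    intro k p L hp
    rw [List.foldl_cons]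
    cases k with
    | zero =>
      rw [List.take_zero, List.append_nil]
      exact pres_mono Z _ _ p (List.mem_cons_of_mem _ hp)
    | succ k =>
      have h := ih k (p ++ [z]) ((p ++ [z]) :: L) List.mem_cons_self
      rw [List.take_succ_cons]
      rwa [List.append_assoc, List.singleton_append] at h

theorem pres_mem (Z : List (ℕ × ℕ)) (k : ℕ) : Z.take k ∈ pres Z := by
  have h := pres_gen Z k [] [[]] (by simp)
  rw [List.nil_append] at h
  exact h

theorem trial_cand {n : ℕ} (G : SimpleGraph (Fin n)) (A : AAlg) (l : List Bool) :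
    ∀ c ∈ trial A (code G) l, Cand G c := by
  intro c hc
  unfold trial at hc
  rw [List.mem_map] at hc
  obtain ⟨P, -, rfl⟩ := hc
  split_ifs
  · exact cand_keep G _
  · exact cand_nil G

theorem trial_ok {n m m' j : ℕ} (hn : 0 < n) (hj : j ≤ n) (hm : m ≤ m') (hm' : m' ≤ n * n) (A : AAlg)
    (w : List Bool) (X : Fin m → Pr n) (hX : Sm X)
    (hE : edg (code (gr X)) = List.ofFn fun i => p2 (X i)) (l : List Bool)
    (hl : 3 * n + 3 * n * (n * n) ≤ l.length) (h1 : jOf n l = j) (h2 : wOf n l = w) (a a' : ℝ)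
    (h3 : Sm (yy X (bks hn j m' (l.drop (3 * n)))))
    (h4 : Found (gr (yy X (bks hn j m' (l.drop (3 * n)))))
      (A ((code (gr (yy X (bks hn j m' (l.drop (3 * n))))), w),
        (l.drop (3 * n)).drop (3 * n * (n * n)))) a)
    (h5 : (RR m (bks hn j m' (l.drop (3 * n))) : ℝ) ≤ a - a') :
    ∃ c ∈ trial A (code (gr X)) l, Found (gr X) c a' := by
  have hlen : (edg (code (gr X))).length = m := by rw [hE, List.length_ofFn]
  have hB : m' * (3 * n) ≤ (l.drop (3 * n)).length := by
    rw [List.length_drop]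
    have h6 : m' * (3 * n) ≤ 3 * n * (n * n) := by
      rw [mul_comm]
      exact Nat.mul_le_mul_left _ hm'
    omega
  have hP := pres_mem (ex n (n * n) ((l.drop (3 * n)).drop (3 * n * m))) (m' - m)
  rw [ex_take n (m' - m) (n * n) (by omega)] at hP
  have hy := yy_eq hn hj hm X (l.drop (3 * n)) hB
  refine ⟨keep (code (gr X)) (A ((code (gr (yy X (bks hn j m' (l.drop (3 * n))))), w),
    (l.drop (3 * n)).drop (3 * n * (n * n)))), ?_, found_keep hm X hX _ _ a a' h4 h5⟩
  unfold trial
  rw [List.mem_map, hlen, code_length]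
  refine ⟨ex n (m' - m) ((l.drop (3 * n)).drop (3 * n * m)), hP, ?_⟩
  rw [h1, h2, hE, hy, if_pos ((smp_iff _).2 h3), mat_eq _ h3]

end Pool.Agent.ZL
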