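import Pool.Agent.ZL.Best
import Pool.Agent.ZL.Av
import Pool.Agent.ZL.Tri

set_option autoImplicit false

/-! # ZL-Run: independent trials -/

namespace Pool.Agent.ZL

open Finset

open Classical in
theorem run_prob {n : ℕ} (G : SimpleGraph (Fin n)) (A : AAlg) (L T : ℕ) (a : ℝ) :
    av (T * L) (fun l => if ∃ c ∈ runs A (code G) L T l, Found G c a then 1 else 0) =
      1 - (1 - av L (fun l => if ∃ c ∈ trial A (code G) l, Found G c a then 1 else 0)) ^ T := by
  induction T with
  | zero =>
    rw [Nat.zero_mul, pow_zero, sub_self]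
    show (if ∃ c ∈ runs A (code G) L 0 [], Found G c a then (1 : ℝ) else 0) = 0
    rw [if_neg]
    rintro ⟨c, hc, -⟩
    exact List.not_mem_nil hc
  | succ T ih =>
    obtain ⟨h, hh⟩ : ∃ h, h = av L (fun l => if ∃ c ∈ trial A (code G) l, Found G c a then 1 else 0) :=
      ⟨_, rfl⟩
    rw [← hh] at ih ⊢
    have e1 : (T + 1) * L = L + T * L := by ring
    rw [e1, av_append]
    have e2 : ∀ l : List Bool, l.length = L → av (T * L) (fun l' =>
        if ∃ c ∈ runs A (code G) L (T + 1) (l ++ l'), Found G c a then (1 : ℝ) else 0) =
          1 - (1 - h) ^ T * (1 - if ∃ c ∈ trial A (code G) l, Found G c a then (1 : ℝ) else 0) := by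
      intro l hl
      have e3 : ∀ l' : List Bool, l'.length = T * L →
          (if ∃ c ∈ runs A (code G) L (T + 1) (l ++ l'), Found G c a then (1 : ℝ) else 0) =
            1 - (1 - if ∃ c ∈ trial A (code G) l, Found G c a then (1 : ℝ) else 0) *
              (1 - if ∃ c ∈ runs A (code G) L T l', Found G c a then (1 : ℝ) else 0) := by
        intro l' _
        have e4 : runs A (code G) L (T + 1) (l ++ l') =
            trial A (code G) l ++ runs A (code G) L T l' := by
          show trial A (code G) ((l ++ l').take L) ++ runs A (code G) L T ((l ++ l').drop L) = _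
          rw [List.take_left' hl, List.drop_left' hl]
        rw [e4]
        by_cases h1 : ∃ c ∈ trial A (code G) l, Found G c a
        · have h2 : ∃ c ∈ trial A (code G) l ++ runs A (code G) L T l', Found G c a := by
            obtain ⟨c, hc, hc'⟩ := h1
            exact ⟨c, List.mem_append_left _ hc, hc'⟩
          rw [if_pos h2, if_pos h1]
          ring
        · rw [if_neg h1]
          by_cases h3 : ∃ c ∈ runs A (code G) L T l', Found G c a
          · have h2 : ∃ c ∈ trial A (code G) l ++ runs A (code G) L T l', Found G c a := by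
              obtain ⟨c, hc, hc'⟩ := h3
              exact ⟨c, List.mem_append_right _ hc, hc'⟩
            rw [if_pos h2, if_pos h3]
            ring
          · have h2 : ¬ ∃ c ∈ trial A (code G) l ++ runs A (code G) L T l', Found G c a := by
              rintro ⟨c, hc, hc'⟩
              rcases List.mem_append.1 hc with h4 | h4
              · exact h1 ⟨c, h4, hc'⟩
              · exact h3 ⟨c, h4, hc'⟩
            rw [if_neg h2, if_neg h3]
            ring
      rw [av_congr e3, av_sub, av_const, av_mul, av_sub, av_const, ih]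
      ring
    rw [av_congr e2, av_sub, av_const, av_mul, av_sub, av_const, ← hh]
    ring

theorem ampq_eval (q : Polynomial ℕ) (D n : ℕ) : (ampq q D).eval n = n ^ D * len q n := by
  unfold ampq len
  simp only [Polynomial.eval_mul, Polynomial.eval_add, Polynomial.eval_pow, Polynomial.eval_X,
    Polynomial.eval_ofNat]

private theorem runs_cand {n : ℕ} (G : SimpleGraph (Fin n)) (A : AAlg) (L T : ℕ) :
    ∀ (l : List Bool), ∀ c ∈ runs A (code G) L T l, Cand G c := by
  induction T with
  | zero => exact fun l c hc => absurd hc List.not_mem_nil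
  | succ T ih =>
    intro l c hc
    rcases List.mem_append.1 hc with h | h
    · exact trial_cand G A _ c h
    · exact ih _ c h

open Classical in
theorem amp_prob {n : ℕ} (G : SimpleGraph (Fin n)) (A : AAlg) (q : Polynomial ℕ) (D : ℕ) (a h : ℝ)
    (hh : h ≤ av (len q n) (fun l => if ∃ c ∈ trial A (code G) l, Found G c a then 1 else 0)) :
    1 - Real.exp (-((n : ℝ) ^ D * h)) ≤
      av ((ampq q D).eval n) (fun l => if Found G (amp A q D (code G, l)) a then 1 else 0) := by
  have h1 : av ((ampq q D).eval n)
      (fun l => if ∃ c ∈ runs A (code G) (len q n) (n ^ D) l, Found G c a then 1 else 0) ≤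
      av ((ampq q D).eval n) (fun l => if Found G (amp A q D (code G, l)) a then 1 else 0) := by
    refine av_mono fun l _ => ?_
    by_cases h2 : ∃ c ∈ runs A (code G) (len q n) (n ^ D) l, Found G c a
    · have h3 : Found G (amp A q D (code G, l)) a := by
        unfold amp
        simp only [code_length]
        exact best_found G _ (runs_cand G A _ _ l) a h2
      rw [if_pos h2, if_pos h3]
    · rw [if_neg h2]
      split_ifs <;> norm_num
  refine le_trans ?_ h1
  rw [ampq_eval, run_prob]
  obtain ⟨h', hh'⟩ : ∃ h', h' = av (len q n)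
    (fun l => if ∃ c ∈ trial A (code G) l, Found G c a then (1 : ℝ) else 0) := ⟨_, rfl⟩
  rw [← hh'] at hh ⊢
  have h2 : h' ≤ 1 := by
    rw [hh']
    refine le_trans (av_mono (H := fun _ => 1) fun l _ => ?_) (av_const (len q n) 1).le
    split_ifs <;> norm_num
  have h3 : (1 - h') ^ (n ^ D) ≤ Real.exp (-((n : ℝ) ^ D * h)) := by
    calc (1 - h') ^ (n ^ D) ≤ Real.exp (-h') ^ (n ^ D) :=
          pow_le_pow_left₀ (by linarith) (Real.one_sub_le_exp_neg h') _
      _ = Real.exp (-((n : ℝ) ^ D * h')) := by
          rw [← Real.exp_nat_mul]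
          congr 1
          push_cast
          ring
      _ ≤ _ := by
          refine Real.exp_le_exp.2 (neg_le_neg ?_)
          exact mul_le_mul_of_nonneg_left hh (by positivity)
  linarith

theorem amp_cand {n : ℕ} (G : SimpleGraph (Fin n)) (A : AAlg) (q : Polynomial ℕ) (D : ℕ)
    (l : List Bool) : Cand G (amp A q D (code G, l)) := by
  unfold amp
  exact cand_best G _ (runs_cand G A _ _ l)

end Pool.Agent.ZL
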