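import Pool.Agent.ZL.Stmt
import Pool.Agent.ZL.NzD

set_option autoImplicit false

/-!
# ZL-SqD: sequences of pairs and the graphs which they define (definitions)
-/

namespace Pool.Agent.ZL

open Finset

/-- pairs of vertices -/
abbrev Pr (n : ℕ) := Fin n × Fin n

/-- the unordered pairs of a sequence -/
def sy {n m : ℕ} (y : Fin m → Pr n) (i : Fin m) : Sym2 (Fin n) := s((y i).1, (y i).2)

/-- simple sequences: no loops, no repetition -/
def Sm {n m : ℕ} (y : Fin m → Pr n) : Prop :=
  (∀ i, (y i).1 ≠ (y i).2) ∧ Function.Injective (sy y)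

/-- the graph of a sequence -/
def gr {n m : ℕ} (y : Fin m → Pr n) : SimpleGraph (Fin n) :=
  SimpleGraph.fromEdgeSet (Set.range (sy y))

/-- resampling of the coordinates of `X`; the coordinates `m, m + 1, …` are new -/
def yy {n m m' j : ℕ} (X : Fin m → Pr n) (ω : Fin m' → Bg j (Pr n)) : Fin m' → Pr n :=
  fun i => if h : (i : ℕ) < m then (if hit (ω i) then (ω i).2 else X ⟨i, h⟩) else (ω i).2

/-- the number of resampled coordinates among the first `m` -/
def RR {n m' j : ℕ} (m : ℕ) (ω : Fin m' → Bg j (Pr n)) : ℕ :=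
  (univ.filter fun i : Fin m' => (i : ℕ) < m ∧ hit (ω i) = true).card

open Classical in
/-- number of pairs (noise, seed) for which the resampled sequence is simple and its graph is good
for the seed and at most `b` coordinates are resampled -/
noncomputable def cn {n m j : ℕ} (m' : ℕ) {P : Type} [Fintype P] (X : Fin m → Pr n)
    (Suc : SimpleGraph (Fin n) → P → Prop) (b : ℝ) : ℕ :=
  ((univ : Finset ((Fin m' → Bg j (Pr n)) × P)).filter fun p =>
    Sm (yy X p.1) ∧ Suc (gr (yy X p.1)) p.2 ∧ (RR m p.1 : ℝ) ≤ b).card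

/-- the corresponding probability -/
noncomputable def prob {n m : ℕ} (j m' : ℕ) {P : Type} [Fintype P] (X : Fin m → Pr n)
    (Suc : SimpleGraph (Fin n) → P → Prop) (b : ℝ) : ℝ :=
  (cn (j := j) m' X Suc b : ℝ) / ((2 ^ j * (n : ℝ) ^ 2) ^ m' * Fintype.card P)

end Pool.Agent.ZL
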