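import Mathlib
import Pool.Prelude.Def_H_3587d628

set_option autoImplicit false

/-!
# ZL: statement level definitions (MP_f583e4_lc)

Randomised polynomial time algorithms for stable sets in the random graph `G_{n,m}`.
-/

namespace Pool.Agent.ZL

open Finset

open Classical in
/-- the input of an algorithm: the adjacency matrix of the graph `G`, row by row -/
noncomputable def code {n : ℕ} (G : SimpleGraph (Fin n)) : List (List Bool) :=
  List.ofFn fun u : Fin n => List.ofFn fun v : Fin n => decide (G.Adj u v)

open Classical in
/-- the graphs with vertices `0, …, n - 1` and exactly `m` edges -/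
noncomputable def Gr (n m : ℕ) : Finset (SimpleGraph (Fin n)) :=
  univ.filter fun G => G.edgeSet.ncard = m

/-- the set of vertices described by the output `b` of an algorithm: `v` belongs to it if the entry
number `v` of `b` is `true` -/
def vs (n : ℕ) (b : List Bool) : Finset (Fin n) := univ.filter fun v => b.getD v false = true

/-- the output `b` describes a stable set of `G` with at least `a` vertices -/
def Found {n : ℕ} (G : SimpleGraph (Fin n)) (b : List Bool) (a : ℝ) : Prop :=
  (∀ u ∈ vs n b, ∀ v ∈ vs n b, ¬ G.Adj u v) ∧ a ≤ (vs n b).card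

open Classical in
/-- the probability that the algorithm `A` finds a stable set with at least `a` vertices in the
random graph `G_{n,m}`; the probability is taken over the graph and over the `q` random bits which
are the second argument of `A` -/
noncomputable def succ (n m q : ℕ) (a : ℝ) (A : List (List Bool) → List Bool → List Bool) : ℝ :=
  (((Gr n m) ×ˢ (univ : Finset (Fin q → Bool))).filter fun p =>
    Found p.1 (A (code p.1) (List.ofFn p.2)) a).card / ((Gr n m).card * 2 ^ q)

/-- `M_k(n) = ⌊(1/2 + ε) k ln k · n⌋` -/
noncomputable def Mk (ε : ℝ) (k n : ℕ) : ℕ := ⌊(1 / 2 + ε) * k * Real.log k * n⌋₊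

/-- a randomised algorithm without advice: input (adjacency matrix, random bits) -/
abbrev Alg := List (List Bool) × List Bool → List Bool

/-- a randomised algorithm with advice: input ((adjacency matrix, advice string), random bits) -/
abbrev AAlg := (List (List Bool) × List Bool) × List Bool → List Bool

/-- Question Q1: there are `ε > 0` and a single (randomised) polynomial time algorithm which finds
a.s. a stable set with at least `n / k` vertices in `G_{n,M_k(n)}`, for every `k ≥ 3` -/
def Q1 : Prop :=
  ∃ ε : ℝ, 0 < ε ∧ ∃ (A : Alg) (q : Polynomial ℕ), N68a2faeb.IsPolyTime A ∧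
    ∀ k : ℕ, 3 ≤ k → Filter.Tendsto
      (fun n : ℕ => succ n (Mk ε k n) (q.eval n) ((n : ℝ) / k) fun x r => A (x, r))
      Filter.atTop (nhds 1)

/-- The weak form of Q1: only large `k`, an advice string of length `O(log n)` which may depend on
`k` and `n` (but not on the graph), and only a success probability at least `n ^ (-1 / k ^ 5)` for
all large `n` -/
def WeakQ1 : Prop :=
  ∃ ε : ℝ, 0 < ε ∧ ∃ (A : AAlg) (q : Polynomial ℕ), N68a2faeb.IsPolyTime A ∧
    ∃ L k₀ : ℕ, ∀ k : ℕ, k₀ ≤ k → ∀ᶠ n : ℕ in Filter.atTop,
      ∃ w : List Bool, w.length ≤ L * Nat.log 2 n ∧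
        (n : ℝ) ^ (-(1 / (k : ℝ) ^ 5)) ≤
          succ n (Mk ε k n) (q.eval n) ((n : ℝ) / k) fun x r => A ((x, w), r)

end Pool.Agent.ZL
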