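import Pool.Agent.ZL.AmpC
import Pool.Agent.ZL.Asy
import Pool.Agent.ZL.SqB

set_option autoImplicit false

/-!
# ZL-ThmAB: amplification in the limit
-/

namespace Pool.Agent.ZL

open Filter

private theorem thmab_core (A : AAlg) (q : Polynomial ℕ) (w : List Bool) (c a' a : ℝ) (hc : 0 < c)
    (j : ℕ) (hj : c / 2 ^ j ≤ (a - a') / 2) : ∀ᶠ n : ℕ in atTop, ∀ m m' : ℕ, m ≤ m' →
      (m' : ℝ) ≤ c * n → ∀ (p τ : ℝ) (D : ℕ), 0 ≤ p →
      p ≤ succ n m' (q.eval n) (a * n) (fun x r => A ((x, w), r)) → 0 < τ →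
      1 - τ - Real.exp (-((n : ℝ) ^ D * (1 / 2 ^ (j + 2 * w.length + 3) *
        (p / 2 * (τ * Real.exp (-(2 * c * (1 + 2 * c)))) ^ (2 * 4 ^ j + 2) *
          (Real.exp (-(2 * c * (1 + 2 * c))) * (p / 2)) ^ (2 * 4 ^ j + 2) -
            Real.exp (-((a - a') * n) / 6))))) ≤
        succ n m ((ampq q D).eval n) (a' * n) (fun x r => amp A q D (x, r)) := by
  filter_upwards [eventually_ge_atTop 14, eventually_gt_atTop j, eventually_gt_atTop w.length,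
    eventually_ge_atTop ⌈2 * (1 + 2 * c)⌉₊, eventually_ge_atTop ⌈c⌉₊] with n h1 h2 h3 h4 h5 m m' hmm hm' p τ D
    hp0 hp hτ
  have h4' : 2 * (1 + 2 * c) ≤ n := (Nat.le_ceil _).trans (by exact_mod_cast h4)
  have h5' : c ≤ n := (Nat.le_ceil _).trans (by exact_mod_cast h5)
  have hn0 : (0 : ℝ) < n := by
    have : 0 < n := by omega
    exact_mod_cast this
  have hmm' : (m : ℝ) ≤ m' := by exact_mod_cast hmm
  have hmc : (m : ℝ) ≤ c * n := hmm'.trans hm'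
  have hnn : m' ≤ n * n := by
    have h6 : (m' : ℝ) ≤ n * n := hm'.trans (mul_le_mul_of_nonneg_right h5' hn0.le)
    exact_mod_cast h6
  have hb : (m : ℝ) / 2 ^ j ≤ (a * n - a' * n) / 2 := by
    have h6 : (m : ℝ) / 2 ^ j ≤ c * n / 2 ^ j := by gcongr
    have h7 := mul_le_mul_of_nonneg_right hj hn0.le
    have h8 : c * n / 2 ^ j = c / 2 ^ j * n := by ring
    rw [h8] at h6
    linarith
  have h := amp_core (n := n) (m := m) (m' := m') (j := j) (k := 2 * 4 ^ j) h1 h2 hmm hnn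
    (Nat.le_add_right _ _) A q D w h3 (a * n) (a' * n) (Real.exp (-(2 * c * (1 + 2 * c)))) p τ hb
    (Real.exp_pos _) (dens c hc n m h4' hmc) (dens c hc n m' h4' hm') hp0 hp hτ
  have e : -(a * (n : ℝ) - a' * n) / 6 = -((a - a') * n) / 6 := by ring
  rw [e] at h
  exact h

theorem thmA (A : AAlg) (q : Polynomial ℕ) (w : List Bool) (c a' a : ℝ) (hc : 0 < c) (ha : a' < a)
    (C K : ℕ) : ∃ D : ℕ, ∀ᶠ n : ℕ in atTop, ∀ m m' : ℕ, m ≤ m' → (m' : ℝ) ≤ c * n →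
      1 / (n : ℝ) ^ C ≤ succ n m' (q.eval n) (a * n) (fun x r => A ((x, w), r)) →
      1 - 1 / (n : ℝ) ^ K ≤ succ n m ((ampq q D).eval n) (a' * n) (fun x r => amp A q D (x, r)) := by
  have hβ : 0 < a - a' := sub_pos.mpr ha
  obtain ⟨j, hj⟩ := exists_j c (a - a') hc hβ
  obtain ⟨D, hD⟩ := asyA (Real.exp (-(2 * c * (1 + 2 * c)))) (1 / 2 ^ (j + 2 * w.length + 3))
    (a - a') (Real.exp_pos _) (by positivity) hβ (2 * 4 ^ j) C K
  refine ⟨D, ?_⟩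
  filter_upwards [hD, thmab_core A q w c a' a hc j hj, eventually_ge_atTop 1] with n h1 h2 h3 m m'
    hmm hm' hs
  have hn0 : (0 : ℝ) < n := by exact_mod_cast h3
  have h4 := h2 m m' hmm hm' (1 / (n : ℝ) ^ C) (1 / (2 * (n : ℝ) ^ K)) D (by positivity) hs
    (by positivity)
  have h5 := h1 (1 / (n : ℝ) ^ C) le_rfl
  have h6 : 1 / (n : ℝ) ^ K = 1 / (2 * (n : ℝ) ^ K) + 1 / (2 * (n : ℝ) ^ K) := by
    field_simp
    norm_num
  rw [h6]
  linarith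

theorem thmB (A : AAlg) (q : Polynomial ℕ) (w : List Bool) (c a' a τ : ℝ) (hc : 0 < c)
    (ha : a' < a) (hτ : 0 < τ) : ∃ δ : ℝ, 0 < δ ∧
      ∀ᶠ n : ℕ in atTop, ∀ m m' : ℕ, m ≤ m' → (m' : ℝ) ≤ c * n →
      (n : ℝ) ^ (-δ) ≤ succ n m' (q.eval n) (a * n) (fun x r => A ((x, w), r)) →
      1 - τ ≤ succ n m ((ampq q 1).eval n) (a' * n) (fun x r => amp A q 1 (x, r)) := by
  have hβ : 0 < a - a' := sub_pos.mpr ha
  obtain ⟨j, hj⟩ := exists_j c (a - a') hc hβ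
  obtain ⟨δ, hδ, hB⟩ := asyB (Real.exp (-(2 * c * (1 + 2 * c)))) (1 / 2 ^ (j + 2 * w.length + 3))
    (a - a') (τ / 2) (Real.exp_pos _) (by positivity) hβ (half_pos hτ) (2 * 4 ^ j)
  refine ⟨δ, hδ, ?_⟩
  filter_upwards [hB, thmab_core A q w c a' a hc j hj, eventually_ge_atTop 1] with n h1 h2 h3 m m'
    hmm hm' hs
  have hn0 : (0 : ℝ) < n := by exact_mod_cast h3
  have h4 := h2 m m' hmm hm' ((n : ℝ) ^ (-δ)) (τ / 2) 1 (Real.rpow_nonneg hn0.le _) hs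
    (half_pos hτ)
  have h5 := h1 ((n : ℝ) ^ (-δ)) le_rfl
  linarith

end Pool.Agent.ZL
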