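import Pool.Agent.ZL.AmpC
import Pool.Agent.ZL.AsyX
import Pool.Agent.ZL.SqB

set_option autoImplicit false

/-!
# ZL-ThmX: amplification with explicit exponents and logarithmic advice
-/

namespace Pool.Agent.ZL

open Filter

/-- advice of length at most `L log n` costs a factor `n ^ (2 L)` -/
private theorem adv {n L : ℕ} (hn : 1 ≤ n) {w : List Bool} (hw : w.length ≤ L * Nat.log 2 n) :
    (2 : ℝ) ^ (2 * w.length) ≤ (n : ℝ) ^ (2 * L) := by
  have h1 : (2 : ℝ) ^ Nat.log 2 n ≤ n := by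
    exact_mod_cast Nat.pow_log_le_self 2 (by omega)
  calc (2 : ℝ) ^ (2 * w.length) ≤ 2 ^ (Nat.log 2 n * (2 * L)) := by
        apply pow_le_pow_right₀ one_le_two
        calc 2 * w.length ≤ 2 * (L * Nat.log 2 n) := Nat.mul_le_mul_left _ hw
          _ = Nat.log 2 n * (2 * L) := by ring
    _ = (2 ^ Nat.log 2 n) ^ (2 * L) := pow_mul _ _ _
    _ ≤ (n : ℝ) ^ (2 * L) := pow_le_pow_left₀ (by positivity) h1 _

private theorem log_lt (L : ℕ) : ∀ᶠ n : ℕ in atTop, L * Nat.log 2 n < n := by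
  have h := (Real.isLittleO_log_id_atTop.comp_tendsto tendsto_natCast_atTop_atTop)
  have h1 := h.def (c := Real.log 2 / (2 * (L + 1))) (by positivity)
  filter_upwards [h1, eventually_ge_atTop 1] with n h2 h3
  have hn : (0 : ℝ) < n := by exact_mod_cast h3
  have hn1 : (1 : ℝ) ≤ n := by exact_mod_cast h3
  simp only [Function.comp, id, Real.norm_eq_abs] at h2
  rw [abs_of_nonneg (Real.log_nonneg hn1), abs_of_pos hn] at h2
  have h4 : (Nat.log 2 n : ℝ) * Real.log 2 ≤ Real.log n := by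
    have h5 : ((2 ^ Nat.log 2 n : ℕ) : ℝ) ≤ n := by
      exact_mod_cast Nat.pow_log_le_self 2 (by omega)
    have h6 := Real.log_le_log (by positivity) h5
    push_cast at h6
    rw [Real.log_pow] at h6
    exact h6
  have hl2 : 0 < Real.log 2 := Real.log_pos one_lt_two
  have h7 : (Nat.log 2 n : ℝ) ≤ n / (2 * (L + 1)) := by
    have h8 : (Nat.log 2 n : ℝ) * Real.log 2 ≤ n / (2 * (L + 1)) * Real.log 2 := by
      calc (Nat.log 2 n : ℝ) * Real.log 2 ≤ Real.log 2 / (2 * (L + 1)) * n := h4.trans h2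
        _ = n / (2 * (L + 1)) * Real.log 2 := by ring
    exact le_of_mul_le_mul_right h8 hl2
  have h9 : ((L * Nat.log 2 n : ℕ) : ℝ) < n := by
    push_cast
    have hL : (0 : ℝ) ≤ L := Nat.cast_nonneg L
    calc (L : ℝ) * Nat.log 2 n ≤ L * (n / (2 * (L + 1))) := mul_le_mul_of_nonneg_left h7 hL
      _ = n * (L / (2 * (L + 1))) := by ring
      _ < n * 1 := by
          apply mul_lt_mul_of_pos_left _ hn
          rw [div_lt_one (by positivity)]
          linarith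
      _ = n := mul_one _
  exact_mod_cast h9

private theorem core (A : AAlg) (q : Polynomial ℕ) (c a' a : ℝ) (hc : 0 < c) (L j : ℕ)
    (hj : c / 2 ^ j ≤ (a - a') / 2) : ∀ᶠ n : ℕ in atTop, ∀ m m' : ℕ, m ≤ m' →
      (m' : ℝ) ≤ c * n → ∀ w : List Bool, w.length ≤ L * Nat.log 2 n → ∀ (p τ e : ℝ) (D : ℕ), 0 ≤ p →
      p ≤ succ n m' (q.eval n) (a * n) (fun x r => A ((x, w), r)) → 0 < τ →
      Real.exp (-((n : ℝ) ^ D * (1 / 2 ^ (j + 3) *
        (p / 2 * (τ * Real.exp (-(2 * c * (1 + 2 * c)))) ^ (2 * 4 ^ j + 2) *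
          (Real.exp (-(2 * c * (1 + 2 * c))) * (p / 2)) ^ (2 * 4 ^ j + 2) -
            Real.exp (-((a - a') * n) / 6))))) ≤ e →
      1 - τ - e ≤
        succ n m ((ampq q (D + 2 * L)).eval n) (a' * n) (fun x r => amp A q (D + 2 * L) (x, r)) := by
  filter_upwards [eventually_ge_atTop 14, eventually_gt_atTop j, log_lt L,
    eventually_ge_atTop ⌈2 * (1 + 2 * c)⌉₊, eventually_ge_atTop ⌈c⌉₊] with n h1 h2 h3 h4 h5 m m'
    hmm hm' w hw p τ e D hp0 hp hτ he
  have h4' : 2 * (1 + 2 * c) ≤ n := (Nat.le_ceil _).trans (by exact_mod_cast h4)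
  have h5' : c ≤ n := (Nat.le_ceil _).trans (by exact_mod_cast h5)
  have hn1 : 1 ≤ n := by omega
  have hn0 : (0 : ℝ) < n := by exact_mod_cast hn1
  have hmm' : (m : ℝ) ≤ m' := by exact_mod_cast hmm
  have hmc : (m : ℝ) ≤ c * n := hmm'.trans hm'
  have hnn : m' ≤ n * n := by
    have h6 : (m' : ℝ) ≤ n * n := hm'.trans (mul_le_mul_of_nonneg_right h5' hn0.le)
    exact_mod_cast h6
  have hb : (m : ℝ) / 2 ^ j ≤ (a * n - a' * n) / 2 := by
    have h6 : (m : ℝ) / 2 ^ j ≤ c * n / 2 ^ j := by gcongr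
    have h7 := mul_le_mul_of_nonneg_right hj hn0.le
    have h8 : c * n / 2 ^ j = c / 2 ^ j * n := by ring
    rw [h8] at h6
    linarith
  have h := amp_core (n := n) (m := m) (m' := m') (j := j) (k := 2 * 4 ^ j) h1 h2 hmm hnn
    (Nat.le_add_right _ _) A q (D + 2 * L) w (lt_of_le_of_lt hw h3) (a * n) (a' * n)
    (Real.exp (-(2 * c * (1 + 2 * c)))) p τ hb
    (Real.exp_pos _) (dens c hc n m h4' hmc) (dens c hc n m' h4' hm') hp0 hp hτ
  have e0 : -(a * (n : ℝ) - a' * n) / 6 = -((a - a') * n) / 6 := by ring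
  rw [e0] at h
  set X : ℝ := p / 2 * (τ * Real.exp (-(2 * c * (1 + 2 * c)))) ^ (2 * 4 ^ j + 2) *
          (Real.exp (-(2 * c * (1 + 2 * c))) * (p / 2)) ^ (2 * 4 ^ j + 2) -
            Real.exp (-((a - a') * n) / 6) with hX
  rcases le_or_gt 0 X with hX0 | hX0
  · refine le_trans ?_ h
    have h9 : Real.exp (-((n : ℝ) ^ (D + 2 * L) * (1 / 2 ^ (j + 2 * w.length + 3) * X))) ≤
        Real.exp (-((n : ℝ) ^ D * (1 / 2 ^ (j + 3) * X))) := by
      apply Real.exp_le_exp.2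
      apply neg_le_neg
      have h10 := adv hn1 hw
      have h11 : (1 : ℝ) ≤ (n : ℝ) ^ (2 * L) * (1 / 2 ^ (2 * w.length)) := by
        rw [mul_one_div, le_div_iff₀ (by positivity), one_mul]
        exact h10
      calc (n : ℝ) ^ D * (1 / 2 ^ (j + 3) * X) = (n : ℝ) ^ D * (1 / 2 ^ (j + 3) * X) * 1 :=
            (mul_one _).symm
        _ ≤ (n : ℝ) ^ D * (1 / 2 ^ (j + 3) * X) * ((n : ℝ) ^ (2 * L) * (1 / 2 ^ (2 * w.length))) :=
            mul_le_mul_of_nonneg_left h11 (by positivity)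
        _ = (n : ℝ) ^ (D + 2 * L) * (1 / 2 ^ (j + 2 * w.length + 3) * X) := by
            rw [pow_add, pow_add, pow_add, pow_add]
            field_simp
    linarith
  · have h9 : 1 ≤ Real.exp (-((n : ℝ) ^ D * (1 / 2 ^ (j + 3) * X))) := by
      apply Real.one_le_exp
      have h10 : (n : ℝ) ^ D * (1 / 2 ^ (j + 3) * X) ≤ 0 := by
        apply mul_nonpos_of_nonneg_of_nonpos (by positivity)
        exact mul_nonpos_of_nonneg_of_nonpos (by positivity) hX0.le
      linarith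
    have h11 := succ_nonneg n m ((ampq q (D + 2 * L)).eval n) (a' * n)
      (fun x r => amp A q (D + 2 * L) (x, r))
    linarith

/-- success probability `n ^ (-C)`, advice of length `L log n` -/
theorem thmAX (A : AAlg) (q : Polynomial ℕ) (c a' a : ℝ) (hc : 0 < c) (ha : a' < a)
    (L C K : ℕ) : ∃ D : ℕ, ∀ᶠ n : ℕ in atTop, ∀ m m' : ℕ, m ≤ m' → (m' : ℝ) ≤ c * n →
      ∀ w : List Bool, w.length ≤ L * Nat.log 2 n →
      1 / (n : ℝ) ^ C ≤ succ n m' (q.eval n) (a * n) (fun x r => A ((x, w), r)) →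
      1 - 1 / (n : ℝ) ^ K ≤ succ n m ((ampq q D).eval n) (a' * n) (fun x r => amp A q D (x, r)) := by
  have hβ : 0 < a - a' := sub_pos.mpr ha
  obtain ⟨j, hj⟩ := exists_j c (a - a') hc hβ
  obtain ⟨D, hD⟩ := asyA (Real.exp (-(2 * c * (1 + 2 * c)))) (1 / 2 ^ (j + 3))
    (a - a') (Real.exp_pos _) (by positivity) hβ (2 * 4 ^ j) C K
  refine ⟨D + 2 * L, ?_⟩
  filter_upwards [hD, core A q c a' a hc L j hj, eventually_ge_atTop 1] with n h1 h2 h3 m m'
    hmm hm' w hw hs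
  have hn0 : (0 : ℝ) < n := by exact_mod_cast h3
  have h4 := h2 m m' hmm hm' w hw (1 / (n : ℝ) ^ C) (1 / (2 * (n : ℝ) ^ K)) (1 / (2 * (n : ℝ) ^ K)) D
    (by positivity) hs (by positivity) (h1 (1 / (n : ℝ) ^ C) le_rfl)
  have h6 : 1 / (n : ℝ) ^ K = 1 / (2 * (n : ℝ) ^ K) + 1 / (2 * (n : ℝ) ^ K) := by
    field_simp
    norm_num
  rw [h6]
  linarith

/-- success probability `n ^ (-δ)` with an explicit `δ`, advice of length `L log n`; the algorithm
depends only on `A` and `L` -/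
theorem thmBX (A : AAlg) (q : Polynomial ℕ) (L : ℕ) (c a' a τ : ℝ) (hc : 0 < c)
    (ha : a' < a) (hτ : 0 < τ) :
      ∀ᶠ n : ℕ in atTop, ∀ m m' : ℕ, m ≤ m' → (m' : ℝ) ≤ c * n →
      ∀ w : List Bool, w.length ≤ L * Nat.log 2 n →
      (n : ℝ) ^ (-(1 / (140 * (c / (a - a')) ^ 2 + 20))) ≤
        succ n m' (q.eval n) (a * n) (fun x r => A ((x, w), r)) →
      1 - τ ≤ succ n m ((ampq q (1 + 2 * L)).eval n) (a' * n)
        (fun x r => amp A q (1 + 2 * L) (x, r)) := by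
  have hβ : 0 < a - a' := sub_pos.mpr ha
  obtain ⟨j, hj, hj2⟩ := exists_jX c (a - a') hc hβ
  have hB := asyX (Real.exp (-(2 * c * (1 + 2 * c)))) (1 / 2 ^ (j + 3))
    (a - a') (τ / 2) (Real.exp_pos _) (by positivity) hβ (half_pos hτ) (2 * 4 ^ j)
  filter_upwards [hB, core A q c a' a hc L j hj, eventually_ge_atTop 1] with n h1 h2 h3 m m'
    hmm hm' w hw hs
  have hn0 : (0 : ℝ) < n := by exact_mod_cast h3
  have hn1 : (1 : ℝ) ≤ n := by exact_mod_cast h3
  have hs' : (n : ℝ) ^ (-(1 / (4 * (((2 * 4 ^ j : ℕ) : ℝ) + 3)))) ≤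
      succ n m' (q.eval n) (a * n) (fun x r => A ((x, w), r)) := by
    refine le_trans ?_ hs
    apply Real.rpow_le_rpow_of_exponent_le hn1
    apply neg_le_neg
    exact one_div_le_one_div_of_le (by positivity) hj2
  have h4 := h2 m m' hmm hm' w hw _ (τ / 2) (τ / 2) 1 (Real.rpow_nonneg hn0.le _) hs'
    (half_pos hτ) (h1 _ le_rfl)
  linarith

end Pool.Agent.ZL
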