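import Pool.Agent.ZL.NzD

set_option autoImplicit false

/-!
# ZL-Two: the two-function inequality on product spaces
-/

namespace Pool.Agent.ZL

open Finset

private theorem tw_mono {A : Type*} [Fintype A] {f g : A → ℝ} (h : ∀ x, f x ≤ g x) :
    mv f ≤ mv g := by
  unfold mv
  exact div_le_div_of_nonneg_right (Finset.sum_le_sum fun x _ => h x) (Nat.cast_nonneg _)

private theorem tw_nonneg {A : Type*} [Fintype A] {f : A → ℝ} (h : ∀ x, 0 ≤ f x) : 0 ≤ mv f := by
  unfold mv
  exact div_nonneg (Finset.sum_nonneg fun x _ => h x) (Nat.cast_nonneg _)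

private theorem tw_equiv {A B : Type*} [Fintype A] [Fintype B] (e : A ≃ B) (f : B → ℝ) :
    mv f = mv (fun a => f (e a)) := by
  unfold mv
  rw [Fintype.card_congr e, Equiv.sum_comp e f]

private theorem tw_prod {A B : Type*} [Fintype A] [Fintype B] (f : A × B → ℝ) :
    mv f = mv (fun a => mv (fun b => f (a, b))) := by
  unfold mv
  rw [← Finset.sum_div, div_div, Fintype.card_prod, Fintype.sum_prod_type]
  push_cast
  rw [mul_comm]

private theorem tw_unique {A : Type*} [Fintype A] [Unique A] (f : A → ℝ) : mv f = f default := by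
  unfold mv
  rw [Fintype.sum_unique, Fintype.card_unique]
  simp

private theorem tw_nzf {j m : ℕ} {Ω : Type*} (a : Ω) (x : Fin m → Ω) (b : Bg j Ω)
    (ω : Fin m → Bg j Ω) :
    nzf (Fin.cons a x : Fin (m + 1) → Ω) (Fin.cons b ω : Fin (m + 1) → Bg j Ω) =
      Fin.cons (if hit b then b.2 else a) (nzf x ω) := by
  funext i
  refine Fin.cases ?_ (fun i => ?_) i
  · simp only [nzf, Fin.cons_zero]
  · simp only [nzf, Fin.cons_succ]

theorem one {Ω : Type*} [Fintype Ω] [Nonempty Ω] (j : ℕ) (F G : Ω → ℝ) :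
    mv (fun p : Ω × Bg j Ω => F p.1 * G (if hit p.2 then p.2.2 else p.1)) =
      (1 - (1 / 2 : ℝ) ^ j) * mv (fun x => F x * G x) + (1 / 2 : ℝ) ^ j * (mv F * mv G) := by
  classical
  have hn : (Fintype.card Ω : ℝ) ≠ 0 := by exact_mod_cast Fintype.card_ne_zero
  have h2 : ((2 : ℝ) ^ j) ≠ 0 := by positivity
  have hin : ∀ x : Ω, ∀ z : Ω, ∑ c : Fin j → Bool,
      F x * G (if hit ((c, z) : Bg j Ω) then z else x) =
        F x * G z + ((2 : ℝ) ^ j - 1) * (F x * G x) := by
    intro x z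
    rw [← Finset.add_sum_erase _ _ (Finset.mem_univ (fun _ : Fin j => true))]
    have e1 : hit ((fun _ : Fin j => true, z) : Bg j Ω) = true := by
      simp [hit]
    rw [e1, if_pos rfl]
    congr 1
    have e2 : ∀ c ∈ (Finset.univ : Finset (Fin j → Bool)).erase (fun _ => true),
        F x * G (if hit ((c, z) : Bg j Ω) then z else x) = F x * G x := by
      intro c hc
      rw [Finset.mem_erase] at hc
      have e3 : ¬ (hit ((c, z) : Bg j Ω) = true) := by
        intro h
        apply hc.1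
        funext i
        have h3 : ∀ i, c i = true := by
          simpa [hit] using h
        exact h3 i
      rw [if_neg e3]
    rw [Finset.sum_congr rfl e2, Finset.sum_const, Finset.card_erase_of_mem (Finset.mem_univ _),
      Finset.card_univ, Fintype.card_fun, Fintype.card_bool, Fintype.card_fin, nsmul_eq_mul,
      Nat.cast_sub (Nat.one_le_two_pow)]
    push_cast
    ring
  have hsum : ∑ p : Ω × Bg j Ω, F p.1 * G (if hit p.2 then p.2.2 else p.1) =
      (∑ x, F x) * (∑ x, G x) +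
        ((2 : ℝ) ^ j - 1) * (Fintype.card Ω * ∑ x, F x * G x) := by
    rw [Fintype.sum_prod_type]
    have e1 : ∀ x : Ω, ∑ b : Bg j Ω, F x * G (if hit b then b.2 else x) =
        F x * (∑ z, G z) + ((2 : ℝ) ^ j - 1) * (Fintype.card Ω * (F x * G x)) := by
      intro x
      rw [Fintype.sum_prod_type_right]
      simp only [hin x]
      rw [Finset.sum_add_distrib, ← Finset.mul_sum, Finset.sum_const, Finset.card_univ,
        nsmul_eq_mul]
      ring
    rw [Finset.sum_congr rfl fun x _ => e1 x, Finset.sum_add_distrib, ← Finset.sum_mul,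
      ← Finset.mul_sum, ← Finset.mul_sum]
  unfold mv
  rw [hsum, Fintype.card_prod, Fintype.card_prod, Fintype.card_fun, Fintype.card_bool,
    Fintype.card_fin]
  push_cast
  rw [one_div, inv_pow]
  field_simp
  ring

theorem two {Ω : Type*} [Fintype Ω] [Nonempty Ω] (j k m : ℕ) (hk : 2 * 4 ^ j ≤ k + 2)
    (f g : (Fin m → Ω) → ℝ) (hf : ∀ x, 0 ≤ f x) (hg : ∀ x, 0 ≤ g x) :
    mv f ^ (k + 2) * mv g ^ (k + 2) ≤
      mv (fun p : (Fin m → Ω) × (Fin m → Bg j Ω) => f p.1 ^ (k + 2) * g (nzf p.1 p.2) ^ (k + 2)) := by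
  induction m with
  | zero =>
    rw [tw_unique f, tw_unique g, tw_prod, tw_unique, tw_unique]
    have e : nzf (default : (Fin 0 → Ω)) (default : (Fin 0 → Bg j Ω)) = default :=
      Subsingleton.elim _ _
    simp only [e]
    exact le_rfl
  | succ m ih =>
    obtain ⟨F, hF⟩ : ∃ F : Ω → ℝ, F = fun a => mv (fun x : Fin m → Ω => f (Fin.cons a x)) :=
      ⟨_, rfl⟩
    obtain ⟨G, hG⟩ : ∃ G : Ω → ℝ, G = fun a => mv (fun x : Fin m → Ω => g (Fin.cons a x)) :=
      ⟨_, rfl⟩
    have hFm : mv f = mv F := by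
      rw [hF, tw_equiv (Fin.consEquiv fun _ : Fin (m + 1) => Ω) f, tw_prod]
      rfl
    have hGm : mv g = mv G := by
      rw [hG, tw_equiv (Fin.consEquiv fun _ : Fin (m + 1) => Ω) g, tw_prod]
      rfl
    have hF0 : ∀ a, 0 ≤ F a := by
      intro a
      rw [hF]
      exact tw_nonneg fun x => hf _
    have hG0 : ∀ a, 0 ≤ G a := by
      intro a
      rw [hG]
      exact tw_nonneg fun x => hg _
    rw [hFm, hGm]
    have hs0 : (0 : ℝ) < (1 / 2 : ℝ) ^ j := by positivity
    have hs1 : ((1 / 2 : ℝ)) ^ j ≤ 1 := pow_le_one₀ (by norm_num) (by norm_num)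
    have hks : 2 ≤ ((k : ℝ) + 2) * ((1 / 2 : ℝ) ^ j) ^ 2 := by
      have h1 : (2 : ℝ) * 4 ^ j ≤ k + 2 := by exact_mod_cast hk
      have h2 : ((1 / 2 : ℝ) ^ j) ^ 2 * 4 ^ j = 1 := by
        rw [← pow_mul, mul_comm j 2, pow_mul, ← mul_pow]
        norm_num
      have h3 : (0 : ℝ) < ((1 / 2 : ℝ) ^ j) ^ 2 := by positivity
      nlinarith
    have hb := base k ((1 / 2 : ℝ) ^ j) hs0 hs1 hks F G hF0 hG0
    rw [← one j (fun x => F x ^ (k + 2)) (fun x => G x ^ (k + 2))] at hb
    refine hb.trans ?_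
    have e1 := tw_equiv ((Equiv.prodProdProdComm Ω (Bg j Ω) (Fin m → Ω) (Fin m → Bg j Ω)).trans
      ((Fin.consEquiv fun _ : Fin (m + 1) => Ω).prodCongr
        (Fin.consEquiv fun _ : Fin (m + 1) => Bg j Ω)))
      (fun p : (Fin (m + 1) → Ω) × (Fin (m + 1) → Bg j Ω) =>
        f p.1 ^ (k + 2) * g (nzf p.1 p.2) ^ (k + 2))
    rw [e1]
    refine le_trans ?_ (le_of_eq (tw_prod _).symm)
    refine tw_mono fun q => ?_
    have h5 := ih (fun x => f (Fin.cons q.1 x))
      (fun x => g (Fin.cons (if hit q.2 then q.2.2 else q.1) x)) (fun x => hf _) (fun x => hg _)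
    have e6 : F q.1 ^ (k + 2) * G (if hit q.2 then q.2.2 else q.1) ^ (k + 2) =
        mv (fun x : Fin m → Ω => f (Fin.cons q.1 x)) ^ (k + 2) *
          mv (fun x : Fin m → Ω => g (Fin.cons (if hit q.2 then q.2.2 else q.1) x)) ^ (k + 2) := by
      rw [hF, hG]
    rw [e6]
    refine h5.trans (le_of_eq ?_)
    refine congrArg mv ?_
    funext p
    have e7 := tw_nzf q.1 p.1 q.2 p.2
    have e8 : (((Equiv.prodProdProdComm Ω (Bg j Ω) (Fin m → Ω) (Fin m → Bg j Ω)).trans
      ((Fin.consEquiv fun _ : Fin (m + 1) => Ω).prodCongr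
        (Fin.consEquiv fun _ : Fin (m + 1) => Bg j Ω))) (q, p)) =
        ((Fin.cons q.1 p.1 : Fin (m + 1) → Ω), (Fin.cons q.2 p.2 : Fin (m + 1) → Bg j Ω)) := rfl
    rw [e8]
    simp only
    rw [e7]

end Pool.Agent.ZL
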